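import Pool.Agent.Lib.BLF.Defs

/-!
# Module Avg: averaging over short shifts, dummy variables, almost invariance

PROOF (`avg_shift`): `ℓ ∑_{s ≤ H} f s - ∑_{i<ℓ} ∑_{s ≤ H - qℓ} f (s + q i) = ∑_{i<ℓ} (sum of f over Icc 1 H minus Icc (1 + q i) (H - q ℓ + q i))`, at most `q ℓ` terms of norm `≤ K` for each `i`.
(`sum_update`): for each `s ∈ A i` and fixed other coordinates ...: both sides count each `F v` exactly `|A i|` times: `∑_{u} ∑_{s ∈ A i} F (update u i s)`; the map `(u, s) ↦ (update u i s, u i)` is a bijection of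
`piFinset A ×ˢ A i` (an involution!) and `F (update u i s)` is `F` of the first component (`Finset.sum_nbij'`). (`AInv.mul_q`): a multiple of `q q'` is a multiple of `q`: `(q q') k = q (q' k)`. (`AInv.shift`): `sum_shift`.
(`fiber_count`): for `f ≥ 0`: for fixed `i`, `∑_{s ∈ Icc 1 (H - qℓ)} f (s + q i) (s + q i')`, the map `(s, i, i') ↦ (s + q i, s + q i')` to `Icc 1 H ×ˢ Icc 1 H` has fibres of size at most `ℓ` (`i` determines `s`, then `i'`; here `q ≥ 1`).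
-/

set_option autoImplicit false

open Finset

namespace Pool.Agent.BLF

open Pool.Agent.HLT

theorem avg_shift (H q ℓ : ℕ) (hℓ : q * ℓ ≤ H) (K : ℝ) (f : ℕ → ℂ) (hf : ∀ s, ‖f s‖ ≤ K) :
    ‖(ℓ : ℂ) * ∑ s ∈ Icc 1 H, f s - ∑ i ∈ range ℓ, ∑ s ∈ Icc 1 (H - q * ℓ), f (s + q * i)‖ ≤ K * (ℓ * (q * ℓ)) := by
  have h1 : (ℓ : ℂ) * ∑ s ∈ Icc 1 H, f s = ∑ _i ∈ range ℓ, ∑ s ∈ Icc 1 H, f s := by
    rw [sum_const, card_range, nsmul_eq_mul]
  rw [h1, ← sum_sub_distrib]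
  have h2 : ∀ i ∈ range ℓ, ‖∑ s ∈ Icc 1 H, f s - ∑ s ∈ Icc 1 (H - q * ℓ), f (s + q * i)‖ ≤ K * (q * ℓ) := by
    intro i hi
    have hi' : q * i ≤ q * ℓ := Nat.mul_le_mul_left q (mem_range.1 hi).le
    have himg : ∑ s ∈ Icc 1 (H - q * ℓ), f (s + q * i) =
        ∑ s ∈ (Icc 1 (H - q * ℓ)).image (fun t => t + q * i), f s := by
      rw [sum_image]
      intro a _ b _ h
      exact Nat.add_right_cancel h
    have hsub : (Icc 1 (H - q * ℓ)).image (fun t => t + q * i) ⊆ Icc 1 H := by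
      intro a ha
      rw [mem_image] at ha
      obtain ⟨b, hb, rfl⟩ := ha
      rw [mem_Icc] at hb ⊢
      omega
    rw [himg, ← sum_sdiff hsub, add_sub_cancel_right]
    refine (norm_sum_le_of_le _ fun s _ => hf s).trans ?_
    rw [sum_const, nsmul_eq_mul, card_sdiff_of_subset hsub,
      card_image_of_injective _ (add_left_injective _), Nat.card_Icc, Nat.card_Icc]
    have h3 : H + 1 - 1 - (H - q * ℓ + 1 - 1) = q * ℓ := by omega
    rw [h3]
    push_cast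
    apply le_of_eq
    ring
  refine (norm_sum_le_of_le _ h2).trans ?_
  rw [sum_const, card_range, nsmul_eq_mul]
  apply le_of_eq
  ring

theorem sum_update {m : ℕ} {M : Type} [AddCommMonoid M] (A : Fin m → Finset ℕ) (i : Fin m)
    (F : (Fin m → ℕ) → M) :
    ∑ u ∈ Fintype.piFinset A, ∑ s ∈ A i, F (Function.update u i s) = (A i).card • ∑ u ∈ Fintype.piFinset A, F u := by
  rw [smul_sum]
  have h1 : ∀ u ∈ Fintype.piFinset A, (A i).card • F u = ∑ _s ∈ A i, F u := by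
    intro u _
    rw [sum_const]
  rw [sum_congr rfl h1, ← sum_product', ← sum_product']
  have hmap : ∀ p ∈ Fintype.piFinset A ×ˢ A i,
      ((Function.update p.1 i p.2, p.1 i) : (Fin m → ℕ) × ℕ) ∈ Fintype.piFinset A ×ˢ A i := by
    intro p hp
    rw [mem_product, Fintype.mem_piFinset] at hp ⊢
    refine ⟨fun j => ?_, hp.1 i⟩
    show Function.update p.1 i p.2 j ∈ A j
    by_cases hj : j = i
    · subst hj
      rw [Function.update_self]
      exact hp.2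
    · rw [Function.update_of_ne hj]
      exact hp.1 j
  have hinv : ∀ p ∈ Fintype.piFinset A ×ˢ A i,
      ((Function.update (Function.update p.1 i p.2) i (p.1 i), Function.update p.1 i p.2 i) : (Fin m → ℕ) × ℕ) = p := by
    intro p _
    rw [Function.update_idem, Function.update_eq_self, Function.update_self]
  exact sum_nbij' (fun p => (Function.update p.1 i p.2, p.1 i)) (fun p => (Function.update p.1 i p.2, p.1 i))
    hmap hmap hinv hinv (fun p _ => rfl)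

theorem AInv.mul_q {X : ℕ} [NeZero X] {φ : ZMod X → ℂ} {q : ℕ} {R : ℝ} (h : AInv φ q R) (q' : ℕ) :
    AInv φ (q * q') R := by
  intro ρ hρ hρ1 k hk
  have h1 := h ρ hρ hρ1 (q' * k) (by rw [← mul_assoc]; exact hk)
  rw [← mul_assoc] at h1
  exact h1

theorem AInv.shift {X : ℕ} [NeZero X] {φ : ZMod X → ℂ} {q : ℕ} {R : ℝ} (h : AInv φ q R) (u : ZMod X) :
    AInv (fun x => φ (x + u)) q R := by
  intro ρ hρ hρ1 k hk
  have h1 := h ρ hρ hρ1 k hk
  rw [← sum_shift (fun x => ‖φ (x + ((q * k : ℕ) : ZMod X)) - φ x‖) u] at h1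
  refine le_trans (le_of_eq (sum_congr rfl fun x _ => ?_)) h1
  have h2 : x + ((q * k : ℕ) : ZMod X) + u = x + u + ((q * k : ℕ) : ZMod X) := by ring
  show ‖φ (x + ((q * k : ℕ) : ZMod X) + u) - φ (x + u)‖ = _
  rw [h2]

theorem fiber_count (H q ℓ : ℕ) (hq : 1 ≤ q) (hℓ : q * ℓ ≤ H) (f : ℕ → ℕ → ℝ) (hf : ∀ a b, 0 ≤ f a b) :
    ∑ s ∈ Icc 1 (H - q * ℓ), ∑ i ∈ range ℓ, ∑ i' ∈ range ℓ, f (s + q * i) (s + q * i') ≤
      ℓ * ∑ s ∈ Icc 1 H, ∑ s' ∈ Icc 1 H, f s s' := by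
  rw [sum_comm]
  have h1 : ∀ i ∈ range ℓ, ∑ s ∈ Icc 1 (H - q * ℓ), ∑ i' ∈ range ℓ, f (s + q * i) (s + q * i') ≤
      ∑ s ∈ Icc 1 H, ∑ s' ∈ Icc 1 H, f s s' := by
    intro i hi
    have hi' : q * i ≤ q * ℓ := Nat.mul_le_mul_left q (mem_range.1 hi).le
    rw [← sum_product', ← sum_product']
    have hinj : Set.InjOn (fun p : ℕ × ℕ => (p.1 + q * i, p.1 + q * p.2))
        (Icc 1 (H - q * ℓ) ×ˢ range ℓ : Finset (ℕ × ℕ)) := by
      intro a _ b _ hab
      have ha1 : a.1 + q * i = b.1 + q * i := congrArg Prod.fst hab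
      have ha2 : a.1 + q * a.2 = b.1 + q * b.2 := congrArg Prod.snd hab
      have h3 : a.1 = b.1 := Nat.add_right_cancel ha1
      rw [h3] at ha2
      have h4 : q * a.2 = q * b.2 := Nat.add_left_cancel ha2
      have h5 : a.2 = b.2 := Nat.eq_of_mul_eq_mul_left (by omega) h4
      exact Prod.ext h3 h5
    have hsum := sum_image (f := fun p : ℕ × ℕ => f p.1 p.2) hinj
    have hsub : ((Icc 1 (H - q * ℓ) ×ˢ range ℓ).image fun p : ℕ × ℕ => (p.1 + q * i, p.1 + q * p.2)) ⊆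
        Icc 1 H ×ˢ Icc 1 H := by
      intro p hp
      rw [mem_image] at hp
      obtain ⟨a, ha, rfl⟩ := hp
      rw [mem_product, mem_Icc, mem_range] at ha
      have h6 : q * a.2 ≤ q * ℓ := Nat.mul_le_mul_left q ha.2.le
      rw [mem_product, mem_Icc, mem_Icc]
      dsimp only
      omega
    calc ∑ p ∈ Icc 1 (H - q * ℓ) ×ˢ range ℓ, f (p.1 + q * i) (p.1 + q * p.2)
        = ∑ p ∈ (Icc 1 (H - q * ℓ) ×ˢ range ℓ).image fun p : ℕ × ℕ => (p.1 + q * i, p.1 + q * p.2), f p.1 p.2 :=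
          hsum.symm
      _ ≤ ∑ p ∈ Icc 1 H ×ˢ Icc 1 H, f p.1 p.2 :=
          sum_le_sum_of_subset_of_nonneg hsub fun p _ _ => hf _ _
  refine (sum_le_sum h1).trans ?_
  rw [sum_const, card_range, nsmul_eq_mul]

end Pool.Agent.BLF
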