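import Pool.Agent.Lib.BLF.Struct

/-!
# Module BBSlots: structured functions in the slots of the 4-linear form

PROOF (`bb4`). Take in `struct` `Ω = ℕ × ℕ`, `S = Icc 1 H₁ ×ˢ Icc 1 H₂` (the variables `(s, t)`), the summation variables of `DX` are `(s', t')`, `a (s, t) x s' = c x * F₁ (x + s t) * F₂ (x + s' t)`,
`b (s, t) x t' = F₃ (x + s t')`. By `sum_mul_DX`, `∑_y g y * DX y = BB c F₁ F₂ F₃ g / (H₁² H₂²)` for every `g` (`|S| = H₁ H₂`). So the hypothesis gives `δ X ≤ ‖∑ F₄ y DX y‖`.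
(`bb2`, `bb3`): `BB c F₁ F₂ F₃ F₄ = BB c F₃ F₄ F₁ F₂` (rename `t ↔ t'`) and `= BB c F₂ F₁ F₄ F₃` (rename `s ↔ s'`): `Finset.sum_comm`; so slots 2 and 3 follow from slot 4.
-/

set_option autoImplicit false

open Finset

namespace Pool.Agent.BLF

open Pool.Agent.HLT

namespace BBSlotsAux

variable {X : ℕ} [NeZero X]

lemma BB_swap_s (H₁ H₂ : ℕ) (c F₁ F₂ F₃ F₄ : ZMod X → ℂ) :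
    BB H₁ H₂ c F₁ F₂ F₃ F₄ = BB H₁ H₂ c F₂ F₁ F₄ F₃ := by
  unfold BB
  refine Finset.sum_congr rfl fun x _ => ?_
  rw [Finset.sum_comm]
  refine Finset.sum_congr rfl fun s _ => Finset.sum_congr rfl fun s' _ => Finset.sum_congr rfl fun t _ =>
    Finset.sum_congr rfl fun t' _ => ?_
  ring

lemma BB_swap_t (H₁ H₂ : ℕ) (c F₁ F₂ F₃ F₄ : ZMod X → ℂ) :
    BB H₁ H₂ c F₁ F₂ F₃ F₄ = BB H₁ H₂ c F₃ F₄ F₁ F₂ := by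
  unfold BB
  refine Finset.sum_congr rfl fun x _ => Finset.sum_congr rfl fun s _ => Finset.sum_congr rfl fun s' _ => ?_
  rw [Finset.sum_comm]
  refine Finset.sum_congr rfl fun t _ => Finset.sum_congr rfl fun t' _ => ?_
  ring

lemma sum_DX (H₁ H₂ : ℕ) (c F₁ F₂ F₃ g : ZMod X → ℂ) :
    ∑ y : ZMod X, g y * DX H₁ H₂ (Icc 1 H₁ ×ˢ Icc 1 H₂)
      (fun (ω : ℕ × ℕ) x s' => c x * F₁ (x + ((ω.1 * ω.2 : ℕ) : ZMod X)) * F₂ (x + ((s' * ω.2 : ℕ) : ZMod X)))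
      (fun (ω : ℕ × ℕ) x t' => F₃ (x + ((ω.1 * t' : ℕ) : ZMod X))) y =
    BB H₁ H₂ c F₁ F₂ F₃ g / ((H₁ : ℂ) ^ 2 * (H₂ : ℂ) ^ 2) := by
  rw [sum_mul_DX]
  have h1 : (((Icc 1 H₁ ×ˢ Icc 1 H₂ : Finset (ℕ × ℕ)).card : ℕ) : ℂ) * H₁ * H₂ = (H₁ : ℂ) ^ 2 * (H₂ : ℂ) ^ 2 := by
    rw [card_product, Nat.card_Icc, Nat.card_Icc, Nat.add_sub_cancel, Nat.add_sub_cancel]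
    push_cast
    ring
  rw [h1]
  refine congrArg (fun z => z / ((H₁ : ℂ) ^ 2 * (H₂ : ℂ) ^ 2)) ?_
  unfold BB
  refine Finset.sum_congr rfl fun x _ => ?_
  rw [Finset.sum_product]
  refine Finset.sum_congr rfl fun s _ => ?_
  rw [Finset.sum_comm]
  refine Finset.sum_congr rfl fun s' _ => Finset.sum_congr rfl fun t _ => Finset.sum_congr rfl fun t' _ => ?_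
  simp only
  ring

lemma norm_sum_DX (H₁ H₂ : ℕ) (c F₁ F₂ F₃ g : ZMod X → ℂ) :
    ‖∑ y : ZMod X, g y * DX H₁ H₂ (Icc 1 H₁ ×ˢ Icc 1 H₂)
      (fun (ω : ℕ × ℕ) x s' => c x * F₁ (x + ((ω.1 * ω.2 : ℕ) : ZMod X)) * F₂ (x + ((s' * ω.2 : ℕ) : ZMod X)))
      (fun (ω : ℕ × ℕ) x t' => F₃ (x + ((ω.1 * t' : ℕ) : ZMod X))) y‖ =
    ‖BB H₁ H₂ c F₁ F₂ F₃ g‖ / ((H₁ : ℝ) ^ 2 * (H₂ : ℝ) ^ 2) := by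
  rw [sum_DX, norm_div, norm_mul, norm_pow, norm_pow, Complex.norm_natCast, Complex.norm_natCast]

end BBSlotsAux

open BBSlotsAux

theorem bb4 : ∃ C : ℕ, ∀ (δ : ℝ) (X H₁ H₂ W : ℕ) [NeZero X], Adm δ C X H₁ H₂ W →
    ∀ c F₁ F₂ F₃ F₄ : ZMod X → ℂ, (∀ x, ‖c x‖ ≤ 1) → (∀ x, ‖F₁ x‖ ≤ 1) → (∀ x, ‖F₂ x‖ ≤ 1) → (∀ x, ‖F₃ x‖ ≤ 1) →
    (∀ x, ‖F₄ x‖ ≤ 1) → δ * (X * (H₁ : ℝ) ^ 2 * (H₂ : ℝ) ^ 2) ≤ ‖BB H₁ H₂ c F₁ F₂ F₃ F₄‖ →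
    ∃ (q : ℕ) (φ : ZMod X → ℂ), 1 ≤ q ∧ (q : ℝ) ≤ (δ⁻¹) ^ C ∧ (∀ x, ‖φ x‖ ≤ 1) ∧ AInv φ q (δ ^ C * W) ∧
      δ ^ C * (X * (H₁ : ℝ) ^ 2 * (H₂ : ℝ) ^ 2) ≤ ‖BB H₁ H₂ c F₁ F₂ F₃ φ‖ := by
  obtain ⟨C, hC⟩ := struct
  refine ⟨C, ?_⟩
  intro δ X H₁ H₂ W _ hA c F₁ F₂ F₃ F₄ hc h1 h2 h3 h4 hB
  have p1 : (0 : ℝ) < H₁ := by exact_mod_cast hA.loc.pos1
  have p2 : (0 : ℝ) < H₂ := by exact_mod_cast hA.loc.pos2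
  have pp : (0 : ℝ) < (H₁ : ℝ) ^ 2 * (H₂ : ℝ) ^ 2 := by positivity
  have hne : (Icc 1 H₁ ×ˢ Icc 1 H₂ : Finset (ℕ × ℕ)).Nonempty :=
    ⟨(1, 1), mem_product.mpr ⟨mem_Icc.mpr ⟨le_rfl, hA.loc.pos1⟩, mem_Icc.mpr ⟨le_rfl, hA.loc.pos2⟩⟩⟩
  have ha : ∀ (ω : ℕ × ℕ) (x : ZMod X) (s' : ℕ), ‖c x * F₁ (x + ((ω.1 * ω.2 : ℕ) : ZMod X)) *
      F₂ (x + ((s' * ω.2 : ℕ) : ZMod X))‖ ≤ 1 := by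
    intro ω x s'
    rw [norm_mul, norm_mul]
    exact mul_le_one₀ (mul_le_one₀ (hc _) (norm_nonneg _) (h1 _)) (norm_nonneg _) (h2 _)
  have hb : ∀ (ω : ℕ × ℕ) (x : ZMod X) (t' : ℕ), ‖F₃ (x + ((ω.1 * t' : ℕ) : ZMod X))‖ ≤ 1 :=
    fun ω x t' => h3 _
  have hg : δ * X ≤ ‖∑ y : ZMod X, F₄ y * DX H₁ H₂ (Icc 1 H₁ ×ˢ Icc 1 H₂)
      (fun (ω : ℕ × ℕ) x s' => c x * F₁ (x + ((ω.1 * ω.2 : ℕ) : ZMod X)) * F₂ (x + ((s' * ω.2 : ℕ) : ZMod X)))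
      (fun (ω : ℕ × ℕ) x t' => F₃ (x + ((ω.1 * t' : ℕ) : ZMod X))) y‖ := by
    rw [norm_sum_DX, le_div_iff₀ pp]
    calc δ * X * ((H₁ : ℝ) ^ 2 * (H₂ : ℝ) ^ 2) = δ * (X * (H₁ : ℝ) ^ 2 * (H₂ : ℝ) ^ 2) := by ring
      _ ≤ _ := hB
  obtain ⟨q, φ, e1, e2, e3, e4, e5⟩ := hC δ X H₁ H₂ W hA (Icc 1 H₁ ×ˢ Icc 1 H₂) hne _ _ ha hb F₄ h4 hg
  refine ⟨q, φ, e1, e2, e3, e4, ?_⟩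
  rw [norm_sum_DX, le_div_iff₀ pp] at e5
  calc δ ^ C * (X * (H₁ : ℝ) ^ 2 * (H₂ : ℝ) ^ 2) = δ ^ C * X * ((H₁ : ℝ) ^ 2 * (H₂ : ℝ) ^ 2) := by ring
    _ ≤ _ := e5

theorem bb3 : ∃ C : ℕ, ∀ (δ : ℝ) (X H₁ H₂ W : ℕ) [NeZero X], Adm δ C X H₁ H₂ W →
    ∀ c F₁ F₂ F₃ F₄ : ZMod X → ℂ, (∀ x, ‖c x‖ ≤ 1) → (∀ x, ‖F₁ x‖ ≤ 1) → (∀ x, ‖F₂ x‖ ≤ 1) → (∀ x, ‖F₃ x‖ ≤ 1) →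
    (∀ x, ‖F₄ x‖ ≤ 1) → δ * (X * (H₁ : ℝ) ^ 2 * (H₂ : ℝ) ^ 2) ≤ ‖BB H₁ H₂ c F₁ F₂ F₃ F₄‖ →
    ∃ (q : ℕ) (φ : ZMod X → ℂ), 1 ≤ q ∧ (q : ℝ) ≤ (δ⁻¹) ^ C ∧ (∀ x, ‖φ x‖ ≤ 1) ∧ AInv φ q (δ ^ C * W) ∧
      δ ^ C * (X * (H₁ : ℝ) ^ 2 * (H₂ : ℝ) ^ 2) ≤ ‖BB H₁ H₂ c F₁ F₂ φ F₄‖ := by
  obtain ⟨C, hC⟩ := bb4
  refine ⟨C, ?_⟩
  intro δ X H₁ H₂ W _ hA c F₁ F₂ F₃ F₄ hc h1 h2 h3 h4 hB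
  rw [BB_swap_s] at hB
  obtain ⟨q, φ, e1, e2, e3, e4, e5⟩ := hC δ X H₁ H₂ W hA c F₂ F₁ F₄ F₃ hc h2 h1 h4 h3 hB
  refine ⟨q, φ, e1, e2, e3, e4, ?_⟩
  rw [BB_swap_s]
  exact e5

theorem bb2 : ∃ C : ℕ, ∀ (δ : ℝ) (X H₁ H₂ W : ℕ) [NeZero X], Adm δ C X H₁ H₂ W →
    ∀ c F₁ F₂ F₃ F₄ : ZMod X → ℂ, (∀ x, ‖c x‖ ≤ 1) → (∀ x, ‖F₁ x‖ ≤ 1) → (∀ x, ‖F₂ x‖ ≤ 1) → (∀ x, ‖F₃ x‖ ≤ 1) →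
    (∀ x, ‖F₄ x‖ ≤ 1) → δ * (X * (H₁ : ℝ) ^ 2 * (H₂ : ℝ) ^ 2) ≤ ‖BB H₁ H₂ c F₁ F₂ F₃ F₄‖ →
    ∃ (q : ℕ) (φ : ZMod X → ℂ), 1 ≤ q ∧ (q : ℝ) ≤ (δ⁻¹) ^ C ∧ (∀ x, ‖φ x‖ ≤ 1) ∧ AInv φ q (δ ^ C * W) ∧
      δ ^ C * (X * (H₁ : ℝ) ^ 2 * (H₂ : ℝ) ^ 2) ≤ ‖BB H₁ H₂ c F₁ φ F₃ F₄‖ := by
  obtain ⟨C, hC⟩ := bb4
  refine ⟨C, ?_⟩
  intro δ X H₁ H₂ W _ hA c F₁ F₂ F₃ F₄ hc h1 h2 h3 h4 hB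
  rw [BB_swap_t] at hB
  obtain ⟨q, φ, e1, e2, e3, e4, e5⟩ := hC δ X H₁ H₂ W hA c F₃ F₄ F₁ F₂ hc h3 h4 h1 h2 hB
  refine ⟨q, φ, e1, e2, e3, e4, ?_⟩
  rw [BB_swap_t]
  exact e5

end Pool.Agent.BLF
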