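import Pool.Agent.Lib.BLF.Defs

/-!
# Module Box: two applications of Cauchy-Schwarz

PROOF (`box_cs`). Put `K t t' = ∑ s ∈ A, M s t * conj (M s t')`. By Cauchy-Schwarz
`‖∑ s ∈ A, u s * ∑ t ∈ B, M s t * v t‖² ≤ |A| ∑ s ∈ A, ‖∑ t ∈ B, M s t * v t‖² = |A| ∑ t, t', v t * conj (v t') * K t t' ≤ |A| ∑ t, t', ‖K t t'‖`;
square and use Cauchy-Schwarz for the double sum: `(∑ t, t', ‖K t t'‖)² ≤ |B|² ∑ t, t', ‖K t t'‖²`.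

PROOF (`box_DX`). `sum_mul_DX` (in `Defs`) writes the sum as `(∑ x, ∑ ω, Z x ω) / (|S| H₁ H₂)` with `Z x ω = ∑ s, ∑ t, g (x + s t) a ω x s b ω x t`.
`‖∑ x, ∑ ω, Z x ω‖ ^ 4 ≤ (X |S|)^3 ∑ x, ∑ ω, ‖Z x ω‖ ^ 4` (`inner_mul_le_norm_mul_norm`/`sq_sum_le_card_mul_sum_sq` twice, or
`Finset.inner_le_nnorm_mul_nnorm`, or `inner_le..`: convexity of `z ^ 4`), and `‖Z x ω‖ ^ 4 ≤ H₁² H₂² ∑ t, t', ‖∑ s, g (x + s t) conj (g (x + s t'))‖²`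
by `box_cs`. So `‖∑ x, ∑ ω, Z‖ ^ 4 ≤ (X |S|)^3 |S| H₁² H₂² QQ g`; divide by `(|S| H₁ H₂)^4` and multiply by `H₁² H₂²`.
If `S` is empty both sides are `0 ≤ ...` (`DX = 0`). If `H₁ = 0` or `H₂ = 0` the left side is `0`.
-/

set_option autoImplicit false

open Finset

namespace Pool.Agent.BLF

open Pool.Agent.HLT

theorem box_cs {α β : Type} (A : Finset α) (B : Finset β) (M : α → β → ℂ) (u : α → ℂ) (v : β → ℂ)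
    (hu : ∀ s ∈ A, ‖u s‖ ≤ 1) (hv : ∀ t ∈ B, ‖v t‖ ≤ 1) :
    ‖∑ s ∈ A, ∑ t ∈ B, M s t * u s * v t‖ ^ 4 ≤
      (A.card : ℝ) ^ 2 * (B.card : ℝ) ^ 2 *
        ∑ t ∈ B, ∑ t' ∈ B, ‖∑ s ∈ A, M s t * (starRingEnd ℂ) (M s t')‖ ^ 2 := by
  classical
  set w : α → ℂ := fun s => ∑ t ∈ B, M s t * v t with hw
  set K : β → β → ℂ := fun t t' => ∑ s ∈ A, M s t * (starRingEnd ℂ) (M s t') with hK
  have h1 : ‖∑ s ∈ A, ∑ t ∈ B, M s t * u s * v t‖ ≤ ∑ s ∈ A, ‖w s‖ := by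
    refine (norm_sum_le _ _).trans (Finset.sum_le_sum fun s hs => ?_)
    have e1 : ∑ t ∈ B, M s t * u s * v t = u s * w s := by
      rw [hw, Finset.mul_sum]
      refine Finset.sum_congr rfl fun t _ => ?_
      ring
    rw [e1, norm_mul]
    calc ‖u s‖ * ‖w s‖ ≤ 1 * ‖w s‖ := mul_le_mul_of_nonneg_right (hu s hs) (norm_nonneg _)
      _ = ‖w s‖ := one_mul _
  have h2 : (∑ s ∈ A, ‖w s‖) ^ 2 ≤ (A.card : ℝ) * ∑ s ∈ A, ‖w s‖ ^ 2 :=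
    sq_sum_le_card_mul_sum_sq
  have h3 : ∑ s ∈ A, ‖w s‖ ^ 2 ≤ ∑ t ∈ B, ∑ t' ∈ B, ‖K t t'‖ := by
    have e1 : ((∑ s ∈ A, ‖w s‖ ^ 2 : ℝ) : ℂ) =
        ∑ t ∈ B, ∑ t' ∈ B, v t * (starRingEnd ℂ) (v t') * K t t' := by
      rw [Complex.ofReal_sum]
      have e2 : ∀ s ∈ A, ((‖w s‖ ^ 2 : ℝ) : ℂ) =
          ∑ t ∈ B, ∑ t' ∈ B, v t * (starRingEnd ℂ) (v t') *
            (M s t * (starRingEnd ℂ) (M s t')) := by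
        intro s _
        rw [Complex.ofReal_pow, ← Complex.mul_conj', hw]
        simp only []
        rw [map_sum, Finset.sum_mul]
        refine Finset.sum_congr rfl fun t _ => ?_
        rw [Finset.mul_sum]
        refine Finset.sum_congr rfl fun t' _ => ?_
        rw [map_mul]
        ring
      rw [Finset.sum_congr rfl e2, Finset.sum_comm]
      refine Finset.sum_congr rfl fun t _ => ?_
      rw [Finset.sum_comm]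
      refine Finset.sum_congr rfl fun t' _ => ?_
      rw [hK, Finset.mul_sum]
    have e3 : ∑ s ∈ A, ‖w s‖ ^ 2 = ‖((∑ s ∈ A, ‖w s‖ ^ 2 : ℝ) : ℂ)‖ := by
      rw [Complex.norm_real, Real.norm_of_nonneg]
      exact Finset.sum_nonneg fun s _ => sq_nonneg _
    rw [e3, e1]
    refine (norm_sum_le _ _).trans (Finset.sum_le_sum fun t ht => ?_)
    refine (norm_sum_le _ _).trans (Finset.sum_le_sum fun t' ht' => ?_)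
    rw [norm_mul, norm_mul, Complex.norm_conj]
    have h5 : ‖v t‖ * ‖v t'‖ ≤ 1 := mul_le_one₀ (hv t ht) (norm_nonneg _) (hv t' ht')
    calc ‖v t‖ * ‖v t'‖ * ‖K t t'‖ ≤ 1 * ‖K t t'‖ :=
          mul_le_mul_of_nonneg_right h5 (norm_nonneg _)
      _ = ‖K t t'‖ := one_mul _
  have h4 : (∑ t ∈ B, ∑ t' ∈ B, ‖K t t'‖) ^ 2 ≤
      (B.card : ℝ) ^ 2 * ∑ t ∈ B, ∑ t' ∈ B, ‖K t t'‖ ^ 2 := by
    rw [← Finset.sum_product', ← Finset.sum_product']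
    have h5 := sq_sum_le_card_mul_sum_sq (s := B ×ˢ B) (f := fun x : β × β => ‖K x.1 x.2‖)
    rw [Finset.card_product, Nat.cast_mul] at h5
    calc (∑ x ∈ B ×ˢ B, ‖K x.1 x.2‖) ^ 2 ≤
          (B.card : ℝ) * (B.card : ℝ) * ∑ x ∈ B ×ˢ B, ‖K x.1 x.2‖ ^ 2 := h5
      _ = (B.card : ℝ) ^ 2 * ∑ x ∈ B ×ˢ B, ‖K x.1 x.2‖ ^ 2 := by ring
  have hKn : 0 ≤ ∑ t ∈ B, ∑ t' ∈ B, ‖K t t'‖ :=
    Finset.sum_nonneg fun t _ => Finset.sum_nonneg fun t' _ => norm_nonneg _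
  have h6 : ‖∑ s ∈ A, ∑ t ∈ B, M s t * u s * v t‖ ^ 2 ≤
      (A.card : ℝ) * ∑ t ∈ B, ∑ t' ∈ B, ‖K t t'‖ := by
    calc ‖∑ s ∈ A, ∑ t ∈ B, M s t * u s * v t‖ ^ 2 ≤ (∑ s ∈ A, ‖w s‖) ^ 2 :=
          pow_le_pow_left₀ (norm_nonneg _) h1 2
      _ ≤ (A.card : ℝ) * ∑ s ∈ A, ‖w s‖ ^ 2 := h2
      _ ≤ (A.card : ℝ) * ∑ t ∈ B, ∑ t' ∈ B, ‖K t t'‖ :=
          mul_le_mul_of_nonneg_left h3 (Nat.cast_nonneg _)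
  calc ‖∑ s ∈ A, ∑ t ∈ B, M s t * u s * v t‖ ^ 4 =
        (‖∑ s ∈ A, ∑ t ∈ B, M s t * u s * v t‖ ^ 2) ^ 2 := by ring
    _ ≤ ((A.card : ℝ) * ∑ t ∈ B, ∑ t' ∈ B, ‖K t t'‖) ^ 2 :=
        pow_le_pow_left₀ (sq_nonneg _) h6 2
    _ = (A.card : ℝ) ^ 2 * (∑ t ∈ B, ∑ t' ∈ B, ‖K t t'‖) ^ 2 := by ring
    _ ≤ (A.card : ℝ) ^ 2 * ((B.card : ℝ) ^ 2 * ∑ t ∈ B, ∑ t' ∈ B, ‖K t t'‖ ^ 2) :=
        mul_le_mul_of_nonneg_left h4 (sq_nonneg _)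
    _ = (A.card : ℝ) ^ 2 * (B.card : ℝ) ^ 2 * ∑ t ∈ B, ∑ t' ∈ B, ‖K t t'‖ ^ 2 := by ring

theorem box_DX {X : ℕ} [NeZero X] {Ω : Type} (H₁ H₂ : ℕ) (S : Finset Ω) (a b : Ω → ZMod X → ℕ → ℂ)
    (ha : ∀ ω x s, ‖a ω x s‖ ≤ 1) (hb : ∀ ω x t, ‖b ω x t‖ ≤ 1) (g : ZMod X → ℂ) :
    ‖∑ y : ZMod X, g y * DX H₁ H₂ S a b y‖ ^ 4 * ((H₁ : ℝ) ^ 2 * (H₂ : ℝ) ^ 2) ≤ (X : ℝ) ^ 3 * QQ H₁ H₂ g := by
  classical
  set q : ZMod X → ℝ := fun x => ∑ t ∈ Icc 1 H₂, ∑ t' ∈ Icc 1 H₂,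
    ‖∑ s ∈ Icc 1 H₁, g (x + ((s * t : ℕ) : ZMod X)) *
      (starRingEnd ℂ) (g (x + ((s * t' : ℕ) : ZMod X)))‖ ^ 2 with hq
  set Z : ZMod X → Ω → ℂ := fun x ω => ∑ s ∈ Icc 1 H₁, ∑ t ∈ Icc 1 H₂,
    g (x + ((s * t : ℕ) : ZMod X)) * a ω x s * b ω x t with hZ
  have hQQ : QQ H₁ H₂ g = ∑ x : ZMod X, q x := rfl
  have hq0 : ∀ x, 0 ≤ q x := fun x =>
    Finset.sum_nonneg fun t _ => Finset.sum_nonneg fun t' _ => sq_nonneg _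
  have hQ0 : 0 ≤ QQ H₁ H₂ g := by
    rw [hQQ]
    exact Finset.sum_nonneg fun x _ => hq0 x
  have hZ4 : ∀ x : ZMod X, ∀ ω : Ω, ‖Z x ω‖ ^ 4 ≤ (H₁ : ℝ) ^ 2 * (H₂ : ℝ) ^ 2 * q x := by
    intro x ω
    have h1 := box_cs (Icc 1 H₁) (Icc 1 H₂) (fun s t => g (x + ((s * t : ℕ) : ZMod X)))
      (fun s => a ω x s) (fun t => b ω x t) (fun s _ => ha ω x s) (fun t _ => hb ω x t)
    rw [Nat.card_Icc, Nat.card_Icc, Nat.add_sub_cancel, Nat.add_sub_cancel] at h1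
    exact h1
  have hpm : ∀ (I : Finset (ZMod X × Ω)) (c : ZMod X × Ω → ℝ), (∑ i ∈ I, c i) ^ 4 ≤
      (I.card : ℝ) ^ 3 * ∑ i ∈ I, c i ^ 4 := by
    intro I c
    have h1 : (∑ i ∈ I, c i) ^ 2 ≤ (I.card : ℝ) * ∑ i ∈ I, c i ^ 2 := sq_sum_le_card_mul_sum_sq
    have h2 : (∑ i ∈ I, c i ^ 2) ^ 2 ≤ (I.card : ℝ) * ∑ i ∈ I, (c i ^ 2) ^ 2 :=
      sq_sum_le_card_mul_sum_sq
    calc (∑ i ∈ I, c i) ^ 4 = ((∑ i ∈ I, c i) ^ 2) ^ 2 := by ring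
      _ ≤ ((I.card : ℝ) * ∑ i ∈ I, c i ^ 2) ^ 2 := pow_le_pow_left₀ (sq_nonneg _) h1 2
      _ = (I.card : ℝ) ^ 2 * (∑ i ∈ I, c i ^ 2) ^ 2 := by ring
      _ ≤ (I.card : ℝ) ^ 2 * ((I.card : ℝ) * ∑ i ∈ I, (c i ^ 2) ^ 2) :=
          mul_le_mul_of_nonneg_left h2 (sq_nonneg _)
      _ = (I.card : ℝ) ^ 3 * ∑ i ∈ I, c i ^ 4 := by
          have e1 : ∑ i ∈ I, (c i ^ 2) ^ 2 = ∑ i ∈ I, c i ^ 4 :=
            Finset.sum_congr rfl fun i _ => by ring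
          rw [e1]
          ring
  have hsum : ‖∑ x : ZMod X, ∑ ω ∈ S, Z x ω‖ ^ 4 ≤
      (X : ℝ) ^ 3 * (S.card : ℝ) ^ 4 * ((H₁ : ℝ) ^ 2 * (H₂ : ℝ) ^ 2) * QQ H₁ H₂ g := by
    have h1 : ‖∑ x : ZMod X, ∑ ω ∈ S, Z x ω‖ ≤
        ∑ i ∈ (univ : Finset (ZMod X)) ×ˢ S, ‖Z i.1 i.2‖ := by
      rw [Finset.sum_product]
      refine (norm_sum_le _ _).trans (Finset.sum_le_sum fun x _ => ?_)
      exact norm_sum_le _ _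
    have h2 : ∑ i ∈ (univ : Finset (ZMod X)) ×ˢ S, ‖Z i.1 i.2‖ ^ 4 ≤
        (S.card : ℝ) * ((H₁ : ℝ) ^ 2 * (H₂ : ℝ) ^ 2) * QQ H₁ H₂ g := by
      rw [Finset.sum_product, hQQ, Finset.mul_sum]
      refine Finset.sum_le_sum fun x _ => ?_
      refine (Finset.sum_le_sum fun ω _ => hZ4 x ω).trans ?_
      rw [Finset.sum_const, nsmul_eq_mul]
      exact le_of_eq (by ring)
    have hcard : (((univ : Finset (ZMod X)) ×ˢ S).card : ℝ) = (X : ℝ) * S.card := by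
      rw [Finset.card_product, Finset.card_univ, ZMod.card, Nat.cast_mul]
    calc ‖∑ x : ZMod X, ∑ ω ∈ S, Z x ω‖ ^ 4 ≤
          (∑ i ∈ (univ : Finset (ZMod X)) ×ˢ S, ‖Z i.1 i.2‖) ^ 4 :=
          pow_le_pow_left₀ (norm_nonneg _) h1 4
      _ ≤ (((univ : Finset (ZMod X)) ×ˢ S).card : ℝ) ^ 3 *
          ∑ i ∈ (univ : Finset (ZMod X)) ×ˢ S, ‖Z i.1 i.2‖ ^ 4 := hpm _ _
      _ ≤ ((X : ℝ) * S.card) ^ 3 *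
          ((S.card : ℝ) * ((H₁ : ℝ) ^ 2 * (H₂ : ℝ) ^ 2) * QQ H₁ H₂ g) := by
          rw [hcard]
          exact mul_le_mul_of_nonneg_left h2 (by positivity)
      _ = (X : ℝ) ^ 3 * (S.card : ℝ) ^ 4 * ((H₁ : ℝ) ^ 2 * (H₂ : ℝ) ^ 2) * QQ H₁ H₂ g := by
          ring
  rw [sum_mul_DX]
  have hnorm : ‖((S.card : ℂ) * H₁ * H₂)‖ = (S.card : ℝ) * H₁ * H₂ := by
    rw [norm_mul, norm_mul, Complex.norm_natCast, Complex.norm_natCast, Complex.norm_natCast]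
  rw [norm_div, hnorm, div_pow]
  by_cases h0 : (S.card : ℝ) * H₁ * H₂ = 0
  · rw [h0, zero_pow (by norm_num), div_zero, zero_mul]
    positivity
  · have hpos : 0 < (S.card : ℝ) * H₁ * H₂ := lt_of_le_of_ne (by positivity) (Ne.symm h0)
    rw [div_mul_eq_mul_div, div_le_iff₀ (by positivity)]
    calc ‖∑ x : ZMod X, ∑ ω ∈ S, Z x ω‖ ^ 4 * ((H₁ : ℝ) ^ 2 * (H₂ : ℝ) ^ 2) ≤
          ((X : ℝ) ^ 3 * (S.card : ℝ) ^ 4 * ((H₁ : ℝ) ^ 2 * (H₂ : ℝ) ^ 2) * QQ H₁ H₂ g) *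
            ((H₁ : ℝ) ^ 2 * (H₂ : ℝ) ^ 2) :=
          mul_le_mul_of_nonneg_right hsum (by positivity)
      _ = (X : ℝ) ^ 3 * QQ H₁ H₂ g * ((S.card : ℝ) * H₁ * H₂) ^ 4 := by ring

end Pool.Agent.BLF
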