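import Pool.Agent.Lib.BLF.BBSlots
import Pool.Agent.Lib.BLF.Box
import Pool.Agent.Lib.BLF.Avg

/-!
# Module ClaimB: averages over short boxes, bilinear slot

PROOF. Let `N = H₁ H₂`, `T` the sum in the hypothesis.
(1) `T = ∑_x c x Z_x`, `‖c‖ ≤ 1`, so `‖T‖^4 ≤ X³ ∑_x ‖c x‖ ‖Z_x‖^4` (Hölder or twice Cauchy-Schwarz; use `‖c‖ ≤ 1`), and `box_cs` bounds `‖Z_x‖^4 ≤ N² ∑_{t,t'} ‖∑_s F(x+st) conj F(x+st')‖² = N² ∑_{s,s',t,t'}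
F(x+st) conj F(x+s't) conj F(x+st') F(x+s't')`. So `‖BB |c| F F̄ F̄ F‖ ≥ δ^4 X N²` (`|c|` is the function `x ↦ (‖c x‖ : ℂ)`, `F̄ x = conj (F x)`).
(2) `bb4`, `bb3`, `bb2` one after the other: `φ₄, φ₃, φ₂` with `‖BB |c| F φ₂ φ₃ φ₄‖ ≥ η X N²`, `η = δ^C₁`, and `AInv φ_i q_i R_i`, `R_i ≥ δ^C₁ W` (`Adm.pow`, `Adm.mono`; `AInv` is monotone in `R`), `q_i ≤ δ^(-C₁)`. Let
`q = q₂ q₃ q₄` (`AInv.mul_q`).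
(3) For the variables `s`, `t` (the ones of `F`) use `avg_shift` (twice): `‖ℓ₁ ℓ₂ BB - ∑_{i<ℓ₁,k<ℓ₂} ∑_{s ≤ H₁ - qℓ₁, t ≤ H₂ - qℓ₂} (the summand with s + q i, t + q k)‖ ≤ 2 (q ℓ₁ / H₁ + q ℓ₂ / H₂) ℓ₁ ℓ₂ X N²`. In the
shifted sum replace `φ₂ (x + s' (t + q k))` by `φ₂ (x + s' t)` and `φ₃ (x + (s + q i) t')` by `φ₃ (x + s t')`: the error is at most `2 ρ ℓ₁ ℓ₂ X N²` if `q k s' ≤ q ℓ₂ H₁ ≤ ρ δ^C₁ W` and `q i t' ≤ q ℓ₁ H₂ ≤ ρ δ^C₁ W`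
(`AInv.shift`); take `ρ = η / 16` (as `ℓ_i ≤ δ^C H_i` with `C` large and `N ≤ W` this holds). All errors are at most `(η/2) ℓ₁ ℓ₂ X N²`. What remains is at most
`∑_x ∑_{s,t} ∑_{s',t'} ‖c x‖ ‖∑_{i,k} F (x + (s + q i) (t + q k))‖`, which is `N` times the right side of the claim.
If `ℓ₁ = 0` or `ℓ₂ = 0` there is nothing to prove.
-/

set_option autoImplicit false

open Finset

namespace Pool.Agent.BLF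

open Pool.Agent.HLT

namespace ClaimBAux

lemma swap_le {X : ℕ} [NeZero X] {β : Type} (A : Finset β) (f : ZMod X → β → ℝ) (K : ℝ)
    (h : ∀ s ∈ A, ∑ x : ZMod X, f x s ≤ K) : ∑ x : ZMod X, ∑ s ∈ A, f x s ≤ A.card * K := by
  rw [Finset.sum_comm]
  calc _ ≤ ∑ _s ∈ A, K := Finset.sum_le_sum h
    _ = _ := by rw [Finset.sum_const, nsmul_eq_mul]

lemma sum4_comm {α β γ ε M : Type} [AddCommMonoid M] (A : Finset α) (B : Finset β) (S : Finset γ) (T : Finset ε)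
    (f : α → β → γ → ε → M) :
    ∑ i ∈ A, ∑ k ∈ B, ∑ s ∈ S, ∑ t ∈ T, f i k s t = ∑ s ∈ S, ∑ t ∈ T, ∑ i ∈ A, ∑ k ∈ B, f i k s t := by
  calc _ = ∑ i ∈ A, ∑ s ∈ S, ∑ k ∈ B, ∑ t ∈ T, f i k s t := Finset.sum_congr rfl fun i _ => Finset.sum_comm
    _ = ∑ s ∈ S, ∑ i ∈ A, ∑ k ∈ B, ∑ t ∈ T, f i k s t := Finset.sum_comm
    _ = ∑ s ∈ S, ∑ i ∈ A, ∑ t ∈ T, ∑ k ∈ B, f i k s t :=
      Finset.sum_congr rfl fun s _ => Finset.sum_congr rfl fun i _ => Finset.sum_comm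
    _ = _ := Finset.sum_congr rfl fun s _ => Finset.sum_comm

lemma sum4_comm' {α β γ ε M : Type} [AddCommMonoid M] (A : Finset α) (B : Finset β) (S : Finset γ) (T : Finset ε)
    (f : α → γ → β → ε → M) :
    ∑ i ∈ A, ∑ s ∈ S, ∑ k ∈ B, ∑ t ∈ T, f i s k t = ∑ s ∈ S, ∑ t ∈ T, ∑ i ∈ A, ∑ k ∈ B, f i s k t := by
  calc _ = ∑ s ∈ S, ∑ i ∈ A, ∑ k ∈ B, ∑ t ∈ T, f i s k t := Finset.sum_comm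
    _ = ∑ s ∈ S, ∑ i ∈ A, ∑ t ∈ T, ∑ k ∈ B, f i s k t :=
      Finset.sum_congr rfl fun s _ => Finset.sum_congr rfl fun i _ => Finset.sum_comm
    _ = _ := Finset.sum_congr rfl fun s _ => Finset.sum_comm

lemma two_shift (H₁ H₂ q ℓ₁ ℓ₂ : ℕ) (h1 : q * ℓ₁ ≤ H₁) (h2 : q * ℓ₂ ≤ H₂) (f : ℕ → ℕ → ℂ)
    (hf : ∀ s t, ‖f s t‖ ≤ 1) :
    ‖(ℓ₁ : ℂ) * ℓ₂ * ∑ s ∈ Icc 1 H₁, ∑ t ∈ Icc 1 H₂, f s t -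
      ∑ i ∈ range ℓ₁, ∑ s ∈ Icc 1 (H₁ - q * ℓ₁), ∑ k ∈ range ℓ₂, ∑ t ∈ Icc 1 (H₂ - q * ℓ₂),
        f (s + q * i) (t + q * k)‖ ≤
      ℓ₁ * ℓ₂ * ((q * ℓ₁) * H₂ + (q * ℓ₂) * H₁) := by
  have hH : ∀ s, ‖∑ t ∈ Icc 1 H₂, f s t‖ ≤ (H₂ : ℝ) := by
    intro s
    refine (norm_sum_le_of_le _ fun t _ => hf s t).trans ?_
    simp
  have e1 := avg_shift H₁ q ℓ₁ h1 (H₂ : ℝ) (fun s => ∑ t ∈ Icc 1 H₂, f s t) hH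
  have e2 : ∀ s, ‖(ℓ₂ : ℂ) * ∑ t ∈ Icc 1 H₂, f s t - ∑ k ∈ range ℓ₂, ∑ t ∈ Icc 1 (H₂ - q * ℓ₂), f s (t + q * k)‖ ≤
      ℓ₂ * (q * ℓ₂) := by
    intro s
    have := avg_shift H₂ q ℓ₂ h2 1 (fun t => f s t) (hf s)
    rwa [one_mul] at this
  have e3 : (ℓ₁ : ℂ) * ℓ₂ * ∑ s ∈ Icc 1 H₁, ∑ t ∈ Icc 1 H₂, f s t -
      ∑ i ∈ range ℓ₁, ∑ s ∈ Icc 1 (H₁ - q * ℓ₁), ∑ k ∈ range ℓ₂, ∑ t ∈ Icc 1 (H₂ - q * ℓ₂),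
        f (s + q * i) (t + q * k) =
      (ℓ₂ : ℂ) * ((ℓ₁ : ℂ) * ∑ s ∈ Icc 1 H₁, ∑ t ∈ Icc 1 H₂, f s t -
        ∑ i ∈ range ℓ₁, ∑ s ∈ Icc 1 (H₁ - q * ℓ₁), ∑ t ∈ Icc 1 H₂, f (s + q * i) t) +
      ∑ i ∈ range ℓ₁, ∑ s ∈ Icc 1 (H₁ - q * ℓ₁), ((ℓ₂ : ℂ) * ∑ t ∈ Icc 1 H₂, f (s + q * i) t -
        ∑ k ∈ range ℓ₂, ∑ t ∈ Icc 1 (H₂ - q * ℓ₂), f (s + q * i) (t + q * k)) := by
    simp only [Finset.sum_sub_distrib, ← Finset.mul_sum]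
    ring
  rw [e3]
  refine (norm_add_le _ _).trans ?_
  have e4 : ‖(ℓ₂ : ℂ) * ((ℓ₁ : ℂ) * ∑ s ∈ Icc 1 H₁, ∑ t ∈ Icc 1 H₂, f s t -
        ∑ i ∈ range ℓ₁, ∑ s ∈ Icc 1 (H₁ - q * ℓ₁), ∑ t ∈ Icc 1 H₂, f (s + q * i) t)‖ ≤
      ℓ₂ * (H₂ * (ℓ₁ * (q * ℓ₁))) := by
    rw [norm_mul, Complex.norm_natCast]
    exact mul_le_mul_of_nonneg_left e1 (Nat.cast_nonneg _)
  have e5 : ‖∑ i ∈ range ℓ₁, ∑ s ∈ Icc 1 (H₁ - q * ℓ₁), ((ℓ₂ : ℂ) * ∑ t ∈ Icc 1 H₂, f (s + q * i) t -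
        ∑ k ∈ range ℓ₂, ∑ t ∈ Icc 1 (H₂ - q * ℓ₂), f (s + q * i) (t + q * k))‖ ≤
      ∑ _i ∈ range ℓ₁, ∑ _s ∈ Icc 1 (H₁ - q * ℓ₁), (ℓ₂ : ℝ) * (q * ℓ₂) :=
    norm_sum_le_of_le _ fun i _ => norm_sum_le_of_le _ fun s _ => e2 _
  have e6 : ∑ _i ∈ range ℓ₁, ∑ _s ∈ Icc 1 (H₁ - q * ℓ₁), (ℓ₂ : ℝ) * (q * ℓ₂) ≤
      ℓ₁ * (H₁ * (ℓ₂ * (q * ℓ₂))) := by
    simp only [Finset.sum_const, Finset.card_range, Nat.card_Icc, Nat.add_sub_cancel, nsmul_eq_mul]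
    have h3 : ((H₁ - q * ℓ₁ : ℕ) : ℝ) ≤ H₁ := by exact_mod_cast Nat.sub_le _ _
    gcongr
  calc _ ≤ (ℓ₂ : ℝ) * (H₂ * (ℓ₁ * (q * ℓ₁))) + ℓ₁ * (H₁ * (ℓ₂ * (q * ℓ₂))) := add_le_add e4 (e5.trans e6)
    _ = _ := by ring

lemma pow4_sum {X : ℕ} [NeZero X] (y : ZMod X → ℝ) : (∑ x, y x) ^ 4 ≤ (X : ℝ) ^ 3 * ∑ x, y x ^ 4 := by
  have h1 := sq_sum_le_card_mul_sum_sq (s := (univ : Finset (ZMod X))) (f := y)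
  have h2 := sq_sum_le_card_mul_sum_sq (s := (univ : Finset (ZMod X))) (f := fun x => y x ^ 2)
  rw [Finset.card_univ, ZMod.card] at h1 h2
  have h3 : ∀ x, (y x ^ 2) ^ 2 = y x ^ 4 := fun x => by ring
  simp only [h3] at h2
  have h4 : (0 : ℝ) ≤ X := Nat.cast_nonneg X
  calc (∑ x, y x) ^ 4 = ((∑ x, y x) ^ 2) ^ 2 := by ring
    _ ≤ ((X : ℝ) * ∑ x, y x ^ 2) ^ 2 := pow_le_pow_left₀ (sq_nonneg _) h1 2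
    _ = (X : ℝ) ^ 2 * (∑ x, y x ^ 2) ^ 2 := by ring
    _ ≤ (X : ℝ) ^ 2 * ((X : ℝ) * ∑ x, y x ^ 4) := mul_le_mul_of_nonneg_left h2 (by positivity)
    _ = _ := by ring

lemma bb_eq {X : ℕ} [NeZero X] (H₁ H₂ : ℕ) (c F : ZMod X → ℂ) :
    BB H₁ H₂ (fun x => ((‖c x‖ : ℝ) : ℂ)) F (fun x => (starRingEnd ℂ) (F x)) (fun x => (starRingEnd ℂ) (F x)) F =
      ((∑ x : ZMod X, ‖c x‖ * ∑ t ∈ Icc 1 H₂, ∑ t' ∈ Icc 1 H₂, ‖∑ s ∈ Icc 1 H₁,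
        F (x + ((s * t : ℕ) : ZMod X)) * (starRingEnd ℂ) (F (x + ((s * t' : ℕ) : ZMod X)))‖ ^ 2 : ℝ) : ℂ) := by
  unfold BB
  rw [Complex.ofReal_sum]
  refine Finset.sum_congr rfl fun x _ => ?_
  rw [sum4_comm, Complex.ofReal_mul, Complex.ofReal_sum, Finset.mul_sum]
  refine Finset.sum_congr rfl fun t _ => ?_
  rw [Complex.ofReal_sum, Finset.mul_sum]
  refine Finset.sum_congr rfl fun t' _ => ?_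
  rw [Complex.ofReal_pow, ← Complex.mul_conj', map_sum, Finset.sum_mul_sum, Finset.mul_sum]
  refine Finset.sum_congr rfl fun s _ => ?_
  rw [Finset.mul_sum]
  refine Finset.sum_congr rfl fun s' _ => ?_
  rw [map_mul, Complex.conj_conj]
  ring

lemma step1 {δ : ℝ} (hδ : 0 ≤ δ) {X H₁ H₂ : ℕ} [NeZero X] (hH₁ : 1 ≤ H₁) (hH₂ : 1 ≤ H₂)
    (c F : ZMod X → ℂ) (a b : ZMod X → ℕ → ℂ) (hc : ∀ x, ‖c x‖ ≤ 1) (ha : ∀ x s, ‖a x s‖ ≤ 1)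
    (hb : ∀ x t, ‖b x t‖ ≤ 1)
    (hT : δ * (X * H₁ * H₂) ≤ ‖∑ x : ZMod X, ∑ s ∈ Icc 1 H₁, ∑ t ∈ Icc 1 H₂,
      c x * F (x + ((s * t : ℕ) : ZMod X)) * a x s * b x t‖) :
    δ ^ 4 * (X * (H₁ : ℝ) ^ 2 * (H₂ : ℝ) ^ 2) ≤
      ‖BB H₁ H₂ (fun x => ((‖c x‖ : ℝ) : ℂ)) F (fun x => (starRingEnd ℂ) (F x))
        (fun x => (starRingEnd ℂ) (F x)) F‖ := by
  have hX : (0 : ℝ) < X := by
    have := Nat.pos_of_ne_zero (NeZero.ne X)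
    exact_mod_cast this
  have h1 : (0 : ℝ) < H₁ := by exact_mod_cast hH₁
  have h2 : (0 : ℝ) < H₂ := by exact_mod_cast hH₂
  rw [bb_eq, Complex.norm_real, Real.norm_eq_abs]
  refine le_trans ?_ (le_abs_self _)
  set Z : ZMod X → ℂ := fun x => ∑ s ∈ Icc 1 H₁, ∑ t ∈ Icc 1 H₂,
    F (x + ((s * t : ℕ) : ZMod X)) * a x s * b x t with hZ
  have e1 : ∑ x : ZMod X, ∑ s ∈ Icc 1 H₁, ∑ t ∈ Icc 1 H₂,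
      c x * F (x + ((s * t : ℕ) : ZMod X)) * a x s * b x t = ∑ x : ZMod X, c x * Z x := by
    refine Finset.sum_congr rfl fun x _ => ?_
    rw [hZ]
    simp only [Finset.mul_sum]
    refine Finset.sum_congr rfl fun s _ => Finset.sum_congr rfl fun t _ => ?_
    ring
  rw [e1] at hT
  have e2 : ‖∑ x : ZMod X, c x * Z x‖ ≤ ∑ x : ZMod X, ‖c x‖ * ‖Z x‖ :=
    norm_sum_le_of_le _ fun x _ => (norm_mul _ _).le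
  have e3 := pow4_sum (fun x => ‖c x‖ * ‖Z x‖)
  have e4 : ∀ x, (‖c x‖ * ‖Z x‖) ^ 4 ≤ ‖c x‖ * ((H₁ : ℝ) ^ 2 * (H₂ : ℝ) ^ 2 *
      ∑ t ∈ Icc 1 H₂, ∑ t' ∈ Icc 1 H₂, ‖∑ s ∈ Icc 1 H₁,
        F (x + ((s * t : ℕ) : ZMod X)) * (starRingEnd ℂ) (F (x + ((s * t' : ℕ) : ZMod X)))‖ ^ 2) := by
    intro x
    have e5 := box_cs (Icc 1 H₁) (Icc 1 H₂) (fun s t => F (x + ((s * t : ℕ) : ZMod X))) (a x) (b x)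
      (fun s _ => ha x s) (fun t _ => hb x t)
    rw [Nat.card_Icc, Nat.card_Icc, Nat.add_sub_cancel, Nat.add_sub_cancel] at e5
    rw [mul_pow]
    refine mul_le_mul ?_ e5 (by positivity) (norm_nonneg _)
    exact pow_le_of_le_one (norm_nonneg _) (hc x) (by norm_num)
  set R : ℝ := ∑ x : ZMod X, ‖c x‖ * ∑ t ∈ Icc 1 H₂, ∑ t' ∈ Icc 1 H₂, ‖∑ s ∈ Icc 1 H₁,
        F (x + ((s * t : ℕ) : ZMod X)) * (starRingEnd ℂ) (F (x + ((s * t' : ℕ) : ZMod X)))‖ ^ 2 with hR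
  have e6 : ∑ x, (‖c x‖ * ‖Z x‖) ^ 4 ≤ (H₁ : ℝ) ^ 2 * (H₂ : ℝ) ^ 2 * R := by
    refine (Finset.sum_le_sum fun x _ => e4 x).trans (le_of_eq ?_)
    rw [hR, Finset.mul_sum]
    refine Finset.sum_congr rfl fun x _ => ?_
    ring
  have e7 : (δ * (X * H₁ * H₂)) ^ 4 ≤ (X : ℝ) ^ 3 * ((H₁ : ℝ) ^ 2 * (H₂ : ℝ) ^ 2 * R) :=
    (pow_le_pow_left₀ (by positivity) (hT.trans e2) 4).trans
      (e3.trans (mul_le_mul_of_nonneg_left e6 (by positivity)))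
  have e8 : (δ ^ 4 * (X * (H₁ : ℝ) ^ 2 * (H₂ : ℝ) ^ 2)) * ((X : ℝ) ^ 3 * ((H₁ : ℝ) ^ 2 * (H₂ : ℝ) ^ 2)) ≤
      R * ((X : ℝ) ^ 3 * ((H₁ : ℝ) ^ 2 * (H₂ : ℝ) ^ 2)) := by
    calc _ = (δ * (X * H₁ * H₂)) ^ 4 := by ring
      _ ≤ _ := e7
      _ = _ := by ring
  exact le_of_mul_le_mul_right e8 (by positivity)

/-- The output of the slot lemmas. -/
def Sl (δ : ℝ) (C X H₁ H₂ W : ℕ) [NeZero X] (B : (ZMod X → ℂ) → ℝ) : Prop :=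
  ∃ (q : ℕ) (φ : ZMod X → ℂ), 1 ≤ q ∧ (q : ℝ) ≤ (δ⁻¹) ^ C ∧ (∀ x, ‖φ x‖ ≤ 1) ∧ AInv φ q (δ ^ C * W) ∧
      δ ^ C * (X * (H₁ : ℝ) ^ 2 * (H₂ : ℝ) ^ 2) ≤ B φ

lemma ainv_anti {X : ℕ} [NeZero X] {φ : ZMod X → ℂ} {q : ℕ} {R R' : ℝ} (h : AInv φ q R) (hR : R' ≤ R) :
    AInv φ q R' := fun ρ h0 h1 k hk =>
  h ρ h0 h1 k (hk.trans (mul_le_mul_of_nonneg_left hR h0.le))

lemma Sl.mono {δ : ℝ} {C C' X H₁ H₂ W : ℕ} [NeZero X] {B : (ZMod X → ℂ) → ℝ} (hδ : 0 < δ) (hδ1 : δ ≤ 1)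
    (hC : C ≤ C') (h : Sl δ C X H₁ H₂ W B) : Sl δ C' X H₁ H₂ W B := by
  obtain ⟨q, φ, h1, h2, h3, h4, h5⟩ := h
  have h6 : δ ^ C' ≤ δ ^ C := pow_le_pow_of_le_one hδ.le hδ1 hC
  refine ⟨q, φ, h1, h2.trans (pow_le_pow_right₀ ((one_le_inv₀ hδ).2 hδ1) hC), h3,
    ainv_anti h4 (mul_le_mul_of_nonneg_right h6 (Nat.cast_nonneg _)),
    (mul_le_mul_of_nonneg_right h6 (by positivity)).trans h5⟩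

lemma Sl.of_pow {δ : ℝ} {k C X H₁ H₂ W : ℕ} [NeZero X] {B : (ZMod X → ℂ) → ℝ}
    (h : Sl (δ ^ k) C X H₁ H₂ W B) : Sl δ (k * C) X H₁ H₂ W B := by
  obtain ⟨q, φ, h1, h2, h3, h4, h5⟩ := h
  rw [← pow_mul] at h4 h5
  rw [← inv_pow, ← pow_mul] at h2
  exact ⟨q, φ, h1, h2, h3, h4, h5⟩

lemma repl {X : ℕ} [NeZero X] {φ : ZMod X → ℂ} {q : ℕ} {R ρ : ℝ} (h : AInv φ q R) (h0 : 0 < ρ) (h1 : ρ ≤ 1)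
    (k : ℕ) (hk : ((q * k : ℕ) : ℝ) ≤ ρ * R) (u : ZMod X) :
    ∑ x : ZMod X, ‖φ (x + (u + ((q * k : ℕ) : ZMod X))) - φ (x + u)‖ ≤ ρ * X := by
  have h2 := h ρ h0 h1 k hk
  have h3 := sum_shift (fun x => ‖φ (x + ((q * k : ℕ) : ZMod X)) - φ x‖) u
  rw [← h3] at h2
  refine le_trans (le_of_eq ?_) h2
  refine Finset.sum_congr rfl fun x _ => ?_
  rw [add_assoc]

lemma mul_diff_le (a b c d : ℂ) (hb : ‖b‖ ≤ 1) (hc : ‖c‖ ≤ 1) : ‖a * b - c * d‖ ≤ ‖a - c‖ + ‖b - d‖ := by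
  have h : a * b - c * d = (a - c) * b + c * (b - d) := by ring
  rw [h]
  refine (norm_add_le _ _).trans ?_
  rw [norm_mul, norm_mul]
  have h1 := norm_nonneg (a - c)
  have h2 := norm_nonneg (b - d)
  nlinarith [norm_nonneg b, norm_nonneg c]

lemma step3 {δ : ℝ} (hδ0 : 0 < δ) (hδ : δ ≤ 1 / 2) {C₁ X H₁ H₂ W : ℕ} [NeZero X] (hW : H₁ * H₂ ≤ W)
    (hH₁ : 1 ≤ H₁) (hH₂ : 1 ≤ H₂) (c F φ₂ φ₃ φ₄ : ZMod X → ℂ) (hc : ∀ x, ‖c x‖ ≤ 1) (hF : ∀ x, ‖F x‖ ≤ 1)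
    (b2 : ∀ x, ‖φ₂ x‖ ≤ 1) (b3 : ∀ x, ‖φ₃ x‖ ≤ 1) (b4 : ∀ x, ‖φ₄ x‖ ≤ 1) (q : ℕ)
    (hq : (q : ℝ) ≤ (δ⁻¹) ^ (3 * C₁)) (h2 : AInv φ₂ q (δ ^ C₁ * W)) (h3 : AInv φ₃ q (δ ^ C₁ * W))
    (hBB : δ ^ C₁ * (X * (H₁ : ℝ) ^ 2 * (H₂ : ℝ) ^ 2) ≤ ‖BB H₁ H₂ (fun x => ((‖c x‖ : ℝ) : ℂ)) F φ₂ φ₃ φ₄‖)
    (ℓ₁ ℓ₂ : ℕ) (hℓ₁ : (ℓ₁ : ℝ) ≤ δ ^ (5 * C₁ + 4) * H₁) (hℓ₂ : (ℓ₂ : ℝ) ≤ δ ^ (5 * C₁ + 4) * H₂) :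
    q * ℓ₁ ≤ H₁ ∧ q * ℓ₂ ≤ H₂ ∧
      δ ^ (5 * C₁ + 4) * (X * H₁ * H₂ * ℓ₁ * ℓ₂) ≤ ∑ x : ZMod X, ∑ s ∈ Icc 1 (H₁ - q * ℓ₁), ∑ t ∈ Icc 1 (H₂ - q * ℓ₂),
        ‖c x‖ * ‖∑ i ∈ range ℓ₁, ∑ k ∈ range ℓ₂, F (x + (((s + q * i) * (t + q * k) : ℕ) : ZMod X))‖ := by
  have hX : (0 : ℝ) < X := by
    have := Nat.pos_of_ne_zero (NeZero.ne X)
    exact_mod_cast this
  have hh1 : (0 : ℝ) < H₁ := by exact_mod_cast hH₁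
  have hh2 : (0 : ℝ) < H₂ := by exact_mod_cast hH₂
  have hWr : (H₁ : ℝ) * H₂ ≤ W := by exact_mod_cast hW
  set η : ℝ := δ ^ C₁ with hη
  have hη0 : 0 < η := pow_pos hδ0 _
  have hη1 : η ≤ 1 := pow_le_one₀ hδ0.le (by linarith)
  have hd4 : δ ^ 4 ≤ 1 / 16 := by
    calc δ ^ 4 ≤ (1 / 2) ^ 4 := pow_le_pow_left₀ hδ0.le hδ 4
      _ = 1 / 16 := by norm_num
  have hqd : (q : ℝ) * δ ^ (5 * C₁ + 4) ≤ η ^ 2 / 16 := by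
    calc (q : ℝ) * δ ^ (5 * C₁ + 4) ≤ (δ⁻¹) ^ (3 * C₁) * δ ^ (5 * C₁ + 4) :=
          mul_le_mul_of_nonneg_right hq (by positivity)
      _ = (δ⁻¹ * δ) ^ (3 * C₁) * (η ^ 2 * δ ^ 4) := by
        rw [mul_pow, hη, ← pow_mul]
        rw [show 5 * C₁ + 4 = 3 * C₁ + (C₁ * 2 + 4) by ring, pow_add, pow_add]
        ring
      _ = η ^ 2 * δ ^ 4 := by rw [inv_mul_cancel₀ hδ0.ne', one_pow, one_mul]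
      _ ≤ η ^ 2 / 16 := by
        have : 0 ≤ η ^ 2 := by positivity
        nlinarith
  have hq0 : (0 : ℝ) ≤ q := Nat.cast_nonneg q
  have hqℓ₁ : (q : ℝ) * ℓ₁ ≤ η ^ 2 / 16 * H₁ := by
    calc (q : ℝ) * ℓ₁ ≤ q * (δ ^ (5 * C₁ + 4) * H₁) := mul_le_mul_of_nonneg_left hℓ₁ hq0
      _ = (q * δ ^ (5 * C₁ + 4)) * H₁ := by ring
      _ ≤ _ := mul_le_mul_of_nonneg_right hqd hh1.le
  have hqℓ₂ : (q : ℝ) * ℓ₂ ≤ η ^ 2 / 16 * H₂ := by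
    calc (q : ℝ) * ℓ₂ ≤ q * (δ ^ (5 * C₁ + 4) * H₂) := mul_le_mul_of_nonneg_left hℓ₂ hq0
      _ = (q * δ ^ (5 * C₁ + 4)) * H₂ := by ring
      _ ≤ _ := mul_le_mul_of_nonneg_right hqd hh2.le
  have hη2 : η ^ 2 ≤ η := by nlinarith
  have g1 : q * ℓ₁ ≤ H₁ := by
    have : (q : ℝ) * ℓ₁ ≤ H₁ := by nlinarith
    exact_mod_cast this
  have g2 : q * ℓ₂ ≤ H₂ := by
    have : (q : ℝ) * ℓ₂ ≤ H₂ := by nlinarith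
    exact_mod_cast this
  refine ⟨g1, g2, ?_⟩
  set G : ZMod X → ℕ → ℕ → ℕ → ℕ → ℂ := fun x s' t' s t =>
    ((‖c x‖ : ℝ) : ℂ) * F (x + ((s * t : ℕ) : ZMod X)) * φ₂ (x + ((s' * t : ℕ) : ZMod X)) *
      φ₃ (x + ((s * t' : ℕ) : ZMod X)) * φ₄ (x + ((s' * t' : ℕ) : ZMod X)) with hG
  have hcn : ∀ x, ‖((‖c x‖ : ℝ) : ℂ)‖ = ‖c x‖ := fun x => by
    rw [Complex.norm_real, Real.norm_eq_abs, abs_of_nonneg (norm_nonneg _)]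
  have hGn : ∀ x s' t' s t, ‖G x s' t' s t‖ ≤ 1 := by
    intro x s' t' s t
    rw [hG]
    simp only [norm_mul, hcn]
    exact mul_le_one₀ (mul_le_one₀ (mul_le_one₀ (mul_le_one₀ (hc _) (norm_nonneg _) (hF _)) (norm_nonneg _) (b2 _))
      (norm_nonneg _) (b3 _)) (norm_nonneg _) (b4 _)
  have hA : BB H₁ H₂ (fun x => ((‖c x‖ : ℝ) : ℂ)) F φ₂ φ₃ φ₄ =
      ∑ x : ZMod X, ∑ s' ∈ Icc 1 H₁, ∑ t' ∈ Icc 1 H₂, ∑ s ∈ Icc 1 H₁, ∑ t ∈ Icc 1 H₂, G x s' t' s t := by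
    unfold BB
    refine Finset.sum_congr rfl fun x _ => ?_
    rw [Finset.sum_comm]
    refine Finset.sum_congr rfl fun s' _ => ?_
    calc _ = ∑ s ∈ Icc 1 H₁, ∑ t' ∈ Icc 1 H₂, ∑ t ∈ Icc 1 H₂, G x s' t' s t :=
          Finset.sum_congr rfl fun s _ => Finset.sum_comm
      _ = _ := Finset.sum_comm
  set Bs : ℂ := ∑ x : ZMod X, ∑ s' ∈ Icc 1 H₁, ∑ t' ∈ Icc 1 H₂, ∑ i ∈ range ℓ₁, ∑ s ∈ Icc 1 (H₁ - q * ℓ₁),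
    ∑ k ∈ range ℓ₂, ∑ t ∈ Icc 1 (H₂ - q * ℓ₂), G x s' t' (s + q * i) (t + q * k) with hBs
  set Cs : ℂ := ∑ x : ZMod X, ∑ s' ∈ Icc 1 H₁, ∑ t' ∈ Icc 1 H₂, ∑ i ∈ range ℓ₁, ∑ s ∈ Icc 1 (H₁ - q * ℓ₁),
    ∑ k ∈ range ℓ₂, ∑ t ∈ Icc 1 (H₂ - q * ℓ₂),
      (((‖c x‖ : ℝ) : ℂ) * φ₂ (x + ((s' * t : ℕ) : ZMod X)) *
      φ₃ (x + ((s * t' : ℕ) : ZMod X)) * φ₄ (x + ((s' * t' : ℕ) : ZMod X))) *
        F (x + (((s + q * i) * (t + q * k) : ℕ) : ZMod X)) with hCs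
  have hcH1 : ((Icc 1 H₁).card : ℝ) = H₁ := by rw [Nat.card_Icc, Nat.add_sub_cancel]
  have hcH2 : ((Icc 1 H₂).card : ℝ) = H₂ := by rw [Nat.card_Icc, Nat.add_sub_cancel]
  have hcH1' : ((Icc 1 (H₁ - q * ℓ₁)).card : ℝ) ≤ H₁ := by
    rw [Nat.card_Icc, Nat.add_sub_cancel]
    exact_mod_cast Nat.sub_le _ _
  have hcH2' : ((Icc 1 (H₂ - q * ℓ₂)).card : ℝ) ≤ H₂ := by
    rw [Nat.card_Icc, Nat.add_sub_cancel]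
    exact_mod_cast Nat.sub_le _ _
  -- the first error
  have hE1 : ‖(ℓ₁ : ℂ) * ℓ₂ * BB H₁ H₂ (fun x => ((‖c x‖ : ℝ) : ℂ)) F φ₂ φ₃ φ₄ - Bs‖ ≤
      X * (H₁ * (H₂ * (ℓ₁ * ℓ₂ * ((q * ℓ₁) * H₂ + (q * ℓ₂) * H₁)))) := by
    rw [hA, hBs]
    have e1 : (ℓ₁ : ℂ) * ℓ₂ * ∑ x : ZMod X, ∑ s' ∈ Icc 1 H₁, ∑ t' ∈ Icc 1 H₂, ∑ s ∈ Icc 1 H₁, ∑ t ∈ Icc 1 H₂,
        G x s' t' s t - ∑ x : ZMod X, ∑ s' ∈ Icc 1 H₁, ∑ t' ∈ Icc 1 H₂, ∑ i ∈ range ℓ₁, ∑ s ∈ Icc 1 (H₁ - q * ℓ₁),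
        ∑ k ∈ range ℓ₂, ∑ t ∈ Icc 1 (H₂ - q * ℓ₂), G x s' t' (s + q * i) (t + q * k) =
        ∑ x : ZMod X, ∑ s' ∈ Icc 1 H₁, ∑ t' ∈ Icc 1 H₂, ((ℓ₁ : ℂ) * ℓ₂ * ∑ s ∈ Icc 1 H₁, ∑ t ∈ Icc 1 H₂,
        G x s' t' s t - ∑ i ∈ range ℓ₁, ∑ s ∈ Icc 1 (H₁ - q * ℓ₁),
        ∑ k ∈ range ℓ₂, ∑ t ∈ Icc 1 (H₂ - q * ℓ₂), G x s' t' (s + q * i) (t + q * k)) := by
      simp only [Finset.sum_sub_distrib, ← Finset.mul_sum]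
    rw [e1]
    refine (norm_sum_le_of_le _ fun x _ => norm_sum_le_of_le _ fun s' _ => norm_sum_le_of_le _ fun t' _ =>
      two_shift H₁ H₂ q ℓ₁ ℓ₂ g1 g2 (G x s' t') (hGn x s' t')).trans (le_of_eq ?_)
    rw [Finset.sum_const, Finset.sum_const, Finset.sum_const, Finset.card_univ, ZMod.card, nsmul_eq_mul,
      nsmul_eq_mul, nsmul_eq_mul, hcH1, hcH2]
  have hE1' : (X : ℝ) * (H₁ * (H₂ * (ℓ₁ * ℓ₂ * ((q * ℓ₁) * H₂ + (q * ℓ₂) * H₁)))) ≤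
      η / 8 * (ℓ₁ * ℓ₂ * (X * (H₁ : ℝ) ^ 2 * (H₂ : ℝ) ^ 2)) := by
    have e1 : (q * ℓ₁) * (H₂ : ℝ) + (q * ℓ₂) * H₁ ≤ η / 8 * (H₁ * H₂) := by
      have e2 : (q * ℓ₁) * (H₂ : ℝ) ≤ η ^ 2 / 16 * H₁ * H₂ := mul_le_mul_of_nonneg_right hqℓ₁ hh2.le
      have e3 : (q * ℓ₂) * (H₁ : ℝ) ≤ η ^ 2 / 16 * H₂ * H₁ := mul_le_mul_of_nonneg_right hqℓ₂ hh1.le
      have e4 : η ^ 2 * (H₁ * H₂ : ℝ) ≤ η * (H₁ * H₂) := mul_le_mul_of_nonneg_right hη2 (by positivity)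
      linarith
    calc _ ≤ (X : ℝ) * (H₁ * (H₂ * (ℓ₁ * ℓ₂ * (η / 8 * (H₁ * H₂))))) := by gcongr
      _ = _ := by ring
  -- the second error
  have hρ1 : η / 16 ≤ 1 := by linarith
  have hρ0 : 0 < η / 16 := by positivity
  have hsize2 : ∀ k, k ≤ ℓ₂ → ∀ s', s' ≤ H₁ → ((q * (k * s') : ℕ) : ℝ) ≤ η / 16 * (η * W) := by
    intro k hk s' hs'
    have e1 : ((q * (k * s') : ℕ) : ℝ) ≤ (q * ℓ₂) * H₁ := by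
      push_cast
      have hk' : (k : ℝ) ≤ ℓ₂ := by exact_mod_cast hk
      have hs'' : (s' : ℝ) ≤ H₁ := by exact_mod_cast hs'
      calc (q : ℝ) * (k * s') ≤ q * (ℓ₂ * H₁) := by gcongr
        _ = _ := by ring
    have e3 : (q * ℓ₂) * (H₁ : ℝ) ≤ η ^ 2 / 16 * H₂ * H₁ := mul_le_mul_of_nonneg_right hqℓ₂ hh1.le
    have e4 : η ^ 2 / 16 * (H₁ * H₂ : ℝ) ≤ η ^ 2 / 16 * W := mul_le_mul_of_nonneg_left hWr (by positivity)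
    nlinarith
  have hsize3 : ∀ i, i ≤ ℓ₁ → ∀ t', t' ≤ H₂ → ((q * (i * t') : ℕ) : ℝ) ≤ η / 16 * (η * W) := by
    intro i hi t' ht'
    have e1 : ((q * (i * t') : ℕ) : ℝ) ≤ (q * ℓ₁) * H₂ := by
      push_cast
      have hk' : (i : ℝ) ≤ ℓ₁ := by exact_mod_cast hi
      have hs'' : (t' : ℝ) ≤ H₂ := by exact_mod_cast ht'
      calc (q : ℝ) * (i * t') ≤ q * (ℓ₁ * H₂) := by gcongr
        _ = _ := by ring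
    have e3 : (q * ℓ₁) * (H₂ : ℝ) ≤ η ^ 2 / 16 * H₁ * H₂ := mul_le_mul_of_nonneg_right hqℓ₁ hh2.le
    have e4 : η ^ 2 / 16 * (H₁ * H₂ : ℝ) ≤ η ^ 2 / 16 * W := mul_le_mul_of_nonneg_left hWr (by positivity)
    nlinarith
  set P2 : ZMod X → ℕ → ℕ → ℕ → ℕ → ℕ → ℕ → ℝ := fun x s' t' i s k t =>
    ‖φ₂ (x + ((s' * (t + q * k) : ℕ) : ZMod X)) - φ₂ (x + ((s' * t : ℕ) : ZMod X))‖ +
      ‖φ₃ (x + (((s + q * i) * t' : ℕ) : ZMod X)) - φ₃ (x + ((s * t' : ℕ) : ZMod X))‖ with hP2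
  have hterm : ∀ x s' t' i s k t, ‖G x s' t' (s + q * i) (t + q * k) -
      (((‖c x‖ : ℝ) : ℂ) * φ₂ (x + ((s' * t : ℕ) : ZMod X)) *
      φ₃ (x + ((s * t' : ℕ) : ZMod X)) * φ₄ (x + ((s' * t' : ℕ) : ZMod X))) *
        F (x + (((s + q * i) * (t + q * k) : ℕ) : ZMod X))‖ ≤ P2 x s' t' i s k t := by
    intro x s' t' i s k t
    have e1 : G x s' t' (s + q * i) (t + q * k) -
      (((‖c x‖ : ℝ) : ℂ) * φ₂ (x + ((s' * t : ℕ) : ZMod X)) *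
      φ₃ (x + ((s * t' : ℕ) : ZMod X)) * φ₄ (x + ((s' * t' : ℕ) : ZMod X))) *
        F (x + (((s + q * i) * (t + q * k) : ℕ) : ZMod X)) =
        (((‖c x‖ : ℝ) : ℂ) * F (x + (((s + q * i) * (t + q * k) : ℕ) : ZMod X)) *
          φ₄ (x + ((s' * t' : ℕ) : ZMod X))) *
        (φ₂ (x + ((s' * (t + q * k) : ℕ) : ZMod X)) * φ₃ (x + (((s + q * i) * t' : ℕ) : ZMod X)) -
          φ₂ (x + ((s' * t : ℕ) : ZMod X)) * φ₃ (x + ((s * t' : ℕ) : ZMod X))) := by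
      rw [hG]
      ring
    rw [e1, norm_mul]
    have e2 := mul_diff_le (φ₂ (x + ((s' * (t + q * k) : ℕ) : ZMod X)))
      (φ₃ (x + (((s + q * i) * t' : ℕ) : ZMod X))) (φ₂ (x + ((s' * t : ℕ) : ZMod X)))
      (φ₃ (x + ((s * t' : ℕ) : ZMod X))) (b3 _) (b2 _)
    have e3 : ‖((‖c x‖ : ℝ) : ℂ) * F (x + (((s + q * i) * (t + q * k) : ℕ) : ZMod X)) *
          φ₄ (x + ((s' * t' : ℕ) : ZMod X))‖ ≤ 1 := by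
      rw [norm_mul, norm_mul, hcn]
      exact mul_le_one₀ (mul_le_one₀ (hc _) (norm_nonneg _) (hF _)) (norm_nonneg _) (b4 _)
    calc _ ≤ 1 * ‖φ₂ (x + ((s' * (t + q * k) : ℕ) : ZMod X)) * φ₃ (x + (((s + q * i) * t' : ℕ) : ZMod X)) -
          φ₂ (x + ((s' * t : ℕ) : ZMod X)) * φ₃ (x + ((s * t' : ℕ) : ZMod X))‖ :=
          mul_le_mul_of_nonneg_right e3 (norm_nonneg _)
      _ ≤ _ := by rw [one_mul]; exact e2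
  have hE2 : ‖Bs - Cs‖ ≤ η / 8 * (ℓ₁ * ℓ₂ * (X * (H₁ : ℝ) ^ 2 * (H₂ : ℝ) ^ 2)) := by
    have e1 : Bs - Cs = ∑ x : ZMod X, ∑ s' ∈ Icc 1 H₁, ∑ t' ∈ Icc 1 H₂, ∑ i ∈ range ℓ₁,
        ∑ s ∈ Icc 1 (H₁ - q * ℓ₁), ∑ k ∈ range ℓ₂, ∑ t ∈ Icc 1 (H₂ - q * ℓ₂),
        (G x s' t' (s + q * i) (t + q * k) -
      (((‖c x‖ : ℝ) : ℂ) * φ₂ (x + ((s' * t : ℕ) : ZMod X)) *
      φ₃ (x + ((s * t' : ℕ) : ZMod X)) * φ₄ (x + ((s' * t' : ℕ) : ZMod X))) *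
        F (x + (((s + q * i) * (t + q * k) : ℕ) : ZMod X))) := by
      rw [hBs, hCs]
      simp only [Finset.sum_sub_distrib]
    rw [e1]
    refine (norm_sum_le_of_le _ fun x _ => norm_sum_le_of_le _ fun s' _ => norm_sum_le_of_le _ fun t' _ =>
      norm_sum_le_of_le _ fun i _ => norm_sum_le_of_le _ fun s _ => norm_sum_le_of_le _ fun k _ =>
      norm_sum_le_of_le _ fun t _ => hterm x s' t' i s k t).trans ?_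
    have e2 : ∑ x : ZMod X, ∑ s' ∈ Icc 1 H₁, ∑ t' ∈ Icc 1 H₂, ∑ i ∈ range ℓ₁,
        ∑ s ∈ Icc 1 (H₁ - q * ℓ₁), ∑ k ∈ range ℓ₂, ∑ t ∈ Icc 1 (H₂ - q * ℓ₂), P2 x s' t' i s k t ≤
        ((Icc 1 H₁).card : ℝ) * (((Icc 1 H₂).card : ℝ) * (((range ℓ₁).card : ℝ) * (((Icc 1 (H₁ - q * ℓ₁)).card : ℝ) *
          (((range ℓ₂).card : ℝ) * (((Icc 1 (H₂ - q * ℓ₂)).card : ℝ) * (η / 16 * X + η / 16 * X)))))) := by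
      refine swap_le _ _ _ fun s' hs' => ?_
      refine swap_le _ _ _ fun t' ht' => ?_
      refine swap_le _ _ _ fun i hi => ?_
      refine swap_le _ _ _ fun s hs => ?_
      refine swap_le _ _ _ fun k hk => ?_
      refine swap_le _ _ _ fun t ht => ?_
      rw [hP2]
      simp only [Finset.sum_add_distrib]
      refine add_le_add ?_ ?_
      · have e3 := repl h2 hρ0 hρ1 (k * s') (hsize2 k (mem_range.1 hk).le s' (mem_Icc.1 hs').2)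
          ((s' * t : ℕ) : ZMod X)
        refine le_trans (le_of_eq ?_) e3
        refine Finset.sum_congr rfl fun x _ => ?_
        have e4 : ((s' * (t + q * k) : ℕ) : ZMod X) = ((s' * t : ℕ) : ZMod X) + ((q * (k * s') : ℕ) : ZMod X) := by
          push_cast
          ring
        rw [e4]
      · have e3 := repl h3 hρ0 hρ1 (i * t') (hsize3 i (mem_range.1 hi).le t' (mem_Icc.1 ht').2)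
          ((s * t' : ℕ) : ZMod X)
        refine le_trans (le_of_eq ?_) e3
        refine Finset.sum_congr rfl fun x _ => ?_
        have e4 : (((s + q * i) * t' : ℕ) : ZMod X) = ((s * t' : ℕ) : ZMod X) + ((q * (i * t') : ℕ) : ZMod X) := by
          push_cast
          ring
        rw [e4]
    refine e2.trans ?_
    rw [hcH1, hcH2, card_range, card_range]
    calc _ ≤ (H₁ : ℝ) * (H₂ * (ℓ₁ * (H₁ * (ℓ₂ * (H₂ * (η / 16 * X + η / 16 * X)))))) := by gcongr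
      _ = _ := by ring
  -- what remains
  set RS : ℝ := ∑ x : ZMod X, ∑ s ∈ Icc 1 (H₁ - q * ℓ₁), ∑ t ∈ Icc 1 (H₂ - q * ℓ₂),
        ‖c x‖ * ‖∑ i ∈ range ℓ₁, ∑ k ∈ range ℓ₂, F (x + (((s + q * i) * (t + q * k) : ℕ) : ZMod X))‖ with hRS
  have hE3 : ‖Cs‖ ≤ (H₁ * H₂ : ℝ) * RS := by
    have e1 : Cs = ∑ x : ZMod X, ∑ s' ∈ Icc 1 H₁, ∑ t' ∈ Icc 1 H₂, ∑ s ∈ Icc 1 (H₁ - q * ℓ₁),
        ∑ t ∈ Icc 1 (H₂ - q * ℓ₂),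
        (((‖c x‖ : ℝ) : ℂ) * φ₂ (x + ((s' * t : ℕ) : ZMod X)) *
      φ₃ (x + ((s * t' : ℕ) : ZMod X)) * φ₄ (x + ((s' * t' : ℕ) : ZMod X))) *
        ∑ i ∈ range ℓ₁, ∑ k ∈ range ℓ₂, F (x + (((s + q * i) * (t + q * k) : ℕ) : ZMod X)) := by
      rw [hCs]
      refine Finset.sum_congr rfl fun x _ => Finset.sum_congr rfl fun s' _ => Finset.sum_congr rfl fun t' _ => ?_
      rw [sum4_comm']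
      refine Finset.sum_congr rfl fun s _ => Finset.sum_congr rfl fun t _ => ?_
      simp only [Finset.mul_sum]
    rw [e1]
    have e2 : ∀ x s' t' s t, ‖(((‖c x‖ : ℝ) : ℂ) * φ₂ (x + ((s' * t : ℕ) : ZMod X)) *
      φ₃ (x + ((s * t' : ℕ) : ZMod X)) * φ₄ (x + ((s' * t' : ℕ) : ZMod X))) *
        ∑ i ∈ range ℓ₁, ∑ k ∈ range ℓ₂, F (x + (((s + q * i) * (t + q * k) : ℕ) : ZMod X))‖ ≤
        ‖c x‖ * ‖∑ i ∈ range ℓ₁, ∑ k ∈ range ℓ₂, F (x + (((s + q * i) * (t + q * k) : ℕ) : ZMod X))‖ := by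
      intro x s' t' s t
      rw [norm_mul]
      refine mul_le_mul_of_nonneg_right ?_ (norm_nonneg _)
      rw [norm_mul, norm_mul, norm_mul, hcn]
      have f1 : ‖c x‖ * ‖φ₂ (x + ((s' * t : ℕ) : ZMod X))‖ ≤ ‖c x‖ := mul_le_of_le_one_right (norm_nonneg _) (b2 _)
      have f2 : ‖c x‖ * ‖φ₂ (x + ((s' * t : ℕ) : ZMod X))‖ * ‖φ₃ (x + ((s * t' : ℕ) : ZMod X))‖ ≤ ‖c x‖ :=
        (mul_le_of_le_one_right (by positivity) (b3 _)).trans f1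
      exact (mul_le_of_le_one_right (by positivity) (b4 _)).trans f2
    refine (norm_sum_le_of_le _ fun x _ => norm_sum_le_of_le _ fun s' _ => norm_sum_le_of_le _ fun t' _ =>
      norm_sum_le_of_le _ fun s _ => norm_sum_le_of_le _ fun t _ => e2 x s' t' s t).trans (le_of_eq ?_)
    rw [hRS, Finset.mul_sum]
    refine Finset.sum_congr rfl fun x _ => ?_
    rw [Finset.sum_const, Finset.sum_const, nsmul_eq_mul, nsmul_eq_mul, hcH1, hcH2, mul_assoc]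
  -- conclusion
  have hfin : (ℓ₁ * ℓ₂ : ℝ) * (η * (X * (H₁ : ℝ) ^ 2 * (H₂ : ℝ) ^ 2)) ≤
      (H₁ * H₂ : ℝ) * RS + η / 4 * (ℓ₁ * ℓ₂ * (X * (H₁ : ℝ) ^ 2 * (H₂ : ℝ) ^ 2)) := by
    have e1 : ‖(ℓ₁ : ℂ) * ℓ₂ * BB H₁ H₂ (fun x => ((‖c x‖ : ℝ) : ℂ)) F φ₂ φ₃ φ₄‖ =
        (ℓ₁ * ℓ₂ : ℝ) * ‖BB H₁ H₂ (fun x => ((‖c x‖ : ℝ) : ℂ)) F φ₂ φ₃ φ₄‖ := by
      rw [norm_mul, norm_mul, Complex.norm_natCast, Complex.norm_natCast]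
    have e2 : ‖(ℓ₁ : ℂ) * ℓ₂ * BB H₁ H₂ (fun x => ((‖c x‖ : ℝ) : ℂ)) F φ₂ φ₃ φ₄‖ ≤
        ‖(ℓ₁ : ℂ) * ℓ₂ * BB H₁ H₂ (fun x => ((‖c x‖ : ℝ) : ℂ)) F φ₂ φ₃ φ₄ - Bs‖ + ‖Bs - Cs‖ + ‖Cs‖ := by
      have e3 : (ℓ₁ : ℂ) * ℓ₂ * BB H₁ H₂ (fun x => ((‖c x‖ : ℝ) : ℂ)) F φ₂ φ₃ φ₄ =
        ((ℓ₁ : ℂ) * ℓ₂ * BB H₁ H₂ (fun x => ((‖c x‖ : ℝ) : ℂ)) F φ₂ φ₃ φ₄ - Bs) + (Bs - Cs) + Cs := by ring
      calc _ = ‖((ℓ₁ : ℂ) * ℓ₂ * BB H₁ H₂ (fun x => ((‖c x‖ : ℝ) : ℂ)) F φ₂ φ₃ φ₄ - Bs) + (Bs - Cs) + Cs‖ := by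
            rw [← e3]
        _ ≤ _ := norm_add₃_le
    have e4 : (ℓ₁ * ℓ₂ : ℝ) * (η * (X * (H₁ : ℝ) ^ 2 * (H₂ : ℝ) ^ 2)) ≤
        (ℓ₁ * ℓ₂ : ℝ) * ‖BB H₁ H₂ (fun x => ((‖c x‖ : ℝ) : ℂ)) F φ₂ φ₃ φ₄‖ :=
      mul_le_mul_of_nonneg_left hBB (by positivity)
    linarith
  have hN : (0 : ℝ) < H₁ * H₂ := by positivity
  have hlast : (3 / 4 * η) * (X * H₁ * H₂ * ℓ₁ * ℓ₂) ≤ RS := by
    have e1 : (3 / 4 * η) * (X * H₁ * H₂ * ℓ₁ * ℓ₂) * (H₁ * H₂ : ℝ) ≤ RS * (H₁ * H₂ : ℝ) := by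
      calc _ = (ℓ₁ * ℓ₂ : ℝ) * (η * (X * (H₁ : ℝ) ^ 2 * (H₂ : ℝ) ^ 2)) -
            η / 4 * (ℓ₁ * ℓ₂ * (X * (H₁ : ℝ) ^ 2 * (H₂ : ℝ) ^ 2)) := by ring
        _ ≤ (H₁ * H₂ : ℝ) * RS := by linarith
        _ = _ := by ring
    exact le_of_mul_le_mul_right e1 hN
  refine le_trans ?_ hlast
  refine mul_le_mul_of_nonneg_right ?_ (by positivity)
  calc δ ^ (5 * C₁ + 4) ≤ δ ^ (C₁ + 1) := pow_le_pow_of_le_one hδ0.le (by linarith) (by omega)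
    _ = η * δ := by rw [pow_succ]
    _ ≤ 3 / 4 * η := by nlinarith

end ClaimBAux

open ClaimBAux in
theorem claimB : ∃ C : ℕ, ∀ (δ : ℝ) (X H₁ H₂ W : ℕ) [NeZero X], Adm δ C X H₁ H₂ W →
    ∀ (c F : ZMod X → ℂ) (a b : ZMod X → ℕ → ℂ), (∀ x, ‖c x‖ ≤ 1) → (∀ x, ‖F x‖ ≤ 1) → (∀ x s, ‖a x s‖ ≤ 1) →
    (∀ x t, ‖b x t‖ ≤ 1) →
    δ * (X * H₁ * H₂) ≤ ‖∑ x : ZMod X, ∑ s ∈ Icc 1 H₁, ∑ t ∈ Icc 1 H₂,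
      c x * F (x + ((s * t : ℕ) : ZMod X)) * a x s * b x t‖ →
    ∃ q : ℕ, 1 ≤ q ∧ (q : ℝ) ≤ (δ⁻¹) ^ C ∧ ∀ ℓ₁ ℓ₂ : ℕ, (ℓ₁ : ℝ) ≤ δ ^ C * H₁ → (ℓ₂ : ℝ) ≤ δ ^ C * H₂ →
      q * ℓ₁ ≤ H₁ ∧ q * ℓ₂ ≤ H₂ ∧
      δ ^ C * (X * H₁ * H₂ * ℓ₁ * ℓ₂) ≤ ∑ x : ZMod X, ∑ s ∈ Icc 1 (H₁ - q * ℓ₁), ∑ t ∈ Icc 1 (H₂ - q * ℓ₂),
        ‖c x‖ * ‖∑ i ∈ range ℓ₁, ∑ k ∈ range ℓ₂, F (x + (((s + q * i) * (t + q * k) : ℕ) : ZMod X))‖ := by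
  obtain ⟨C4, hC4⟩ := bb4
  obtain ⟨C3, hC3⟩ := bb3
  obtain ⟨C2, hC2⟩ := bb2
  set k3 := 4 * C4 + 1 with hk3
  set k2 := k3 * C3 + 1 with hk2
  set C₁ := k3 + k2 + k2 * C2 with hC₁
  refine ⟨5 * C₁ + 4, ?_⟩
  intro δ X H₁ H₂ W _ hadm c F a b hc hF ha hb hT
  have hδ0 := hadm.pos
  have hδ := hadm.half
  have hδ1 : δ ≤ 1 := by linarith
  have hH₁ := hadm.loc.pos1
  have hH₂ := hadm.loc.pos2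
  have s1 := step1 hδ0.le hH₁ hH₂ c F a b hc ha hb hT
  have hcn : ∀ x, ‖(fun x => ((‖c x‖ : ℝ) : ℂ)) x‖ ≤ 1 := fun x => by
    simp only [Complex.norm_real, Real.norm_eq_abs, abs_of_nonneg (norm_nonneg _)]
    exact hc x
  have hFn : ∀ x, ‖(fun x => (starRingEnd ℂ) (F x)) x‖ ≤ 1 := fun x => by
    simp only [Complex.norm_conj]
    exact hF x
  have t4 : Sl (δ ^ 4) C4 X H₁ H₂ W (fun φ => ‖BB H₁ H₂ (fun x => ((‖c x‖ : ℝ) : ℂ)) F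
      (fun x => (starRingEnd ℂ) (F x)) (fun x => (starRingEnd ℂ) (F x)) φ‖) :=
    hC4 (δ ^ 4) X H₁ H₂ W ((hadm.mono (by omega)).pow 4 (by norm_num)) _ _ _ _ _ hcn hF hFn hFn hF s1
  obtain ⟨q4, φ4, a1, a2, a3, a4, a5⟩ := t4.of_pow.mono hδ0 hδ1 (show 4 * C4 ≤ k3 by omega)
  have t3 : Sl (δ ^ k3) C3 X H₁ H₂ W (fun φ => ‖BB H₁ H₂ (fun x => ((‖c x‖ : ℝ) : ℂ)) F
      (fun x => (starRingEnd ℂ) (F x)) φ φ4‖) :=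
    hC3 (δ ^ k3) X H₁ H₂ W ((hadm.mono (by omega)).pow k3 (by omega)) _ _ _ _ _ hcn hF hFn hFn a3 a5
  obtain ⟨q3, φ3, c1, c2, c3, c4, c5⟩ := t3.of_pow.mono hδ0 hδ1 (show k3 * C3 ≤ k2 by omega)
  have t2 : Sl (δ ^ k2) C2 X H₁ H₂ W (fun φ => ‖BB H₁ H₂ (fun x => ((‖c x‖ : ℝ) : ℂ)) F φ φ3 φ4‖) :=
    hC2 (δ ^ k2) X H₁ H₂ W ((hadm.mono (by omega)).pow k2 (by omega)) _ _ _ _ _ hcn hF hFn c3 a3 c5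
  obtain ⟨q2, φ2, d1, d2, d3, d4, d5⟩ := t2.of_pow.mono hδ0 hδ1 (show k2 * C2 ≤ C₁ by omega)
  have hinv : 1 ≤ δ⁻¹ := (one_le_inv₀ hδ0).2 hδ1
  have hq4 : (q4 : ℝ) ≤ (δ⁻¹) ^ C₁ := a2.trans (pow_le_pow_right₀ hinv (by omega))
  have hq3 : (q3 : ℝ) ≤ (δ⁻¹) ^ C₁ := c2.trans (pow_le_pow_right₀ hinv (by omega))
  have hq : ((q2 * q3 * q4 : ℕ) : ℝ) ≤ (δ⁻¹) ^ (3 * C₁) := by
    push_cast
    calc (q2 : ℝ) * q3 * q4 ≤ (δ⁻¹) ^ C₁ * (δ⁻¹) ^ C₁ * (δ⁻¹) ^ C₁ := by gcongr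
      _ = _ := by rw [← pow_add, ← pow_add]; congr 1; ring
  have i2 : AInv φ2 (q2 * q3 * q4) (δ ^ C₁ * W) := (d4.mul_q q3).mul_q q4
  have i3 : AInv φ3 (q2 * q3 * q4) (δ ^ C₁ * W) := by
    have h1 := (c4.mul_q q2).mul_q q4
    rw [mul_comm q3 q2] at h1
    exact ainv_anti h1 (mul_le_mul_of_nonneg_right (pow_le_pow_of_le_one hδ0.le hδ1 (by omega)) (Nat.cast_nonneg _))
  refine ⟨q2 * q3 * q4, Nat.mul_pos (Nat.mul_pos d1 c1) a1, hq.trans (pow_le_pow_right₀ hinv (by omega)), ?_⟩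
  intro ℓ₁ ℓ₂ hℓ₁ hℓ₂
  exact step3 hδ0 hδ hadm.le hH₁ hH₂ c F φ2 φ3 φ4 hc hF d3 c3 a3 _ hq i2 i3 d5 ℓ₁ ℓ₂ hℓ₁ hℓ₂

end Pool.Agent.BLF
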