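import Pool.Agent.Lib.BLF.SSlot

/-!
# Module ClaimS: averages over short progressions, single slot

PROOF. (1) Induction on a subset `J' ⊆ J` (`Finset.induction_on`, `C` depending on `|J'|`, or on `m` by `Finset.card_le_univ`): there are `g'` with `g' = g` outside `J'`, `‖g'‖ ≤ 1`, `AInv (g' j) (q_j) (δ^C W_j)` with
`1 ≤ q_j ≤ δ^(-C)` for `j ∈ J'`, and `‖TS f g' γ‖ ≥ δ^C X H0 ∏ H`; the step is `sslot` (with `Adm.pow`, `Adm.mono`; `AInv` is monotone in `R`: from `AInv φ q R` and `R' ≤ R` follows `AInv φ q R'`).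
(2) At the end `J' = J`, `η = δ^C₁`, `q = ∏_{j ∈ J} q_j` (`AInv.mul_q`). `avg_shift` in the variable `t`: `‖ℓ TS - ∑_{i<ℓ} ∑_{t ≤ H0 - qℓ} (summand with t + q i)‖ ≤ (q ℓ / H0) ℓ X H0 ∏ H`. Replace
`g' j (x + (t + q i) u_j)` by `g' j (x + t u_j)`, one `j` at a time: error `ρ ℓ X H0 ∏ H` for each `j ∈ J` if `q i u_j ≤ q ℓ H_j ≤ ρ δ^C₁ W_j` (note `H0 H_j ≤ W_j`, `ℓ ≤ δ^C H0`); `ρ = η / (4 m + 4)`, and
`4 m + 4 ≤ δ^(-(4m+4))`. What remains is at most `∑_x ∑_t ∑_u ‖∑_{i<ℓ} f x (t + q i)‖` = `∏ H` times the right side.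
-/

set_option autoImplicit false

open Finset

namespace Pool.Agent.BLF

open Pool.Agent.HLT

namespace ClaimSAux

lemma swap_le {X : ℕ} [NeZero X] {β : Type} (A : Finset β) (f : ZMod X → β → ℝ) (K : ℝ)
    (h : ∀ s ∈ A, ∑ x : ZMod X, f x s ≤ K) : ∑ x : ZMod X, ∑ s ∈ A, f x s ≤ A.card * K := by
  rw [Finset.sum_comm]
  calc _ ≤ ∑ _s ∈ A, K := Finset.sum_le_sum h
    _ = _ := by rw [Finset.sum_const, nsmul_eq_mul]

lemma ainv_anti {X : ℕ} [NeZero X] {φ : ZMod X → ℂ} {q : ℕ} {R R' : ℝ} (h : AInv φ q R) (hR : R' ≤ R) :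
    AInv φ q R' := fun ρ h0 h1 k hk =>
  h ρ h0 h1 k (hk.trans (mul_le_mul_of_nonneg_left hR h0.le))

lemma repl {X : ℕ} [NeZero X] {φ : ZMod X → ℂ} {q : ℕ} {R ρ : ℝ} (h : AInv φ q R) (h0 : 0 < ρ) (h1 : ρ ≤ 1)
    (k : ℕ) (hk : ((q * k : ℕ) : ℝ) ≤ ρ * R) (u : ZMod X) :
    ∑ x : ZMod X, ‖φ (x + (u + ((q * k : ℕ) : ZMod X))) - φ (x + u)‖ ≤ ρ * X := by
  have h2 := h ρ h0 h1 k hk
  have h3 := sum_shift (fun x => ‖φ (x + ((q * k : ℕ) : ZMod X)) - φ x‖) u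
  rw [← h3] at h2
  refine le_trans (le_of_eq ?_) h2
  refine Finset.sum_congr rfl fun x _ => ?_
  rw [add_assoc]

lemma norm_prod_le_one {ι : Type} (J : Finset ι) (a : ι → ℂ) (ha : ∀ j, ‖a j‖ ≤ 1) : ‖∏ j ∈ J, a j‖ ≤ 1 := by
  rw [norm_prod]
  exact Finset.prod_le_one (fun j _ => norm_nonneg _) fun j _ => ha j

lemma norm_prod_sub_le {ι : Type} [DecidableEq ι] (J : Finset ι) (a b : ι → ℂ) (ha : ∀ j, ‖a j‖ ≤ 1)
    (hb : ∀ j, ‖b j‖ ≤ 1) : ‖∏ j ∈ J, a j - ∏ j ∈ J, b j‖ ≤ ∑ j ∈ J, ‖a j - b j‖ := by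
  induction J using Finset.induction_on with
  | empty => simp
  | insert j J hj ih =>
    rw [Finset.prod_insert hj, Finset.prod_insert hj, Finset.sum_insert hj]
    have h : a j * ∏ j ∈ J, a j - b j * ∏ j ∈ J, b j =
        (a j - b j) * ∏ j ∈ J, a j + b j * (∏ j ∈ J, a j - ∏ j ∈ J, b j) := by ring
    rw [h]
    refine (norm_add_le _ _).trans ?_
    rw [norm_mul, norm_mul]
    refine add_le_add (mul_le_of_le_one_right (norm_nonneg _) (norm_prod_le_one J a ha)) ?_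
    exact (mul_le_of_le_one_left (norm_nonneg _) (hb j)).trans ih

lemma step2 {m : ℕ} {δ : ℝ} (hδ0 : 0 < δ) (hδ : δ ≤ 1 / 2) {C₁ X : ℕ} [NeZero X] (J : Finset (Fin m)) (H0 : ℕ)
    (H W : Fin m → ℕ) (hW : ∀ j ∈ J, H0 * H j ≤ W j) (hH0 : 1 ≤ H0) (hH : ∀ j, 1 ≤ H j)
    (f : ZMod X → ℕ → ℂ) (g : Fin m → ZMod X → ℂ) (γ : ZMod X → (Fin m → ℕ) → ℂ) (hf : ∀ x t, ‖f x t‖ ≤ 1)
    (hg : ∀ j x, ‖g j x‖ ≤ 1) (hγ : ∀ x u, ‖γ x u‖ ≤ 1) (q : ℕ) (hq : (q : ℝ) ≤ (δ⁻¹) ^ (C₁ * m))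
    (hA : ∀ j ∈ J, AInv (g j) q (δ ^ C₁ * W j))
    (hT : δ ^ C₁ * (X * H0 * ∏ j, (H j : ℝ)) ≤ ‖TS J H0 H f g γ‖) (ℓ : ℕ)
    (hℓ : (ℓ : ℝ) ≤ δ ^ (C₁ * (m + 2) + (4 * m + 4)) * H0) :
    q * ℓ ≤ H0 ∧ δ ^ (C₁ * (m + 2) + (4 * m + 4)) * (X * H0 * ℓ) ≤
      ∑ x : ZMod X, ∑ t ∈ Icc 1 (H0 - q * ℓ), ‖∑ i ∈ range ℓ, f x (t + q * i)‖ := by
  classical
  have hX : (0 : ℝ) < X := by
    have := Nat.pos_of_ne_zero (NeZero.ne X)
    exact_mod_cast this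
  have hh0 : (0 : ℝ) < H0 := by exact_mod_cast hH0
  have hm : (0 : ℝ) ≤ m := Nat.cast_nonneg m
  set P : ℝ := ∏ j, (H j : ℝ) with hP
  have hP0 : 0 < P := Finset.prod_pos fun j _ => by exact_mod_cast (hH j)
  set η : ℝ := δ ^ C₁ with hη
  have hη0 : 0 < η := pow_pos hδ0 _
  have hη1 : η ≤ 1 := pow_le_one₀ hδ0.le (by linarith)
  set ν : ℝ := 1 / (4 * (m : ℝ) + 4) with hν
  have hν0 : 0 < ν := by positivity
  have hν1 : ν ≤ 1 / 4 := by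
    rw [hν]
    exact one_div_le_one_div_of_le (by norm_num) (by linarith)
  have hmν : (m : ℝ) * ν ≤ 1 / 4 := by
    rw [hν, mul_one_div, div_le_iff₀ (by positivity)]
    linarith
  have hd4 : δ ^ (4 * m + 4) ≤ ν := by
    have e1 : ((4 * m + 4 : ℕ) : ℝ) ≤ 2 ^ (4 * m + 4) := by
      exact_mod_cast (Nat.lt_two_pow_self (n := 4 * m + 4)).le
    calc δ ^ (4 * m + 4) ≤ (1 / 2) ^ (4 * m + 4) := pow_le_pow_left₀ hδ0.le hδ _
      _ = 1 / 2 ^ (4 * m + 4) := by rw [one_div_pow]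
      _ ≤ 1 / ((4 * m + 4 : ℕ) : ℝ) := one_div_le_one_div_of_le (by positivity) e1
      _ = ν := by rw [hν]; push_cast; ring
  have hqd : (q : ℝ) * δ ^ (C₁ * (m + 2) + (4 * m + 4)) ≤ η ^ 2 * ν := by
    calc (q : ℝ) * δ ^ (C₁ * (m + 2) + (4 * m + 4)) ≤ (δ⁻¹) ^ (C₁ * m) * δ ^ (C₁ * (m + 2) + (4 * m + 4)) :=
          mul_le_mul_of_nonneg_right hq (by positivity)
      _ = (δ⁻¹ * δ) ^ (C₁ * m) * (η ^ 2 * δ ^ (4 * m + 4)) := by
        rw [mul_pow, hη, ← pow_mul]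
        rw [show C₁ * (m + 2) + (4 * m + 4) = C₁ * m + (C₁ * 2 + (4 * m + 4)) by ring, pow_add, pow_add]
        ring
      _ = η ^ 2 * δ ^ (4 * m + 4) := by rw [inv_mul_cancel₀ hδ0.ne', one_pow, one_mul]
      _ ≤ η ^ 2 * ν := mul_le_mul_of_nonneg_left hd4 (by positivity)
  have hq0 : (0 : ℝ) ≤ q := Nat.cast_nonneg q
  have hqℓ : (q : ℝ) * ℓ ≤ η ^ 2 * ν * H0 := by
    calc (q : ℝ) * ℓ ≤ q * (δ ^ (C₁ * (m + 2) + (4 * m + 4)) * H0) := mul_le_mul_of_nonneg_left hℓ hq0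
      _ = (q * δ ^ (C₁ * (m + 2) + (4 * m + 4))) * H0 := by ring
      _ ≤ _ := mul_le_mul_of_nonneg_right hqd hh0.le
  have hη2 : η ^ 2 ≤ η := by nlinarith
  have hqℓ' : (q : ℝ) * ℓ ≤ η / 4 * H0 := by
    refine hqℓ.trans (mul_le_mul_of_nonneg_right ?_ hh0.le)
    calc η ^ 2 * ν ≤ η * (1 / 4) := mul_le_mul hη2 hν1 hν0.le hη0.le
      _ = η / 4 := by ring
  have g1 : q * ℓ ≤ H0 := by
    have : (q : ℝ) * ℓ ≤ H0 := by nlinarith
    exact_mod_cast this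
  refine ⟨g1, ?_⟩
  set U := Fintype.piFinset (fun j => Icc 1 (H j)) with hU
  have hUcard : (U.card : ℝ) = P := by
    rw [hU, Fintype.card_piFinset, hP]
    push_cast
    refine Finset.prod_congr rfl fun j _ => ?_
    rw [Nat.card_Icc, Nat.add_sub_cancel]
  set S : ZMod X → ℕ → ℂ := fun x t => ∑ u ∈ U,
    f x t * (∏ j ∈ J, g j (x + ((t * u j : ℕ) : ZMod X))) * γ x u with hS
  have hTS : TS J H0 H f g γ = ∑ x : ZMod X, ∑ t ∈ Icc 1 H0, S x t := rfl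
  have hSn : ∀ x t, ‖S x t‖ ≤ P := by
    intro x t
    rw [hS, ← hUcard]
    refine (norm_sum_le_of_le _ (n := fun _ => (1 : ℝ)) fun u _ => ?_).trans (by simp)
    rw [norm_mul, norm_mul]
    exact mul_le_one₀ (mul_le_one₀ (hf _ _) (norm_nonneg _) (norm_prod_le_one J _ fun j => hg j _))
      (norm_nonneg _) (hγ _ _)
  set Bs : ℂ := ∑ x : ZMod X, ∑ i ∈ range ℓ, ∑ t ∈ Icc 1 (H0 - q * ℓ), S x (t + q * i) with hBs
  set Cs : ℂ := ∑ x : ZMod X, ∑ i ∈ range ℓ, ∑ t ∈ Icc 1 (H0 - q * ℓ), ∑ u ∈ U,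
    ((∏ j ∈ J, g j (x + ((t * u j : ℕ) : ZMod X))) * γ x u) * f x (t + q * i) with hCs
  have hcH : ((Icc 1 (H0 - q * ℓ)).card : ℝ) ≤ H0 := by
    rw [Nat.card_Icc, Nat.add_sub_cancel]
    exact_mod_cast Nat.sub_le _ _
  -- the first error
  have hE1 : ‖(ℓ : ℂ) * TS J H0 H f g γ - Bs‖ ≤ η / 4 * (ℓ * (X * H0 * P)) := by
    rw [hTS, hBs]
    have e1 : (ℓ : ℂ) * ∑ x : ZMod X, ∑ t ∈ Icc 1 H0, S x t -
        ∑ x : ZMod X, ∑ i ∈ range ℓ, ∑ t ∈ Icc 1 (H0 - q * ℓ), S x (t + q * i) =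
        ∑ x : ZMod X, ((ℓ : ℂ) * ∑ t ∈ Icc 1 H0, S x t - ∑ i ∈ range ℓ, ∑ t ∈ Icc 1 (H0 - q * ℓ), S x (t + q * i)) := by
      rw [Finset.sum_sub_distrib, Finset.mul_sum]
    rw [e1]
    refine (norm_sum_le_of_le _ fun x _ => avg_shift H0 q ℓ g1 P (S x) (hSn x)).trans ?_
    rw [Finset.sum_const, Finset.card_univ, ZMod.card, nsmul_eq_mul]
    calc (X : ℝ) * (P * (ℓ * (q * ℓ))) = (X * P * ℓ) * (q * ℓ) := by ring
      _ ≤ (X * P * ℓ) * (η / 4 * H0) := mul_le_mul_of_nonneg_left hqℓ' (by positivity)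
      _ = _ := by ring
  -- the second error
  have hρ1 : η * ν ≤ 1 := by nlinarith
  have hρ0 : 0 < η * ν := by positivity
  have hsize : ∀ j ∈ J, ∀ i, i ≤ ℓ → ∀ v, v ≤ H j → ((q * (i * v) : ℕ) : ℝ) ≤ η * ν * (η * W j) := by
    intro j hj i hi v hv
    have hWj : (H0 : ℝ) * H j ≤ W j := by exact_mod_cast hW j hj
    have hi' : (i : ℝ) ≤ ℓ := by exact_mod_cast hi
    have hv' : (v : ℝ) ≤ H j := by exact_mod_cast hv
    have hHj : (0 : ℝ) ≤ H j := Nat.cast_nonneg _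
    push_cast
    calc (q : ℝ) * (i * v) ≤ q * (ℓ * H j) := by gcongr
      _ = (q * ℓ) * H j := by ring
      _ ≤ (η ^ 2 * ν * H0) * H j := mul_le_mul_of_nonneg_right hqℓ hHj
      _ = η ^ 2 * ν * (H0 * H j) := by ring
      _ ≤ η ^ 2 * ν * W j := mul_le_mul_of_nonneg_left hWj (by positivity)
      _ = _ := by ring
  have hterm : ∀ (x : ZMod X) (i t : ℕ) (u : Fin m → ℕ), ‖f x (t + q * i) *
      (∏ j ∈ J, g j (x + (((t + q * i) * u j : ℕ) : ZMod X))) * γ x u -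
      ((∏ j ∈ J, g j (x + ((t * u j : ℕ) : ZMod X))) * γ x u) * f x (t + q * i)‖ ≤
      ∑ j ∈ J, ‖g j (x + (((t + q * i) * u j : ℕ) : ZMod X)) - g j (x + ((t * u j : ℕ) : ZMod X))‖ := by
    intro x i t u
    have e1 : f x (t + q * i) * (∏ j ∈ J, g j (x + (((t + q * i) * u j : ℕ) : ZMod X))) * γ x u -
      ((∏ j ∈ J, g j (x + ((t * u j : ℕ) : ZMod X))) * γ x u) * f x (t + q * i) =
      (f x (t + q * i) * γ x u) * (∏ j ∈ J, g j (x + (((t + q * i) * u j : ℕ) : ZMod X)) -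
        ∏ j ∈ J, g j (x + ((t * u j : ℕ) : ZMod X))) := by ring
    rw [e1, norm_mul]
    have e2 : ‖f x (t + q * i) * γ x u‖ ≤ 1 := by
      rw [norm_mul]
      exact mul_le_one₀ (hf _ _) (norm_nonneg _) (hγ _ _)
    exact (mul_le_of_le_one_left (norm_nonneg _) e2).trans
      (norm_prod_sub_le J _ _ (fun j => hg j _) fun j => hg j _)
  have hE2 : ‖Bs - Cs‖ ≤ η / 4 * (ℓ * (X * H0 * P)) := by
    have e1 : Bs - Cs = ∑ x : ZMod X, ∑ i ∈ range ℓ, ∑ t ∈ Icc 1 (H0 - q * ℓ), ∑ u ∈ U,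
        (f x (t + q * i) *
      (∏ j ∈ J, g j (x + (((t + q * i) * u j : ℕ) : ZMod X))) * γ x u -
      ((∏ j ∈ J, g j (x + ((t * u j : ℕ) : ZMod X))) * γ x u) * f x (t + q * i)) := by
      rw [hBs, hCs]
      simp only [Finset.sum_sub_distrib, hS]
    rw [e1]
    refine (norm_sum_le_of_le _ fun x _ => norm_sum_le_of_le _ fun i _ => norm_sum_le_of_le _ fun t _ =>
      norm_sum_le_of_le _ fun u _ => hterm x i t u).trans ?_
    have e2 : ∑ x : ZMod X, ∑ i ∈ range ℓ, ∑ t ∈ Icc 1 (H0 - q * ℓ), ∑ u ∈ U, ∑ j ∈ J,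
        ‖g j (x + (((t + q * i) * u j : ℕ) : ZMod X)) - g j (x + ((t * u j : ℕ) : ZMod X))‖ ≤
        ((range ℓ).card : ℝ) * (((Icc 1 (H0 - q * ℓ)).card : ℝ) * ((U.card : ℝ) * ((J.card : ℝ) *
          (η * ν * X)))) := by
      refine swap_le _ _ _ fun i hi => ?_
      refine swap_le _ _ _ fun t ht => ?_
      refine swap_le _ _ _ fun u hu => ?_
      refine swap_le _ _ _ fun j hj => ?_
      have huj : u j ≤ H j := (mem_Icc.1 (Fintype.mem_piFinset.1 hu j)).2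
      have e3 := repl (hA j hj) hρ0 hρ1 (i * u j) (hsize j hj i (mem_range.1 hi).le (u j) huj)
        ((t * u j : ℕ) : ZMod X)
      refine le_trans (le_of_eq ?_) e3
      refine Finset.sum_congr rfl fun x _ => ?_
      have e4 : (((t + q * i) * u j : ℕ) : ZMod X) = ((t * u j : ℕ) : ZMod X) + ((q * (i * u j) : ℕ) : ZMod X) := by
        push_cast
        ring
      rw [e4]
    refine e2.trans ?_
    have hJ : (J.card : ℝ) ≤ m := by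
      have := card_le_univ J
      rw [Fintype.card_fin] at this
      exact_mod_cast this
    rw [hUcard, card_range]
    calc _ ≤ (ℓ : ℝ) * (H0 * (P * (m * (η * ν * X)))) := by gcongr
      _ = (m * ν) * (ℓ * (H0 * (P * (η * X)))) := by ring
      _ ≤ 1 / 4 * (ℓ * (H0 * (P * (η * X)))) := mul_le_mul_of_nonneg_right hmν (by positivity)
      _ = _ := by ring
  -- what remains
  set RS : ℝ := ∑ x : ZMod X, ∑ t ∈ Icc 1 (H0 - q * ℓ), ‖∑ i ∈ range ℓ, f x (t + q * i)‖ with hRS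
  have hE3 : ‖Cs‖ ≤ P * RS := by
    have e1 : Cs = ∑ x : ZMod X, ∑ t ∈ Icc 1 (H0 - q * ℓ), ∑ u ∈ U,
        ((∏ j ∈ J, g j (x + ((t * u j : ℕ) : ZMod X))) * γ x u) * ∑ i ∈ range ℓ, f x (t + q * i) := by
      rw [hCs]
      refine Finset.sum_congr rfl fun x _ => ?_
      rw [Finset.sum_comm]
      refine Finset.sum_congr rfl fun t _ => ?_
      rw [Finset.sum_comm]
      refine Finset.sum_congr rfl fun u _ => ?_
      rw [Finset.mul_sum]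
    rw [e1]
    have e2 : ∀ (x : ZMod X) (t : ℕ) (u : Fin m → ℕ),
        ‖((∏ j ∈ J, g j (x + ((t * u j : ℕ) : ZMod X))) * γ x u) * ∑ i ∈ range ℓ, f x (t + q * i)‖ ≤
        ‖∑ i ∈ range ℓ, f x (t + q * i)‖ := by
      intro x t u
      rw [norm_mul]
      refine mul_le_of_le_one_left (norm_nonneg _) ?_
      rw [norm_mul]
      exact mul_le_one₀ (norm_prod_le_one J _ fun j => hg j _) (norm_nonneg _) (hγ _ _)
    refine (norm_sum_le_of_le _ fun x _ => norm_sum_le_of_le _ fun t _ =>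
      norm_sum_le_of_le _ fun u _ => e2 x t u).trans (le_of_eq ?_)
    rw [hRS, Finset.mul_sum]
    refine Finset.sum_congr rfl fun x _ => ?_
    rw [Finset.mul_sum]
    refine Finset.sum_congr rfl fun t _ => ?_
    rw [Finset.sum_const, nsmul_eq_mul, hUcard]
  -- conclusion
  have hfin : (ℓ : ℝ) * (η * (X * H0 * P)) ≤ P * RS + η / 2 * (ℓ * (X * H0 * P)) := by
    have e1 : ‖(ℓ : ℂ) * TS J H0 H f g γ‖ = (ℓ : ℝ) * ‖TS J H0 H f g γ‖ := by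
      rw [norm_mul, Complex.norm_natCast]
    have e2 : ‖(ℓ : ℂ) * TS J H0 H f g γ‖ ≤ ‖(ℓ : ℂ) * TS J H0 H f g γ - Bs‖ + ‖Bs - Cs‖ + ‖Cs‖ := by
      have e3 : (ℓ : ℂ) * TS J H0 H f g γ = ((ℓ : ℂ) * TS J H0 H f g γ - Bs) + (Bs - Cs) + Cs := by ring
      calc _ = ‖((ℓ : ℂ) * TS J H0 H f g γ - Bs) + (Bs - Cs) + Cs‖ := by rw [← e3]
        _ ≤ _ := norm_add₃_le
    have e4 : (ℓ : ℝ) * (η * (X * H0 * P)) ≤ (ℓ : ℝ) * ‖TS J H0 H f g γ‖ :=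
      mul_le_mul_of_nonneg_left hT (by positivity)
    linarith
  have hlast : (1 / 2 * η) * (X * H0 * ℓ) ≤ RS := by
    have e1 : (1 / 2 * η) * (X * H0 * ℓ) * P ≤ RS * P := by
      calc _ = (ℓ : ℝ) * (η * (X * H0 * P)) - η / 2 * (ℓ * (X * H0 * P)) := by ring
        _ ≤ P * RS := by linarith
        _ = _ := by ring
    exact le_of_mul_le_mul_right e1 hP0
  refine le_trans ?_ hlast
  refine mul_le_mul_of_nonneg_right ?_ (by positivity)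
  have hexp : C₁ + 1 ≤ C₁ * (m + 2) + (4 * m + 4) := by nlinarith [Nat.zero_le (C₁ * m)]
  calc δ ^ (C₁ * (m + 2) + (4 * m + 4)) ≤ δ ^ (C₁ + 1) := pow_le_pow_of_le_one hδ0.le (by linarith) hexp
    _ = η * δ := by rw [pow_succ]
    _ ≤ 1 / 2 * η := by nlinarith

end ClaimSAux

open ClaimSAux in
theorem claimS (m : ℕ) : ∃ C : ℕ, ∀ (δ : ℝ) (X : ℕ) [NeZero X] (J : Finset (Fin m)) (H0 : ℕ) (H W : Fin m → ℕ),
    0 < δ → δ ≤ 1 / 2 → (∀ j ∈ J, Adm δ C X H0 (H j) (W j)) → (δ⁻¹) ^ C ≤ H0 → (∀ j, 1 ≤ H j) →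
    ∀ (f : ZMod X → ℕ → ℂ) (g : Fin m → ZMod X → ℂ) (γ : ZMod X → (Fin m → ℕ) → ℂ), (∀ x t, ‖f x t‖ ≤ 1) →
    (∀ j x, ‖g j x‖ ≤ 1) → (∀ x u, ‖γ x u‖ ≤ 1) →
    δ * (X * H0 * ∏ j, (H j : ℝ)) ≤ ‖TS J H0 H f g γ‖ →
    ∃ q : ℕ, 1 ≤ q ∧ (q : ℝ) ≤ (δ⁻¹) ^ C ∧ ∀ ℓ : ℕ, (ℓ : ℝ) ≤ δ ^ C * H0 → q * ℓ ≤ H0 ∧
      δ ^ C * (X * H0 * ℓ) ≤ ∑ x : ZMod X, ∑ t ∈ Icc 1 (H0 - q * ℓ), ‖∑ i ∈ range ℓ, f x (t + q * i)‖ := by
  classical
  obtain ⟨Cs, hs⟩ := sslot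
  set K := Cs + 1 with hK
  set C₁ := K ^ m with hC₁
  have hK1 : 1 ≤ K := by omega
  refine ⟨C₁ * (m + 2) + (4 * m + 4), ?_⟩
  intro δ X _ J H0 H W hδ0 hδ hadm hH0 hH f g γ hf hg hγ hT
  have hδ1 : δ ≤ 1 := by linarith
  have hinv : 1 ≤ δ⁻¹ := (one_le_inv₀ hδ0).2 hδ1
  have hH0' : 1 ≤ H0 := by
    have : (1 : ℝ) ≤ H0 := (one_le_pow₀ hinv).trans hH0
    exact_mod_cast this
  have key : ∀ J' : Finset (Fin m), J' ⊆ J → ∃ (g' : Fin m → ZMod X → ℂ) (qq : Fin m → ℕ),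
      (∀ j x, ‖g' j x‖ ≤ 1) ∧
      (∀ j ∈ J', 1 ≤ qq j ∧ (qq j : ℝ) ≤ (δ⁻¹) ^ (K ^ J'.card) ∧ AInv (g' j) (qq j) (δ ^ (K ^ J'.card) * W j)) ∧
      δ ^ (K ^ J'.card) * (X * H0 * ∏ j, (H j : ℝ)) ≤ ‖TS J H0 H f g' γ‖ := by
    intro J'
    induction J' using Finset.induction_on with
    | empty =>
      intro _
      refine ⟨g, fun _ => 1, hg, by simp, ?_⟩
      simpa using hT
    | insert j₀ J' hj ih =>
      intro hJ
      obtain ⟨g', qq, h1, h2, h3⟩ := ih fun j hj' => hJ (mem_insert_of_mem hj')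
      have hj0 : j₀ ∈ J := hJ (mem_insert_self _ _)
      have hcard : J'.card + 1 ≤ m := by
        rw [← card_insert_of_notMem hj]
        exact (card_le_univ _).trans (by rw [Fintype.card_fin])
      rw [card_insert_of_notMem hj]
      set n := J'.card with hn
      have hKn : 1 ≤ K ^ n := Nat.one_le_pow _ _ hK1
      have hle1 : K ^ n * Cs ≤ K ^ (n + 1) := by
        rw [pow_succ]
        exact Nat.mul_le_mul_left _ (by omega)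
      have hle2 : K ^ (n + 1) ≤ C₁ := Nat.pow_le_pow_right hK1 hcard
      have hle3 : C₁ ≤ C₁ * (m + 2) + (4 * m + 4) := by nlinarith [Nat.zero_le (C₁ * m)]
      obtain ⟨q, φ, a1, a2, a3, a4, a5⟩ := hs (δ ^ (K ^ n)) X m J H0 (W j₀) H j₀ hj0
        (((hadm j₀ hj0).mono (hle1.trans (hle2.trans hle3))).pow (K ^ n) hKn) hH f g' γ hf h1 hγ h3
      rw [← pow_mul] at a4 a5
      rw [← inv_pow, ← pow_mul] at a2
      have e1 : δ ^ (K ^ (n + 1)) ≤ δ ^ (K ^ n * Cs) := pow_le_pow_of_le_one hδ0.le hδ1 hle1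
      have e2 : δ ^ (K ^ (n + 1)) ≤ δ ^ (K ^ n) :=
        pow_le_pow_of_le_one hδ0.le hδ1 (Nat.pow_le_pow_right hK1 (Nat.le_succ n))
      refine ⟨Function.update g' j₀ φ, Function.update qq j₀ q, ?_, ?_, ?_⟩
      · intro j x
        by_cases hjj : j = j₀
        · rw [hjj, Function.update_self]
          exact a3 x
        · rw [Function.update_of_ne hjj]
          exact h1 j x
      · intro j hj'
        by_cases hjj : j = j₀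
        · rw [hjj, Function.update_self, Function.update_self]
          exact ⟨a1, a2.trans (pow_le_pow_right₀ hinv hle1),
            ainv_anti a4 (mul_le_mul_of_nonneg_right e1 (Nat.cast_nonneg _))⟩
        · rw [Function.update_of_ne hjj, Function.update_of_ne hjj]
          obtain ⟨b1, b2, b3⟩ := h2 j (mem_of_mem_insert_of_ne hj' hjj)
          exact ⟨b1, b2.trans (pow_le_pow_right₀ hinv (Nat.pow_le_pow_right hK1 (Nat.le_succ n))),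
            ainv_anti b3 (mul_le_mul_of_nonneg_right e2 (Nat.cast_nonneg _))⟩
      · exact (mul_le_mul_of_nonneg_right e1 (by positivity)).trans a5
  obtain ⟨g', qq, h1, h2, h3⟩ := key J (Finset.Subset.refl J)
  have hJm : J.card ≤ m := (card_le_univ J).trans (by rw [Fintype.card_fin])
  have hKm : K ^ J.card ≤ C₁ := Nat.pow_le_pow_right hK1 hJm
  have e1 : δ ^ C₁ ≤ δ ^ (K ^ J.card) := pow_le_pow_of_le_one hδ0.le hδ1 hKm
  have hqpos : 1 ≤ ∏ j ∈ J, qq j := Finset.one_le_prod' fun j hj => (h2 j hj).1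
  have hq : ((∏ j ∈ J, qq j : ℕ) : ℝ) ≤ (δ⁻¹) ^ (C₁ * m) := by
    push_cast
    calc ∏ j ∈ J, (qq j : ℝ) ≤ ∏ _j ∈ J, (δ⁻¹) ^ C₁ :=
          Finset.prod_le_prod (fun j _ => Nat.cast_nonneg _) fun j hj =>
            (h2 j hj).2.1.trans (pow_le_pow_right₀ hinv hKm)
      _ = ((δ⁻¹) ^ C₁) ^ J.card := Finset.prod_const _
      _ ≤ ((δ⁻¹) ^ C₁) ^ m := pow_le_pow_right₀ (one_le_pow₀ hinv) hJm
      _ = _ := by rw [← pow_mul]
  have hA : ∀ j ∈ J, AInv (g' j) (∏ j ∈ J, qq j) (δ ^ C₁ * W j) := by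
    intro j hj
    rw [← Finset.mul_prod_erase J qq hj]
    exact ainv_anti ((h2 j hj).2.2.mul_q _) (mul_le_mul_of_nonneg_right e1 (Nat.cast_nonneg _))
  have h3' : δ ^ C₁ * (X * H0 * ∏ j, (H j : ℝ)) ≤ ‖TS J H0 H f g' γ‖ :=
    (mul_le_mul_of_nonneg_right e1 (by positivity)).trans h3
  refine ⟨∏ j ∈ J, qq j, hqpos, hq.trans (pow_le_pow_right₀ hinv ?_), fun ℓ hℓ => ?_⟩
  · nlinarith [Nat.zero_le (C₁ * m)]
  · exact step2 hδ0 hδ J H0 H W (fun j hj => (hadm j hj).le) hH0' hH f g' γ hf h1 hγ _ hq hA h3' ℓ hℓ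

end Pool.Agent.BLF
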