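import Pool.Agent.Lib.BLF.Slots
import Pool.Agent.Lib.HLT.TauPow
import Pool.Agent.Lib.VN.WeightsMs

/-!
# Module Corr: correlations at products from the mean square property of an interval

PROOF. `N = H₁ H₂ ≤ x`, `L = log x`, `A(u, u') = ∑_{n ≤ x} ff (n + (v + u)) ff (n + (v + u'))` for `1 ≤ u, u' ≤ N`. `|ff (zA A x) n| ≤ L²` for `n ≤ 2 x` and `x` large (as in the proof of `gen_ms` in `VN/WeightsMs`: `lp_le_sq`,
`nuz_le`, `DZ_inv_le`), so `|A| ≤ x L^4`. For fixed `u'` the mean square property of `Ioc v (v + N)` with the weight `h n = ff (n + (v + u'))` (`K' = 2`) gives `∑_{u ≤ N} A(u, u')² ≤ N x² / L^B'`. Group by the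
values of the products: the left side is `∑_{u, u' ≤ N} r(u) r(u') A(u,u')²` with `r(u) = #{(s, t) : s t = u} ≤ τ(u)` (`Nat.divisors`, the pair is determined by `s`), by Cauchy-Schwarz at most
`(∑_{u,u'} r(u)² r(u')²)^(1/2) (∑_{u,u'} A^4)^(1/2) ≤ (N (1 + log N)^4) (x² L^8 ∑ A²)^(1/2) ≤ N (1 + L)^4 x L^4 (N² x² / L^B')^(1/2) ≤ N² x² / L^B` for `B' = 2 B + 20` and `x` large
(`sum_tau_pow 2 N`; work with squares instead of square roots if convenient: `(∑ r r' A²)² ≤ (∑ r² r'²) (∑ A^4)`).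
-/

set_option autoImplicit false

open Finset Filter

namespace Pool.Agent.BLF

open Pool.Agent.HLB Pool.Agent.HL Pool.Agent.HLT Pool.Agent.HLU Pool.Agent.VN

namespace CorrAux

/-- A sum over products is bounded by the sum with the divisor function. -/
lemma sum_prod_le (H₁ H₂ : ℕ) (F : ℕ → ℝ) (hF : ∀ u, 0 ≤ F u) :
    ∑ s ∈ Icc 1 H₁, ∑ t ∈ Icc 1 H₂, F (s * t) ≤
      ∑ u ∈ Icc 1 (H₁ * H₂), (u.divisors.card : ℝ) * F u := by
  classical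
  rw [← Finset.sum_product']
  have hmaps : ∀ p ∈ Icc 1 H₁ ×ˢ Icc 1 H₂, p.1 * p.2 ∈ Icc 1 (H₁ * H₂) := by
    intro p hp
    rw [mem_product, mem_Icc, mem_Icc] at hp
    rw [mem_Icc]
    exact ⟨Nat.mul_pos hp.1.1 hp.2.1, Nat.mul_le_mul hp.1.2 hp.2.2⟩
  rw [← Finset.sum_fiberwise_of_maps_to hmaps]
  refine sum_le_sum fun u hu => ?_
  have h1 : ∑ p ∈ (Icc 1 H₁ ×ˢ Icc 1 H₂).filter (fun p : ℕ × ℕ => p.1 * p.2 = u), F (p.1 * p.2) =
      (((Icc 1 H₁ ×ˢ Icc 1 H₂).filter (fun p : ℕ × ℕ => p.1 * p.2 = u)).card : ℝ) * F u := by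
    rw [← nsmul_eq_mul, ← Finset.sum_const]
    refine sum_congr rfl fun p hp => ?_
    rw [(mem_filter.1 hp).2]
  rw [h1]
  refine mul_le_mul_of_nonneg_right ?_ (hF u)
  have h2 : ((Icc 1 H₁ ×ˢ Icc 1 H₂).filter (fun p : ℕ × ℕ => p.1 * p.2 = u)).card ≤ u.divisors.card := by
    refine Finset.card_le_card_of_injOn (fun p => p.1) ?_ ?_
    · intro p hp
      have hp' := mem_filter.1 (mem_coe.1 hp)
      rw [mem_coe, Nat.mem_divisors]
      rw [mem_Icc] at hu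
      exact ⟨⟨p.2, hp'.2.symm⟩, by omega⟩
    · intro p hp q hq hpq
      have hp' := mem_filter.1 (mem_coe.1 hp)
      have hq' := mem_filter.1 (mem_coe.1 hq)
      have hp1 := (mem_Icc.1 (mem_product.1 hp'.1).1).1
      have hpq' : p.1 = q.1 := hpq
      have h3 : p.1 * p.2 = p.1 * q.2 := by
        rw [hp'.2, hpq', hq'.2]
      have h4 : p.2 = q.2 := Nat.eq_of_mul_eq_mul_left (by omega) h3
      exact Prod.ext hpq' h4
  exact_mod_cast h2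

lemma cs_two (U : Finset ℕ) (r : ℕ → ℝ) (A : ℕ → ℕ → ℝ) :
    (∑ u ∈ U, r u * ∑ u' ∈ U, r u' * A u u' ^ 2) ^ 2 ≤
      (∑ u ∈ U, r u ^ 2) ^ 2 * ∑ u ∈ U, ∑ u' ∈ U, A u u' ^ 4 := by
  have h1 : ∑ u ∈ U, r u * ∑ u' ∈ U, r u' * A u u' ^ 2 =
      ∑ p ∈ U ×ˢ U, (r p.1 * r p.2) * (A p.1 p.2 ^ 2) := by
    rw [Finset.sum_product]
    refine sum_congr rfl fun u _ => ?_
    rw [mul_sum]
    exact sum_congr rfl fun u' _ => by ring
  have h2 : (∑ u ∈ U, r u ^ 2) ^ 2 = ∑ p ∈ U ×ˢ U, (r p.1 * r p.2) ^ 2 := by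
    rw [Finset.sum_product, pow_two, Finset.sum_mul]
    refine sum_congr rfl fun u _ => ?_
    rw [mul_sum]
    exact sum_congr rfl fun u' _ => by ring
  have h3 : ∑ u ∈ U, ∑ u' ∈ U, A u u' ^ 4 = ∑ p ∈ U ×ˢ U, (A p.1 p.2 ^ 2) ^ 2 := by
    rw [Finset.sum_product]
    exact sum_congr rfl fun u _ => sum_congr rfl fun u' _ => by ring
  rw [h1, h2, h3]
  exact Finset.sum_mul_sq_le_sq_mul_sq _ _ _

end CorrAux

open CorrAux in
theorem corr_edge (B : ℕ) : ∃ K' B' : ℕ, ∀ A : ℕ, ∀ᶠ x : ℕ in atTop, ∀ H₁ H₂ v : ℕ, 1 ≤ H₁ → 1 ≤ H₂ →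
    v + H₁ * H₂ ≤ x → MSP A K' B' x (Ioc v (v + H₁ * H₂)) →
    ∑ s ∈ Icc 1 H₁, ∑ s' ∈ Icc 1 H₁, ∑ t ∈ Icc 1 H₂, ∑ t' ∈ Icc 1 H₂,
      (∑ n ∈ Icc 1 x, ff (zA A x) (n + (v + s * t)) * ff (zA A x) (n + (v + s' * t'))) ^ 2 ≤
    ((H₁ : ℝ) * H₂) ^ 2 * ((x : ℝ) ^ 2 / Real.log x ^ B) := by
  refine ⟨2, 2 * B + 24, fun A => ?_⟩
  filter_upwards [DZ_inv_le A, ev_log 2, eventually_ge_atTop 1] with x h4 h5 hx1 H₁ H₂ v hH1 hH2 hv hms
  set L : ℝ := Real.log x with hL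
  set z : ℕ := zA A x with hz
  have hx0 : (0:ℝ) < x := by exact_mod_cast hx1
  have hL2 : (2:ℝ) ≤ L := h5
  have hL0 : (0:ℝ) < L := by linarith
  have hL1 : (1:ℝ) ≤ L := by linarith
  have hLL : L ≤ L ^ 2 := by nlinarith
  have hff : ∀ n : ℕ, n ≤ 2 * x → |ff z n| ≤ L ^ 2 := by
    intro n hn
    unfold ff
    have e1 : lp n ≤ L ^ 2 := lp_le_sq hL2 hn
    have e2 : nuz z n ≤ L ^ 2 := (nuz_le z n).trans (h4.trans hLL)
    have e3 := lp_nonneg n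
    have e4 := nuz_nonneg z n
    rw [abs_le]
    constructor <;> linarith
  set N : ℕ := H₁ * H₂ with hN
  have hN1 : 1 ≤ N := Nat.mul_pos hH1 hH2
  have hN0 : (0 : ℝ) < N := by exact_mod_cast hN1
  set Co : ℕ → ℕ → ℝ := fun u u' => ∑ n ∈ Icc 1 x, ff z (n + (v + u)) * ff z (n + (v + u')) with hCo
  have hCob : ∀ u ∈ Icc 1 N, ∀ u' ∈ Icc 1 N, |Co u u'| ≤ x * L ^ 4 := by
    intro u hu u' hu'
    rw [mem_Icc] at hu hu'
    refine (abs_sum_le_sum_abs _ _).trans ?_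
    have : ∀ n ∈ Icc 1 x, |ff z (n + (v + u)) * ff z (n + (v + u'))| ≤ L ^ 4 := by
      intro n hn
      rw [mem_Icc] at hn
      rw [abs_mul]
      calc |ff z (n + (v + u))| * |ff z (n + (v + u'))| ≤ L ^ 2 * L ^ 2 :=
            mul_le_mul (hff _ (by omega)) (hff _ (by omega)) (abs_nonneg _) (by positivity)
        _ = L ^ 4 := by ring
    refine (sum_le_sum this).trans ?_
    rw [sum_const, Nat.card_Icc, Nat.add_sub_cancel, nsmul_eq_mul]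
  have hcol : ∀ u' ∈ Icc 1 N, ∑ u ∈ Icc 1 N, Co u u' ^ 2 ≤ N * ((x : ℝ) ^ 2 / L ^ (2 * B + 24)) := by
    intro u' hu'
    rw [mem_Icc] at hu'
    have h1 := hms.2 (fun n => ((ff z (n + (v + u')) : ℝ) : ℂ)) (by
      intro n hn
      rw [mem_Icc] at hn
      rw [Complex.norm_real, Real.norm_eq_abs]
      exact hff _ (by omega))
    have h2 : (Ioc v (v + N)).card = N := by
      rw [Nat.card_Ioc]
      omega
    rw [h2] at h1
    refine le_trans (le_of_eq ?_) h1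
    refine Finset.sum_bij (fun u _ => v + u) ?_ ?_ ?_ ?_
    · intro u hu
      rw [mem_Icc] at hu
      rw [mem_Ioc]
      omega
    · intro u _ w _ h
      omega
    · intro w hw
      rw [mem_Ioc] at hw
      exact ⟨w - v, by rw [mem_Icc]; omega, by omega⟩
    · intro u _
      have : ∑ n ∈ Icc 1 x, ((ff z (n + (v + u')) : ℝ) : ℂ) * (ff z (n + (v + u)) : ℂ) =
          ((Co u u' : ℝ) : ℂ) := by
        rw [hCo]
        push_cast
        exact sum_congr rfl fun n _ => mul_comm _ _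
      rw [this, Complex.norm_real, Real.norm_eq_abs, sq_abs]
  have hfour : ∑ u ∈ Icc 1 N, ∑ u' ∈ Icc 1 N, Co u u' ^ 4 ≤
      (x * L ^ 4) ^ 2 * (N * (N * ((x : ℝ) ^ 2 / L ^ (2 * B + 24)))) := by
    rw [Finset.sum_comm]
    have h1 : ∀ u' ∈ Icc 1 N, ∑ u ∈ Icc 1 N, Co u u' ^ 4 ≤
        (x * L ^ 4) ^ 2 * (N * ((x : ℝ) ^ 2 / L ^ (2 * B + 24))) := by
      intro u' hu'
      have h2 : ∀ u ∈ Icc 1 N, Co u u' ^ 4 ≤ (x * L ^ 4) ^ 2 * Co u u' ^ 2 := by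
        intro u hu
        have h3 := hCob u hu u' hu'
        have h4 : Co u u' ^ 2 ≤ (x * L ^ 4) ^ 2 := by
          rw [← sq_abs]
          exact pow_le_pow_left₀ (abs_nonneg _) h3 2
        calc Co u u' ^ 4 = Co u u' ^ 2 * Co u u' ^ 2 := by ring
          _ ≤ (x * L ^ 4) ^ 2 * Co u u' ^ 2 := mul_le_mul_of_nonneg_right h4 (sq_nonneg _)
      refine (sum_le_sum h2).trans ?_
      rw [← mul_sum]
      exact mul_le_mul_of_nonneg_left (hcol u' hu') (by positivity)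
    refine (sum_le_sum h1).trans (le_of_eq ?_)
    rw [sum_const, Nat.card_Icc, Nat.add_sub_cancel, nsmul_eq_mul]
    ring
  -- the divisor sum
  have htau : ∑ u ∈ Icc 1 N, (u.divisors.card : ℝ) ^ 2 ≤ N * L ^ 8 := by
    refine (sum_tau_pow 2 N).trans ?_
    refine mul_le_mul_of_nonneg_left ?_ hN0.le
    have h1 : Real.log N ≤ L := by
      rw [hL]
      refine Real.log_le_log hN0 ?_
      have : N ≤ x := by omega
      exact_mod_cast this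
    have h0 : 0 ≤ Real.log N := Real.log_natCast_nonneg N
    have h2 : 1 + Real.log N ≤ L ^ 2 := by nlinarith
    calc (1 + Real.log N) ^ (2 ^ 2) ≤ (L ^ 2) ^ (2 ^ 2) := pow_le_pow_left₀ (by linarith) h2 _
      _ = L ^ 8 := by norm_num [← pow_mul]
  have htau0 : 0 ≤ ∑ u ∈ Icc 1 N, (u.divisors.card : ℝ) ^ 2 := sum_nonneg fun _ _ => by positivity
  -- grouping
  have hgroup : ∑ s ∈ Icc 1 H₁, ∑ s' ∈ Icc 1 H₁, ∑ t ∈ Icc 1 H₂, ∑ t' ∈ Icc 1 H₂,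
      (∑ n ∈ Icc 1 x, ff z (n + (v + s * t)) * ff z (n + (v + s' * t'))) ^ 2 ≤
      ∑ u ∈ Icc 1 N, (u.divisors.card : ℝ) * ∑ u' ∈ Icc 1 N, (u'.divisors.card : ℝ) * Co u u' ^ 2 := by
    have h1 : ∀ s ∈ Icc 1 H₁, ∑ s' ∈ Icc 1 H₁, ∑ t ∈ Icc 1 H₂, ∑ t' ∈ Icc 1 H₂,
        (∑ n ∈ Icc 1 x, ff z (n + (v + s * t)) * ff z (n + (v + s' * t'))) ^ 2 ≤
        ∑ t ∈ Icc 1 H₂, ∑ u' ∈ Icc 1 N, (u'.divisors.card : ℝ) * Co (s * t) u' ^ 2 := by
      intro s _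
      rw [Finset.sum_comm]
      refine sum_le_sum fun t _ => ?_
      exact sum_prod_le H₁ H₂ (fun u' => Co (s * t) u' ^ 2) fun _ => sq_nonneg _
    refine (sum_le_sum h1).trans ?_
    exact sum_prod_le H₁ H₂ (fun u => ∑ u' ∈ Icc 1 N, (u'.divisors.card : ℝ) * Co u u' ^ 2)
      fun _ => sum_nonneg fun _ _ => by positivity
  refine hgroup.trans ?_
  refine le_of_sq_le_sq ?_ (by positivity)
  have hcs := cs_two (Icc 1 N) (fun u => (u.divisors.card : ℝ)) Co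
  refine hcs.trans ?_
  have hNN : (H₁ : ℝ) * H₂ = N := by
    rw [hN]
    push_cast
    ring
  rw [hNN]
  calc (∑ u ∈ Icc 1 N, (u.divisors.card : ℝ) ^ 2) ^ 2 * ∑ u ∈ Icc 1 N, ∑ u' ∈ Icc 1 N, Co u u' ^ 4
      ≤ (N * L ^ 8) ^ 2 * ((x * L ^ 4) ^ 2 * (N * (N * ((x : ℝ) ^ 2 / L ^ (2 * B + 24))))) := by
        refine mul_le_mul (pow_le_pow_left₀ htau0 htau 2) hfour ?_ (by positivity)
        exact sum_nonneg fun _ _ => sum_nonneg fun _ _ => by positivity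
    _ = (N ^ 2 * ((x : ℝ) ^ 2 / L ^ B)) ^ 2 := by
        have e1 : L ^ (2 * B + 24) = (L ^ B) ^ 2 * L ^ 24 := by
          rw [← pow_mul, ← pow_add]
          congr 1
          omega
        rw [e1]
        field_simp

end Pool.Agent.BLF
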