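import Pool.Agent.Lib.BLF.Defs

/-!
# Module Cover: nice frequencies are covered by few small intervals

PROOF. For each `h ∈ A` choose `q ≤ M`, `1 ≤ q`, with `nrm (q (ξ h - ξ₀)) ≤ M / W`; let `a = round (q (ξ h - ξ₀))` and `θ = (ξ h - ξ₀) - a / q`, so `|θ| ≤ M / (q W) ≤ M / W`. Write
`a = q n + a₀` with `0 ≤ a₀ < q`, and `j = ⌊θ W / ρ⌋`, so `|j| ≤ M / ρ + 1`. With `β(q, a₀, j) = ξ₀ + a₀ / q + j ρ / W`: `|ξ h - β - n| = |θ - j ρ / W| ≤ ρ / W`. The number of the triples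
`(q, a₀, j)` is at most `M * M * (2 M / ρ + 3) ≤ 5 M³ / ρ` (`M ≥ 1`, `ρ ≤ 1`), so some triple is attained by at least `|A| ρ / (5 M³)` of the `h` (pigeonhole:
`Finset.exists_le_card_fiber_of_mul_le_card_of_maps_to` or similar). If `A` is empty take `A' = ∅`.
-/

set_option autoImplicit false

open Finset

namespace Pool.Agent.BLF

open Pool.Agent.HLT

theorem cover (M ρ ξ₀ : ℝ) (W : ℕ) (hW : 1 ≤ W) (hM : 1 ≤ M) (hρ : 0 < ρ) (hρ1 : ρ ≤ 1) (A : Finset ℤ) (ξ : ℤ → ℝ)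
    (hA : ∀ h ∈ A, Nice M W (ξ h - ξ₀)) :
    ∃ β : ℝ, ∃ A' ⊆ A, (A.card : ℝ) ≤ 5 * M ^ 3 / ρ * A'.card ∧
      ∀ h ∈ A', ∃ n : ℤ, |ξ h - β - n| ≤ ρ / W := by
  classical
  have hA' : ∀ h ∈ A, ∃ q : ℕ, 1 ≤ q ∧ (q : ℝ) ≤ M ∧ nrm (q * (ξ h - ξ₀)) ≤ M / W := hA
  choose! q hq1 hqM hqn using hA'
  have hW0 : (0 : ℝ) < W := by exact_mod_cast hW
  have hM0 : (0 : ℝ) < M := lt_of_lt_of_le one_pos hM
  set a : ℤ → ℤ := fun h => round ((q h : ℝ) * (ξ h - ξ₀)) with ha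
  set θ : ℤ → ℝ := fun h => (ξ h - ξ₀) - (a h : ℝ) / (q h : ℝ) with hθ
  set f : ℤ → ℕ × ℕ × ℤ := fun h => (q h, ((a h) % (q h : ℤ)).toNat, ⌊θ h * W / ρ⌋) with hf
  set T : Finset (ℕ × ℕ × ℤ) := Icc 1 ⌊M⌋₊ ×ˢ (range ⌊M⌋₊ ×ˢ Icc ⌊-(M / ρ)⌋ ⌊M / ρ⌋) with hT
  have hMρ : 1 ≤ M / ρ := by
    rw [le_div_iff₀ hρ]
    linarith
  have hfl : 1 ≤ ⌊M⌋₊ := by
    rw [Nat.one_le_floor_iff]
    exact hM
  -- the number of triples
  have hTcard : (T.card : ℝ) ≤ 5 * M ^ 3 / ρ := by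
    rw [hT, Finset.card_product, Finset.card_product, Nat.card_Icc, Finset.card_range, Int.card_Icc]
    have h1 : ((⌊M⌋₊ + 1 - 1 : ℕ) : ℝ) ≤ M := by
      rw [Nat.add_sub_cancel]
      exact Nat.floor_le hM0.le
    have h2 : ((⌊M⌋₊ : ℕ) : ℝ) ≤ M := Nat.floor_le hM0.le
    have h3 : (((⌊M / ρ⌋ + 1 - ⌊-(M / ρ)⌋).toNat : ℕ) : ℝ) ≤ 5 * (M / ρ) := by
      have h4 : (((⌊M / ρ⌋ + 1 - ⌊-(M / ρ)⌋).toNat : ℤ) : ℝ) =
          ((max (⌊M / ρ⌋ + 1 - ⌊-(M / ρ)⌋) 0 : ℤ) : ℝ) := by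
        rw [Int.toNat_eq_max]
      have h5 : (((⌊M / ρ⌋ + 1 - ⌊-(M / ρ)⌋).toNat : ℕ) : ℝ) =
          (((⌊M / ρ⌋ + 1 - ⌊-(M / ρ)⌋).toNat : ℤ) : ℝ) := by push_cast; rfl
      rw [h5, h4]
      push_cast
      refine max_le ?_ (by positivity)
      have h6 : ((⌊M / ρ⌋ : ℤ) : ℝ) ≤ M / ρ := Int.floor_le _
      have h7 : -(M / ρ) < ((⌊-(M / ρ)⌋ : ℤ) : ℝ) + 1 := Int.lt_floor_add_one _
      linarith
    push_cast at h1 ⊢
    calc ((⌊M⌋₊ + 1 - 1 : ℕ) : ℝ) * ((⌊M⌋₊ : ℝ) * ((⌊M / ρ⌋ + 1 - ⌊-(M / ρ)⌋).toNat : ℝ))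
        ≤ M * (M * (5 * (M / ρ))) := by
          refine mul_le_mul ?_ (mul_le_mul h2 h3 (Nat.cast_nonneg _) hM0.le) (by positivity) hM0.le
          rw [Nat.add_sub_cancel]
          exact h2
      _ = 5 * M ^ 3 / ρ := by ring
  -- the map
  have hθb : ∀ h ∈ A, |θ h| ≤ M / W := by
    intro h hh
    have hq0 : (0 : ℝ) < q h := by exact_mod_cast hq1 h hh
    have hq1' : (1 : ℝ) ≤ q h := by exact_mod_cast hq1 h hh
    have h1 : θ h = ((q h : ℝ) * (ξ h - ξ₀) - (a h : ℝ)) / (q h : ℝ) := by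
      simp only [hθ]
      field_simp
    have h2 : |(q h : ℝ) * (ξ h - ξ₀) - (a h : ℝ)| ≤ M / W := hqn h hh
    rw [h1, abs_div, abs_of_pos hq0]
    exact (div_le_self (abs_nonneg _) hq1').trans h2
  have hmaps : ∀ h ∈ A, f h ∈ T := by
    intro h hh
    have hq0 : (0 : ℤ) < (q h : ℤ) := by exact_mod_cast hq1 h hh
    have hqf : q h ≤ ⌊M⌋₊ := Nat.le_floor (hqM h hh)
    simp only [hf, hT, Finset.mem_product, Finset.mem_Icc, Finset.mem_range]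
    refine ⟨⟨hq1 h hh, hqf⟩, ?_, ?_, ?_⟩
    · have h1 := Int.emod_lt_of_pos (a h) hq0
      have h2 := Int.emod_nonneg (a h) hq0.ne'
      omega
    · apply Int.floor_le_floor
      have h1 := (abs_le.mp (hθb h hh)).1
      rw [le_div_iff₀ hρ]
      have h2 : -(M / W) * W ≤ θ h * W := mul_le_mul_of_nonneg_right h1 hW0.le
      have h3 : -(M / W) * W = -M := by field_simp
      have h4 : -(M / ρ) * ρ = -M := by field_simp
      linarith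
    · apply Int.floor_le_floor
      have h1 := (abs_le.mp (hθb h hh)).2
      rw [div_le_div_iff_of_pos_right hρ]
      have h2 : θ h * W ≤ (M / W) * W := mul_le_mul_of_nonneg_right h1 hW0.le
      have h3 : (M / W) * W = M := by field_simp
      linarith
  have hTne : T.Nonempty := by
    refine ⟨(1, 0, 0), ?_⟩
    simp only [hT, Finset.mem_product, Finset.mem_Icc, Finset.mem_range]
    refine ⟨⟨le_rfl, hfl⟩, by omega, ?_, ?_⟩
    · rw [← Int.cast_le (R := ℝ)]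
      have h1 : ((⌊-(M / ρ)⌋ : ℤ) : ℝ) ≤ -(M / ρ) := Int.floor_le _
      push_cast
      linarith
    · rw [Int.le_floor]
      push_cast
      linarith
  obtain ⟨b, _, hbmax⟩ := Finset.exists_max_image T (fun b => (A.filter (fun h => f h = b)).card) hTne
  have hcard := Finset.card_le_mul_card_image_of_maps_to hmaps _ hbmax
  refine ⟨ξ₀ + (b.2.1 : ℝ) / (b.1 : ℝ) + (b.2.2 : ℝ) * ρ / W, A.filter (fun h => f h = b),
    Finset.filter_subset _ _, ?_, ?_⟩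
  · have h1 : (A.card : ℝ) ≤ ((A.filter (fun h => f h = b)).card : ℝ) * (T.card : ℝ) := by exact_mod_cast hcard
    calc (A.card : ℝ) ≤ ((A.filter (fun h => f h = b)).card : ℝ) * (T.card : ℝ) := h1
      _ ≤ ((A.filter (fun h => f h = b)).card : ℝ) * (5 * M ^ 3 / ρ) :=
          mul_le_mul_of_nonneg_left hTcard (Nat.cast_nonneg _)
      _ = 5 * M ^ 3 / ρ * ((A.filter (fun h => f h = b)).card : ℝ) := mul_comm _ _
  · intro h hh
    rw [Finset.mem_filter] at hh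
    obtain ⟨hhA, hhb⟩ := hh
    have hq0 : (0 : ℝ) < q h := by exact_mod_cast hq1 h hhA
    have hq0' : (0 : ℤ) < (q h : ℤ) := by exact_mod_cast hq1 h hhA
    refine ⟨(a h) / (q h : ℤ), ?_⟩
    have e1 : b.1 = q h := by rw [← hhb]
    have e2 : b.2.1 = ((a h) % (q h : ℤ)).toNat := by rw [← hhb]
    have e3 : b.2.2 = ⌊θ h * W / ρ⌋ := by rw [← hhb]
    have e4 : ((b.2.1 : ℕ) : ℝ) = (((a h) % (q h : ℤ) : ℤ) : ℝ) := by
      rw [e2]
      have h2 := Int.emod_nonneg (a h) hq0'.ne'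
      have h3 : ((((a h) % (q h : ℤ)).toNat : ℕ) : ℤ) = (a h) % (q h : ℤ) := Int.toNat_of_nonneg h2
      exact_mod_cast congrArg (fun z : ℤ => (z : ℝ)) h3
    have e5 : (a h : ℝ) = (((a h) % (q h : ℤ) : ℤ) : ℝ) + (q h : ℝ) * (((a h) / (q h : ℤ) : ℤ) : ℝ) := by
      have h4 := Int.emod_add_mul_ediv (a h) (q h : ℤ)
      exact_mod_cast (congrArg (fun z : ℤ => (z : ℝ)) h4).symm
    have e6 : ξ h - (ξ₀ + (b.2.1 : ℝ) / (b.1 : ℝ) + (b.2.2 : ℝ) * ρ / W) - (((a h) / (q h : ℤ) : ℤ) : ℝ) =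
        (θ h * W / ρ - ⌊θ h * W / ρ⌋) * (ρ / W) := by
      rw [e3, e4, e1]
      have h5 : θ h = (ξ h - ξ₀) - ((((a h) % (q h : ℤ) : ℤ) : ℝ) + (q h : ℝ) * (((a h) / (q h : ℤ) : ℤ) : ℝ)) / (q h : ℝ) := by
        simp only [hθ]
        rw [← e5]
      have h6 : (θ h * W / ρ - (⌊θ h * W / ρ⌋ : ℝ)) * (ρ / W) = θ h - (⌊θ h * W / ρ⌋ : ℝ) * ρ / W := by
        field_simp
      rw [h6]
      have h7 : θ h = (ξ h - ξ₀) - (((a h) % (q h : ℤ) : ℤ) : ℝ) / (q h : ℝ) - (((a h) / (q h : ℤ) : ℤ) : ℝ) := by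
        rw [h5]
        field_simp
        ring
      linarith
    rw [e6, abs_mul, abs_of_pos (div_pos hρ hW0)]
    have h8 : |θ h * W / ρ - ⌊θ h * W / ρ⌋| ≤ 1 := by
      rw [abs_le]
      constructor
      · linarith [Int.floor_le (θ h * W / ρ)]
      · linarith [Int.lt_floor_add_one (θ h * W / ρ)]
    calc |θ h * W / ρ - ⌊θ h * W / ρ⌋| * (ρ / W) ≤ 1 * (ρ / W) :=
          mul_le_mul_of_nonneg_right h8 (by positivity)
      _ = ρ / W := one_mul _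

end Pool.Agent.BLF
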