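import Pool.Agent.Lib.HLT.Defs

/-!
# Bilinear shifts: definitions

`T(g) = ∑ x, ∑ ω, ∑ s, ∑ t, g (x + s t) a ω x s b ω x t` on `ZMod X`; `DX` is the dual function: `T(g) = |S| H₁ H₂ ∑ y, g y DX y`; `Dz` is
the same function on the integers (a window of `ZMod X`).
-/

set_option autoImplicit false

open Finset

namespace Pool.Agent.BLF

open Pool.Agent.HLT

/-- `g (x + h) * conj (g x)`. -/
noncomputable def Dl {X : ℕ} (h : ZMod X) (g : ZMod X → ℂ) (x : ZMod X) : ℂ :=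
  g (x + h) * (starRingEnd ℂ) (g x)

/-- The box sum of `g`. -/
noncomputable def QQ {X : ℕ} [NeZero X] (H₁ H₂ : ℕ) (g : ZMod X → ℂ) : ℝ :=
  ∑ x : ZMod X, ∑ t ∈ Icc 1 H₂, ∑ t' ∈ Icc 1 H₂,
    ‖∑ s ∈ Icc 1 H₁, g (x + ((s * t : ℕ) : ZMod X)) * (starRingEnd ℂ) (g (x + ((s * t' : ℕ) : ZMod X)))‖ ^ 2

/-- The sum of the second derivative. -/
noncomputable def Ph {X : ℕ} [NeZero X] (g : ZMod X → ℂ) (h₁ h₂ : ℤ) : ℂ :=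
  ∑ x : ZMod X, Dl (h₂ : ZMod X) (Dl (h₁ : ZMod X) g) x

/-- The dual function on `ZMod X`. -/
noncomputable def DX {X : ℕ} {Ω : Type} (H₁ H₂ : ℕ) (S : Finset Ω) (a b : Ω → ZMod X → ℕ → ℂ) (y : ZMod X) : ℂ :=
  (∑ ω ∈ S, ∑ s ∈ Icc 1 H₁, ∑ t ∈ Icc 1 H₂,
    a ω (y - ((s * t : ℕ) : ZMod X)) s * b ω (y - ((s * t : ℕ) : ZMod X)) t) / ((S.card : ℂ) * H₁ * H₂)

/-- The dual function on the integers. -/
noncomputable def Dz {Ω : Type} (H₁ H₂ : ℕ) (S : Finset Ω) (a b : Ω → ℤ → ℕ → ℂ) (k : ℤ) : ℂ :=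
  (∑ ω ∈ S, ∑ s ∈ Icc 1 H₁, ∑ t ∈ Icc 1 H₂,
    a ω (k - ((s * t : ℕ) : ℤ)) s * b ω (k - ((s * t : ℕ) : ℤ)) t) / ((S.card : ℂ) * H₁ * H₂)

open Classical in
/-- The number of pairs `t, t' ≤ H` with `‖ψ (t - t')‖ < ε`. -/
noncomputable def BadN (H : ℕ) (ψ ε : ℝ) : ℕ :=
  ((Icc 1 H ×ˢ Icc 1 H).filter (fun p : ℕ × ℕ => nrm (ψ * ((p.1 : ℝ) - p.2)) < ε)).card

/-- `ψ` is within `M / (q W)` of a rational number with denominator `q ≤ M`. -/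
def Nice (M : ℝ) (W : ℕ) (ψ : ℝ) : Prop := ∃ q : ℕ, 1 ≤ q ∧ (q : ℝ) ≤ M ∧ nrm (q * ψ) ≤ M / W

/-- `φ` is almost invariant under the shifts by the multiples `q k ≤ ρ R` of `q`, up to `ρ` on average. -/
def AInv {X : ℕ} [NeZero X] (φ : ZMod X → ℂ) (q : ℕ) (R : ℝ) : Prop :=
  ∀ ρ : ℝ, 0 < ρ → ρ ≤ 1 → ∀ k : ℕ, ((q * k : ℕ) : ℝ) ≤ ρ * R →
    ∑ x : ZMod X, ‖φ (x + ((q * k : ℕ) : ZMod X)) - φ x‖ ≤ ρ * X

/-- The 4-linear form. -/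
noncomputable def BB {X : ℕ} [NeZero X] (H₁ H₂ : ℕ) (c F₁ F₂ F₃ F₄ : ZMod X → ℂ) : ℂ :=
  ∑ x : ZMod X, ∑ s ∈ Icc 1 H₁, ∑ s' ∈ Icc 1 H₁, ∑ t ∈ Icc 1 H₂, ∑ t' ∈ Icc 1 H₂,
    c x * F₁ (x + ((s * t : ℕ) : ZMod X)) * F₂ (x + ((s' * t : ℕ) : ZMod X)) *
      F₃ (x + ((s * t' : ℕ) : ZMod X)) * F₄ (x + ((s' * t' : ℕ) : ZMod X))

/-- The admissible sizes: `H₁ H₂ ≤ W ≤ 2 H₁ H₂`, `W ∣ X`, everything is large in terms of `δ`, and `log W ≤ 1 / δ`. -/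
structure Adm (δ : ℝ) (C X H₁ H₂ W : ℕ) : Prop where
  pos : 0 < δ
  half : δ ≤ 1 / 2
  dvd : W ∣ X
  le : H₁ * H₂ ≤ W
  le2 : W ≤ 2 * (H₁ * H₂)
  log : 1 + Real.log W ≤ δ⁻¹
  one : (δ⁻¹) ^ C ≤ H₁
  two : (δ⁻¹) ^ C ≤ H₂

/-- The admissible sizes for a window. -/
structure Loc (δ : ℝ) (C H₁ H₂ W : ℕ) : Prop where
  pos : 0 < δ
  half : δ ≤ 1 / 2
  le : H₁ * H₂ ≤ W
  le2 : W ≤ 2 * (H₁ * H₂)
  one : (δ⁻¹) ^ C ≤ H₁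
  two : (δ⁻¹) ^ C ≤ H₂

lemma Adm.loc {δ : ℝ} {C X H₁ H₂ W : ℕ} (h : Adm δ C X H₁ H₂ W) : Loc δ C H₁ H₂ W :=
  ⟨h.pos, h.half, h.le, h.le2, h.one, h.two⟩

lemma Loc.one_le_inv {δ : ℝ} {C H₁ H₂ W : ℕ} (h : Loc δ C H₁ H₂ W) : 1 ≤ δ⁻¹ := by
  rw [one_le_inv₀ h.pos]
  linarith [h.half]

lemma Loc.mono {δ : ℝ} {C C' H₁ H₂ W : ℕ} (h : Loc δ C H₁ H₂ W) (hC : C' ≤ C) : Loc δ C' H₁ H₂ W :=
  ⟨h.pos, h.half, h.le, h.le2, (pow_le_pow_right₀ h.one_le_inv hC).trans h.one,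
    (pow_le_pow_right₀ h.one_le_inv hC).trans h.two⟩

lemma Loc.pow {δ : ℝ} {C H₁ H₂ W : ℕ} (k : ℕ) (hk : 1 ≤ k) (h : Loc δ (k * C) H₁ H₂ W) :
    Loc (δ ^ k) C H₁ H₂ W := by
  have h2 : δ ^ k ≤ δ := by
    calc δ ^ k ≤ δ ^ 1 := pow_le_pow_of_le_one h.pos.le (by linarith [h.half]) hk
      _ = δ := pow_one δ
  refine ⟨pow_pos h.pos k, h2.trans h.half, h.le, h.le2, ?_, ?_⟩
  · rw [← inv_pow, ← pow_mul]
    exact h.one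
  · rw [← inv_pow, ← pow_mul]
    exact h.two

lemma Loc.pos1 {δ : ℝ} {C H₁ H₂ W : ℕ} (h : Loc δ C H₁ H₂ W) : 1 ≤ H₁ := by
  have h1 : (1 : ℝ) ≤ H₁ := (one_le_pow₀ h.one_le_inv).trans h.one
  exact_mod_cast h1

lemma Loc.pos2 {δ : ℝ} {C H₁ H₂ W : ℕ} (h : Loc δ C H₁ H₂ W) : 1 ≤ H₂ := by
  have h1 : (1 : ℝ) ≤ H₂ := (one_le_pow₀ h.one_le_inv).trans h.two
  exact_mod_cast h1

lemma Loc.posW {δ : ℝ} {C H₁ H₂ W : ℕ} (h : Loc δ C H₁ H₂ W) : 1 ≤ W :=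
  le_trans (Nat.mul_le_mul h.pos1 h.pos2) h.le

lemma norm_Dl_le {X : ℕ} (h : ZMod X) (g : ZMod X → ℂ) (hg : ∀ x, ‖g x‖ ≤ 1) (x : ZMod X) : ‖Dl h g x‖ ≤ 1 := by
  unfold Dl
  rw [norm_mul, Complex.norm_conj]
  exact mul_le_one₀ (hg _) (norm_nonneg _) (hg _)

lemma sum_shift {X : ℕ} [NeZero X] {M : Type} [AddCommMonoid M] (f : ZMod X → M) (u : ZMod X) :
    ∑ x : ZMod X, f (x + u) = ∑ x : ZMod X, f x :=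
  Equiv.sum_comp (Equiv.addRight u) f

lemma sum_shift_sub {X : ℕ} [NeZero X] {M : Type} [AddCommMonoid M] (f : ZMod X → M) (u : ZMod X) :
    ∑ x : ZMod X, f (x - u) = ∑ x : ZMod X, f x :=
  Equiv.sum_comp (Equiv.subRight u) f

lemma norm_Ph_le {X : ℕ} [NeZero X] (g : ZMod X → ℂ) (hg : ∀ x, ‖g x‖ ≤ 1) (h₁ h₂ : ℤ) : ‖Ph g h₁ h₂‖ ≤ X := by
  unfold Ph
  refine (norm_sum_le _ _).trans ?_
  refine (Finset.sum_le_sum fun x _ => norm_Dl_le _ _ (norm_Dl_le _ g hg) x).trans ?_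
  rw [Finset.sum_const, Finset.card_univ, ZMod.card, nsmul_eq_mul, mul_one]

/-- A window of `DX` is `Dz`. -/
lemma DX_add {X : ℕ} {Ω : Type} (H₁ H₂ : ℕ) (S : Finset Ω) (a b : Ω → ZMod X → ℕ → ℂ) (x : ZMod X) (k : ℤ) :
    DX H₁ H₂ S a b (x + (k : ZMod X)) =
      Dz H₁ H₂ S (fun ω z s => a ω (x + (z : ZMod X)) s) (fun ω z t => b ω (x + (z : ZMod X)) t) k := by
  unfold DX Dz
  congr 1
  refine Finset.sum_congr rfl fun ω _ => Finset.sum_congr rfl fun s _ => Finset.sum_congr rfl fun t _ => ?_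
  have h : x + (k : ZMod X) - ((s * t : ℕ) : ZMod X) = x + ((k - ((s * t : ℕ) : ℤ) : ℤ) : ZMod X) := by
    push_cast
    ring
  rw [h]

lemma norm_Dz_le {Ω : Type} (H₁ H₂ : ℕ) (S : Finset Ω) (a b : Ω → ℤ → ℕ → ℂ) (ha : ∀ ω z s, ‖a ω z s‖ ≤ 1)
    (hb : ∀ ω z t, ‖b ω z t‖ ≤ 1) (k : ℤ) : ‖Dz H₁ H₂ S a b k‖ ≤ 1 := by
  unfold Dz
  rw [norm_div]
  refine div_le_one_of_le₀ ?_ (norm_nonneg _)
  have h1 : ‖((S.card : ℂ) * H₁ * H₂)‖ = ∑ _ω ∈ S, ∑ _s ∈ Icc 1 H₁, ∑ _t ∈ Icc 1 H₂, (1 : ℝ) := by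
    simp only [Finset.sum_const, Nat.card_Icc, Nat.add_sub_cancel, nsmul_eq_mul, mul_one, norm_mul, Complex.norm_natCast]
    ring
  rw [h1]
  refine norm_sum_le_of_le _ fun ω _ => norm_sum_le_of_le _ fun s _ => norm_sum_le_of_le _ fun t _ => ?_
  rw [norm_mul]
  exact mul_le_one₀ (ha _ _ _) (norm_nonneg _) (hb _ _ _)

lemma norm_DX_le {X : ℕ} {Ω : Type} (H₁ H₂ : ℕ) (S : Finset Ω) (a b : Ω → ZMod X → ℕ → ℂ)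
    (ha : ∀ ω z s, ‖a ω z s‖ ≤ 1) (hb : ∀ ω z t, ‖b ω z t‖ ≤ 1) (y : ZMod X) : ‖DX H₁ H₂ S a b y‖ ≤ 1 := by
  have h := DX_add H₁ H₂ S a b y 0
  rw [Int.cast_zero, add_zero] at h
  rw [h]
  exact norm_Dz_le H₁ H₂ S _ _ (fun ω z s => ha _ _ _) (fun ω z t => hb _ _ _) 0

/-- `T(g)` in terms of the dual function. -/
lemma sum_mul_DX {X : ℕ} [NeZero X] {Ω : Type} (H₁ H₂ : ℕ) (S : Finset Ω) (a b : Ω → ZMod X → ℕ → ℂ)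
    (g : ZMod X → ℂ) :
    ∑ y : ZMod X, g y * DX H₁ H₂ S a b y =
      (∑ x : ZMod X, ∑ ω ∈ S, ∑ s ∈ Icc 1 H₁, ∑ t ∈ Icc 1 H₂,
        g (x + ((s * t : ℕ) : ZMod X)) * a ω x s * b ω x t) / ((S.card : ℂ) * H₁ * H₂) := by
  unfold DX
  simp only [← mul_div_assoc]
  rw [← Finset.sum_div]
  congr 1
  simp only [Finset.mul_sum]
  rw [Finset.sum_comm, Finset.sum_comm (s := univ) (t := S)]
  refine Finset.sum_congr rfl fun ω _ => ?_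
  rw [Finset.sum_comm, Finset.sum_comm (s := univ) (t := Icc 1 H₁)]
  refine Finset.sum_congr rfl fun s _ => ?_
  rw [Finset.sum_comm, Finset.sum_comm (s := univ) (t := Icc 1 H₂)]
  refine Finset.sum_congr rfl fun t _ => ?_
  rw [← sum_shift _ (((s * t : ℕ) : ZMod X))]
  refine Finset.sum_congr rfl fun x _ => ?_
  rw [add_sub_cancel_right]
  ring

/-- The monotonicity of the admissibility in the exponent. -/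
lemma Adm.mono {δ : ℝ} {C C' X H₁ H₂ W : ℕ} (h : Adm δ C X H₁ H₂ W) (hC : C' ≤ C) : Adm δ C' X H₁ H₂ W := by
  have h1 : 1 ≤ δ⁻¹ := by
    rw [one_le_inv₀ h.pos]
    linarith [h.half]
  exact ⟨h.pos, h.half, h.dvd, h.le, h.le2, h.log, (pow_le_pow_right₀ h1 hC).trans h.one,
    (pow_le_pow_right₀ h1 hC).trans h.two⟩

/-- Passing from `δ` to `δ ^ k`. -/
lemma Adm.pow {δ : ℝ} {C X H₁ H₂ W : ℕ} (k : ℕ) (hk : 1 ≤ k) (h : Adm δ (k * C) X H₁ H₂ W) :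
    Adm (δ ^ k) C X H₁ H₂ W := by
  have h1 : 1 ≤ δ⁻¹ := by
    rw [one_le_inv₀ h.pos]
    linarith [h.half]
  have h2 : δ ^ k ≤ δ := by
    calc δ ^ k ≤ δ ^ 1 := pow_le_pow_of_le_one h.pos.le (by linarith [h.half]) hk
      _ = δ := pow_one δ
  refine ⟨pow_pos h.pos k, h2.trans h.half, h.dvd, h.le, h.le2, h.log.trans ?_, ?_, ?_⟩
  · exact inv_anti₀ (pow_pos h.pos k) h2
  · rw [← inv_pow, ← pow_mul]
    exact h.one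
  · rw [← inv_pow, ← pow_mul]
    exact h.two

end Pool.Agent.BLF
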