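import Pool.Agent.Lib.HLT.TauPow

/-!
# Module DivSum: products with the multiplicity of the divisor function

Let `N = H₁ H₂`. PROOF. The terms with `r = 0` (at most `H₂² H₁²`), `s = s'` (at most `H₂² 2 H₁ H₁`) or `t = t'` (at most `H₂ 2 H₁ H₁²`) are at most
`K H₁² H₂ (3 H₂ + 2 H₁)` together. For the others group by `h₁ = r t ≠ 0` and `h₂ = (s - s') (t - t') ≠ 0`, both in `Icc (-N) N`: given `h₁`, `t` is one of the `τ(|h₁|)` divisors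
of `|h₁|` and `r = h₁ / t`; given `t` and `h₂`, `t - t'` is one of the at most `2 τ(|h₂|)` integers dividing `h₂`, `s - s'` is determined, and `s` has at most `H₁`
values. So these terms are at most `2 H₁ ∑_{h₁, h₂ ≠ 0} τ(|h₁|) τ(|h₂|) f h₁ h₂ ≤ 2 H₁ (∑_{h ≠ 0, |h| ≤ N} τ(|h|)²) (∑ ∑ f²)^(1/2)` (Cauchy-Schwarz for the double sum; the sum
of `τ(|h₁|)² τ(|h₂|)²` is the square of the single sum), and `∑_{0 < |h| ≤ N} τ(|h|)² ≤ 2 N (1 + log N)^4` (`sum_tau_pow 2 N`).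
(A convenient way to count: the number of `(t, r)` with `r t = h₁` is at most `(h₁.natAbs).divisors.card` by the injection `t`; for the fibre of `(t', s, s')` use the
injection to `(t' , s)`, `t' ↦ |t - t'| ∈ divisors |h₂|` is at most 2 to 1.)
-/

set_option autoImplicit false

open Finset

namespace Pool.Agent.BLF

open Pool.Agent.HLT

/-- one divisor sum -/
lemma ds_one (H₁ H₂ : ℕ) (F : ℤ → ℝ) (hF : ∀ h, 0 ≤ F h) :
    ∑ t ∈ Icc 1 H₂, ∑ r ∈ (Ioo (-(H₁ : ℤ)) H₁).filter (fun r => r ≠ 0), F (r * t) ≤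
      ∑ h ∈ (Icc (-((H₁ * H₂ : ℕ) : ℤ)) ((H₁ * H₂ : ℕ) : ℤ)).filter (fun h => h ≠ 0),
        (h.natAbs.divisors.card : ℝ) * F h := by
  classical
  rw [← Finset.sum_product']
  have e : ∑ h ∈ (Icc (-((H₁ * H₂ : ℕ) : ℤ)) ((H₁ * H₂ : ℕ) : ℤ)).filter (fun h => h ≠ 0),
      (h.natAbs.divisors.card : ℝ) * F h =
      ∑ p ∈ ((Icc (-((H₁ * H₂ : ℕ) : ℤ)) ((H₁ * H₂ : ℕ) : ℤ)).filter (fun h => h ≠ 0)).sigma
        (fun h => h.natAbs.divisors), F p.1 := by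
    rw [Finset.sum_sigma]
    refine Finset.sum_congr rfl fun h _ => ?_
    simp only [Finset.sum_const, nsmul_eq_mul]
  rw [e]
  have e2 : ∑ p ∈ Icc 1 H₂ ×ˢ (Ioo (-(H₁ : ℤ)) H₁).filter (fun r => r ≠ 0), F (p.2 * p.1) =
      ∑ q ∈ (Icc 1 H₂ ×ˢ (Ioo (-(H₁ : ℤ)) H₁).filter (fun r => r ≠ 0)).image
        (fun p : ℕ × ℤ => (⟨p.2 * p.1, p.1⟩ : Σ _ : ℤ, ℕ)), F q.1 := by
    rw [Finset.sum_image]
    rintro ⟨t, r⟩ hp ⟨t', r'⟩ hp' h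
    rw [Finset.mem_coe, Finset.mem_product, Finset.mem_Icc] at hp hp'
    simp only [Sigma.mk.injEq, heq_eq_eq] at h
    obtain ⟨h1, h2⟩ := h
    subst h2
    have ht : (t : ℤ) ≠ 0 := by
      have := hp.1.1
      simp only at this
      omega
    have := mul_right_cancel₀ ht h1
    rw [this]
  rw [e2]
  refine Finset.sum_le_sum_of_subset_of_nonneg ?_ fun q _ _ => hF _
  intro q hq
  obtain ⟨⟨t, r⟩, hp, rfl⟩ := Finset.mem_image.mp hq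
  rw [Finset.mem_product, Finset.mem_Icc, Finset.mem_filter, Finset.mem_Ioo] at hp
  obtain ⟨⟨ht1, ht2⟩, ⟨hr1, hr2⟩, hr0⟩ := hp
  simp only at ht1 ht2 hr1 hr2 hr0
  have ht0 : (t : ℤ) ≠ 0 := by omega
  rw [Finset.mem_sigma, Finset.mem_filter, Finset.mem_Icc]
  refine ⟨⟨?_, mul_ne_zero hr0 ht0⟩, ?_⟩
  · have h1 : |r * (t : ℤ)| ≤ ((H₁ * H₂ : ℕ) : ℤ) := by
      rw [abs_mul]
      push_cast
      refine mul_le_mul ?_ ?_ (abs_nonneg _) (Nat.cast_nonneg _)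
      · rw [abs_le]
        constructor <;> linarith
      · rw [abs_of_nonneg (Nat.cast_nonneg t)]
        exact_mod_cast ht2
    rw [abs_le] at h1
    exact h1
  · rw [Nat.mem_divisors]
    simp only [Int.natAbs_mul, Int.natAbs_natCast]
    refine ⟨dvd_mul_left _ _, mul_ne_zero ?_ (by omega)⟩
    rw [Int.natAbs_ne_zero]
    exact hr0

/-- the sum over the differences -/
lemma ds_two (H₁ H₂ : ℕ) (F : ℤ → ℝ) (hF : ∀ h, 0 ≤ F h) :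
    ∑ k ∈ (Ioo (-(H₂ : ℤ)) H₂).filter (fun k => k ≠ 0),
      ∑ d ∈ (Ioo (-(H₁ : ℤ)) H₁).filter (fun d => d ≠ 0), F (d * k) ≤
      2 * ∑ h ∈ (Icc (-((H₁ * H₂ : ℕ) : ℤ)) ((H₁ * H₂ : ℕ) : ℤ)).filter (fun h => h ≠ 0),
        (h.natAbs.divisors.card : ℝ) * F h := by
  classical
  set W : Finset ℤ := (Ioo (-(H₁ : ℤ)) H₁).filter (fun d => d ≠ 0) with hW
  set V : Finset ℤ := (Icc (-((H₁ * H₂ : ℕ) : ℤ)) ((H₁ * H₂ : ℕ) : ℤ)).filter (fun h => h ≠ 0) with hV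
  have hG : ∀ k : ℤ, 0 ≤ ∑ d ∈ W, F (d * k) := fun k => Finset.sum_nonneg fun d _ => hF _
  -- the positive and the negative `k`
  have h1 : ∑ k ∈ (Ioo (-(H₂ : ℤ)) H₂).filter (fun k => k ≠ 0), ∑ d ∈ W, F (d * k) ≤
      ∑ k ∈ (Icc 1 H₂).image (fun k : ℕ => (k : ℤ)) ∪ (Icc 1 H₂).image (fun k : ℕ => -(k : ℤ)),
        ∑ d ∈ W, F (d * k) := by
    refine Finset.sum_le_sum_of_subset_of_nonneg ?_ fun k _ _ => hG k
    intro k hk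
    rw [Finset.mem_filter, Finset.mem_Ioo] at hk
    rw [Finset.mem_union, Finset.mem_image, Finset.mem_image]
    rcases lt_or_gt_of_ne hk.2 with h | h
    · right
      refine ⟨k.natAbs, ?_, ?_⟩
      · rw [Finset.mem_Icc]
        omega
      · omega
    · left
      refine ⟨k.natAbs, ?_, ?_⟩
      · rw [Finset.mem_Icc]
        omega
      · omega
  have h2 : ∑ k ∈ (Icc 1 H₂).image (fun k : ℕ => (k : ℤ)) ∪ (Icc 1 H₂).image (fun k : ℕ => -(k : ℤ)),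
        ∑ d ∈ W, F (d * k) ≤
      ∑ k ∈ (Icc 1 H₂).image (fun k : ℕ => (k : ℤ)), ∑ d ∈ W, F (d * k) +
        ∑ k ∈ (Icc 1 H₂).image (fun k : ℕ => -(k : ℤ)), ∑ d ∈ W, F (d * k) := by
    have := Finset.sum_union_inter (s₁ := (Icc 1 H₂).image (fun k : ℕ => (k : ℤ)))
      (s₂ := (Icc 1 H₂).image (fun k : ℕ => -(k : ℤ))) (f := fun k => ∑ d ∈ W, F (d * k))
    have h0 : 0 ≤ ∑ k ∈ (Icc 1 H₂).image (fun k : ℕ => (k : ℤ)) ∩ (Icc 1 H₂).image (fun k : ℕ => -(k : ℤ)),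
        ∑ d ∈ W, F (d * k) := Finset.sum_nonneg fun k _ => hG k
    linarith
  have h3 : ∑ k ∈ (Icc 1 H₂).image (fun k : ℕ => (k : ℤ)), ∑ d ∈ W, F (d * k) =
      ∑ t ∈ Icc 1 H₂, ∑ d ∈ W, F (d * t) := by
    rw [Finset.sum_image]
    intro a _ b _ h
    exact Nat.cast_injective h
  have h4 : ∑ k ∈ (Icc 1 H₂).image (fun k : ℕ => -(k : ℤ)), ∑ d ∈ W, F (d * k) =
      ∑ t ∈ Icc 1 H₂, ∑ d ∈ W, F (d * t) := by
    rw [Finset.sum_image]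
    · refine Finset.sum_congr rfl fun t _ => ?_
      refine Finset.sum_bij' (fun d _ => -d) (fun d _ => -d) ?_ ?_ ?_ ?_ ?_
      · intro d hd
        rw [hW, Finset.mem_filter, Finset.mem_Ioo] at hd ⊢
        omega
      · intro d hd
        rw [hW, Finset.mem_filter, Finset.mem_Ioo] at hd ⊢
        omega
      · intro d _
        exact neg_neg d
      · intro d _
        exact neg_neg d
      · intro d _
        congr 1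
        ring
    · intro a _ b _ h
      simp only [neg_inj] at h
      exact_mod_cast h
  have h5 := ds_one H₁ H₂ F hF
  rw [← hW, ← hV] at h5
  rw [h3, h4] at h2
  linarith

/-- the second moment -/
lemma ds_tau (N : ℕ) :
    ∑ h ∈ (Icc (-(N : ℤ)) (N : ℤ)).filter (fun h => h ≠ 0), (h.natAbs.divisors.card : ℝ) ^ 2 ≤
      2 * (N * (1 + Real.log N) ^ 4) := by
  classical
  have h1 : ∑ h ∈ (Icc (-(N : ℤ)) (N : ℤ)).filter (fun h => h ≠ 0), (h.natAbs.divisors.card : ℝ) ^ 2 ≤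
      ∑ h ∈ (Icc 1 N).image (fun k : ℕ => (k : ℤ)) ∪ (Icc 1 N).image (fun k : ℕ => -(k : ℤ)),
        (h.natAbs.divisors.card : ℝ) ^ 2 := by
    refine Finset.sum_le_sum_of_subset_of_nonneg ?_ fun k _ _ => by positivity
    intro k hk
    rw [Finset.mem_filter, Finset.mem_Icc] at hk
    rw [Finset.mem_union, Finset.mem_image, Finset.mem_image]
    rcases lt_or_gt_of_ne hk.2 with h | h
    · right
      refine ⟨k.natAbs, ?_, ?_⟩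
      · rw [Finset.mem_Icc]
        omega
      · omega
    · left
      refine ⟨k.natAbs, ?_, ?_⟩
      · rw [Finset.mem_Icc]
        omega
      · omega
  have h2 := Finset.sum_union_inter (s₁ := (Icc 1 N).image (fun k : ℕ => (k : ℤ)))
      (s₂ := (Icc 1 N).image (fun k : ℕ => -(k : ℤ))) (f := fun h : ℤ => (h.natAbs.divisors.card : ℝ) ^ 2)
  have h0 : 0 ≤ ∑ h ∈ (Icc 1 N).image (fun k : ℕ => (k : ℤ)) ∩ (Icc 1 N).image (fun k : ℕ => -(k : ℤ)),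
        (h.natAbs.divisors.card : ℝ) ^ 2 := Finset.sum_nonneg fun k _ => by positivity
  have h3 : ∑ h ∈ (Icc 1 N).image (fun k : ℕ => (k : ℤ)), (h.natAbs.divisors.card : ℝ) ^ 2 =
      ∑ d ∈ Icc 1 N, (d.divisors.card : ℝ) ^ 2 := by
    rw [Finset.sum_image]
    · simp only [Int.natAbs_natCast]
    · intro a _ b _ h
      exact Nat.cast_injective h
  have h4 : ∑ h ∈ (Icc 1 N).image (fun k : ℕ => -(k : ℤ)), (h.natAbs.divisors.card : ℝ) ^ 2 =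
      ∑ d ∈ Icc 1 N, (d.divisors.card : ℝ) ^ 2 := by
    rw [Finset.sum_image]
    · simp only [Int.natAbs_neg, Int.natAbs_natCast]
    · intro a _ b _ h
      simp only [neg_inj] at h
      exact_mod_cast h
  have h5 := sum_tau_pow 2 N
  norm_num at h5
  rw [h3, h4] at h2
  linarith

/-- the sum over `s'` with the difference `s - s'` -/
lemma ds_diff (H : ℕ) (F : ℤ → ℝ) (hF : ∀ h, 0 ≤ F h) (s : ℕ) (hs : s ∈ Icc 1 H) :
    ∑ s' ∈ Icc 1 H, (if s ≠ s' then F ((s : ℤ) - s') else 0) ≤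
      ∑ d ∈ (Ioo (-(H : ℤ)) H).filter (fun d => d ≠ 0), F d := by
  classical
  rw [← Finset.sum_filter]
  have e : ∑ s' ∈ (Icc 1 H).filter (fun s' => s ≠ s'), F ((s : ℤ) - s') =
      ∑ d ∈ ((Icc 1 H).filter (fun s' => s ≠ s')).image (fun s' : ℕ => (s : ℤ) - s'), F d := by
    rw [Finset.sum_image]
    intro a _ b _ h
    simp only [sub_right_inj] at h
    exact Nat.cast_injective h
  rw [e]
  refine Finset.sum_le_sum_of_subset_of_nonneg ?_ fun q _ _ => hF _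
  intro d hd
  obtain ⟨s', hs', rfl⟩ := Finset.mem_image.mp hd
  rw [Finset.mem_filter, Finset.mem_Icc] at hs'
  rw [Finset.mem_Icc] at hs
  rw [Finset.mem_filter, Finset.mem_Ioo]
  omega

lemma ds_main (H₁ H₂ : ℕ) (f : ℤ → ℤ → ℝ) (hf0 : ∀ h h', 0 ≤ f h h') :
    ∑ t ∈ Icc 1 H₂, ∑ t' ∈ Icc 1 H₂, ∑ r ∈ Ioo (-(H₁ : ℤ)) H₁, ∑ s ∈ Icc 1 H₁, ∑ s' ∈ Icc 1 H₁,
        (if t ≠ t' then (if r ≠ 0 then (if s ≠ s' then f (r * t) (((s : ℤ) - s') * ((t : ℤ) - t')) else 0)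
          else 0) else 0) ≤
      4 * H₁ * (H₁ * H₂) * (1 + Real.log ((H₁ * H₂ : ℕ) : ℝ)) ^ 4 *
          Real.sqrt (∑ h ∈ Icc (-((H₁ * H₂ : ℕ) : ℤ)) ((H₁ * H₂ : ℕ) : ℤ),
            ∑ h' ∈ Icc (-((H₁ * H₂ : ℕ) : ℤ)) ((H₁ * H₂ : ℕ) : ℤ), f h h' ^ 2) := by
  classical
  set W : Finset ℤ := (Ioo (-(H₁ : ℤ)) H₁).filter (fun d => d ≠ 0) with hW
  set V : Finset ℤ := (Icc (-((H₁ * H₂ : ℕ) : ℤ)) ((H₁ * H₂ : ℕ) : ℤ)).filter (fun h => h ≠ 0) with hV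
  set τ : ℤ → ℝ := fun h => (h.natAbs.divisors.card : ℝ) with hτ
  have hτ0 : ∀ h, 0 ≤ τ h := fun h => Nat.cast_nonneg _
  -- the sums over `s, s'` and `t'`
  have h1 : ∀ t ∈ Icc 1 H₂, ∑ t' ∈ Icc 1 H₂, ∑ r ∈ Ioo (-(H₁ : ℤ)) H₁, ∑ s ∈ Icc 1 H₁, ∑ s' ∈ Icc 1 H₁,
        (if t ≠ t' then (if r ≠ 0 then (if s ≠ s' then f (r * t) (((s : ℤ) - s') * ((t : ℤ) - t')) else 0)
          else 0) else 0) ≤
      ∑ k ∈ (Ioo (-(H₂ : ℤ)) H₂).filter (fun k => k ≠ 0),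
        ∑ r ∈ W, H₁ * ∑ d ∈ W, f (r * t) (d * k) := by
    intro t ht
    refine le_trans ?_ (ds_diff H₂ (fun k => ∑ r ∈ W, H₁ * ∑ d ∈ W, f (r * t) (d * k))
      (fun k => Finset.sum_nonneg fun r _ => mul_nonneg (Nat.cast_nonneg _)
        (Finset.sum_nonneg fun d _ => hf0 _ _)) t ht)
    refine Finset.sum_le_sum fun t' _ => ?_
    by_cases htt : t ≠ t'
    · simp only [if_pos htt]
      rw [hW, Finset.sum_filter]
      refine Finset.sum_le_sum fun r _ => ?_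
      by_cases hr : r ≠ 0
      · simp only [if_pos hr]
        have h2 : ∀ s ∈ Icc 1 H₁, ∑ s' ∈ Icc 1 H₁,
            (if s ≠ s' then f (r * t) (((s : ℤ) - s') * ((t : ℤ) - t')) else 0) ≤
            ∑ d ∈ (Ioo (-(H₁ : ℤ)) H₁).filter (fun d => d ≠ 0), f (r * t) (d * ((t : ℤ) - t')) :=
          fun s hs => ds_diff H₁ (fun d => f (r * t) (d * ((t : ℤ) - t'))) (fun d => hf0 _ _) s hs
        refine (Finset.sum_le_sum h2).trans (le_of_eq ?_)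
        rw [Finset.sum_const, nsmul_eq_mul, Nat.card_Icc, Nat.add_sub_cancel]
      · simp only [if_neg hr, Finset.sum_const_zero, le_refl]
    · simp only [if_neg htt, Finset.sum_const_zero, le_refl]
  have h2 : ∀ t ∈ Icc 1 H₂, ∑ k ∈ (Ioo (-(H₂ : ℤ)) H₂).filter (fun k => k ≠ 0),
        ∑ r ∈ W, (H₁ : ℝ) * ∑ d ∈ W, f (r * t) (d * k) ≤
      ∑ r ∈ W, (H₁ : ℝ) * (2 * ∑ h' ∈ V, τ h' * f (r * t) h') := by
    intro t _
    rw [Finset.sum_comm]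
    refine Finset.sum_le_sum fun r _ => ?_
    rw [← Finset.mul_sum]
    exact mul_le_mul_of_nonneg_left (ds_two H₁ H₂ (fun h' => f (r * t) h') (fun h' => hf0 _ _))
      (Nat.cast_nonneg _)
  have h3 := ds_one H₁ H₂ (fun h => (H₁ : ℝ) * (2 * ∑ h' ∈ V, τ h' * f h h')) (fun h => by
    refine mul_nonneg (Nat.cast_nonneg _) (mul_nonneg zero_le_two
      (Finset.sum_nonneg fun h' _ => mul_nonneg (hτ0 _) (hf0 _ _))))
  rw [← hW, ← hV] at h3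
  have h4 : ∑ h ∈ V, (h.natAbs.divisors.card : ℝ) * ((H₁ : ℝ) * (2 * ∑ h' ∈ V, τ h' * f h h')) =
      2 * H₁ * ∑ p ∈ V ×ˢ V, (τ p.1 * τ p.2) * f p.1 p.2 := by
    rw [Finset.sum_product, Finset.mul_sum]
    refine Finset.sum_congr rfl fun h _ => ?_
    rw [Finset.mul_sum, Finset.mul_sum, Finset.mul_sum, Finset.mul_sum]
    refine Finset.sum_congr rfl fun h' _ => ?_
    simp only [hτ]
    ring
  have h5 : ∑ p ∈ V ×ˢ V, (τ p.1 * τ p.2) * f p.1 p.2 ≤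
      Real.sqrt (∑ p ∈ V ×ˢ V, (τ p.1 * τ p.2) ^ 2) * Real.sqrt (∑ p ∈ V ×ˢ V, f p.1 p.2 ^ 2) :=
    Real.sum_mul_le_sqrt_mul_sqrt _ _ _
  have h6 : Real.sqrt (∑ p ∈ V ×ˢ V, (τ p.1 * τ p.2) ^ 2) = ∑ h ∈ V, τ h ^ 2 := by
    rw [Finset.sum_product]
    have : ∑ x ∈ V, ∑ y ∈ V, (τ (x, y).1 * τ (x, y).2) ^ 2 = (∑ h ∈ V, τ h ^ 2) ^ 2 := by
      rw [sq, Finset.sum_mul_sum]
      refine Finset.sum_congr rfl fun x _ => Finset.sum_congr rfl fun y _ => ?_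
      ring
    rw [this]
    exact Real.sqrt_sq (Finset.sum_nonneg fun h _ => sq_nonneg _)
  have h7 : ∑ h ∈ V, τ h ^ 2 ≤ 2 * (((H₁ * H₂ : ℕ) : ℝ) * (1 + Real.log ((H₁ * H₂ : ℕ) : ℝ)) ^ 4) :=
    ds_tau (H₁ * H₂)
  have h8 : Real.sqrt (∑ p ∈ V ×ˢ V, f p.1 p.2 ^ 2) ≤
      Real.sqrt (∑ h ∈ Icc (-((H₁ * H₂ : ℕ) : ℤ)) ((H₁ * H₂ : ℕ) : ℤ),
            ∑ h' ∈ Icc (-((H₁ * H₂ : ℕ) : ℤ)) ((H₁ * H₂ : ℕ) : ℤ), f h h' ^ 2) := by
    refine Real.sqrt_le_sqrt ?_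
    rw [← Finset.sum_product']
    exact Finset.sum_le_sum_of_subset_of_nonneg
      (Finset.product_subset_product (Finset.filter_subset _ _) (Finset.filter_subset _ _))
      fun _ _ _ => sq_nonneg _
  set Q := Real.sqrt (∑ h ∈ Icc (-((H₁ * H₂ : ℕ) : ℤ)) ((H₁ * H₂ : ℕ) : ℤ),
            ∑ h' ∈ Icc (-((H₁ * H₂ : ℕ) : ℤ)) ((H₁ * H₂ : ℕ) : ℤ), f h h' ^ 2) with hQ
  calc _ ≤ ∑ t ∈ Icc 1 H₂, ∑ k ∈ (Ioo (-(H₂ : ℤ)) H₂).filter (fun k => k ≠ 0),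
        ∑ r ∈ W, (H₁ : ℝ) * ∑ d ∈ W, f (r * t) (d * k) := Finset.sum_le_sum h1
    _ ≤ ∑ t ∈ Icc 1 H₂, ∑ r ∈ W, (H₁ : ℝ) * (2 * ∑ h' ∈ V, τ h' * f (r * t) h') := Finset.sum_le_sum h2
    _ ≤ _ := h3
    _ = 2 * H₁ * ∑ p ∈ V ×ˢ V, (τ p.1 * τ p.2) * f p.1 p.2 := h4
    _ ≤ 2 * H₁ * ((2 * (((H₁ * H₂ : ℕ) : ℝ) * (1 + Real.log ((H₁ * H₂ : ℕ) : ℝ)) ^ 4)) * Q) := by
        refine mul_le_mul_of_nonneg_left ?_ (by positivity)
        refine h5.trans ?_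
        rw [h6]
        exact mul_le_mul h7 h8 (Real.sqrt_nonneg _) (by positivity)
    _ = _ := by
        push_cast
        ring

theorem div_sum (H₁ H₂ : ℕ) (hH₁ : 1 ≤ H₁) (hH₂ : 1 ≤ H₂) (K : ℝ) (f : ℤ → ℤ → ℝ) (hf0 : ∀ h h', 0 ≤ f h h')
    (hfK : ∀ h h', f h h' ≤ K) :
    ∑ t ∈ Icc 1 H₂, ∑ t' ∈ Icc 1 H₂, ∑ r ∈ Ioo (-(H₁ : ℤ)) H₁, ∑ s ∈ Icc 1 H₁, ∑ s' ∈ Icc 1 H₁,
        f (r * t) (((s : ℤ) - s') * ((t : ℤ) - t')) ≤
      5 * K * (H₁ : ℝ) ^ 2 * H₂ * (H₁ + H₂) +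
        4 * H₁ * (H₁ * H₂) * (1 + Real.log ((H₁ * H₂ : ℕ) : ℝ)) ^ 4 *
          Real.sqrt (∑ h ∈ Icc (-((H₁ * H₂ : ℕ) : ℤ)) ((H₁ * H₂ : ℕ) : ℤ),
            ∑ h' ∈ Icc (-((H₁ * H₂ : ℕ) : ℤ)) ((H₁ * H₂ : ℕ) : ℤ), f h h' ^ 2) := by
  classical
  have hK : 0 ≤ K := (hf0 0 0).trans (hfK 0 0)
  have hH1 : (1 : ℝ) ≤ H₁ := by exact_mod_cast hH₁
  have hH2 : (1 : ℝ) ≤ H₂ := by exact_mod_cast hH₂
  have hcard : (((Ioo (-(H₁ : ℤ)) H₁).card : ℕ) : ℝ) ≤ 2 * H₁ := by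
    have h1 : (Ioo (-(H₁ : ℤ)) H₁).card ≤ 2 * H₁ := by
      rw [Int.card_Ioo]
      omega
    exact_mod_cast h1
  -- pointwise
  have hpt : ∀ t ∈ Icc 1 H₂, ∀ t' ∈ Icc 1 H₂, ∀ r ∈ Ioo (-(H₁ : ℤ)) H₁, ∀ s ∈ Icc 1 H₁, ∀ s' ∈ Icc 1 H₁,
      f (r * t) (((s : ℤ) - s') * ((t : ℤ) - t')) ≤
      (if r = 0 then K else 0) + (if s = s' then K else 0) + (if t = t' then K else 0) +
      (if t ≠ t' then (if r ≠ 0 then (if s ≠ s' then f (r * t) (((s : ℤ) - s') * ((t : ℤ) - t')) else 0)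
          else 0) else 0) := by
    intro t _ t' _ r _ s _ s' _
    have h1 := hfK (r * t) (((s : ℤ) - s') * ((t : ℤ) - t'))
    have h0 := hf0 (r * t) (((s : ℤ) - s') * ((t : ℤ) - t'))
    by_cases ht : t = t' <;> by_cases hr : r = 0 <;> by_cases hs : s = s' <;>
      simp only [ht, hr, hs, ne_eq, not_true_eq_false, not_false_eq_true, if_true, if_false] at h1 h0 ⊢ <;>
      linarith
  have hsum := Finset.sum_le_sum fun t ht => Finset.sum_le_sum fun t' ht' => Finset.sum_le_sum fun r hr =>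
    Finset.sum_le_sum fun s hs => Finset.sum_le_sum fun s' hs' => hpt t ht t' ht' r hr s hs s' hs'
  refine hsum.trans ?_
  simp only [Finset.sum_add_distrib]
  have hA : ∑ t ∈ Icc 1 H₂, ∑ t' ∈ Icc 1 H₂, ∑ r ∈ Ioo (-(H₁ : ℤ)) H₁, ∑ s ∈ Icc 1 H₁, ∑ s' ∈ Icc 1 H₁,
      (if r = 0 then K else 0) ≤ K * H₂ ^ 2 * H₁ ^ 2 := by
    have e : ∑ r ∈ Ioo (-(H₁ : ℤ)) H₁, ∑ s ∈ Icc 1 H₁, ∑ s' ∈ Icc 1 H₁, (if r = 0 then K else 0) =
        H₁ * (H₁ * K) := by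
      have : ∀ r ∈ Ioo (-(H₁ : ℤ)) H₁, ∑ s ∈ Icc 1 H₁, ∑ s' ∈ Icc 1 H₁, (if r = 0 then K else 0) =
          if r = 0 then (H₁ : ℝ) * (H₁ * K) else 0 := by
        intro r _
        simp only [Finset.sum_const, nsmul_eq_mul, Nat.card_Icc, Nat.add_sub_cancel]
        split_ifs
        · rfl
        · ring
      rw [Finset.sum_congr rfl this, Finset.sum_ite_eq', if_pos]
      rw [Finset.mem_Ioo]
      omega
    simp only [e]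
    simp only [Finset.sum_const, nsmul_eq_mul, Nat.card_Icc, Nat.add_sub_cancel]
    exact le_of_eq (by ring)
  have hB : ∑ t ∈ Icc 1 H₂, ∑ t' ∈ Icc 1 H₂, ∑ r ∈ Ioo (-(H₁ : ℤ)) H₁, ∑ s ∈ Icc 1 H₁, ∑ s' ∈ Icc 1 H₁,
      (if s = s' then K else 0) ≤ K * H₂ ^ 2 * (2 * H₁) * H₁ := by
    have e : ∑ s ∈ Icc 1 H₁, ∑ s' ∈ Icc 1 H₁, (if s = s' then K else 0) = H₁ * K := by
      have : ∀ s ∈ Icc 1 H₁, ∑ s' ∈ Icc 1 H₁, (if s = s' then K else 0) = K := by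
        intro s hs
        rw [Finset.sum_ite_eq, if_pos hs]
      rw [Finset.sum_congr rfl this, Finset.sum_const, nsmul_eq_mul, Nat.card_Icc, Nat.add_sub_cancel]
    simp only [e, Finset.sum_const, nsmul_eq_mul, Nat.card_Icc, Nat.add_sub_cancel]
    calc (H₂ : ℝ) * (H₂ * ((Ioo (-(H₁ : ℤ)) H₁).card * (H₁ * K))) ≤ H₂ * (H₂ * ((2 * H₁) * (H₁ * K))) := by
          gcongr
      _ = _ := by ring
  have hC : ∑ t ∈ Icc 1 H₂, ∑ t' ∈ Icc 1 H₂, ∑ r ∈ Ioo (-(H₁ : ℤ)) H₁, ∑ s ∈ Icc 1 H₁, ∑ s' ∈ Icc 1 H₁,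
      (if t = t' then K else 0) ≤ K * H₂ * (2 * H₁) * H₁ ^ 2 := by
    have e : ∀ t ∈ Icc 1 H₂, ∑ t' ∈ Icc 1 H₂, ∑ r ∈ Ioo (-(H₁ : ℤ)) H₁, ∑ s ∈ Icc 1 H₁, ∑ s' ∈ Icc 1 H₁,
        (if t = t' then K else 0) = (Ioo (-(H₁ : ℤ)) H₁).card * (H₁ * (H₁ * K)) := by
      intro t ht
      simp only [Finset.sum_const, nsmul_eq_mul, Nat.card_Icc, Nat.add_sub_cancel]
      rw [← Finset.mul_sum, ← Finset.mul_sum, ← Finset.mul_sum, Finset.sum_ite_eq, if_pos ht]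
    rw [Finset.sum_congr rfl e, Finset.sum_const, nsmul_eq_mul, Nat.card_Icc, Nat.add_sub_cancel]
    calc (H₂ : ℝ) * ((Ioo (-(H₁ : ℤ)) H₁).card * (H₁ * (H₁ * K))) ≤ H₂ * ((2 * H₁) * (H₁ * (H₁ * K))) := by
          gcongr
      _ = _ := by ring
  have hD := ds_main H₁ H₂ f hf0
  have hE : K * H₂ ^ 2 * H₁ ^ 2 + K * H₂ ^ 2 * (2 * H₁) * H₁ + K * H₂ * (2 * H₁) * H₁ ^ 2 ≤
      5 * K * (H₁ : ℝ) ^ 2 * H₂ * (H₁ + H₂) := by
    have h1 : 0 ≤ K * (H₁ : ℝ) ^ 2 * H₂ ^ 2 := by positivity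
    have h2 : 0 ≤ K * (H₁ : ℝ) ^ 3 * H₂ := by positivity
    nlinarith
  linarith

end Pool.Agent.BLF
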