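import Pool.Agent.Lib.BLF.Defs
import Pool.Agent.Lib.VK.EnergyPars

/-!
# Module Pars: Parseval

PROOF. Let `P = 4 W` and for `ζ < P` let `F ζ = ∑ f k ex (- k ζ / P)` (sum over the `3 W` integers `-W ≤ k < 2 W`), `G ζ = ∑_{k < W} g k ex (- k ζ / P)`. For `|h| ≤ W`
`∑_{k < W} f (k + h) conj (g k) = (1/P) ∑_{ζ < P} F ζ conj (G ζ) ex (h ζ / P)` (orthogonality: `EnergyAux.sum_ex` of `VK/EnergyPars`; the difference `k' - h - k` of
`-W ≤ k' < 2 W` and `h + k` is at most `3 W < P` in absolute value). The functions `ζ ↦ ex (h ζ / P)` for `|h| ≤ W` are orthogonal on `range P` (different `h` differ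
by at most `2 W < P`), so by Bessel (or: expand the square and use orthogonality, i.e. the sum over all `h` in a complete residue system mod `P`) the left side is at most
`(1/P) ∑_ζ ‖F ζ‖² ‖G ζ‖² ≤ max_ζ ‖G ζ‖² (1/P) ∑_ζ ‖F ζ‖² = max_ζ ‖G ζ‖² ∑_k ‖f k‖² ≤ 3 W max_ζ ‖G ζ‖²`. Take `ξ = - ζ / P` for the maximal `ζ` (`Finset.exists_max_image`).
-/

set_option autoImplicit false

open Finset

namespace Pool.Agent.BLF

open Pool.Agent.HLT

namespace ParsAux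

open Pool.Agent.VK.EnergyAux

theorem pars_gen {ι : Type*} {P : ℕ} (hP : 0 < P) (s : Finset ι) (κ : ι → ℤ)
    (hκ : ∀ i ∈ s, ∀ j ∈ s, (P : ℤ) ∣ κ i - κ j → i = j) (a : ι → ℂ) :
    ∑ ζ ∈ range P, ‖∑ i ∈ s, a i * ex (κ i * ((ζ : ℝ) / P))‖ ^ 2 = P * ∑ i ∈ s, ‖a i‖ ^ 2 := by
  classical
  have h1 : ∀ ζ : ℕ, ((‖∑ i ∈ s, a i * ex (κ i * ((ζ : ℝ) / P))‖ ^ 2 : ℝ) : ℂ) =
      ∑ i ∈ s, ∑ j ∈ s, (a i * (starRingEnd ℂ) (a j)) * ex (((κ i - κ j : ℤ) : ℝ) * ((ζ : ℝ) / P)) := by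
    intro ζ
    rw [← Complex.normSq_eq_norm_sq, ← Complex.mul_conj, map_sum, Finset.sum_mul_sum]
    refine Finset.sum_congr rfl fun i _ => Finset.sum_congr rfl fun j _ => ?_
    have h2 : ex (((κ i - κ j : ℤ) : ℝ) * ((ζ : ℝ) / P)) =
        ex (κ i * ((ζ : ℝ) / P)) * (starRingEnd ℂ) (ex (κ j * ((ζ : ℝ) / P))) := by
      rw [← ex_neg, ← ex_add]
      congr 1
      push_cast
      ring
    rw [h2, map_mul]
    ring
  have h3 : ((∑ ζ ∈ range P, ‖∑ i ∈ s, a i * ex (κ i * ((ζ : ℝ) / P))‖ ^ 2 : ℝ) : ℂ) =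
      ((P * ∑ i ∈ s, ‖a i‖ ^ 2 : ℝ) : ℂ) := by
    rw [Complex.ofReal_sum, Finset.sum_congr rfl fun ζ _ => h1 ζ, Finset.sum_comm]
    rw [Complex.ofReal_mul, Complex.ofReal_sum, Finset.mul_sum]
    refine Finset.sum_congr rfl fun i hi => ?_
    rw [Finset.sum_comm]
    have h4 : ∀ j ∈ s, ∑ ζ ∈ range P, (a i * (starRingEnd ℂ) (a j)) *
        ex (((κ i - κ j : ℤ) : ℝ) * ((ζ : ℝ) / P)) =
        if j = i then ((P : ℝ) : ℂ) * ((‖a i‖ ^ 2 : ℝ) : ℂ) else 0 := by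
      intro j hj
      rw [← Finset.mul_sum, sum_ex hP]
      by_cases hij : j = i
      · subst hij
        rw [if_pos (by simp), if_pos rfl, ← Complex.normSq_eq_norm_sq, ← Complex.mul_conj]
        push_cast
        ring
      · rw [if_neg (fun h => hij (hκ i hi j hj h).symm), if_neg hij, mul_zero]
    rw [Finset.sum_congr rfl h4, Finset.sum_ite_eq' s i, if_pos hi]
  exact_mod_cast h3

end ParsAux

open ParsAux Pool.Agent.VK.EnergyAux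

theorem pars (W : ℕ) (hW : 1 ≤ W) (f g : ℤ → ℂ) (hf : ∀ k, ‖f k‖ ≤ 1) :
    ∃ ξ : ℝ, ∑ h ∈ Icc (-(W : ℤ)) W, ‖∑ k ∈ range W, f ((k : ℤ) + h) * (starRingEnd ℂ) (g k)‖ ^ 2 ≤
      3 * W * ‖∑ k ∈ range W, g (k : ℤ) * ex (k * ξ)‖ ^ 2 := by
  classical
  obtain ⟨P, hPdef⟩ : ∃ P, P = 4 * W := ⟨_, rfl⟩
  have hP : 0 < P := by omega
  have hPR : (0 : ℝ) < P := by exact_mod_cast hP
  obtain ⟨G, hG⟩ : ∃ G : ℕ → ℂ, G = fun (ζ : ℕ) => ∑ k ∈ range W, g (k : ℤ) * ex (k * (-((ζ : ℝ) / P))) := ⟨_, rfl⟩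
  obtain ⟨F, hF⟩ : ∃ F : ℕ → ℂ, F = fun (ζ : ℕ) => ∑ k ∈ Ico (-(W : ℤ)) (2 * W), f k * ex (((-k : ℤ) : ℝ) * ((ζ : ℝ) / P)) :=
    ⟨_, rfl⟩
  obtain ⟨ζ0, _, hmax⟩ := Finset.exists_max_image (range P) (fun ζ => ‖G ζ‖) ⟨0, by simpa using hP⟩
  refine ⟨-((ζ0 : ℝ) / P), ?_⟩
  have hGζ : ∑ k ∈ range W, g (k : ℤ) * ex (k * (-((ζ0 : ℝ) / P))) = G ζ0 := by rw [hG]
  rw [hGζ]
  obtain ⟨A, hA⟩ : ∃ A : ℕ → ℂ, A = fun (ζ : ℕ) => F ζ * (starRingEnd ℂ) (G ζ) * ex (-(W * ((ζ : ℝ) / P))) := ⟨_, rfl⟩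
  -- the Fourier identity
  have hid : ∀ j ∈ range (2 * W + 1), (P : ℂ) *
      ∑ k ∈ range W, f ((k : ℤ) + ((j : ℤ) - W)) * (starRingEnd ℂ) (g k) =
      ∑ ζ ∈ range P, A ζ * ex (((ζ : ℤ) : ℝ) * ((j : ℝ) / P)) := by
    intro j hj
    rw [mem_range] at hj
    have h1 : ∀ ζ ∈ range P, A ζ * ex (((ζ : ℤ) : ℝ) * ((j : ℝ) / P)) =
        ∑ k' ∈ Ico (-(W : ℤ)) (2 * W), ∑ k ∈ range W, (f k' * (starRingEnd ℂ) (g k)) *
          ex (((-k' + k + ((j : ℤ) - W) : ℤ) : ℝ) * ((ζ : ℝ) / P)) := by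
      intro ζ _
      rw [hA, hF, hG]
      simp only
      rw [map_sum, Finset.sum_mul_sum, Finset.sum_mul, Finset.sum_mul]
      refine Finset.sum_congr rfl fun k' _ => ?_
      rw [Finset.sum_mul, Finset.sum_mul]
      refine Finset.sum_congr rfl fun k _ => ?_
      have h2 : ex (((-k' + k + ((j : ℤ) - W) : ℤ) : ℝ) * ((ζ : ℝ) / P)) =
          ex (((-k' : ℤ) : ℝ) * ((ζ : ℝ) / P)) * (starRingEnd ℂ) (ex (k * (-((ζ : ℝ) / P)))) *
          ex (-(W * ((ζ : ℝ) / P))) * ex (((ζ : ℤ) : ℝ) * ((j : ℝ) / P)) := by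
        rw [← ex_neg, ← ex_add, ← ex_add, ← ex_add]
        congr 1
        push_cast
        ring
      rw [h2, map_mul]
      ring
    rw [Finset.sum_congr rfl h1, Finset.sum_comm]
    have h3 : ∀ k' ∈ Ico (-(W : ℤ)) (2 * W), ∑ ζ ∈ range P, ∑ k ∈ range W,
        (f k' * (starRingEnd ℂ) (g k)) * ex (((-k' + k + ((j : ℤ) - W) : ℤ) : ℝ) * ((ζ : ℝ) / P)) =
        ∑ k ∈ range W, if k' = (k : ℤ) + ((j : ℤ) - W) then
          (P : ℂ) * (f ((k : ℤ) + ((j : ℤ) - W)) * (starRingEnd ℂ) (g k)) else 0 := by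
      intro k' hk'
      rw [mem_Ico] at hk'
      rw [Finset.sum_comm]
      refine Finset.sum_congr rfl fun k hk => ?_
      rw [mem_range] at hk
      rw [← Finset.mul_sum, sum_ex hP]
      by_cases h : k' = (k : ℤ) + ((j : ℤ) - W)
      · rw [if_pos h, if_pos (by rw [h]; ring_nf; exact dvd_zero _), h]
        ring
      · rw [if_neg h, if_neg, mul_zero]
        intro hd
        apply h
        have h4 := Int.eq_zero_of_abs_lt_dvd hd (by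
          rw [abs_lt]
          constructor <;> omega)
        omega
    rw [Finset.sum_congr rfl h3, Finset.sum_comm, Finset.mul_sum]
    refine Finset.sum_congr rfl fun k hk => ?_
    rw [mem_range] at hk
    rw [Finset.sum_ite_eq' (Ico (-(W : ℤ)) (2 * W)) ((k : ℤ) + ((j : ℤ) - W)), if_pos]
    rw [mem_Ico]
    constructor <;> omega
  -- reindexing
  have hre : ∑ h ∈ Icc (-(W : ℤ)) W, ‖∑ k ∈ range W, f ((k : ℤ) + h) * (starRingEnd ℂ) (g k)‖ ^ 2 =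
      ∑ j ∈ range (2 * W + 1), ‖∑ k ∈ range W, f ((k : ℤ) + ((j : ℤ) - W)) * (starRingEnd ℂ) (g k)‖ ^ 2 := by
    symm
    refine Finset.sum_bij (fun j _ => (j : ℤ) - W) ?_ ?_ ?_ ?_
    · intro j hj
      rw [mem_range] at hj
      rw [mem_Icc]
      constructor <;> omega
    · intro j _ j' _ h
      omega
    · intro h hh
      rw [mem_Icc] at hh
      exact ⟨(h + W).toNat, by rw [mem_range]; omega, by omega⟩
    · intro j _
      rfl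
  rw [hre]
  set S := ∑ j ∈ range (2 * W + 1), ‖∑ k ∈ range W, f ((k : ℤ) + ((j : ℤ) - W)) * (starRingEnd ℂ) (g k)‖ ^ 2
    with hS
  have h5 : (P : ℝ) ^ 2 * S ≤ P * ∑ ζ ∈ range P, ‖A ζ‖ ^ 2 := by
    rw [← pars_gen hP (range P) (fun ζ : ℕ => (ζ : ℤ)) ?_ A]
    · rw [hS, Finset.mul_sum]
      refine le_trans (le_of_eq ?_) (Finset.sum_le_sum_of_subset_of_nonneg (s := range (2 * W + 1))
        (fun j hj => by rw [mem_range] at hj ⊢; omega) fun _ _ _ => by positivity)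
      refine Finset.sum_congr rfl fun j hj => ?_
      rw [← hid j hj, norm_mul, mul_pow]
      simp
    · intro i hi j hj h
      rw [mem_range] at hi hj
      have h4 := Int.eq_zero_of_abs_lt_dvd h (by
        rw [abs_lt]
        constructor <;> omega)
      omega
  have h6 : ∑ ζ ∈ range P, ‖A ζ‖ ^ 2 ≤ ‖G ζ0‖ ^ 2 * ∑ ζ ∈ range P, ‖F ζ‖ ^ 2 := by
    rw [Finset.mul_sum]
    refine Finset.sum_le_sum fun ζ hζ => ?_
    rw [hA]
    simp only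
    rw [norm_mul, norm_mul, norm_ex, RCLike.norm_conj, mul_one, mul_pow, mul_comm]
    exact mul_le_mul_of_nonneg_right (pow_le_pow_left₀ (norm_nonneg _) (hmax ζ hζ) 2) (by positivity)
  have h7 : ∑ ζ ∈ range P, ‖F ζ‖ ^ 2 ≤ P * (3 * W) := by
    rw [hF]
    simp only
    rw [pars_gen hP (Ico (-(W : ℤ)) (2 * W)) (fun k => -k) ?_ f]
    · refine mul_le_mul_of_nonneg_left ?_ hPR.le
      calc ∑ i ∈ Ico (-(W : ℤ)) (2 * W), ‖f i‖ ^ 2 ≤ ∑ _i ∈ Ico (-(W : ℤ)) (2 * W), (1 : ℝ) :=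
            Finset.sum_le_sum fun i _ => pow_le_one₀ (norm_nonneg _) (hf i)
        _ = 3 * W := by
            rw [Finset.sum_const, Int.card_Ico, nsmul_eq_mul, mul_one]
            have : (2 * (W : ℤ) - -(W : ℤ)).toNat = 3 * W := by omega
            rw [this]
            push_cast
            ring
    · intro i hi j hj h
      rw [mem_Ico] at hi hj
      have h4 := Int.eq_zero_of_abs_lt_dvd h (by
        rw [abs_lt]
        constructor <;> omega)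
      omega
  have h8 : (P : ℝ) ^ 2 * S ≤ (P : ℝ) ^ 2 * (3 * W * ‖G ζ0‖ ^ 2) := by
    calc (P : ℝ) ^ 2 * S ≤ P * ∑ ζ ∈ range P, ‖A ζ‖ ^ 2 := h5
      _ ≤ P * (‖G ζ0‖ ^ 2 * ∑ ζ ∈ range P, ‖F ζ‖ ^ 2) := mul_le_mul_of_nonneg_left h6 hPR.le
      _ ≤ P * (‖G ζ0‖ ^ 2 * (P * (3 * W))) :=
        mul_le_mul_of_nonneg_left (mul_le_mul_of_nonneg_left h7 (by positivity)) hPR.le
      _ = _ := by ring
  exact le_of_mul_le_mul_left h8 (by positivity)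

end Pool.Agent.BLF
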