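import Pool.Agent.Lib.BLF.NicePairs
import Pool.Agent.Lib.BLF.Cover
import Pool.Agent.Lib.BLF.Pars

/-!
# Module EOne: the dual function correlates with a linear phase on the window

Write `D = Dz H₁ H₂ S a b`. PROOF. Let `A = {h ∈ Icc (-W) W : ‖∑_{k<W} D (k+h) conj (D k) ex (k ξ_h)‖ ≥ (η/4) W}`. The `h ∉ A` contribute at most `(2 W + 1) (η/4)² W² ≤ 3 W (η²/16) W² ≤ (η/2) W³`
to the sum, so `∑_{h ∈ A} ≥ (η/2) W³ ≥ η² W³`; `nice_pairs` with `η²` gives `h'`, `A' ⊆ A`, `|A'| ≥ η^(2 C₂) W`, all `ξ_h - ξ_h'` are nice with `M = η^(-2 C₂)`. `cover` with `ξ₀ = ξ h'`, `ρ = η²/16` (so that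
`2 π ρ ≤ η / 8 ...`, use `|ex θ - 1| ≤ 2 π |θ| ≤ 7 |θ|`): `β`, `A'' ⊆ A'`, `|A''| ≥ |A'| ρ / (5 M³)`. For `h ∈ A''`: `ex (k ξ_h) = ex (k (ξ_h - β - n)) ex (k β)` (`k, n` integers), so
`‖∑_k D (k+h) conj (D k) ex (k β)‖ ≥ (η/4) W - W * 7 ρ ≥ (η/8) W`... (adjust `ρ`). Hence `∑_{|h| ≤ W} ‖∑_k D (k+h) conj (D k ex (- k β))‖² ≥ |A''| (η/8)² W²`, and `pars` with `f = D`, `g k = D k * ex (- k β)`
gives `ξ` with `3 W ‖∑_k D k ex (k (ξ - β))‖² ≥ |A''| (η/8)² W²`. (`|A''| ≥ η^(C') W`, take the square root.)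
-/

set_option autoImplicit false

open Finset

namespace Pool.Agent.BLF

open Pool.Agent.HLT

namespace EOneAux

lemma norm_ex_sub_one_le7 (θ : ℝ) : ‖ex θ - 1‖ ≤ 7 * |θ| := by
  have h1 : ex θ = Complex.exp (Complex.I * ((2 * Real.pi * θ : ℝ) : ℂ)) := by
    unfold ex
    congr 1
    push_cast
    ring
  rw [h1]
  refine (Real.norm_exp_I_mul_ofReal_sub_one_le).trans ?_
  rw [Real.norm_eq_abs, abs_mul, abs_of_pos (by positivity : (0 : ℝ) < 2 * Real.pi)]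
  apply mul_le_mul_of_nonneg_right _ (abs_nonneg _)
  linarith [Real.pi_lt_d2]

/-- Changing the frequency by at most `ρ / W` modulo one. -/
lemma change (W : ℕ) (hW : 1 ≤ W) (F : ℕ → ℂ) (hF : ∀ k, ‖F k‖ ≤ 1) (ξ β ρ : ℝ) (n : ℤ)
    (h : |ξ - β - n| ≤ ρ / W) :
    ‖∑ k ∈ range W, F k * ex (k * ξ)‖ ≤ ‖∑ k ∈ range W, F k * ex (k * β)‖ + 7 * ρ * W := by
  have hW0 : (0 : ℝ) < W := by exact_mod_cast hW
  have hρ : |ξ - β - n| * W ≤ ρ := by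
    rwa [le_div_iff₀ hW0] at h
  have h1 : ∀ k ∈ range W, ‖F k * ex (k * ξ) - F k * ex (k * β)‖ ≤ 7 * ρ := by
    intro k hk
    rw [mem_range] at hk
    have hkW : (k : ℝ) ≤ W := by exact_mod_cast hk.le
    have e1 : ex (k * ξ) = ex (k * (ξ - β - n)) * ex (k * β) := by
      rw [← ex_add]
      have : (k : ℝ) * ξ = (k * (ξ - β - n) + k * β) + ((k * n : ℤ) : ℝ) := by push_cast; ring
      rw [this, ex_add_int]
    have e2 : F k * ex (k * ξ) - F k * ex (k * β) = F k * ((ex (k * (ξ - β - n)) - 1) * ex (k * β)) := by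
      rw [e1]; ring
    rw [e2, norm_mul, norm_mul, norm_ex, mul_one]
    calc ‖F k‖ * ‖ex (k * (ξ - β - n)) - 1‖ ≤ 1 * (7 * |(k : ℝ) * (ξ - β - n)|) :=
          mul_le_mul (hF k) (norm_ex_sub_one_le7 _) (norm_nonneg _) zero_le_one
      _ = 7 * (|ξ - β - n| * k) := by
          rw [abs_mul, Nat.abs_cast]; ring
      _ ≤ 7 * (|ξ - β - n| * W) := by
          gcongr
      _ ≤ 7 * ρ := by linarith
  have h2 : ‖∑ k ∈ range W, F k * ex (k * ξ) - ∑ k ∈ range W, F k * ex (k * β)‖ ≤ 7 * ρ * W := by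
    rw [← Finset.sum_sub_distrib]
    refine (norm_sum_le_of_le _ h1).trans ?_
    rw [Finset.sum_const, card_range, nsmul_eq_mul]
    linarith
  have h3 := norm_sub_norm_le (∑ k ∈ range W, F k * ex (k * ξ)) (∑ k ∈ range W, F k * ex (k * β))
  linarith

end EOneAux

open EOneAux

theorem eone : ∃ C : ℕ, ∀ (η : ℝ) (H₁ H₂ W : ℕ), Loc η C H₁ H₂ W → ∀ {Ω : Type} (S : Finset Ω), S.Nonempty →
    ∀ (a b : Ω → ℤ → ℕ → ℂ), (∀ ω z s, ‖a ω z s‖ ≤ 1) → (∀ ω z t, ‖b ω z t‖ ≤ 1) → ∀ ξ : ℤ → ℝ,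
    η * (W : ℝ) ^ 3 ≤ ∑ h ∈ Icc (-(W : ℤ)) W, ‖∑ k ∈ range W, Dz H₁ H₂ S a b ((k : ℤ) + h) *
        (starRingEnd ℂ) (Dz H₁ H₂ S a b k) * ex (k * ξ h)‖ ^ 2 →
    ∃ β : ℝ, η ^ C * W ≤ ‖∑ k ∈ range W, Dz H₁ H₂ S a b k * ex (k * β)‖ := by
  classical
  obtain ⟨C₂, hC₂⟩ := nice_pairs
  refine ⟨4 * C₂ + 10, ?_⟩
  intro η H₁ H₂ W hL Ω S hS a b ha hb ξ hsum
  have hη0 : 0 < η := hL.pos
  have hη2 : η ≤ 1 / 2 := hL.half
  have hη1 : η ≤ 1 := by linarith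
  have hW : 1 ≤ W := hL.posW
  have hW0 : (0 : ℝ) < W := by exact_mod_cast hW
  have hL2 : Loc (η ^ 2) C₂ H₁ H₂ W := (hL.mono (by omega : 2 * C₂ ≤ 4 * C₂ + 10)).pow 2 (by norm_num)
  set D : ℤ → ℂ := Dz H₁ H₂ S a b with hD
  have hD1 : ∀ k, ‖D k‖ ≤ 1 := norm_Dz_le H₁ H₂ S a b ha hb
  set G : ℤ → ℝ → ℝ := fun h θ => ‖∑ k ∈ range W, D ((k : ℤ) + h) * (starRingEnd ℂ) (D k) * ex (k * θ)‖
    with hG
  have hDD : ∀ (h : ℤ) (k : ℕ), ‖D ((k : ℤ) + h) * (starRingEnd ℂ) (D k)‖ ≤ 1 := by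
    intro h k
    rw [norm_mul, Complex.norm_conj]
    exact mul_le_one₀ (hD1 _) (norm_nonneg _) (hD1 _)
  have hG0 : ∀ h θ, 0 ≤ G h θ := fun h θ => norm_nonneg _
  have hsum' : η * (W : ℝ) ^ 3 ≤ ∑ h ∈ Icc (-(W : ℤ)) W, G h (ξ h) ^ 2 := hsum
  -- the large values
  set A : Finset ℤ := (Icc (-(W : ℤ)) W).filter (fun h => η / 4 * W ≤ G h (ξ h)) with hA
  have hsplit : ∑ h ∈ Icc (-(W : ℤ)) W, G h (ξ h) ^ 2 ≤
      ∑ h ∈ A, G h (ξ h) ^ 2 + 3 * W * (η / 4 * W) ^ 2 := by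
    rw [← Finset.sum_filter_add_sum_filter_not (Icc (-(W : ℤ)) W) (fun h => η / 4 * W ≤ G h (ξ h))]
    gcongr
    have h1 : ∀ h ∈ (Icc (-(W : ℤ)) W).filter (fun h => ¬ η / 4 * W ≤ G h (ξ h)),
        G h (ξ h) ^ 2 ≤ (η / 4 * W) ^ 2 := by
      intro h hh
      rw [mem_filter, not_le] at hh
      exact pow_le_pow_left₀ (hG0 _ _) hh.2.le 2
    refine (Finset.sum_le_sum h1).trans ?_
    rw [Finset.sum_const, nsmul_eq_mul]
    apply mul_le_mul_of_nonneg_right _ (by positivity)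
    calc (((Icc (-(W : ℤ)) W).filter (fun h => ¬ η / 4 * W ≤ G h (ξ h))).card : ℝ)
        ≤ ((Icc (-(W : ℤ)) W).card : ℝ) := by exact_mod_cast card_filter_le _ _
      _ = 2 * W + 1 := by
          rw [Int.card_Icc]
          have : ((W : ℤ) + 1 - -(W : ℤ)).toNat = 2 * W + 1 := by omega
          rw [this]; push_cast; ring
      _ ≤ 3 * W := by
          have : (1 : ℝ) ≤ W := by exact_mod_cast hW
          linarith
  have hAsum : η ^ 2 * (W : ℝ) ^ 3 ≤ ∑ h ∈ A, G h (ξ h) ^ 2 := by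
    have h1 : η ^ 2 * (W : ℝ) ^ 3 ≤ η * (W : ℝ) ^ 3 - 3 * W * (η / 4 * W) ^ 2 := by
      have h2 : η * (W : ℝ) ^ 3 - 3 * W * (η / 4 * W) ^ 2 - η ^ 2 * (W : ℝ) ^ 3 =
          η * (W : ℝ) ^ 3 * (1 - (19 / 16) * η) := by ring
      have h3 : 0 ≤ η * (W : ℝ) ^ 3 * (1 - (19 / 16) * η) :=
        mul_nonneg (by positivity) (by linarith)
      linarith
    linarith
  obtain ⟨h', hh', A', hA'A, hA'c, hnice⟩ := hC₂ (η ^ 2) H₁ H₂ W hL2 S hS a b ha hb A ξ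
    (filter_subset _ _) hAsum
  set M : ℝ := ((η ^ 2)⁻¹) ^ C₂ with hMdef
  have hM1 : 1 ≤ M := one_le_pow₀ hL2.one_le_inv
  obtain ⟨β, A'', hA''A', hA''c, hclose⟩ := cover M (η ^ 7) (ξ h') W hW hM1 (by positivity)
    (pow_le_one₀ hη0.le hη1) A' ξ hnice
  -- the size of `A''`
  have hMη : M * η ^ (2 * C₂) = 1 := by
    rw [hMdef, ← inv_pow, ← pow_mul, inv_pow, inv_mul_cancel₀ (by positivity)]
  have hcard : η ^ (8 * C₂ + 10) * W ≤ A''.card := by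
    have h1 : η ^ (2 * C₂) * W ≤ 5 * M ^ 3 / η ^ 7 * A''.card := by
      have : (η ^ 2) ^ C₂ * (W : ℝ) ≤ A'.card := hA'c
      rw [← pow_mul] at this
      exact this.trans hA''c
    have h2 : η ^ (8 * C₂ + 10) * W ≤ η ^ (6 * C₂ + 10) * (5 * M ^ 3 / η ^ 7 * A''.card) := by
      calc η ^ (8 * C₂ + 10) * W = η ^ (6 * C₂ + 10) * (η ^ (2 * C₂) * W) := by
            rw [← mul_assoc, ← pow_add]; congr 2; ring
        _ ≤ _ := mul_le_mul_of_nonneg_left h1 (by positivity)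
    have h3 : η ^ (6 * C₂ + 10) * (5 * M ^ 3 / η ^ 7 * A''.card) = 5 * η ^ 3 * A''.card := by
      have e1 : η ^ (6 * C₂ + 10) = (η ^ (2 * C₂)) ^ 3 * η ^ 7 * η ^ 3 := by
        rw [← pow_mul, ← pow_add, ← pow_add]; congr 1; ring
      rw [e1]
      have e2 : (η ^ (2 * C₂)) ^ 3 * η ^ 7 * η ^ 3 * (5 * M ^ 3 / η ^ 7 * A''.card) =
          (M * η ^ (2 * C₂)) ^ 3 * (5 * η ^ 3 * A''.card) := by
        field_simp
      rw [e2, hMη, one_pow, one_mul]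
    have h4 : 5 * η ^ 3 ≤ 1 := by
      have : η ^ 3 ≤ (1 / 2) ^ 3 := pow_le_pow_left₀ hη0.le hη2 3
      norm_num at this
      linarith
    calc η ^ (8 * C₂ + 10) * W ≤ 5 * η ^ 3 * A''.card := h2.trans_eq h3
      _ ≤ 1 * A''.card := mul_le_mul_of_nonneg_right h4 (Nat.cast_nonneg _)
      _ = _ := one_mul _
  -- the values at `β`
  have hval : ∀ h ∈ A'', η / 8 * W ≤ G h β := by
    intro h hh
    obtain ⟨n, hn⟩ := hclose h hh
    have h1 := change W hW (fun k => D ((k : ℤ) + h) * (starRingEnd ℂ) (D k)) (hDD h) (ξ h) β (η ^ 7) n hn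
    have h2 : η / 4 * W ≤ G h (ξ h) := (mem_filter.1 (hA'A (hA''A' hh))).2
    have h3 : G h (ξ h) ≤ G h β + 7 * η ^ 7 * W := h1
    have h4 : 7 * η ^ 7 ≤ η / 8 := by
      have h5 : η ^ 6 ≤ (1 / 2) ^ 6 := pow_le_pow_left₀ hη0.le hη2 6
      norm_num at h5
      have : η ^ 7 = η ^ 6 * η := by ring
      rw [this]
      nlinarith
    have h5 : 7 * η ^ 7 * W ≤ η / 8 * W := mul_le_mul_of_nonneg_right h4 hW0.le
    linarith
  have hlow : η ^ (8 * C₂ + 10) * W * (η / 8 * W) ^ 2 ≤ ∑ h ∈ Icc (-(W : ℤ)) W, G h β ^ 2 := by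
    calc η ^ (8 * C₂ + 10) * W * (η / 8 * W) ^ 2 ≤ A''.card * (η / 8 * W) ^ 2 :=
          mul_le_mul_of_nonneg_right hcard (by positivity)
      _ = ∑ h ∈ A'', (η / 8 * W) ^ 2 := by rw [Finset.sum_const, nsmul_eq_mul]
      _ ≤ ∑ h ∈ A'', G h β ^ 2 := Finset.sum_le_sum fun h hh =>
          pow_le_pow_left₀ (by positivity) (hval h hh) 2
      _ ≤ _ := Finset.sum_le_sum_of_subset_of_nonneg
          ((hA''A'.trans hA'A).trans (filter_subset _ _)) fun _ _ _ => by positivity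
  obtain ⟨θ, hθ⟩ := pars W hW D (fun k => D k * ex (-(k * β))) hD1
  have hrw : ∀ h : ℤ, ‖∑ k ∈ range W, D ((k : ℤ) + h) * (starRingEnd ℂ) (D (k : ℤ) * ex (-((k : ℤ) * β)))‖
      = G h β := by
    intro h
    simp only [hG]
    congr 1
    refine Finset.sum_congr rfl fun k _ => ?_
    rw [map_mul, ex_neg, Complex.conj_conj]
    push_cast
    ring
  have hθ' : ∑ h ∈ Icc (-(W : ℤ)) W, G h β ^ 2 ≤
      3 * W * ‖∑ k ∈ range W, D (k : ℤ) * ex (-((k : ℤ) * β)) * ex (k * θ)‖ ^ 2 := by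
    simp only [hrw] at hθ
    exact hθ
  refine ⟨θ - β, ?_⟩
  have hrw2 : ∑ k ∈ range W, D (k : ℤ) * ex (-((k : ℤ) * β)) * ex (k * θ) =
      ∑ k ∈ range W, D (k : ℤ) * ex (k * (θ - β)) := by
    refine Finset.sum_congr rfl fun k _ => ?_
    rw [mul_assoc, ← ex_add]
    congr 2
    push_cast
    ring
  rw [hrw2] at hθ'
  have hfin : (η ^ (4 * C₂ + 10) * W) ^ 2 ≤ ‖∑ k ∈ range W, D (k : ℤ) * ex (k * (θ - β))‖ ^ 2 := by
    have h1 := hlow.trans hθ'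
    have h2 : (η ^ (4 * C₂ + 10) * W) ^ 2 * (3 * W) ≤ η ^ (8 * C₂ + 10) * W * (η / 8 * W) ^ 2 := by
      have e1 : η ^ (8 * C₂ + 10) * W * (η / 8 * W) ^ 2 = η ^ (8 * C₂ + 10) * W ^ 3 * (η ^ 2 / 64) := by
        ring
      have e2 : (η ^ (4 * C₂ + 10) * W) ^ 2 * (3 * W) = η ^ (8 * C₂ + 10) * W ^ 3 * (3 * η ^ 10) := by
        rw [mul_pow, ← pow_mul]
        have : η ^ ((4 * C₂ + 10) * 2) = η ^ (8 * C₂ + 10) * η ^ 10 := by
          rw [← pow_add]; congr 1; ring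
        rw [this]; ring
      rw [e1, e2]
      apply mul_le_mul_of_nonneg_left _ (by positivity)
      have h3 : η ^ 8 ≤ (1 / 2) ^ 8 := pow_le_pow_left₀ hη0.le hη2 8
      norm_num at h3
      have h4 : η ^ 10 = η ^ 8 * η ^ 2 := by ring
      rw [h4]
      have h5 : 0 ≤ η ^ 2 := by positivity
      nlinarith
    have h3 := h2.trans h1
    rw [mul_comm (3 * (W : ℝ))] at h3
    exact le_of_mul_le_mul_right h3 (by positivity)
  exact (abs_le_of_sq_le_sq' hfin (norm_nonneg _)).2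

end Pool.Agent.BLF
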