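import Pool.Agent.Lib.VN.Defs
import Pool.Agent.Lib.HLU.Core

/-!
# Systems of shifts: single slots `τ (t i)` and product slots `v + t i * t j`
-/

set_option autoImplicit false

open Finset

namespace Pool.Agent.BLF

open Pool.Agent.HLT Pool.Agent.HLU Pool.Agent.VN

/-- The shift number `e`: `τ e (t (i e))` if `i e = j e`, and `v e + t (i e) * t (j e)` otherwise. -/
def sh {m r : ℕ} (i j : Fin r → Fin m) (v : Fin r → ℕ) (τ : Fin r → ℕ → ℕ) (t : Fin m → ℕ) (e : Fin r) : ℕ :=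
  if i e = j e then τ e (t (i e)) else v e + t (i e) * t (j e)

/-- The hypotheses on a system of shifts. -/
structure SlotsOK (A K' B' C x : ℕ) {m r : ℕ} (i j : Fin r → Fin m) (H : Fin m → ℕ) (v : Fin r → ℕ)
    (τ : Fin r → ℕ → ℕ) : Prop where
  ord : ∀ e, i e ≤ j e
  inj : Function.Injective (fun e => (i e, j e))
  big : ∀ k, Real.log x ^ C ≤ H k
  edge : ∀ e, i e ≠ j e → v e + H (i e) * H (j e) ≤ x ∧
    MSP A K' B' x (Ioc (v e) (v e + H (i e) * H (j e)))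
  single : ∀ e, i e = j e → Set.InjOn (τ e) (Icc 1 (H (i e)) : Finset ℕ) ∧
    MSP A K' B' x ((Icc 1 (H (i e))).image (τ e))

/-- The mean square property of a family of `r`-tuples of shifts. -/
def HMS (A K B x : ℕ) {r : ℕ} {σ : Type} (P : Finset σ) (a : σ → Fin r → ℕ) : Prop :=
  (∀ t ∈ P, ∀ e, a t e ≤ x) ∧ ∀ w : ℕ → ℂ, (∀ n ∈ Icc 1 x, ‖w n‖ ≤ Real.log x ^ K) →
    ∑ t ∈ P, ‖∑ n ∈ Icc 1 x, w n * ((pl univ (a t) n - pn (zA A x) univ (a t) n : ℝ) : ℂ)‖ ^ 2 ≤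
      (P.card : ℝ) * ((x : ℝ) ^ 2 / Real.log x ^ B)

/-- All shifts are at most `x`. -/
lemma SlotsOK.sh_le {A K' B' C x : ℕ} {m r : ℕ} {i j : Fin r → Fin m} {H : Fin m → ℕ} {v : Fin r → ℕ}
    {τ : Fin r → ℕ → ℕ} (h : SlotsOK A K' B' C x i j H v τ) (t : Fin m → ℕ)
    (ht : t ∈ Fintype.piFinset (fun k => Icc 1 (H k))) (e : Fin r) : sh i j v τ t e ≤ x := by
  have ht' : ∀ k, t k ∈ Icc 1 (H k) := fun k => Fintype.mem_piFinset.mp ht k
  unfold sh
  split_ifs with he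
  · have h1 := (h.single e he).2.1 (Finset.mem_image_of_mem (τ e) (ht' (i e)))
    have := Finset.mem_range.mp h1
    omega
  · have h1 := (h.edge e he).1
    have h2 : t (i e) * t (j e) ≤ H (i e) * H (j e) :=
      Nat.mul_le_mul (Finset.mem_Icc.mp (ht' _)).2 (Finset.mem_Icc.mp (ht' _)).2
    omega

end Pool.Agent.BLF
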