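import Pool.Agent.Lib.BLF.Defs
import Pool.Agent.Lib.BLF.Slots

/-!
# Module Lift: from sums over `1 ≤ n ≤ x` to sums over `ZMod X`

PROOF (`sum_lift`): `Finset.sum_filter`, and `n ↦ (n : ZMod X)` is a bijection from `Icc 1 x` to the `z` with `1 ≤ z.val ≤ x` with inverse `val` (`ZMod.val_cast_of_lt`, `ZMod.natCast_zmod_val`; `x < X`).
(`val_lift`): `ZMod.val_cast_of_lt`, after `Nat.cast_add`. (`pow_two`): `X = 2 ^ k` with `k` the least exponent with `4 x ≤ 2 ^ k` (`Nat.clog 2 (4 x)` or `Nat.find`), `W = 2 ^ l` with `l` the least exponent with `N ≤ 2 ^ l`;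
`2 ^ l < 2 N ≤ 2 x ≤ X`, so `l ≤ k` and `W ∣ X` (`pow_dvd_pow`).
-/

set_option autoImplicit false

open Finset Filter

namespace Pool.Agent.BLF

open Pool.Agent.HLB Pool.Agent.HL Pool.Agent.HLT Pool.Agent.HLU Pool.Agent.VN

theorem sum_lift {X : ℕ} [NeZero X] (x : ℕ) (hx : x < X) (Φ : ZMod X → ℂ) :
    ∑ z : ZMod X, (if 1 ≤ z.val ∧ z.val ≤ x then Φ z else 0) = ∑ n ∈ Icc 1 x, Φ (n : ZMod X) := by
  rw [← Finset.sum_filter]
  symm
  refine Finset.sum_bij' (fun (n : ℕ) _ => (n : ZMod X)) (fun (z : ZMod X) _ => z.val) ?_ ?_ ?_ ?_ ?_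
  · intro n hn
    rw [Finset.mem_Icc] at hn
    rw [Finset.mem_filter]
    refine ⟨Finset.mem_univ _, ?_⟩
    rw [ZMod.val_cast_of_lt (lt_of_le_of_lt hn.2 hx)]
    exact hn
  · intro z hz
    rw [Finset.mem_filter] at hz
    rw [Finset.mem_Icc]
    exact hz.2
  · intro n hn
    rw [Finset.mem_Icc] at hn
    exact ZMod.val_cast_of_lt (lt_of_le_of_lt hn.2 hx)
  · intro z _
    exact ZMod.natCast_zmod_val z
  · intro n _
    rfl

theorem val_lift {X : ℕ} [NeZero X] (n a : ℕ) (h : n + a < X) :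
    ((n : ZMod X) + (a : ZMod X)).val = n + a := by
  rw [← Nat.cast_add]
  exact ZMod.val_cast_of_lt h

theorem pow_two (x : ℕ) (hx : 1 ≤ x) : ∃ X : ℕ, X ≠ 0 ∧ 4 * x ≤ X ∧ X ≤ 8 * x ∧ ∀ N : ℕ, 1 ≤ N → N ≤ x →
    ∃ W : ℕ, W ∣ X ∧ N ≤ W ∧ W ≤ 2 * N := by
  have key : ∀ m : ℕ, 1 ≤ m → ∃ k : ℕ, m ≤ 2 ^ k ∧ 2 ^ k < 2 * m := by
    intro m hm
    have hex : ∃ k : ℕ, m ≤ 2 ^ k := ⟨m, m.lt_two_pow_self.le⟩
    classical
    refine ⟨Nat.find hex, Nat.find_spec hex, ?_⟩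
    rcases Nat.eq_zero_or_pos (Nat.find hex) with h0 | h0
    · rw [h0]
      omega
    · have h1 : ¬ m ≤ 2 ^ (Nat.find hex - 1) := Nat.find_min hex (by omega)
      have h2 : 2 ^ Nat.find hex = 2 * 2 ^ (Nat.find hex - 1) := by
        rw [← pow_succ', Nat.sub_add_cancel h0]
      omega
  obtain ⟨k, hk1, hk2⟩ := key (4 * x) (by omega)
  refine ⟨2 ^ k, by positivity, hk1, by omega, fun N hN1 hN2 => ?_⟩
  obtain ⟨l, hl1, hl2⟩ := key N hN1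
  refine ⟨2 ^ l, ?_, hl1, hl2.le⟩
  apply pow_dvd_pow
  by_contra hlk
  have h3 : 2 ^ k ≤ 2 ^ l := Nat.pow_le_pow_right (by norm_num) (by omega)
  omega

end Pool.Agent.BLF
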