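import Pool.Agent.Lib.BLF.ClaimB

/-!
# Module ThmB: the mean square theorem for a bilinear slot

PROOF. Let `N = H₁ H₂`, `C₁` from `claimB`. For each `(s, t)`, `‖∑_x Z x‖² = ∑_h ∑_x Z (x + h) conj (Z x)` with `Z x = c x * E (x + s t) * α x s * β x t`; `Z (x + h) conj (Z x) = Dl h c x * Dl h E (x + s t) * a_h x s * b_h x t`,
`a_h x s = α (x + h) s * conj (α x s)`, `b_h` likewise. So `∑_h ‖T_h‖ ≥ δ X² N`, `T_h` the sum in `claimB` (with `c := Dl h c`, `F := Dl h E`), `‖T_h‖ ≤ X N`. Let `G` be the set of the `h` with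
`‖T_h‖ ≥ (δ/2) X N`; `|G| ≥ (δ/2) X`. Let `δ' = δ²` (`≤ δ/2`), `ℓ_i = ⌊δ'^C₁ H_i⌋` (so `δ'^C₁ H_i / 2 ≤ ℓ_i`, as `H_i ≥ δ^(-C)`), `Q = ⌊δ'^(-C₁)⌋`. `claimB` gives for `h ∈ G` a `q ≤ Q` with `Y_{h,q} ≥ δ'^C₁ X N ℓ₁ ℓ₂`,
`Y_{h,q} = ∑_{x,s,t} ‖Dl h c x‖ ‖∑_{i,k} Dl h E (x + u_{ik})‖`, `u_{ik} = (s + q i) (t + q k)`, `s ≤ H₁ - q ℓ₁`, `t ≤ H₂ - q ℓ₂`. So for some `q ≤ Q` with `q ℓ₁ ≤ H₁`, `q ℓ₂ ≤ H₂` the number of the `h ∈ G` with this `q` is at least `|G| / Q`, and `∑_h Y_{h,q} ≥ η X² N ℓ₁ ℓ₂`,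
`η = δ^C₂`. Cauchy-Schwarz: `(∑_h Y_{h,q})² ≤ X² N ∑_{h,x,s,t} ‖Dl h c x‖² ‖∑_{i,k} Dl h E (x + u_{ik})‖²`, and for fixed `(s, t)`, with `y = x + h` independent of `x`:
`∑_{h,x} ‖c (x+h)‖² ‖c x‖² ‖∑_{i,k} E (x+h+u) conj (E (x+u))‖² = ∑_{i,k,i',k'} ‖∑_x ‖c x‖² E (x + u_{ik}) conj (E (x + u_{i'k'}))‖²`. `fiber_count` (module `Avg`) twice (in `s` and in `t`):
`∑_{s,t} ∑_{i,k,i',k'} f ≤ ℓ₁ ℓ₂ ∑_{s,s',t,t'} f`, `f = ‖∑_x ‖c x‖² E (x + s t) conj (E (x + s' t'))‖²`. Hence the right side of the claim is at least `η² X² N ℓ₁ ℓ₂ ≥ δ^C X² N²`.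
-/

set_option autoImplicit false

open Finset

namespace Pool.Agent.BLF

open Pool.Agent.HLT

namespace ThmBAux

theorem sq_norm_sum {X : ℕ} [NeZero X] (f : ZMod X → ℂ) :
    ((‖∑ x : ZMod X, f x‖ ^ 2 : ℝ) : ℂ) = ∑ h : ZMod X, ∑ x : ZMod X, f (x + h) * (starRingEnd ℂ) (f x) := by
  rw [Finset.sum_comm, Complex.ofReal_pow, ← Complex.mul_conj', map_sum, Finset.sum_mul_sum, Finset.sum_comm]
  refine Finset.sum_congr rfl fun x _ => ?_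
  have h := sum_shift (fun y => f y * (starRingEnd ℂ) (f x)) x
  rw [← h]
  refine Finset.sum_congr rfl fun y _ => ?_
  rw [add_comm y x]

theorem expand {X : ℕ} [NeZero X] {κ : Type} (K : Finset κ) (u : κ → ZMod X) (c E : ZMod X → ℂ) :
    ∑ h : ZMod X, ∑ x : ZMod X, (‖Dl h c x‖ * ‖∑ k ∈ K, Dl h E (x + u k)‖) ^ 2 =
      ∑ k ∈ K, ∑ k' ∈ K,
        ‖∑ x : ZMod X, (c x * E (x + u k)) * (starRingEnd ℂ) (c x * E (x + u k'))‖ ^ 2 := by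
  have key : ∀ h x : ZMod X, (((‖Dl h c x‖ * ‖∑ k ∈ K, Dl h E (x + u k)‖) ^ 2 : ℝ) : ℂ) =
      ∑ k ∈ K, ∑ k' ∈ K, ((c (x + h) * E (x + h + u k)) * (starRingEnd ℂ) (c (x + h) * E (x + h + u k'))) *
        (starRingEnd ℂ) ((c x * E (x + u k)) * (starRingEnd ℂ) (c x * E (x + u k'))) := by
    intro h x
    rw [mul_pow, Complex.ofReal_mul, Complex.ofReal_pow, Complex.ofReal_pow, ← Complex.mul_conj',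
      ← Complex.mul_conj', map_sum, Finset.sum_mul_sum, Finset.mul_sum]
    refine Finset.sum_congr rfl fun k _ => ?_
    rw [Finset.mul_sum]
    refine Finset.sum_congr rfl fun k' _ => ?_
    unfold Dl
    simp only [map_mul, Complex.conj_conj]
    rw [add_right_comm x (u k) h, add_right_comm x (u k') h]
    ring
  have hC : ((∑ h : ZMod X, ∑ x : ZMod X, (‖Dl h c x‖ * ‖∑ k ∈ K, Dl h E (x + u k)‖) ^ 2 : ℝ) : ℂ) =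
      ((∑ k ∈ K, ∑ k' ∈ K,
        ‖∑ x : ZMod X, (c x * E (x + u k)) * (starRingEnd ℂ) (c x * E (x + u k'))‖ ^ 2 : ℝ) : ℂ) := by
    rw [Complex.ofReal_sum, Complex.ofReal_sum]
    simp only [Complex.ofReal_sum, key, sq_norm_sum]
    calc ∑ h : ZMod X, ∑ x : ZMod X, ∑ k ∈ K, ∑ k' ∈ K,
          ((c (x + h) * E (x + h + u k)) * (starRingEnd ℂ) (c (x + h) * E (x + h + u k'))) *
          (starRingEnd ℂ) ((c x * E (x + u k)) * (starRingEnd ℂ) (c x * E (x + u k')))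
        = ∑ h : ZMod X, ∑ k ∈ K, ∑ x : ZMod X, ∑ k' ∈ K,
          ((c (x + h) * E (x + h + u k)) * (starRingEnd ℂ) (c (x + h) * E (x + h + u k'))) *
          (starRingEnd ℂ) ((c x * E (x + u k)) * (starRingEnd ℂ) (c x * E (x + u k'))) :=
          Finset.sum_congr rfl fun h _ => Finset.sum_comm
      _ = ∑ k ∈ K, ∑ h : ZMod X, ∑ x : ZMod X, ∑ k' ∈ K,
          ((c (x + h) * E (x + h + u k)) * (starRingEnd ℂ) (c (x + h) * E (x + h + u k'))) *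
          (starRingEnd ℂ) ((c x * E (x + u k)) * (starRingEnd ℂ) (c x * E (x + u k'))) :=
          Finset.sum_comm
      _ = ∑ k ∈ K, ∑ h : ZMod X, ∑ k' ∈ K, ∑ x : ZMod X,
          ((c (x + h) * E (x + h + u k)) * (starRingEnd ℂ) (c (x + h) * E (x + h + u k'))) *
          (starRingEnd ℂ) ((c x * E (x + u k)) * (starRingEnd ℂ) (c x * E (x + u k'))) :=
          Finset.sum_congr rfl fun k _ => Finset.sum_congr rfl fun h _ => Finset.sum_comm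
      _ = _ := Finset.sum_congr rfl fun k _ => Finset.sum_comm
  exact_mod_cast hC

theorem cs4 {X : ℕ} [NeZero X] (S T : Finset ℕ) (f : ZMod X → ZMod X → ℕ → ℕ → ℝ) :
    (∑ h : ZMod X, ∑ x : ZMod X, ∑ s ∈ S, ∑ t ∈ T, f h x s t) ^ 2 ≤
      ((X : ℝ) * X * S.card * T.card) * ∑ s ∈ S, ∑ t ∈ T, ∑ h : ZMod X, ∑ x : ZMod X, (f h x s t) ^ 2 := by
  have h1 : ∑ h : ZMod X, ∑ x : ZMod X, ∑ s ∈ S, ∑ t ∈ T, f h x s t =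
      ∑ p ∈ S ×ˢ T ×ˢ (univ : Finset (ZMod X)) ×ˢ (univ : Finset (ZMod X)), f p.2.2.1 p.2.2.2 p.1 p.2.1 := by
    simp only [Finset.sum_product]
    calc ∑ h : ZMod X, ∑ x : ZMod X, ∑ s ∈ S, ∑ t ∈ T, f h x s t
        = ∑ h : ZMod X, ∑ s ∈ S, ∑ x : ZMod X, ∑ t ∈ T, f h x s t :=
          Finset.sum_congr rfl fun h _ => Finset.sum_comm
      _ = ∑ s ∈ S, ∑ h : ZMod X, ∑ x : ZMod X, ∑ t ∈ T, f h x s t := Finset.sum_comm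
      _ = ∑ s ∈ S, ∑ h : ZMod X, ∑ t ∈ T, ∑ x : ZMod X, f h x s t :=
          Finset.sum_congr rfl fun s _ => Finset.sum_congr rfl fun h _ => Finset.sum_comm
      _ = ∑ s ∈ S, ∑ t ∈ T, ∑ h : ZMod X, ∑ x : ZMod X, f h x s t :=
          Finset.sum_congr rfl fun s _ => Finset.sum_comm
  have h2 : ∑ s ∈ S, ∑ t ∈ T, ∑ h : ZMod X, ∑ x : ZMod X, (f h x s t) ^ 2 =
      ∑ p ∈ S ×ˢ T ×ˢ (univ : Finset (ZMod X)) ×ˢ (univ : Finset (ZMod X)),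
        (f p.2.2.1 p.2.2.2 p.1 p.2.1) ^ 2 := by
    simp only [Finset.sum_product]
  rw [h1, h2]
  refine (sq_sum_le_card_mul_sum_sq).trans (le_of_eq ?_)
  congr 1
  rw [Finset.card_product, Finset.card_product, Finset.card_product, Finset.card_univ, ZMod.card]
  push_cast
  ring

theorem fib2 (H₁ H₂ q ℓ₁ ℓ₂ : ℕ) (hq : 1 ≤ q) (h1 : q * ℓ₁ ≤ H₁) (h2 : q * ℓ₂ ≤ H₂)
    (f : ℕ → ℕ → ℕ → ℕ → ℝ) (hf : ∀ a b a' b', 0 ≤ f a b a' b') :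
    ∑ s ∈ Icc 1 (H₁ - q * ℓ₁), ∑ t ∈ Icc 1 (H₂ - q * ℓ₂), ∑ i ∈ range ℓ₁, ∑ k ∈ range ℓ₂,
      ∑ i' ∈ range ℓ₁, ∑ k' ∈ range ℓ₂, f (s + q * i) (t + q * k) (s + q * i') (t + q * k') ≤
      (ℓ₁ : ℝ) * ℓ₂ * ∑ s ∈ Icc 1 H₁, ∑ s' ∈ Icc 1 H₁, ∑ t ∈ Icc 1 H₂, ∑ t' ∈ Icc 1 H₂, f s t s' t' := by
  have e : ∀ s, ∑ t ∈ Icc 1 (H₂ - q * ℓ₂), ∑ i ∈ range ℓ₁, ∑ k ∈ range ℓ₂,
      ∑ i' ∈ range ℓ₁, ∑ k' ∈ range ℓ₂, f (s + q * i) (t + q * k) (s + q * i') (t + q * k') =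
      ∑ i ∈ range ℓ₁, ∑ i' ∈ range ℓ₁, ∑ t ∈ Icc 1 (H₂ - q * ℓ₂), ∑ k ∈ range ℓ₂, ∑ k' ∈ range ℓ₂,
        f (s + q * i) (t + q * k) (s + q * i') (t + q * k') := by
    intro s
    rw [Finset.sum_comm]
    refine Finset.sum_congr rfl fun i _ => ?_
    calc ∑ t ∈ Icc 1 (H₂ - q * ℓ₂), ∑ k ∈ range ℓ₂,
          ∑ i' ∈ range ℓ₁, ∑ k' ∈ range ℓ₂, f (s + q * i) (t + q * k) (s + q * i') (t + q * k')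
        = ∑ t ∈ Icc 1 (H₂ - q * ℓ₂), ∑ i' ∈ range ℓ₁, ∑ k ∈ range ℓ₂,
          ∑ k' ∈ range ℓ₂, f (s + q * i) (t + q * k) (s + q * i') (t + q * k') :=
          Finset.sum_congr rfl fun t _ => Finset.sum_comm
      _ = _ := Finset.sum_comm
  obtain ⟨g, hg⟩ : ∃ g : ℕ → ℕ → ℝ, ∀ a a', g a a' = ∑ t ∈ Icc 1 (H₂ - q * ℓ₂), ∑ k ∈ range ℓ₂,
      ∑ k' ∈ range ℓ₂, f a (t + q * k) a' (t + q * k') := ⟨_, fun _ _ => rfl⟩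
  have hg0 : ∀ a a', 0 ≤ g a a' := by
    intro a a'
    rw [hg]
    exact Finset.sum_nonneg fun t _ => Finset.sum_nonneg fun k _ => Finset.sum_nonneg fun k' _ =>
      hf _ _ _ _
  have hg1 : ∀ a a', g a a' ≤ ℓ₂ * ∑ t ∈ Icc 1 H₂, ∑ t' ∈ Icc 1 H₂, f a t a' t' := by
    intro a a'
    rw [hg]
    exact fiber_count H₂ q ℓ₂ hq h2 (fun b b' => f a b a' b') fun b b' => hf _ _ _ _
  have e1 : ∑ s ∈ Icc 1 (H₁ - q * ℓ₁), ∑ t ∈ Icc 1 (H₂ - q * ℓ₂), ∑ i ∈ range ℓ₁, ∑ k ∈ range ℓ₂,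
      ∑ i' ∈ range ℓ₁, ∑ k' ∈ range ℓ₂, f (s + q * i) (t + q * k) (s + q * i') (t + q * k') =
      ∑ s ∈ Icc 1 (H₁ - q * ℓ₁), ∑ i ∈ range ℓ₁, ∑ i' ∈ range ℓ₁, g (s + q * i) (s + q * i') := by
    refine Finset.sum_congr rfl fun s _ => ?_
    rw [e s]
    exact Finset.sum_congr rfl fun i _ => Finset.sum_congr rfl fun i' _ => (hg _ _).symm
  have e2 := fiber_count H₁ q ℓ₁ hq h1 g hg0
  have e3 : ∑ s ∈ Icc 1 H₁, ∑ s' ∈ Icc 1 H₁, g s s' ≤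
      ∑ s ∈ Icc 1 H₁, ∑ s' ∈ Icc 1 H₁, (ℓ₂ * ∑ t ∈ Icc 1 H₂, ∑ t' ∈ Icc 1 H₂, f s t s' t') :=
    Finset.sum_le_sum fun s _ => Finset.sum_le_sum fun s' _ => hg1 s s'
  have e4 : ∑ s ∈ Icc 1 H₁, ∑ s' ∈ Icc 1 H₁, ((ℓ₂ : ℝ) * ∑ t ∈ Icc 1 H₂, ∑ t' ∈ Icc 1 H₂, f s t s' t') =
      ℓ₂ * ∑ s ∈ Icc 1 H₁, ∑ s' ∈ Icc 1 H₁, ∑ t ∈ Icc 1 H₂, ∑ t' ∈ Icc 1 H₂, f s t s' t' := by
    rw [Finset.mul_sum]
    exact Finset.sum_congr rfl fun s _ => (Finset.mul_sum _ _ _).symm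
  rw [e4] at e3
  rw [e1, mul_assoc]
  exact e2.trans (mul_le_mul_of_nonneg_left e3 (Nat.cast_nonneg _))

/-- the sum `Y_{h,q}` -/
noncomputable def YY {X : ℕ} [NeZero X] (c E : ZMod X → ℂ) (H₁ H₂ ℓ₁ ℓ₂ q : ℕ) (h : ZMod X) : ℝ :=
  ∑ x : ZMod X, ∑ s ∈ Icc 1 (H₁ - q * ℓ₁), ∑ t ∈ Icc 1 (H₂ - q * ℓ₂),
    ‖Dl h c x‖ * ‖∑ i ∈ range ℓ₁, ∑ k ∈ range ℓ₂, Dl h E (x + (((s + q * i) * (t + q * k) : ℕ) : ZMod X))‖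

theorem YY_nonneg {X : ℕ} [NeZero X] (c E : ZMod X → ℂ) (H₁ H₂ ℓ₁ ℓ₂ q : ℕ) (h : ZMod X) :
    0 ≤ YY c E H₁ H₂ ℓ₁ ℓ₂ q h :=
  Finset.sum_nonneg fun _ _ => Finset.sum_nonneg fun _ _ => Finset.sum_nonneg fun _ _ =>
    mul_nonneg (norm_nonneg _) (norm_nonneg _)

/-- the correlation -/
noncomputable def cor {X : ℕ} [NeZero X] (c E : ZMod X → ℂ) (a b a' b' : ℕ) : ℝ :=
  ‖∑ x : ZMod X, (c x * E (x + ((a * b : ℕ) : ZMod X))) *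
    (starRingEnd ℂ) (c x * E (x + ((a' * b' : ℕ) : ZMod X)))‖ ^ 2

theorem cor_nonneg {X : ℕ} [NeZero X] (c E : ZMod X → ℂ) (a b a' b' : ℕ) : 0 ≤ cor c E a b a' b' := by
  unfold cor
  positivity

/-- the summand of `YY` -/
noncomputable def yy {X : ℕ} [NeZero X] (c E : ZMod X → ℂ) (ℓ₁ ℓ₂ q : ℕ) (h x : ZMod X) (s t : ℕ) : ℝ :=
  ‖Dl h c x‖ * ‖∑ i ∈ range ℓ₁, ∑ k ∈ range ℓ₂, Dl h E (x + (((s + q * i) * (t + q * k) : ℕ) : ZMod X))‖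

theorem hexp {X : ℕ} [NeZero X] (c E : ZMod X → ℂ) (ℓ₁ ℓ₂ q s t : ℕ) :
    ∑ h : ZMod X, ∑ x : ZMod X, (yy c E ℓ₁ ℓ₂ q h x s t) ^ 2 =
      ∑ i ∈ range ℓ₁, ∑ k ∈ range ℓ₂, ∑ i' ∈ range ℓ₁, ∑ k' ∈ range ℓ₂,
        cor c E (s + q * i) (t + q * k) (s + q * i') (t + q * k') := by
  have h3 := expand (range ℓ₁ ×ˢ range ℓ₂)
    (fun p : ℕ × ℕ => (((s + q * p.1) * (t + q * p.2) : ℕ) : ZMod X)) c E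
  simp only [Finset.sum_product] at h3
  unfold yy cor
  exact h3

theorem YY_sq {X : ℕ} [NeZero X] (c E : ZMod X → ℂ) (H₁ H₂ ℓ₁ ℓ₂ q : ℕ) (hq : 1 ≤ q) (h1 : q * ℓ₁ ≤ H₁)
    (h2 : q * ℓ₂ ≤ H₂) : (∑ h : ZMod X, YY c E H₁ H₂ ℓ₁ ℓ₂ q h) ^ 2 ≤ ((X : ℝ) * X * H₁ * H₂) *
      ((ℓ₁ : ℝ) * ℓ₂ * ∑ s ∈ Icc 1 H₁, ∑ s' ∈ Icc 1 H₁, ∑ t ∈ Icc 1 H₂, ∑ t' ∈ Icc 1 H₂, cor c E s t s' t') := by
  have h5 : (∑ h : ZMod X, YY c E H₁ H₂ ℓ₁ ℓ₂ q h) =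
      ∑ h : ZMod X, ∑ x : ZMod X, ∑ s ∈ Icc 1 (H₁ - q * ℓ₁), ∑ t ∈ Icc 1 (H₂ - q * ℓ₂), yy c E ℓ₁ ℓ₂ q h x s t :=
    rfl
  have h6 := cs4 (Icc 1 (H₁ - q * ℓ₁)) (Icc 1 (H₂ - q * ℓ₂)) (yy c E ℓ₁ ℓ₂ q)
  have h7 : ∑ s ∈ Icc 1 (H₁ - q * ℓ₁), ∑ t ∈ Icc 1 (H₂ - q * ℓ₂), ∑ h : ZMod X, ∑ x : ZMod X,
      (yy c E ℓ₁ ℓ₂ q h x s t) ^ 2 = ∑ s ∈ Icc 1 (H₁ - q * ℓ₁), ∑ t ∈ Icc 1 (H₂ - q * ℓ₂),
      ∑ i ∈ range ℓ₁, ∑ k ∈ range ℓ₂, ∑ i' ∈ range ℓ₁, ∑ k' ∈ range ℓ₂,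
        cor c E (s + q * i) (t + q * k) (s + q * i') (t + q * k') :=
    Finset.sum_congr rfl fun s _ => Finset.sum_congr rfl fun t _ => hexp c E ℓ₁ ℓ₂ q s t
  have h8 := fib2 H₁ H₂ q ℓ₁ ℓ₂ hq h1 h2 (cor c E) (cor_nonneg c E)
  rw [← h7] at h8
  rw [h5]
  refine h6.trans ?_
  have h9 : (0 : ℝ) ≤ ∑ s ∈ Icc 1 (H₁ - q * ℓ₁), ∑ t ∈ Icc 1 (H₂ - q * ℓ₂), ∑ h : ZMod X, ∑ x : ZMod X,
      (yy c E ℓ₁ ℓ₂ q h x s t) ^ 2 :=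
    Finset.sum_nonneg fun _ _ => Finset.sum_nonneg fun _ _ => Finset.sum_nonneg fun _ _ =>
      Finset.sum_nonneg fun _ _ => sq_nonneg _
  have h10 : (X : ℝ) * X * ((Icc 1 (H₁ - q * ℓ₁)).card : ℝ) * ((Icc 1 (H₂ - q * ℓ₂)).card : ℝ) ≤
      (X : ℝ) * X * H₁ * H₂ := by
    rw [Nat.card_Icc, Nat.card_Icc, Nat.add_sub_cancel, Nat.add_sub_cancel]
    have h3 : ((H₁ - q * ℓ₁ : ℕ) : ℝ) ≤ H₁ := by exact_mod_cast Nat.sub_le _ _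
    have h4 : ((H₂ - q * ℓ₂ : ℕ) : ℝ) ≤ H₂ := by exact_mod_cast Nat.sub_le _ _
    gcongr
  exact (mul_le_mul_of_nonneg_right h10 h9).trans (mul_le_mul_of_nonneg_left h8 (by positivity))

/-- the sum `T_h` -/
noncomputable def TT {X : ℕ} [NeZero X] (c E : ZMod X → ℂ) (α β : ZMod X → ℕ → ℂ) (H₁ H₂ : ℕ)
    (h : ZMod X) : ℂ :=
  ∑ x : ZMod X, ∑ s ∈ Icc 1 H₁, ∑ t ∈ Icc 1 H₂, Dl h c x * Dl h E (x + ((s * t : ℕ) : ZMod X)) *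
    (α (x + h) s * (starRingEnd ℂ) (α x s)) * (β (x + h) t * (starRingEnd ℂ) (β x t))

theorem sum_TT {X : ℕ} [NeZero X] (c E : ZMod X → ℂ) (α β : ZMod X → ℕ → ℂ) (H₁ H₂ : ℕ) :
    ((∑ s ∈ Icc 1 H₁, ∑ t ∈ Icc 1 H₂,
      ‖∑ x : ZMod X, c x * E (x + ((s * t : ℕ) : ZMod X)) * α x s * β x t‖ ^ 2 : ℝ) : ℂ) =
      ∑ h : ZMod X, TT c E α β H₁ H₂ h := by
  rw [Complex.ofReal_sum]
  simp only [Complex.ofReal_sum, sq_norm_sum]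
  unfold TT
  symm
  calc ∑ h : ZMod X, ∑ x : ZMod X, ∑ s ∈ Icc 1 H₁, ∑ t ∈ Icc 1 H₂,
        Dl h c x * Dl h E (x + ((s * t : ℕ) : ZMod X)) *
        (α (x + h) s * (starRingEnd ℂ) (α x s)) * (β (x + h) t * (starRingEnd ℂ) (β x t))
      = ∑ h : ZMod X, ∑ s ∈ Icc 1 H₁, ∑ x : ZMod X, ∑ t ∈ Icc 1 H₂,
        Dl h c x * Dl h E (x + ((s * t : ℕ) : ZMod X)) *
        (α (x + h) s * (starRingEnd ℂ) (α x s)) * (β (x + h) t * (starRingEnd ℂ) (β x t)) :=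
        Finset.sum_congr rfl fun h _ => Finset.sum_comm
    _ = ∑ s ∈ Icc 1 H₁, ∑ h : ZMod X, ∑ x : ZMod X, ∑ t ∈ Icc 1 H₂,
        Dl h c x * Dl h E (x + ((s * t : ℕ) : ZMod X)) *
        (α (x + h) s * (starRingEnd ℂ) (α x s)) * (β (x + h) t * (starRingEnd ℂ) (β x t)) :=
        Finset.sum_comm
    _ = ∑ s ∈ Icc 1 H₁, ∑ h : ZMod X, ∑ t ∈ Icc 1 H₂, ∑ x : ZMod X,
        Dl h c x * Dl h E (x + ((s * t : ℕ) : ZMod X)) *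
        (α (x + h) s * (starRingEnd ℂ) (α x s)) * (β (x + h) t * (starRingEnd ℂ) (β x t)) :=
        Finset.sum_congr rfl fun s _ => Finset.sum_congr rfl fun h _ => Finset.sum_comm
    _ = ∑ s ∈ Icc 1 H₁, ∑ t ∈ Icc 1 H₂, ∑ h : ZMod X, ∑ x : ZMod X,
        Dl h c x * Dl h E (x + ((s * t : ℕ) : ZMod X)) *
        (α (x + h) s * (starRingEnd ℂ) (α x s)) * (β (x + h) t * (starRingEnd ℂ) (β x t)) :=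
        Finset.sum_congr rfl fun s _ => Finset.sum_comm
    _ = _ := by
        refine Finset.sum_congr rfl fun s _ => Finset.sum_congr rfl fun t _ =>
          Finset.sum_congr rfl fun h _ => Finset.sum_congr rfl fun x _ => ?_
        unfold Dl
        simp only [map_mul]
        rw [add_right_comm x _ h]
        ring

theorem mul_conj_le {a b : ℂ} (ha : ‖a‖ ≤ 1) (hb : ‖b‖ ≤ 1) : ‖a * (starRingEnd ℂ) b‖ ≤ 1 := by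
  rw [norm_mul, Complex.norm_conj]
  exact mul_le_one₀ ha (norm_nonneg _) hb

theorem TT_le {X : ℕ} [NeZero X] (c E : ZMod X → ℂ) (α β : ZMod X → ℕ → ℂ) (H₁ H₂ : ℕ)
    (hc : ∀ x, ‖c x‖ ≤ 1) (hE : ∀ x, ‖E x‖ ≤ 1) (hα : ∀ x s, ‖α x s‖ ≤ 1) (hβ : ∀ x t, ‖β x t‖ ≤ 1)
    (h : ZMod X) : ‖TT c E α β H₁ H₂ h‖ ≤ X * H₁ * H₂ := by
  unfold TT
  calc _ ≤ ∑ _x : ZMod X, ∑ _s ∈ Icc 1 H₁, ∑ _t ∈ Icc 1 H₂, (1 : ℝ) := by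
        refine norm_sum_le_of_le _ fun x _ => norm_sum_le_of_le _ fun s _ =>
          norm_sum_le_of_le _ fun t _ => ?_
        rw [norm_mul, norm_mul, norm_mul]
        refine mul_le_one₀ (mul_le_one₀ (mul_le_one₀ (norm_Dl_le _ _ hc _) (norm_nonneg _)
          (norm_Dl_le _ _ hE _)) (norm_nonneg _) (mul_conj_le (hα _ _) (hα _ _))) (norm_nonneg _)
          (mul_conj_le (hβ _ _) (hβ _ _))
    _ = _ := by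
        simp only [Finset.sum_const, Nat.card_Icc, Nat.add_sub_cancel, nsmul_eq_mul, mul_one,
          Finset.card_univ, ZMod.card]
        ring

theorem floor_half {y : ℝ} (hy : 1 ≤ y) : y / 2 ≤ (⌊y⌋₊ : ℝ) := by
  have h1 := Nat.lt_floor_add_one y
  have h2 : (1 : ℝ) ≤ (⌊y⌋₊ : ℝ) := by
    exact_mod_cast Nat.one_le_floor_iff y |>.2 hy
  linarith

end ThmBAux

open ThmBAux

theorem thmB : ∃ C : ℕ, ∀ (δ : ℝ) (X H₁ H₂ W : ℕ) [NeZero X], Adm δ C X H₁ H₂ W →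
    ∀ (c E : ZMod X → ℂ) (α β : ZMod X → ℕ → ℂ), (∀ x, ‖c x‖ ≤ 1) → (∀ x, ‖E x‖ ≤ 1) → (∀ x s, ‖α x s‖ ≤ 1) →
    (∀ x t, ‖β x t‖ ≤ 1) →
    δ * ((X : ℝ) ^ 2 * H₁ * H₂) ≤ ∑ s ∈ Icc 1 H₁, ∑ t ∈ Icc 1 H₂,
      ‖∑ x : ZMod X, c x * E (x + ((s * t : ℕ) : ZMod X)) * α x s * β x t‖ ^ 2 →
    δ ^ C * ((X : ℝ) ^ 2 * (H₁ : ℝ) ^ 2 * (H₂ : ℝ) ^ 2) ≤
      ∑ s ∈ Icc 1 H₁, ∑ s' ∈ Icc 1 H₁, ∑ t ∈ Icc 1 H₂, ∑ t' ∈ Icc 1 H₂,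
        ‖∑ x : ZMod X, (c x * E (x + ((s * t : ℕ) : ZMod X))) *
          (starRingEnd ℂ) (c x * E (x + ((s' * t' : ℕ) : ZMod X)))‖ ^ 2 := by
  classical
  obtain ⟨C₁, hC₁⟩ := claimB
  refine ⟨12 * C₁ + 6, ?_⟩
  intro δ X H₁ H₂ W _ hA c E α β hc hE hα hβ hyp
  have hδ := hA.pos
  have hδ2 := hA.half
  have hδ1 : δ ≤ 1 := by linarith
  have hX0 : 0 < X := Nat.pos_of_ne_zero (NeZero.ne X)
  have hXr : (0 : ℝ) < X := by exact_mod_cast hX0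
  have hH1 : 1 ≤ H₁ := hA.loc.pos1
  have hH2 : 1 ≤ H₂ := hA.loc.pos2
  have hH1r : (1 : ℝ) ≤ H₁ := by exact_mod_cast hH1
  have hH2r : (1 : ℝ) ≤ H₂ := by exact_mod_cast hH2
  -- the number `P = (δ ^ 2) ^ C₁`
  obtain ⟨P, hP⟩ : ∃ P : ℝ, P = (δ ^ 2) ^ C₁ := ⟨_, rfl⟩
  have hP0 : 0 < P := by rw [hP]; positivity
  have hP1 : P ≤ 1 := by rw [hP]; exact pow_le_one₀ (by positivity) (pow_le_one₀ hδ.le hδ1)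
  have hPi : (((δ ^ 2)⁻¹) ^ C₁ : ℝ) = P⁻¹ := by rw [hP, inv_pow]
  have hAdm : Adm (δ ^ 2) C₁ X H₁ H₂ W := Adm.pow 2 (by norm_num) (hA.mono (by omega))
  have hPH1 : 1 ≤ P * H₁ := by
    have h1 := hAdm.one
    rw [hPi] at h1
    rwa [inv_le_iff_one_le_mul₀' hP0] at h1
  have hPH2 : 1 ≤ P * H₂ := by
    have h1 := hAdm.two
    rw [hPi] at h1
    rwa [inv_le_iff_one_le_mul₀' hP0] at h1
  obtain ⟨ℓ₁, hℓ₁⟩ : ∃ ℓ : ℕ, ℓ = ⌊P * H₁⌋₊ := ⟨_, rfl⟩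
  obtain ⟨ℓ₂, hℓ₂⟩ : ∃ ℓ : ℕ, ℓ = ⌊P * H₂⌋₊ := ⟨_, rfl⟩
  have hℓ1a : (ℓ₁ : ℝ) ≤ P * H₁ := by rw [hℓ₁]; exact Nat.floor_le (by positivity)
  have hℓ2a : (ℓ₂ : ℝ) ≤ P * H₂ := by rw [hℓ₂]; exact Nat.floor_le (by positivity)
  have hℓ1b : P * H₁ / 2 ≤ (ℓ₁ : ℝ) := by rw [hℓ₁]; exact floor_half hPH1
  have hℓ2b : P * H₂ / 2 ≤ (ℓ₂ : ℝ) := by rw [hℓ₂]; exact floor_half hPH2
  have hℓ1c : (0 : ℝ) < ℓ₁ := lt_of_lt_of_le (by positivity) hℓ1b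
  have hℓ2c : (0 : ℝ) < ℓ₂ := lt_of_lt_of_le (by positivity) hℓ2b
  obtain ⟨Q, hQ⟩ : ∃ Q : ℕ, Q = ⌊P⁻¹⌋₊ := ⟨_, rfl⟩
  have hPi1 : 1 ≤ P⁻¹ := (one_le_inv₀ hP0).2 hP1
  have hQ1 : 1 ≤ Q := by rw [hQ]; exact Nat.one_le_floor_iff _ |>.2 hPi1
  have hQa : (Q : ℝ) ≤ P⁻¹ := by rw [hQ]; exact Nat.floor_le (by positivity)
  have hQr : (0 : ℝ) < Q := by exact_mod_cast hQ1
  have hqℓ1 : ∀ q ∈ Icc 1 Q, q * ℓ₁ ≤ H₁ := by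
    intro q hq
    have h1 : (q : ℝ) ≤ P⁻¹ := le_trans (by exact_mod_cast (Finset.mem_Icc.1 hq).2) hQa
    have h2 : (q : ℝ) * ℓ₁ ≤ P⁻¹ * (P * H₁) := mul_le_mul h1 hℓ1a (Nat.cast_nonneg _) (by positivity)
    rw [← mul_assoc, inv_mul_cancel₀ hP0.ne', one_mul] at h2
    exact_mod_cast h2
  have hqℓ2 : ∀ q ∈ Icc 1 Q, q * ℓ₂ ≤ H₂ := by
    intro q hq
    have h1 : (q : ℝ) ≤ P⁻¹ := le_trans (by exact_mod_cast (Finset.mem_Icc.1 hq).2) hQa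
    have h2 : (q : ℝ) * ℓ₂ ≤ P⁻¹ * (P * H₂) := mul_le_mul h1 hℓ2a (Nat.cast_nonneg _) (by positivity)
    rw [← mul_assoc, inv_mul_cancel₀ hP0.ne', one_mul] at h2
    exact_mod_cast h2
  -- the sums `T_h`
  have hT : δ * ((X : ℝ) ^ 2 * H₁ * H₂) ≤ ∑ h : ZMod X, ‖TT c E α β H₁ H₂ h‖ := by
    refine hyp.trans ?_
    have h1 := sum_TT c E α β H₁ H₂
    have h2 := norm_sum_le (univ : Finset (ZMod X)) (TT c E α β H₁ H₂)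
    rw [← h1, Complex.norm_real, Real.norm_eq_abs] at h2
    exact (le_abs_self _).trans h2
  obtain ⟨G, hG⟩ : ∃ G : Finset (ZMod X), G = univ.filter fun h =>
    δ / 2 * (X * H₁ * H₂) ≤ ‖TT c E α β H₁ H₂ h‖ := ⟨_, rfl⟩
  have hGc : δ / 2 * X ≤ (G.card : ℝ) := by
    have h1 : ∑ h : ZMod X, ‖TT c E α β H₁ H₂ h‖ ≤
        (G.card : ℝ) * (X * H₁ * H₂) + X * (δ / 2 * (X * H₁ * H₂)) := by
      rw [← Finset.sum_filter_add_sum_filter_not univ (fun h =>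
        δ / 2 * (X * H₁ * H₂) ≤ ‖TT c E α β H₁ H₂ h‖), ← hG]
      refine add_le_add ?_ ?_
      · refine (Finset.sum_le_card_nsmul _ _ _ fun h _ => TT_le c E α β H₁ H₂ hc hE hα hβ h).trans
          (le_of_eq ?_)
        rw [nsmul_eq_mul]
      · refine (Finset.sum_le_card_nsmul _ _ (δ / 2 * (X * H₁ * H₂)) fun h hh =>
          (not_le.1 (Finset.mem_filter.1 hh).2).le).trans ?_
        rw [nsmul_eq_mul]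
        refine mul_le_mul_of_nonneg_right ?_ (by positivity)
        have h2 := Finset.card_filter_le (univ : Finset (ZMod X))
          (fun h => ¬ δ / 2 * (X * H₁ * H₂) ≤ ‖TT c E α β H₁ H₂ h‖)
        rw [Finset.card_univ, ZMod.card] at h2
        exact_mod_cast h2
    have h2 := hT.trans h1
    have h3 : 0 < (X : ℝ) * H₁ * H₂ := by positivity
    have h4 : δ / 2 * X * (X * H₁ * H₂) ≤ (G.card : ℝ) * (X * H₁ * H₂) := by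
      nlinarith
    exact le_of_mul_le_mul_right h4 h3
  -- `claimB`
  have hcl : ∀ h ∈ G, ∃ q ∈ Icc 1 Q, P * (X * H₁ * H₂ * ℓ₁ * ℓ₂) ≤ YY c E H₁ H₂ ℓ₁ ℓ₂ q h := by
    intro h hh
    rw [hG, Finset.mem_filter] at hh
    have h1 : δ ^ 2 * (X * H₁ * H₂) ≤ ‖∑ x : ZMod X, ∑ s ∈ Icc 1 H₁, ∑ t ∈ Icc 1 H₂,
        Dl h c x * Dl h E (x + ((s * t : ℕ) : ZMod X)) *
        (fun x s => α (x + h) s * (starRingEnd ℂ) (α x s)) x s *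
        (fun x t => β (x + h) t * (starRingEnd ℂ) (β x t)) x t‖ := by
      refine le_trans ?_ hh.2
      refine mul_le_mul_of_nonneg_right ?_ (by positivity)
      nlinarith
    obtain ⟨q, hq1, hq2, hq3⟩ := hC₁ (δ ^ 2) X H₁ H₂ W hAdm (Dl h c) (Dl h E)
      (fun x s => α (x + h) s * (starRingEnd ℂ) (α x s)) (fun x t => β (x + h) t * (starRingEnd ℂ) (β x t))
      (norm_Dl_le h c hc) (norm_Dl_le h E hE) (fun x s => mul_conj_le (hα _ _) (hα _ _))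
      (fun x t => mul_conj_le (hβ _ _) (hβ _ _)) h1
    rw [hPi] at hq2
    rw [← hP] at hq3
    refine ⟨q, Finset.mem_Icc.2 ⟨hq1, ?_⟩, (hq3 ℓ₁ ℓ₂ hℓ1a hℓ2a).2.2⟩
    rw [hQ]
    exact Nat.le_floor hq2
  choose! qf hqf1 hqf2 using hcl
  obtain ⟨V, hV⟩ : ∃ V : ℝ, V = δ / 2 * X * (P * (X * H₁ * H₂ * ℓ₁ * ℓ₂)) := ⟨_, rfl⟩
  have hV0 : 0 < V := by rw [hV]; positivity
  have hsum : V ≤ ∑ q ∈ Icc 1 Q, ∑ h : ZMod X, YY c E H₁ H₂ ℓ₁ ℓ₂ q h := by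
    calc V ≤ ∑ _h ∈ G, P * (X * H₁ * H₂ * ℓ₁ * ℓ₂) := by
          rw [Finset.sum_const, nsmul_eq_mul, hV]
          exact mul_le_mul_of_nonneg_right hGc (by positivity)
      _ ≤ ∑ h ∈ G, YY c E H₁ H₂ ℓ₁ ℓ₂ (qf h) h := Finset.sum_le_sum fun h hh => hqf2 h hh
      _ ≤ ∑ h ∈ G, ∑ q ∈ Icc 1 Q, YY c E H₁ H₂ ℓ₁ ℓ₂ q h :=
          Finset.sum_le_sum fun h hh => Finset.single_le_sum
            (f := fun q => YY c E H₁ H₂ ℓ₁ ℓ₂ q h) (fun q _ => YY_nonneg c E H₁ H₂ ℓ₁ ℓ₂ q h) (hqf1 h hh)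
      _ ≤ ∑ h : ZMod X, ∑ q ∈ Icc 1 Q, YY c E H₁ H₂ ℓ₁ ℓ₂ q h :=
          Finset.sum_le_sum_of_subset_of_nonneg (Finset.subset_univ _) fun h _ _ =>
            Finset.sum_nonneg fun q _ => YY_nonneg c E H₁ H₂ ℓ₁ ℓ₂ q h
      _ = _ := Finset.sum_comm
  obtain ⟨q, hq, hqV⟩ : ∃ q ∈ Icc 1 Q, V / Q ≤ ∑ h : ZMod X, YY c E H₁ H₂ ℓ₁ ℓ₂ q h := by
    refine Finset.exists_le_of_sum_le ⟨1, Finset.mem_Icc.2 ⟨le_refl 1, hQ1⟩⟩ (le_trans (le_of_eq ?_) hsum)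
    rw [Finset.sum_const, Nat.card_Icc, Nat.add_sub_cancel, nsmul_eq_mul]
    field_simp
  have hPV : V * P ≤ ∑ h : ZMod X, YY c E H₁ H₂ ℓ₁ ℓ₂ q h := by
    refine le_trans ?_ hqV
    rw [div_eq_mul_inv]
    refine mul_le_mul_of_nonneg_left ?_ hV0.le
    rw [le_inv_comm₀ hP0 hQr]
    exact hQa
  have hsq := YY_sq c E H₁ H₂ ℓ₁ ℓ₂ q (Finset.mem_Icc.1 hq).1 (hqℓ1 q hq) (hqℓ2 q hq)
  change δ ^ (12 * C₁ + 6) * ((X : ℝ) ^ 2 * (H₁ : ℝ) ^ 2 * (H₂ : ℝ) ^ 2) ≤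
    ∑ s ∈ Icc 1 H₁, ∑ s' ∈ Icc 1 H₁, ∑ t ∈ Icc 1 H₂, ∑ t' ∈ Icc 1 H₂, cor c E s t s' t'
  obtain ⟨S, hS⟩ : ∃ S : ℝ, S = ∑ s ∈ Icc 1 H₁, ∑ s' ∈ Icc 1 H₁, ∑ t ∈ Icc 1 H₂, ∑ t' ∈ Icc 1 H₂,
        cor c E s t s' t' := ⟨_, rfl⟩
  rw [← hS] at hsq ⊢
  have h1 : (V * P) ^ 2 ≤ ((X : ℝ) * X * H₁ * H₂) * ((ℓ₁ : ℝ) * ℓ₂ * S) :=
    (pow_le_pow_left₀ (by positivity) hPV 2).trans hsq
  have h2 : (V * P) ^ 2 = ((X : ℝ) * X * H₁ * H₂) * ((ℓ₁ : ℝ) * ℓ₂ *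
      (δ ^ 2 / 4 * P ^ 4 * ((X : ℝ) ^ 2 * H₁ * H₂ * ℓ₁ * ℓ₂))) := by
    rw [hV]
    ring
  rw [h2] at h1
  have h3 : δ ^ 2 / 4 * P ^ 4 * ((X : ℝ) ^ 2 * H₁ * H₂ * ℓ₁ * ℓ₂) ≤ S :=
    le_of_mul_le_mul_left (le_of_mul_le_mul_left h1 (by positivity)) (by positivity)
  refine le_trans ?_ h3
  have h4 : P * H₁ / 2 * (P * H₂ / 2) ≤ (ℓ₁ : ℝ) * ℓ₂ :=
    mul_le_mul hℓ1b hℓ2b (by positivity) hℓ1c.le
  have h5 : δ ^ 2 / 4 * P ^ 4 * ((X : ℝ) ^ 2 * H₁ * H₂ * (P * H₁ / 2 * (P * H₂ / 2))) ≤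
      δ ^ 2 / 4 * P ^ 4 * ((X : ℝ) ^ 2 * H₁ * H₂ * ((ℓ₁ : ℝ) * ℓ₂)) := by
    gcongr
  refine le_trans ?_ (h5.trans (le_of_eq (by ring)))
  have h6 : δ ^ (12 * C₁ + 6) = P ^ 6 * δ ^ 6 := by
    rw [hP, ← pow_mul, ← pow_mul, pow_add]
    congr 2
    ring
  have h7 : δ ^ 4 ≤ 1 / 16 := by
    calc δ ^ 4 ≤ (1 / 2) ^ 4 := pow_le_pow_left₀ hδ.le hδ2 4
      _ = 1 / 16 := by norm_num
  rw [h6]
  have h8 : 0 ≤ P ^ 6 * δ ^ 2 * ((X : ℝ) ^ 2 * (H₁ : ℝ) ^ 2 * (H₂ : ℝ) ^ 2) := by positivity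
  calc P ^ 6 * δ ^ 6 * ((X : ℝ) ^ 2 * (H₁ : ℝ) ^ 2 * (H₂ : ℝ) ^ 2)
      = P ^ 6 * δ ^ 2 * ((X : ℝ) ^ 2 * (H₁ : ℝ) ^ 2 * (H₂ : ℝ) ^ 2) * δ ^ 4 := by ring
    _ ≤ P ^ 6 * δ ^ 2 * ((X : ℝ) ^ 2 * (H₁ : ℝ) ^ 2 * (H₂ : ℝ) ^ 2) * (1 / 16) :=
        mul_le_mul_of_nonneg_left h7 h8
    _ = _ := by ring

end Pool.Agent.BLF
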