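import Pool.Agent.Lib.BLF.Corr
import Pool.Agent.Lib.BLF.Lift
import Pool.Agent.Lib.BLF.ThmB

/-!
# Module EdgeMs: mean square over a product slot

PROOF. `C₁` from `thmB`, `L = log x`, `δ = L^(-(B + 4 K + 8))`. Suppose the left side is larger than `H₁ H₂ x² / L^B`. Let `X` be from `pow_two` (`4 x ≤ X ≤ 8 x`) and `W ∣ X` for `N = H₁ H₂`. On `ZMod X` let
`c z = 1` if `1 ≤ z.val ≤ x`, else `0`; `E z = ff (zA A x) (z.val + v) / L²` if `z.val + v ≤ 2 x`, else `0` (`|ff n| ≤ L²` for `n ≤ 2 x`, see the proof of `gen_ms` in `VN/WeightsMs`); `α' z s = α z.val s / L^K` if `1 ≤ z.val ≤ x`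
and `s ∈ Icc 1 H₁`, else `0`; `β'` likewise. For `s ≤ H₁`, `t ≤ H₂` the sum over `z` of `c z * E (z + s t) * α' z s * β' z t` is, by `sum_lift` and `val_lift` (`n + s t + v ≤ 2 x < X`),
`L^(-2-2K) ∑_{n ≤ x} ff (n + (v + s t)) α n s β n t`. So the hypothesis of `thmB` holds: `δ X² ≤ 64 δ x² ≤ L^(-4-4K-B) x²`. `Adm δ C₁ X H₁ H₂ W`: `1 + log W ≤ 1 + log (2 x) ≤ L² ≤ δ⁻¹`, `H_i ≥ L^C = δ^(-C₁)` for
`C = C₁ (B + 4 K + 8)`. The conclusion of `thmB`: `δ^C₁ X² N² ≤ ∑ ‖...‖² = L^(-8) ∑_{s,s',t,t'} (∑_{n ≤ x} ff ff)² ≤ L^(-8) N² x² / L^B₁` by `corr_edge B₁`: a contradiction if `B₁ = C₁ (B + 4 K + 8) + 1`.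
The imports `thmB`, `corr_edge`, `sum_lift`, `val_lift`, `pow_two` are black boxes.
-/

set_option autoImplicit false

open Finset Filter

namespace Pool.Agent.BLF

open Pool.Agent.HLB Pool.Agent.HL Pool.Agent.HLT Pool.Agent.HLU Pool.Agent.VN

private lemma ff_bound {A x : ℕ} (hL2 : 2 ≤ Real.log x) (h4 : (DZ (zA A x))⁻¹ ≤ Real.log x) (n : ℕ)
    (hn : n ≤ 2 * x) : |ff (zA A x) n| ≤ Real.log x ^ 2 := by
  have e1 : lp n ≤ Real.log x ^ 2 := lp_le_sq hL2 hn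
  have e2 : nuz (zA A x) n ≤ Real.log x ^ 2 :=
    (nuz_le _ n).trans (h4.trans (by nlinarith))
  have e3 := lp_nonneg n
  have e4 := nuz_nonneg (zA A x) n
  unfold ff
  rw [abs_le]
  constructor <;> linarith

/-- The indicator of `[1, x]`. -/
private noncomputable def cX {X : ℕ} (x : ℕ) (z : ZMod X) : ℂ := if 1 ≤ z.val ∧ z.val ≤ x then 1 else 0

/-- The function `ff` on `ZMod X`. -/
private noncomputable def eX {X : ℕ} (A x v : ℕ) (z : ZMod X) : ℂ :=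
  if z.val + v ≤ 2 * x then ((ff (zA A x) (z.val + v) / Real.log x ^ 2 : ℝ) : ℂ) else 0

/-- The weights on `ZMod X`. -/
private noncomputable def wX {X : ℕ} (K H x : ℕ) (α : ℕ → ℕ → ℂ) (z : ZMod X) (s : ℕ) : ℂ :=
  if (1 ≤ z.val ∧ z.val ≤ x) ∧ s ∈ Icc 1 H then α z.val s / ((Real.log x ^ K : ℝ) : ℂ) else 0

private lemma norm_cX {X : ℕ} (x : ℕ) (z : ZMod X) : ‖cX x z‖ ≤ 1 := by
  unfold cX
  split_ifs
  · rw [norm_one]
  · rw [norm_zero]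
    exact zero_le_one

private lemma norm_eX {X : ℕ} {A x : ℕ} (v : ℕ) (hL2 : 2 ≤ Real.log x) (h4 : (DZ (zA A x))⁻¹ ≤ Real.log x)
    (z : ZMod X) : ‖eX A x v z‖ ≤ 1 := by
  unfold eX
  split_ifs with h
  · have hL0 : 0 < Real.log x := by linarith
    rw [Complex.norm_real, Real.norm_eq_abs, abs_div, abs_of_pos (pow_pos hL0 2)]
    exact div_le_one_of_le₀ (ff_bound hL2 h4 _ h) (pow_pos hL0 2).le
  · rw [norm_zero]
    exact zero_le_one

private lemma norm_wX {X : ℕ} {K H x : ℕ} (hL2 : 2 ≤ Real.log x) (α : ℕ → ℕ → ℂ)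
    (hα : ∀ n ∈ Icc 1 x, ∀ s ∈ Icc 1 H, ‖α n s‖ ≤ Real.log x ^ K)
    (z : ZMod X) (s : ℕ) : ‖wX K H x α z s‖ ≤ 1 := by
  unfold wX
  split_ifs with h
  · have hL0 : 0 < Real.log x := by linarith
    rw [norm_div, Complex.norm_real, Real.norm_eq_abs, abs_of_pos (pow_pos hL0 K)]
    exact div_le_one_of_le₀ (hα _ (mem_Icc.2 h.1) _ h.2) (pow_pos hL0 K).le
  · rw [norm_zero]
    exact zero_le_one

private lemma eX_lift {X : ℕ} [NeZero X] {A x v n a : ℕ} (hX : 4 * x ≤ X) (hx : 1 ≤ x) (hn : n ∈ Icc 1 x) (ha : v + a ≤ x) :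
    eX A x v ((n : ZMod X) + (a : ZMod X)) = ((ff (zA A x) (n + (v + a)) / Real.log x ^ 2 : ℝ) : ℂ) := by
  rw [mem_Icc] at hn
  unfold eX
  rw [val_lift n a (by omega), if_pos (by omega)]
  have h : n + a + v = n + (v + a) := by omega
  rw [h]

private lemma wX_lift {X : ℕ} [NeZero X] {K H x n s : ℕ} (hX : 4 * x ≤ X) (hx : 1 ≤ x) (α : ℕ → ℕ → ℂ)
    (hn : n ∈ Icc 1 x) (hs : s ∈ Icc 1 H) :
    wX K H x α (n : ZMod X) s = α n s / ((Real.log x ^ K : ℝ) : ℂ) := by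
  have hn' := mem_Icc.1 hn
  have h : (n : ZMod X).val = n := ZMod.val_cast_of_lt (by omega)
  unfold wX
  rw [h, if_pos ⟨hn', hs⟩]

private lemma sum_cX {X : ℕ} [NeZero X] {x : ℕ} (hX : 4 * x ≤ X) (hx : 1 ≤ x) (Φ : ZMod X → ℂ) :
    ∑ z : ZMod X, cX x z * Φ z = ∑ n ∈ Icc 1 x, Φ (n : ZMod X) := by
  rw [← sum_lift x (by omega) Φ]
  refine sum_congr rfl fun z _ => ?_
  unfold cX
  split_ifs
  · rw [one_mul]
  · rw [zero_mul]

theorem edge_ms (K B : ℕ) : ∃ K' B' C : ℕ, ∀ A : ℕ, ∀ᶠ x : ℕ in atTop, ∀ H₁ H₂ v : ℕ, Real.log x ^ C ≤ H₁ →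
    Real.log x ^ C ≤ H₂ → v + H₁ * H₂ ≤ x → MSP A K' B' x (Ioc v (v + H₁ * H₂)) → ∀ α β : ℕ → ℕ → ℂ,
    (∀ n ∈ Icc 1 x, ∀ s ∈ Icc 1 H₁, ‖α n s‖ ≤ Real.log x ^ K) →
    (∀ n ∈ Icc 1 x, ∀ t ∈ Icc 1 H₂, ‖β n t‖ ≤ Real.log x ^ K) →
    ∑ s ∈ Icc 1 H₁, ∑ t ∈ Icc 1 H₂,
      ‖∑ n ∈ Icc 1 x, (ff (zA A x) (n + (v + s * t)) : ℂ) * α n s * β n t‖ ^ 2 ≤
    (H₁ : ℝ) * H₂ * ((x : ℝ) ^ 2 / Real.log x ^ B) := by
  obtain ⟨C₁, hB⟩ := thmB
  obtain ⟨K', B', hcorr⟩ := corr_edge ((B + 4 * K + 8) * C₁)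
  refine ⟨K', B', (B + 4 * K + 8) * C₁, fun A => ?_⟩
  filter_upwards [hcorr A, DZ_inv_le A, ev_log 3, eventually_ge_atTop 1] with x hc h4 hL3 hx1
    H₁ H₂ v h1 h2 hv hmsp α β hα hβ
  set P : ℕ := B + 4 * K + 8 with hP
  have hL2 : 2 ≤ Real.log x := by linarith
  have hL0 : 0 < Real.log x := by linarith
  have hL1 : 1 ≤ Real.log x := by linarith
  have hx0 : (0 : ℝ) < x := by exact_mod_cast hx1
  have hH1 : 1 ≤ H₁ := by
    have h : (1 : ℝ) ≤ H₁ := (one_le_pow₀ hL1).trans h1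
    exact_mod_cast h
  have hH2 : 1 ≤ H₂ := by
    have h : (1 : ℝ) ≤ H₂ := (one_le_pow₀ hL1).trans h2
    exact_mod_cast h
  have hH1r : (0 : ℝ) < H₁ := by exact_mod_cast hH1
  have hH2r : (0 : ℝ) < H₂ := by exact_mod_cast hH2
  by_contra hcon
  rw [not_le] at hcon
  obtain ⟨X, hX0, hX4, hX8, hW⟩ := pow_two x hx1
  haveI : NeZero X := ⟨hX0⟩
  have hN1 : 1 ≤ H₁ * H₂ := Nat.mul_le_mul hH1 hH2
  obtain ⟨W, hWX, hW1, hW2⟩ := hW (H₁ * H₂) hN1 (by omega)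
  have hX4r : 4 * (x : ℝ) ≤ X := by exact_mod_cast hX4
  have hX8r : (X : ℝ) ≤ 8 * x := by exact_mod_cast hX8
  have hLP : 0 < Real.log x ^ P := pow_pos hL0 P
  have hadm : Adm (Real.log x ^ P)⁻¹ C₁ X H₁ H₂ W := by
    refine ⟨inv_pos.2 hLP, ?_, hWX, hW1, hW2, ?_, ?_, ?_⟩
    · rw [one_div]
      refine inv_anti₀ two_pos ?_
      calc (2 : ℝ) ≤ Real.log x := hL2
        _ = Real.log x ^ 1 := (pow_one _).symm
        _ ≤ Real.log x ^ P := pow_le_pow_right₀ hL1 (by omega)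
    · rw [inv_inv]
      have hWx : W ≤ 2 * x := by omega
      have hWr : (W : ℝ) ≤ 2 * x := by exact_mod_cast hWx
      have hW0 : (0 : ℝ) < W := by exact_mod_cast (lt_of_lt_of_le Nat.one_pos (hN1.trans hW1))
      have h5 : Real.log W ≤ Real.log 2 + Real.log x := by
        rw [← Real.log_mul two_ne_zero hx0.ne']
        exact Real.log_le_log hW0 hWr
      have h6 : Real.log 2 ≤ 1 := by
        have := Real.log_two_lt_d9
        linarith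
      have h7 : Real.log x ^ 2 ≤ Real.log x ^ P := pow_le_pow_right₀ hL1 (by omega)
      nlinarith
    · rw [inv_inv, ← pow_mul]
      exact h1
    · rw [inv_inv, ← pow_mul]
      exact h2
  have hst : ∀ s ∈ Icc 1 H₁, ∀ t ∈ Icc 1 H₂, v + s * t ≤ x := by
    intro s hs t ht
    have := Nat.mul_le_mul (mem_Icc.1 hs).2 (mem_Icc.1 ht).2
    omega
  -- the sums over `ZMod X`
  have hT : ∀ s ∈ Icc 1 H₁, ∀ t ∈ Icc 1 H₂,
      ‖∑ z : ZMod X, cX x z * eX A x v (z + ((s * t : ℕ) : ZMod X)) * wX K H₁ x α z s * wX K H₂ x β z t‖ ^ 2 =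
      ‖∑ n ∈ Icc 1 x, (ff (zA A x) (n + (v + s * t)) : ℂ) * α n s * β n t‖ ^ 2 / Real.log x ^ (4 * K + 4) := by
    intro s hs t ht
    have e1 : ∑ z : ZMod X, cX x z * eX A x v (z + ((s * t : ℕ) : ZMod X)) * wX K H₁ x α z s * wX K H₂ x β z t =
        ∑ n ∈ Icc 1 x, (ff (zA A x) (n + (v + s * t)) : ℂ) * α n s * β n t / ((Real.log x ^ (2 * K + 2) : ℝ) : ℂ) := by
      have e2 : ∀ z : ZMod X, cX x z * eX A x v (z + ((s * t : ℕ) : ZMod X)) * wX K H₁ x α z s * wX K H₂ x β z t =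
          cX x z * (eX A x v (z + ((s * t : ℕ) : ZMod X)) * wX K H₁ x α z s * wX K H₂ x β z t) := by
        intro z
        ring
      rw [sum_congr rfl fun z _ => e2 z, sum_cX hX4 hx1]
      refine sum_congr rfl fun n hn => ?_
      rw [eX_lift hX4 hx1 hn (hst s hs t ht), wX_lift hX4 hx1 α hn hs, wX_lift hX4 hx1 β hn ht]
      have hLc : (Real.log x : ℂ) ≠ 0 := by exact_mod_cast hL0.ne'
      push_cast
      field_simp
      ring
    rw [e1, ← sum_div, norm_div, Complex.norm_real, Real.norm_eq_abs, abs_of_pos (pow_pos hL0 _), div_pow,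
      ← pow_mul]
    congr 2
    ring
  have hsum : ∑ s ∈ Icc 1 H₁, ∑ t ∈ Icc 1 H₂,
      ‖∑ z : ZMod X, cX x z * eX A x v (z + ((s * t : ℕ) : ZMod X)) * wX K H₁ x α z s * wX K H₂ x β z t‖ ^ 2 =
      (∑ s ∈ Icc 1 H₁, ∑ t ∈ Icc 1 H₂,
      ‖∑ n ∈ Icc 1 x, (ff (zA A x) (n + (v + s * t)) : ℂ) * α n s * β n t‖ ^ 2) / Real.log x ^ (4 * K + 4) := by
    rw [sum_div]
    refine sum_congr rfl fun s hs => ?_
    rw [sum_div]
    exact sum_congr rfl fun t ht => hT s hs t ht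
  have hmain := hB (Real.log x ^ P)⁻¹ X H₁ H₂ W hadm (cX x) (eX A x v) (wX K H₁ x α) (wX K H₂ x β) (norm_cX x)
    (norm_eX v hL2 h4) (norm_wX hL2 α hα) (norm_wX hL2 β hβ) (by
      rw [hsum, le_div_iff₀ (pow_pos hL0 _)]
      refine le_trans ?_ hcon.le
      have e5 : Real.log x ^ P = Real.log x ^ B * Real.log x ^ (4 * K + 4) * Real.log x ^ 4 := by
        rw [← pow_add, ← pow_add]
        congr 1
      have hXsq : (X : ℝ) ^ 2 ≤ 64 * x ^ 2 := by nlinarith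
      have hL4 : (64 : ℝ) ≤ Real.log x ^ 4 := by
        calc (64 : ℝ) ≤ 3 ^ 4 := by norm_num
          _ ≤ Real.log x ^ 4 := pow_le_pow_left₀ (by norm_num) hL3 4
      have hLB : 0 < Real.log x ^ B := pow_pos hL0 _
      have hLK : 0 < Real.log x ^ (4 * K + 4) := pow_pos hL0 _
      have hL40 : 0 < Real.log x ^ 4 := pow_pos hL0 _
      have e6 : (Real.log x ^ P)⁻¹ * ((X : ℝ) ^ 2 * H₁ * H₂) * Real.log x ^ (4 * K + 4) =
          (H₁ : ℝ) * H₂ * ((X ^ 2 / Real.log x ^ 4) / Real.log x ^ B) := by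
        rw [e5]
        field_simp
      rw [e6]
      refine mul_le_mul_of_nonneg_left ?_ (by positivity)
      refine div_le_div_of_nonneg_right ?_ hLB.le
      rw [div_le_iff₀ hL40]
      nlinarith [sq_nonneg (x : ℝ)])
  -- the correlations
  have hR : ∀ s ∈ Icc 1 H₁, ∀ s' ∈ Icc 1 H₁, ∀ t ∈ Icc 1 H₂, ∀ t' ∈ Icc 1 H₂,
      ‖∑ z : ZMod X, (cX x z * eX A x v (z + ((s * t : ℕ) : ZMod X))) *
          (starRingEnd ℂ) (cX x z * eX A x v (z + ((s' * t' : ℕ) : ZMod X)))‖ ^ 2 ≤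
      (∑ n ∈ Icc 1 x, ff (zA A x) (n + (v + s * t)) * ff (zA A x) (n + (v + s' * t'))) ^ 2 := by
    intro s hs s' hs' t ht t' ht'
    have e1 : ∑ z : ZMod X, (cX x z * eX A x v (z + ((s * t : ℕ) : ZMod X))) *
          (starRingEnd ℂ) (cX x z * eX A x v (z + ((s' * t' : ℕ) : ZMod X))) =
        (((∑ n ∈ Icc 1 x, ff (zA A x) (n + (v + s * t)) * ff (zA A x) (n + (v + s' * t'))) /
          Real.log x ^ 4 : ℝ) : ℂ) := by
      have e2 : ∀ z : ZMod X, (cX x z * eX A x v (z + ((s * t : ℕ) : ZMod X))) *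
          (starRingEnd ℂ) (cX x z * eX A x v (z + ((s' * t' : ℕ) : ZMod X))) =
          cX x z * (eX A x v (z + ((s * t : ℕ) : ZMod X)) *
            (starRingEnd ℂ) (eX A x v (z + ((s' * t' : ℕ) : ZMod X)))) := by
        intro z
        rw [map_mul]
        unfold cX
        split_ifs
        · rw [map_one]
          ring
        · rw [map_zero]
          ring
      rw [sum_congr rfl fun z _ => e2 z, sum_cX hX4 hx1, sum_div, Complex.ofReal_sum]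
      refine sum_congr rfl fun n hn => ?_
      rw [eX_lift hX4 hx1 hn (hst s hs t ht), eX_lift hX4 hx1 hn (hst s' hs' t' ht'), Complex.conj_ofReal,
        ← Complex.ofReal_mul]
      congr 1
      field_simp
    rw [e1, Complex.norm_real, Real.norm_eq_abs, sq_abs, div_pow]
    exact div_le_self (sq_nonneg _) (one_le_pow₀ (one_le_pow₀ hL1))
  have hfin := hc H₁ H₂ v hH1 hH2 hv hmsp
  have hle : ((Real.log x ^ P)⁻¹) ^ C₁ * ((X : ℝ) ^ 2 * (H₁ : ℝ) ^ 2 * (H₂ : ℝ) ^ 2) ≤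
      ((H₁ : ℝ) * H₂) ^ 2 * ((x : ℝ) ^ 2 / Real.log x ^ (P * C₁)) := by
    refine hmain.trans (le_trans ?_ hfin)
    exact sum_le_sum fun s hs => sum_le_sum fun s' hs' => sum_le_sum fun t ht => sum_le_sum fun t' ht' =>
      hR s hs s' hs' t ht t' ht'
  have hLPC : 0 < Real.log x ^ (P * C₁) := pow_pos hL0 _
  rw [inv_pow, ← pow_mul, inv_mul_eq_div, mul_div_assoc', div_le_div_iff_of_pos_right hLPC] at hle
  have hXsq : (x : ℝ) ^ 2 < (X : ℝ) ^ 2 := by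
    have : (x : ℝ) < X := by linarith
    exact pow_lt_pow_left₀ this hx0.le two_ne_zero
  have hHH : 0 < ((H₁ : ℝ) * H₂) ^ 2 := by positivity
  have := mul_lt_mul_of_pos_left hXsq hHH
  nlinarith

end Pool.Agent.BLF
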