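import Pool.Agent.Lib.BLF.Defs

/-!
# Module Vino: strongly recurrent linear phases

PROOF. `BadN H ψ ε ≥ η H²` pairs, so for some `t' ≤ H` the set `B` of the integers `b = t - t'`, `t ∈ Icc 1 H`, `nrm (ψ b) < ε`, has at least `η H` elements; `B` lies in an interval of `H`
consecutive integers. Two elements `b < b'` of `B` have `b' - b ≤ 2 / η` (otherwise `|B| ≤ 1 + η H / 2 < η H`). Let `q = b' - b`, `θ = q ψ - round (q ψ)`; `|θ| = nrm (q ψ) < 2 ε`
(`nrm` is subadditive and even). If `θ = 0` we are done. Some residue class mod `q` contains at least `η H / q` elements `b₀ + q j` of `B`, with `j` in a set `J` of at most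
`H / q + 1 ≤ 2 H / q` consecutive integers (`q ≤ 2 / η ≤ H`). For these `j`, `b ψ = b₀ ψ + j θ` mod 1, so `nrm (b₀ ψ + j θ) < ε`. Now count the `j ∈ J` with `nrm (c + j θ) < ε`: the numbers
`c + j θ`, `j ∈ J`, lie in an interval of length `|J| |θ|`, so at most `|J| |θ| + 2` integers `n` are within `ε` of one of them, and for each `n` at most `2 ε / |θ| + 1` of the `j`
have `|c + j θ - n| < ε`. Hence `η H / q ≤ (|J| |θ| + 2) (2 ε / |θ| + 1) = 2 ε |J| + |J| |θ| + 4 ε / |θ| + 2 ≤ 4 ε |J| + 4 ε / |θ| + 2 ≤ 8 ε H / q + 4 ε / |θ| + 2`. Since `ε ≤ η / 32`,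
`8 ε H / q ≤ η H / (4 q)`, and `2 ≤ η H / (4 q)` as `H ≥ 16 / η² ≥ 8 q / η`. So `4 ε / |θ| ≥ η H / (2 q)`: `|θ| ≤ 8 q ε / (η H) ≤ 16 ε / (η² H)`.
-/

set_option autoImplicit false

open Finset

namespace Pool.Agent.BLF

open Pool.Agent.HLT

private lemma vcardZ (S : Finset ℤ) (x y : ℝ) (hxy : x ≤ y) (h : ∀ n ∈ S, x ≤ (n : ℝ) ∧ (n : ℝ) ≤ y) :
    (S.card : ℝ) ≤ y - x + 1 := by
  have hsub : S ⊆ Icc ⌈x⌉ ⌊y⌋ := by
    intro n hn
    rw [Finset.mem_Icc]
    exact ⟨Int.ceil_le.mpr (h n hn).1, Int.le_floor.mpr (h n hn).2⟩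
  have h1 : S.card ≤ (⌊y⌋ + 1 - ⌈x⌉).toNat := by
    have := Finset.card_le_card hsub
    rwa [Int.card_Icc] at this
  have h2 : ((⌊y⌋ + 1 - ⌈x⌉).toNat : ℝ) ≤ y - x + 1 := by
    rcases le_total 0 (⌊y⌋ + 1 - ⌈x⌉) with hc | hc
    · have h3 : (((⌊y⌋ + 1 - ⌈x⌉).toNat : ℤ) : ℝ) = ((⌊y⌋ + 1 - ⌈x⌉ : ℤ) : ℝ) := by
        rw [Int.toNat_of_nonneg hc]
      have h4 : (((⌊y⌋ + 1 - ⌈x⌉).toNat : ℕ) : ℝ) = (((⌊y⌋ + 1 - ⌈x⌉).toNat : ℤ) : ℝ) := by
        norm_cast
      rw [h4, h3]
      push_cast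
      have h5 := Int.floor_le y
      have h6 := Int.le_ceil x
      linarith
    · rw [Int.toNat_of_nonpos hc]
      push_cast
      linarith
  calc (S.card : ℝ) ≤ ((⌊y⌋ + 1 - ⌈x⌉).toNat : ℝ) := by exact_mod_cast h1
    _ ≤ y - x + 1 := h2

private lemma vcardN (S : Finset ℕ) (x y : ℝ) (hxy : x ≤ y) (h : ∀ n ∈ S, x ≤ (n : ℝ) ∧ (n : ℝ) ≤ y) :
    (S.card : ℝ) ≤ y - x + 1 := by
  have h1 := vcardZ (S.map ⟨fun n : ℕ => (n : ℤ), fun a b hab => Int.ofNat_injective hab⟩) x y hxy (by
    intro n hn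
    rw [Finset.mem_map] at hn
    obtain ⟨m, hm, rfl⟩ := hn
    have := h m hm
    simpa using this)
  rwa [Finset.card_map] at h1

private lemma vnrm_le (α : ℝ) (n : ℤ) : nrm α ≤ |α - n| := by
  unfold nrm
  exact round_le α n

private lemma vnrm_sub (α β : ℝ) : nrm (α - β) ≤ nrm α + nrm β := by
  have h1 := vnrm_le (α - β) (round α - round β)
  refine h1.trans ?_
  unfold nrm
  push_cast
  have : α - β - ((round α : ℝ) - (round β : ℝ)) = (α - round α) - (β - round β) := by ring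
  rw [this]
  exact abs_sub _ _

private lemma vnrm_add_int (α : ℝ) (n : ℤ) : nrm (α + n) = nrm α := by
  unfold nrm
  rw [round_add_intCast]
  push_cast
  congr 1
  ring

/-- The counting step. -/
private lemma vcount (m : ℕ) (c θ ε : ℝ) (hθ : θ ≠ 0) (hε : 0 < ε) (hε1 : ε ≤ 1 / 2) :
    (((range (m + 1)).filter (fun j : ℕ => nrm (c + j * θ) < ε)).card : ℝ) ≤
      (m * |θ| + 2) * (2 * ε / |θ| + 1) := by
  classical
  set J := (range (m + 1)).filter (fun j : ℕ => nrm (c + j * θ) < ε) with hJ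
  have hθ' : 0 < |θ| := abs_pos.mpr hθ
  set f : ℕ → ℤ := fun j => round (c + j * θ) with hf
  have hfib : ∀ a ∈ J.image f, ((J.filter (fun x => f x = a)).card : ℕ) ≤ ⌊2 * ε / |θ| + 1⌋₊ := by
    intro a _
    apply Nat.le_floor
    have h1 := vcardN (J.filter (fun x => f x = a)) ((a - c) / θ - ε / |θ|) ((a - c) / θ + ε / |θ|)
      (by have : 0 < ε / |θ| := div_pos hε hθ'
          linarith) (by
        intro j hj
        rw [Finset.mem_filter] at hj
        obtain ⟨hj1, hj2⟩ := hj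
        rw [hJ, Finset.mem_filter] at hj1
        have h2 : |c + j * θ - a| < ε := by
          have := hj1.2
          unfold nrm at this
          rw [← hj2]
          exact this
        have h3 : |(j : ℝ) - (a - c) / θ| < ε / |θ| := by
          rw [lt_div_iff₀ hθ', ← abs_mul]
          have : ((j : ℝ) - (a - c) / θ) * θ = c + j * θ - a := by
            field_simp
            ring
          rw [this]
          exact h2
        rw [abs_lt] at h3
        constructor <;> linarith [h3.1, h3.2])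
    have h4 : (a - c) / θ + ε / |θ| - ((a - c) / θ - ε / |θ|) + 1 = 2 * ε / |θ| + 1 := by ring
    rw [h4] at h1
    exact h1
  have himg : (((J.image f).card : ℕ) : ℝ) ≤ m * |θ| + 2 := by
    have h1 := vcardZ (J.image f) (c - m * (|θ| - θ) / 2 - ε) (c + m * (|θ| + θ) / 2 + ε)
      (by have h2 : 0 ≤ (m : ℝ) * |θ| := by positivity
          nlinarith) (by
        intro n hn
        rw [Finset.mem_image] at hn
        obtain ⟨j, hj, rfl⟩ := hn
        rw [hJ, Finset.mem_filter, Finset.mem_range] at hj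
        have h2 : |c + j * θ - (f j : ℝ)| < ε := by
          have := hj.2
          unfold nrm at this
          exact this
        rw [abs_lt] at h2
        have hjm : (j : ℝ) ≤ m := by exact_mod_cast Nat.lt_succ_iff.mp hj.1
        have hj0 : (0 : ℝ) ≤ j := Nat.cast_nonneg j
        have hθ1 : θ ≤ |θ| := le_abs_self θ
        have hθ2 : -θ ≤ |θ| := neg_le_abs θ
        have h3 : (j : ℝ) * θ ≤ m * (|θ| + θ) / 2 := by nlinarith
        have h4 : -((m : ℝ) * (|θ| - θ) / 2) ≤ (j : ℝ) * θ := by nlinarith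
        constructor
        · linarith [h2.1, h2.2]
        · linarith [h2.1, h2.2])
    have h5 : c + m * (|θ| + θ) / 2 + ε - (c - m * (|θ| - θ) / 2 - ε) + 1 = m * |θ| + 2 * ε + 1 := by ring
    rw [h5] at h1
    linarith
  have hcard := Finset.card_le_mul_card_image J _ hfib
  calc (J.card : ℝ) ≤ ((⌊2 * ε / |θ| + 1⌋₊ * (J.image f).card : ℕ) : ℝ) := by exact_mod_cast hcard
    _ = (⌊2 * ε / |θ| + 1⌋₊ : ℝ) * ((J.image f).card : ℝ) := by push_cast; ring
    _ ≤ (2 * ε / |θ| + 1) * (m * |θ| + 2) := by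
        apply mul_le_mul
        · exact Nat.floor_le (by positivity)
        · exact himg
        · positivity
        · positivity
    _ = (m * |θ| + 2) * (2 * ε / |θ| + 1) := by ring

theorem vino (H : ℕ) (η ε ψ : ℝ) (hη : 0 < η) (hη1 : η ≤ 1) (hε : 0 < ε) (hε1 : ε ≤ η / 32) (hH : 16 / η ^ 2 ≤ H)
    (hB : η * (H : ℝ) ^ 2 ≤ BadN H ψ ε) :
    ∃ q : ℕ, 1 ≤ q ∧ (q : ℝ) ≤ 2 / η ∧ nrm (q * ψ) ≤ 16 * ε / (η ^ 2 * H) := by
  classical
  have hη0 : η ≠ 0 := ne_of_gt hη
  have hH0 : (0 : ℝ) < H := lt_of_lt_of_le (by positivity) hH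
  have hH1 : 16 ≤ η ^ 2 * H := by
    have := (div_le_iff₀ (by positivity : (0 : ℝ) < η ^ 2)).mp hH
    linarith
  have hηH : 16 ≤ η * H := by nlinarith [mul_pos hη hH0]
  have hε2 : ε ≤ 1 / 2 := by linarith
  -- Step 1
  obtain ⟨t', ht', hA⟩ : ∃ t' ∈ Icc 1 H, η * H ≤
      (((Icc 1 H).filter (fun t : ℕ => nrm (ψ * ((t : ℝ) - t')) < ε)).card : ℝ) := by
    by_contra hcon
    push Not at hcon
    have h1 : (BadN H ψ ε : ℝ) = ∑ t' ∈ Icc 1 H,
        (((Icc 1 H).filter (fun t : ℕ => nrm (ψ * ((t : ℝ) - t')) < ε)).card : ℝ) := by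
      unfold BadN
      rw [Finset.card_filter, Finset.sum_product_right]
      push_cast
      refine Finset.sum_congr rfl fun b _ => ?_
      rw [Finset.card_filter]
      push_cast
      rfl
    have hne : (Icc 1 H).Nonempty := by
      rw [Finset.nonempty_Icc]
      have : (1 : ℝ) ≤ H := by nlinarith
      exact_mod_cast this
    have h2 : (BadN H ψ ε : ℝ) < ∑ _t' ∈ Icc 1 H, η * H := by
      rw [h1]
      exact Finset.sum_lt_sum_of_nonempty hne hcon
    rw [Finset.sum_const, Nat.card_Icc, Nat.add_sub_cancel, nsmul_eq_mul] at h2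
    nlinarith
  set A := (Icc 1 H).filter (fun t : ℕ => nrm (ψ * ((t : ℝ) - t')) < ε) with hAdef
  -- Step 2
  obtain ⟨q, hq1, hq2, hq3⟩ : ∃ q : ℕ, 1 ≤ q ∧ (q : ℝ) ≤ 2 / η ∧ nrm (q * ψ) < 2 * ε := by
    set L := ⌊2 / η⌋₊ with hL
    have h2η : 2 ≤ 2 / η := by
      rw [le_div_iff₀ hη]
      linarith
    have hL2 : 2 ≤ L := Nat.le_floor (by exact_mod_cast h2η)
    have hLle : (L : ℝ) ≤ 2 / η := Nat.floor_le (by positivity)
    have hLlt : 2 / η < L + 1 := Nat.lt_floor_add_one _
    have hLpos : (0 : ℝ) < L := by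
      have : (2 : ℝ) ≤ L := by exact_mod_cast hL2
      linarith
    have hLη : 2 < η * L + η := by
      have := (div_lt_iff₀ hη).mp hLlt
      linarith
    have hcard : (range (H / L + 1)).card < A.card := by
      rw [Finset.card_range]
      have h3 : ((H / L + 1 : ℕ) : ℝ) < (A.card : ℝ) := by
        refine lt_of_lt_of_le ?_ hA
        push_cast
        have h4 : ((H / L : ℕ) : ℝ) ≤ (H : ℝ) / L := Nat.cast_div_le
        have h5 : (H : ℝ) / L ≤ 3 / 4 * (η * H) := by
          rw [div_le_iff₀ hLpos]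
          have h6 : 4 ≤ 3 * η * L := by
            have h7 : (2 : ℝ) ≤ L := by exact_mod_cast hL2
            nlinarith
          nlinarith
        linarith
      exact_mod_cast h3
    have hmaps : ∀ t ∈ A, t / L ∈ range (H / L + 1) := by
      intro t ht
      rw [hAdef, Finset.mem_filter, Finset.mem_Icc] at ht
      rw [Finset.mem_range, Nat.lt_succ_iff]
      exact Nat.div_le_div_right ht.1.2
    obtain ⟨a, ha, b, hb, hab, hdiv⟩ := Finset.exists_ne_map_eq_of_card_lt_of_maps_to hcard hmaps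
    have key : ∀ a ∈ A, ∀ b ∈ A, a < b → a / L = b / L →
        ∃ q : ℕ, 1 ≤ q ∧ (q : ℝ) ≤ 2 / η ∧ nrm (q * ψ) < 2 * ε := by
      intro a ha b hb hlt hd
      refine ⟨b - a, by omega, ?_, ?_⟩
      · have h3 : b - a ≤ L := by
          have h4 := Nat.div_add_mod a L
          have h5 := Nat.div_add_mod b L
          have h6 := Nat.mod_lt b (by omega : 0 < L)
          rw [hd] at h4
          omega
        calc ((b - a : ℕ) : ℝ) ≤ L := by exact_mod_cast h3
          _ ≤ 2 / η := hLle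
      · rw [hAdef, Finset.mem_filter] at ha hb
        have h3 := vnrm_sub (ψ * ((b : ℝ) - t')) (ψ * ((a : ℝ) - t'))
        have h4 : ψ * ((b : ℝ) - t') - ψ * ((a : ℝ) - t') = ((b - a : ℕ) : ℝ) * ψ := by
          rw [Nat.cast_sub hlt.le]
          ring
        rw [h4] at h3
        linarith [ha.2, hb.2]
    rcases lt_or_gt_of_ne hab with h | h
    · exact key a ha b hb h hdiv
    · exact key b hb a ha h hdiv.symm
  refine ⟨q, hq1, hq2, ?_⟩
  have hqpos : (0 : ℝ) < q := by exact_mod_cast hq1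
  have hqη : (q : ℝ) * η ≤ 2 := (le_div_iff₀ hη).mp hq2
  set θ := q * ψ - round (q * ψ) with hθ
  have hθn : nrm (q * ψ) = |θ| := rfl
  rw [hθn] at hq3 ⊢
  by_cases hθ0 : θ = 0
  · rw [hθ0, abs_zero]
    positivity
  -- Step 3
  have hθpos : 0 < |θ| := abs_pos.mpr hθ0
  obtain ⟨r, hr, hAr⟩ : ∃ r ∈ range q, η * H / q ≤ ((A.filter (fun t => t % q = r)).card : ℝ) := by
    by_contra hcon
    push Not at hcon
    have h1 : A.card = ∑ r ∈ range q, (A.filter (fun t => t % q = r)).card :=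
      Finset.card_eq_sum_card_fiberwise (fun t _ => by
        simp only [Finset.coe_range, Set.mem_Iio]
        exact Nat.mod_lt _ (by omega))
    have h2 : (A.card : ℝ) < ∑ _r ∈ range q, η * H / q := by
      rw [h1]
      push_cast
      exact Finset.sum_lt_sum_of_nonempty (by rw [Finset.nonempty_range_iff]; omega) hcon
    rw [Finset.sum_const, Finset.card_range, nsmul_eq_mul] at h2
    have h3 : (q : ℝ) * (η * H / q) = η * H := by
      field_simp
    rw [h3] at h2
    linarith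
  set m := H / q with hm
  set c := ψ * ((r : ℝ) - t') with hc
  have hinj : ((A.filter (fun t => t % q = r)).card : ℝ) ≤
      (((range (m + 1)).filter (fun j : ℕ => nrm (c + j * θ) < ε)).card : ℝ) := by
    have : (A.filter (fun t => t % q = r)).card ≤
        ((range (m + 1)).filter (fun j : ℕ => nrm (c + j * θ) < ε)).card := by
      apply Finset.card_le_card_of_injOn (fun t => t / q)
      · intro t ht
        rw [Finset.mem_coe, Finset.mem_filter, hAdef, Finset.mem_filter, Finset.mem_Icc] at ht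
        rw [Finset.mem_coe, Finset.mem_filter, Finset.mem_range]
        refine ⟨Nat.lt_succ_iff.mpr (Nat.div_le_div_right ht.1.1.2), ?_⟩
        have h1 : (t : ℝ) = q * (t / q : ℕ) + r := by
          have := Nat.div_add_mod t q
          rw [ht.2] at this
          exact_mod_cast this.symm
        have h3 := ht.1.2
        have key : ∀ k : ℕ, (t : ℝ) = q * k + r → nrm (c + (k : ℝ) * θ) < ε := by
          intro k hk
          have h2 : ψ * ((t : ℝ) - t') = (c + (k : ℝ) * θ) + ((k : ℤ) * round ((q : ℝ) * ψ) : ℤ) := by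
            rw [hk, hc, hθ]
            push_cast
            ring
          rw [h2, vnrm_add_int] at h3
          exact h3
        exact key _ h1
      · intro a ha b hb hab
        rw [Finset.mem_coe, Finset.mem_filter] at ha hb
        have h1 := Nat.div_add_mod a q
        have h2 := Nat.div_add_mod b q
        simp only at hab
        rw [ha.2, hab] at h1
        rw [hb.2] at h2
        omega
    exact_mod_cast this
  have hcount := vcount m c θ ε hθ0 hε hε2
  have hmH : (m : ℝ) ≤ H / q := Nat.cast_div_le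
  have hmain : η * H / q ≤ (m * |θ| + 2) * (2 * ε / |θ| + 1) := hAr.trans (hinj.trans hcount)
  have hexp : (m * |θ| + 2) * (2 * ε / |θ| + 1) = 2 * ε * m + m * |θ| + 4 * ε / |θ| + 2 := by
    field_simp
    ring
  rw [hexp] at hmain
  have hm0 : (0 : ℝ) ≤ m := Nat.cast_nonneg m
  have h1 : 2 * ε * m + m * |θ| ≤ η * H / q / 8 := by
    have h2 : (m : ℝ) * |θ| ≤ m * (2 * ε) := mul_le_mul_of_nonneg_left hq3.le hm0
    have h3 : 4 * ε * m ≤ η / 8 * (H / q) := by
      have : 4 * ε ≤ η / 8 := by linarith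
      exact mul_le_mul this hmH hm0 (by positivity)
    have h4 : η / 8 * (H / q) = η * H / q / 8 := by ring
    linarith
  have h2 : 2 ≤ η * H / q / 4 := by
    rw [div_div, le_div_iff₀ (by positivity)]
    nlinarith
  have h3 : η * H / q * (5 / 8) ≤ 4 * ε / |θ| := by linarith
  have h4 : |θ| * (η * H / q * (5 / 8)) ≤ 4 * ε := by
    have := mul_le_mul_of_nonneg_left h3 hθpos.le
    have h5 : |θ| * (4 * ε / |θ|) = 4 * ε := by field_simp
    rw [h5] at this
    exact this
  rw [le_div_iff₀ (by positivity)]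
  have h5 : |θ| * (η * H) * (5 / 8) ≤ 4 * ε * q := by
    have h6 : |θ| * (η * H / q * (5 / 8)) = |θ| * (η * H) * (5 / 8) / q := by ring
    rw [h6, div_le_iff₀ hqpos] at h4
    exact h4
  have h6 : |θ| * (η ^ 2 * H) * (5 / 8) ≤ 4 * ε * (q * η) := by nlinarith
  have h7 : 4 * ε * (q * η) ≤ 8 * ε := by nlinarith
  nlinarith [mul_nonneg hθpos.le (mul_nonneg (sq_nonneg η) hH0.le)]

end Pool.Agent.BLF
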