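import Pool.Agent.Lib.BLF.Kap
import Pool.Agent.Lib.BLF.Vino

/-!
# Module Freq: large exponential sums against dual functions have nice frequencies

PROOF. `kap` with `lam = η² / 8`: `η² W² H₁² H₂² ≤ 4 W² H₁² (BadN + lam H₂²)`, so `BadN H₂ ψ (1 / (lam H₁)) ≥ (η² / 8) H₂²`. `vino` with `η' = η² / 8`, `ε = 8 / (η² H₁)` (the hypotheses hold since
`H₁, H₂ ≥ η^(-C)` and `η ≤ 1/2`): `q ≤ 16 / η²` and `nrm (q ψ) ≤ 16 ε / (η'² H₂) = 8192 / (η^6 H₁ H₂) ≤ 16384 / (η^6 W)`. `C = 24` is enough (`2 ≤ η⁻¹`). The hypothesis with several `ω`: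
for at least one `ω ∈ S` the sum is at least `η W H₁ H₂` (`nice_sum`).
-/

set_option autoImplicit false

open Finset

namespace Pool.Agent.BLF

open Pool.Agent.HLT

theorem nice_one : ∃ C : ℕ, ∀ (η : ℝ) (H₁ H₂ W : ℕ), Loc η C H₁ H₂ W → ∀ (a b : ℤ → ℕ → ℂ),
    (∀ z s, ‖a z s‖ ≤ 1) → (∀ z t, ‖b z t‖ ≤ 1) → ∀ ψ : ℝ,
    η * (W * H₁ * H₂) ≤ ‖∑ k ∈ range W, ∑ s ∈ Icc 1 H₁, ∑ t ∈ Icc 1 H₂,
        a ((k : ℤ) - ((s * t : ℕ) : ℤ)) s * b ((k : ℤ) - ((s * t : ℕ) : ℤ)) t * ex (k * ψ)‖ →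
    Nice ((η⁻¹) ^ C) W ψ := by
  refine ⟨24, fun η H₁ H₂ W hL a b ha hb ψ h => ?_⟩
  have hη := hL.pos
  have hη2 := hL.half
  have hle := hL.le
  have hle2 := hL.le2
  have h1 := hL.one
  have h2 := hL.two
  have hi2 : (2 : ℝ) ≤ η⁻¹ := by
    rw [le_inv_comm₀ (by norm_num) hη]
    linarith
  have hi1 : (1 : ℝ) ≤ η⁻¹ := by linarith
  have hH1 : (0 : ℝ) < H₁ := by exact_mod_cast hL.pos1
  have hH2 : (0 : ℝ) < H₂ := by exact_mod_cast hL.pos2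
  have hW : (0 : ℝ) < W := by exact_mod_cast hL.posW
  have hlam : 0 < η ^ 2 / 8 := by positivity
  have hk := kap H₁ H₂ W hle a b ha hb ψ (η ^ 2 / 8) hlam
  have hbad : η ^ 2 / 8 * (H₂ : ℝ) ^ 2 ≤ BadN H₂ ψ (1 / (η ^ 2 / 8 * H₁)) := by
    have h3 : (η * (W * H₁ * H₂)) ^ 2 ≤
        4 * (W : ℝ) ^ 2 * (H₁ : ℝ) ^ 2 *
          (BadN H₂ ψ (1 / (η ^ 2 / 8 * H₁)) + η ^ 2 / 8 * (H₂ : ℝ) ^ 2) :=
      (pow_le_pow_left₀ (by positivity) h 2).trans hk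
    have h4 : (η * (W * H₁ * H₂)) ^ 2 =
        4 * (W : ℝ) ^ 2 * (H₁ : ℝ) ^ 2 * (η ^ 2 / 4 * (H₂ : ℝ) ^ 2) := by ring
    rw [h4] at h3
    have h5 : (0 : ℝ) < 4 * (W : ℝ) ^ 2 * (H₁ : ℝ) ^ 2 := by positivity
    have h6 := le_of_mul_le_mul_left h3 h5
    nlinarith
  have hpow : ∀ k : ℕ, (2 : ℝ) ^ k ≤ (η⁻¹) ^ k := fun k =>
    pow_le_pow_left₀ (by norm_num) hi2 k
  have hmono : ∀ k l : ℕ, k ≤ l → (η⁻¹) ^ k ≤ (η⁻¹) ^ l := fun k l hkl =>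
    pow_le_pow_right₀ hi1 hkl
  have hε : 0 < 1 / (η ^ 2 / 8 * H₁) := by positivity
  have hε1 : 1 / (η ^ 2 / 8 * H₁) ≤ η ^ 2 / 8 / 32 := by
    have h3 : (η⁻¹) ^ 4 * 2048 ≤ H₁ := by
      calc (η⁻¹) ^ 4 * 2048 = (η⁻¹) ^ 4 * 2 ^ 11 := by norm_num
        _ ≤ (η⁻¹) ^ 4 * (η⁻¹) ^ 11 := by
            have := hpow 11
            gcongr
        _ = (η⁻¹) ^ 15 := by ring
        _ ≤ (η⁻¹) ^ 24 := hmono _ _ (by norm_num)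
        _ ≤ H₁ := h1
    have h4 : 2048 ≤ η ^ 4 * H₁ := by
      have h5 : η ^ 4 * ((η⁻¹) ^ 4 * 2048) = 2048 := by
        field_simp
      rw [← h5]
      gcongr
    rw [div_le_iff₀ (by positivity)]
    nlinarith
  have hH : 16 / (η ^ 2 / 8) ^ 2 ≤ (H₂ : ℝ) := by
    have h3 : 16 / (η ^ 2 / 8) ^ 2 = (η⁻¹) ^ 4 * 2 ^ 10 := by
      field_simp
      norm_num
    rw [h3]
    calc (η⁻¹) ^ 4 * 2 ^ 10 ≤ (η⁻¹) ^ 4 * (η⁻¹) ^ 10 := by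
          have := hpow 10
          gcongr
      _ = (η⁻¹) ^ 14 := by ring
      _ ≤ (η⁻¹) ^ 24 := hmono _ _ (by norm_num)
      _ ≤ H₂ := h2
  obtain ⟨q, hq1, hq2, hq3⟩ := vino H₂ (η ^ 2 / 8) (1 / (η ^ 2 / 8 * H₁)) ψ hlam
    (by nlinarith) hε hε1 hH hbad
  refine ⟨q, hq1, hq2.trans ?_, hq3.trans ?_⟩
  · have h3 : 2 / (η ^ 2 / 8) = (η⁻¹) ^ 2 * 2 ^ 4 := by
      field_simp
      norm_num
    rw [h3]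
    calc (η⁻¹) ^ 2 * 2 ^ 4 ≤ (η⁻¹) ^ 2 * (η⁻¹) ^ 4 := by
          have := hpow 4
          gcongr
      _ = (η⁻¹) ^ 6 := by ring
      _ ≤ (η⁻¹) ^ 24 := hmono _ _ (by norm_num)
  · have h3 : 16 * (1 / (η ^ 2 / 8 * H₁)) / ((η ^ 2 / 8) ^ 2 * H₂) =
        (η⁻¹) ^ 6 * 2 ^ 13 / ((H₁ : ℝ) * H₂) := by
      field_simp
      norm_num
    rw [h3]
    have h4 : (W : ℝ) ≤ 2 * ((H₁ : ℝ) * H₂) := by exact_mod_cast hle2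
    rw [div_le_div_iff₀ (by positivity) hW]
    calc (η⁻¹) ^ 6 * 2 ^ 13 * (W : ℝ) ≤ (η⁻¹) ^ 6 * 2 ^ 13 * (2 * ((H₁ : ℝ) * H₂)) := by
          gcongr
      _ = (η⁻¹) ^ 6 * 2 ^ 14 * ((H₁ : ℝ) * H₂) := by ring
      _ ≤ (η⁻¹) ^ 6 * (η⁻¹) ^ 14 * ((H₁ : ℝ) * H₂) := by
          have := hpow 14
          gcongr
      _ = (η⁻¹) ^ 20 * ((H₁ : ℝ) * H₂) := by ring
      _ ≤ (η⁻¹) ^ 24 * ((H₁ : ℝ) * H₂) := by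
          have := hmono 20 24 (by norm_num)
          gcongr

theorem nice_sum : ∃ C : ℕ, ∀ (η : ℝ) (H₁ H₂ W : ℕ), Loc η C H₁ H₂ W → ∀ {Ω : Type} (S : Finset Ω), S.Nonempty →
    ∀ (a b : Ω → ℤ → ℕ → ℂ), (∀ ω z s, ‖a ω z s‖ ≤ 1) → (∀ ω z t, ‖b ω z t‖ ≤ 1) → ∀ ψ : ℝ,
    η * (S.card * W * H₁ * H₂) ≤ ‖∑ k ∈ range W, ∑ ω ∈ S, ∑ s ∈ Icc 1 H₁, ∑ t ∈ Icc 1 H₂,
        a ω ((k : ℤ) - ((s * t : ℕ) : ℤ)) s * b ω ((k : ℤ) - ((s * t : ℕ) : ℤ)) t * ex (k * ψ)‖ →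
    Nice ((η⁻¹) ^ C) W ψ := by
  obtain ⟨C, hC⟩ := nice_one
  refine ⟨C, fun η H₁ H₂ W hL Ω S hS a b ha hb ψ h => ?_⟩
  have h1 : η * (S.card * W * H₁ * H₂) ≤ ∑ ω ∈ S, ‖∑ k ∈ range W, ∑ s ∈ Icc 1 H₁, ∑ t ∈ Icc 1 H₂,
        a ω ((k : ℤ) - ((s * t : ℕ) : ℤ)) s * b ω ((k : ℤ) - ((s * t : ℕ) : ℤ)) t * ex (k * ψ)‖ := by
    refine h.trans ?_
    rw [Finset.sum_comm]
    exact norm_sum_le _ _
  have h2 : ∑ _ω ∈ S, η * (W * H₁ * H₂) ≤ ∑ ω ∈ S, ‖∑ k ∈ range W, ∑ s ∈ Icc 1 H₁, ∑ t ∈ Icc 1 H₂,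
        a ω ((k : ℤ) - ((s * t : ℕ) : ℤ)) s * b ω ((k : ℤ) - ((s * t : ℕ) : ℤ)) t * ex (k * ψ)‖ := by
    rw [Finset.sum_const, nsmul_eq_mul]
    refine le_trans (le_of_eq ?_) h1
    ring
  obtain ⟨ω, -, hω⟩ := Finset.exists_le_of_sum_le hS h2
  exact hC η H₁ H₂ W hL (a ω) (b ω) (ha ω) (hb ω) ψ hω

end Pool.Agent.BLF
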