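import Pool.Agent.Lib.BLF.Slots
import Pool.Agent.Lib.HLU.FinalA
import Pool.Agent.Lib.HLU.NetY
import Pool.Agent.Lib.VK.FirstAll
import Pool.Agent.Lib.VN.HLMs

/-!
# Module FromMs: from the mean square property to all sequences and to Hardy-Littlewood

PROOF. The chain `weights_ms`, `weights_prime_ms` (`VN/WeightsMs`), `fixed_ms`, `hl_ms` (`VN/HLMs`), `univ_ms` (`VN/Final`) with `J = univ`, `T` replaced by the parameter set `P` and the shifts `t` by `a t`: adapt the proofs (they use `gen_ms` only through the mean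
square bound, which is the hypothesis `HMS` here; `net_y` is stated for an arbitrary index type `τ`; `first_all m`, `model_y`, `sing_upper`, `abel_log`, `abel_log_real` need only that the shifts are at most `x`). The number of the shifts is `r` instead of `m`;
`(∏ i, ((T i).card : ℝ))` becomes `(P.card : ℝ)`. `K'` and `B'`: the maxima of what is needed for the weights (`K`, `4 (A + 2) + (K + 2 r) + 6`, ...) and for the fixed shift `c` (`K = 2`, `A + 3`, ...). Keep `HMS` monotone in `K, B` (`MSP.mono` shows how).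
-/

set_option autoImplicit false

open Finset Filter

namespace Pool.Agent.BLF

open Pool.Agent.HLB Pool.Agent.HL Pool.Agent.HLT Pool.Agent.HLU Pool.Agent.VN Pool.Agent.VK

namespace FromMsAux

lemma hms_mono {A K K' B B' x : ℕ} {r : ℕ} {σ : Type} {P : Finset σ} {a : σ → Fin r → ℕ}
    (h : HMS A K' B' x P a) (hK : K ≤ K') (hB : B ≤ B') (hL : 1 ≤ Real.log x) : HMS A K B x P a := by
  refine ⟨h.1, fun g hg => ?_⟩
  refine (h.2 g (fun n hn => (hg n hn).trans (pow_le_pow_right₀ hL hK))).trans ?_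
  have h0 : 0 < Real.log x := by linarith
  refine mul_le_mul_of_nonneg_left ?_ (Nat.cast_nonneg _)
  exact div_le_div_of_nonneg_left (by positivity) (pow_pos h0 _) (pow_le_pow_right₀ hL hB)

theorem wms {σ : Type} (r K A : ℕ) : ∃ K' B : ℕ, ∀ A' : ℕ, ∀ᶠ x : ℕ in atTop,
    ∀ (P : Finset σ) (a : σ → Fin r → ℕ), HMS A' K' B x P a → ∀ w : ℕ → ℂ,
    (∀ n ∈ Icc 1 x, ‖w n‖ ≤ Real.log x ^ K) →
    ∃ E ⊆ P, (E.card : ℝ) ≤ P.card / Real.log x ^ A ∧
      ∀ t ∈ P, t ∉ E → ∀ y : ℕ, y ≤ x →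
        ‖∑ n ∈ Icc 1 y, w n * ((pl univ (a t) n - pn (zA A' x) univ (a t) n : ℝ) : ℂ)‖ ≤
          x / Real.log x ^ A := by
  refine ⟨K, 4 * A + (K + 2 * r) + 6, fun A' => ?_⟩
  filter_upwards [net_y (τ := σ) A (K + 2 * r), DZ_inv_le A', ev_log 2]
    with x h2 hD hL P a hP w hw
  have hL0 : 0 < Real.log x := by linarith
  refine h2 P
    (fun t n => w n * ((pl univ (a t) n - pn (zA A' x) univ (a t) n : ℝ) : ℂ)) P.card
    (Nat.cast_nonneg _) ?_ ?_
  · intro t ht n hn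
    rw [norm_mul, pow_add]
    refine mul_le_mul (hw n hn) ?_ (norm_nonneg _) (by positivity)
    rw [Complex.norm_real, Real.norm_eq_abs]
    have h3 := pl_sub_pn_le hL hD univ (a t) n (fun i _ => by
      have := hP.1 t ht i
      rw [mem_Icc] at hn
      omega)
    refine h3.trans (pow_le_pow_right₀ (by linarith) (Nat.mul_le_mul_left 2 ?_))
    rw [Finset.card_univ, Fintype.card_fin]
  · intro y hy
    have h3 := hP.2 (fun n => if n ≤ y then w n else 0) (fun n hn => by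
      split_ifs
      · exact hw n hn
      · rw [norm_zero]
        positivity)
    refine le_trans (le_of_eq ?_) h3
    refine Finset.sum_congr rfl fun t _ => ?_
    congr 2
    simp only [ite_mul, zero_mul]
    rw [← Finset.sum_filter]
    refine Finset.sum_congr ?_ fun _ _ => rfl
    ext n
    simp only [mem_Icc, mem_filter]
    omega

theorem wpms {σ : Type} (r K A : ℕ) : ∃ K' B : ℕ, ∀ A' : ℕ, ∀ᶠ x : ℕ in atTop,
    ∀ (P : Finset σ) (a : σ → Fin r → ℕ), HMS A' K' B x P a → ∀ w : ℕ → ℂ,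
    (∀ n ∈ Icc 1 x, ‖w n‖ ≤ Real.log x ^ K) →
    ∃ E ⊆ P, (E.card : ℝ) ≤ P.card / Real.log x ^ A ∧
      ∀ t ∈ P, t ∉ E → ∀ y : ℕ, y ≤ x →
        ‖∑ n ∈ Icc 1 y, w n * ((∏ i, G0 (n + a t i) - ∏ i, G1 (zA A' x) (n + a t i) : ℝ) : ℂ)‖ ≤
          x / Real.log x ^ A := by
  obtain ⟨K', B, hg⟩ := wms (σ := σ) r K (A + 1)
  refine ⟨K', B, fun A' => ?_⟩
  filter_upwards [hg A', ev_log (2 ^ (r + 2)), ev_log 1] with x h1 hLm hL1 P a hP w hw
  have hL0 : 0 < Real.log x := by linarith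
  have hx0 : (0 : ℝ) ≤ x := Nat.cast_nonneg x
  obtain ⟨E, hE, hEc, hE'⟩ := h1 P a hP w hw
  refine ⟨E, hE, hEc.trans ?_, ?_⟩
  · exact div_le_div_of_nonneg_left (Nat.cast_nonneg _)
      (by positivity) (pow_le_pow_right₀ hL1 (by omega))
  · intro t ht htE y hy
    have h2 := abel_log univ (a t) (fun n => w n * ((pl univ (a t) n - pn (zA A' x) univ (a t) n : ℝ) : ℂ)) 0
      (x / Real.log x ^ (A + 1)) x (fun y hy => by
        rw [mul_zero, sub_zero]
        exact hE' t ht htE y hy) y hy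
    rw [zero_mul, sub_zero, norm_zero, add_zero] at h2
    have e : ∑ n ∈ Icc 1 y, w n *
        ((∏ i, G0 (n + a t i) - ∏ i, G1 (zA A' x) (n + a t i) : ℝ) : ℂ) =
        ∑ n ∈ Icc 1 y, w n * ((pl univ (a t) n - pn (zA A' x) univ (a t) n : ℝ) : ℂ) * (hl univ (a t) n : ℂ) := by
      refine Finset.sum_congr rfl fun n _ => ?_
      rw [← plhl_eq, ← pnhl_eq, ← sub_mul]
      push_cast
      ring
    rw [e]
    refine h2.trans ?_
    have h3 : (2 : ℝ) ^ ((univ : Finset (Fin r)).card + 2) ≤ Real.log x := by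
      rw [Finset.card_univ, Fintype.card_fin]
      exact hLm
    calc (2 : ℝ) ^ ((univ : Finset (Fin r)).card + 2) * (x / Real.log x ^ (A + 1))
        ≤ Real.log x * (x / Real.log x ^ (A + 1)) :=
          mul_le_mul_of_nonneg_right h3 (by positivity)
      _ = x / Real.log x ^ A := by
          rw [pow_succ]
          field_simp

theorem fms {σ : Type} (r A : ℕ) : ∃ K' B : ℕ, ∀ A' : ℕ, ∀ᶠ x : ℕ in atTop,
    ∀ (P : Finset σ) (a : σ → Fin r → ℕ), HMS A' K' B x P a → ∀ c : ℕ, c ≤ x →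
    ∃ E ⊆ P, (E.card : ℝ) ≤ P.card / Real.log x ^ A ∧
      ∀ t ∈ P, t ∉ E → ∀ y : ℕ, y ≤ x →
        |∑ n ∈ Icc 1 y, (pl univ (Fin.cons c (a t) : Fin (r + 1) → ℕ) n -
          pn (zA A' x) univ (Fin.cons c (a t) : Fin (r + 1) → ℕ) n)| ≤ x / Real.log x ^ A := by
  classical
  obtain ⟨K1, B1, h1⟩ := wms (σ := σ) r 2 (A + 1)
  refine ⟨K1, B1, fun A' => ?_⟩
  filter_upwards [h1 A', first_all r (A + 1) A', ev_log 2] with x h1 h2 hL P a hP c hc
  have hL0 : 0 < Real.log x := by linarith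
  have hL1 : 1 ≤ Real.log x := by linarith
  obtain ⟨E1, hE1, hE1c, hE1'⟩ := h1 P a hP (fun n => (lp (n + c) : ℂ))
    (fun n hn => by
      rw [Complex.norm_real, Real.norm_eq_abs, abs_of_nonneg (lp_nonneg _)]
      rw [mem_Icc] at hn
      exact lp_le_sq hL (by omega))
  refine ⟨E1, hE1, hE1c.trans ?_, ?_⟩
  · refine div_le_div_of_nonneg_left (Nat.cast_nonneg _)
      (by positivity) (pow_le_pow_right₀ hL1 (by omega))
  · intro t ht htE y hy
    have a1 := hE1' t ht htE y hy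
    have a2 := h2 c hc (a t) (hP.1 t ht) y hy
    have e : ∑ n ∈ Icc 1 y, (pl univ (Fin.cons c (a t) : Fin (r + 1) → ℕ) n -
          pn (zA A' x) univ (Fin.cons c (a t) : Fin (r + 1) → ℕ) n) =
        ∑ n ∈ Icc 1 y, lp (n + c) * (pl univ (a t) n - pn (zA A' x) univ (a t) n) +
          ∑ n ∈ Icc 1 y, ff (zA A' x) (n + c) * pn (zA A' x) univ (a t) n := by
      rw [← Finset.sum_add_distrib]
      refine Finset.sum_congr rfl fun n _ => ?_
      rw [pl_cons, pn_cons]
      unfold ff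
      ring
    rw [e]
    have a1' : |∑ n ∈ Icc 1 y, lp (n + c) * (pl univ (a t) n - pn (zA A' x) univ (a t) n)| ≤
        x / Real.log x ^ (A + 1) := by
      refine le_trans (le_of_eq ?_) a1
      rw [← Real.norm_eq_abs, ← Complex.norm_real]
      congr 1
      push_cast
      rfl
    refine (abs_add_le _ _).trans ((add_le_add a1' a2).trans ?_)
    have hx0 : (0 : ℝ) ≤ x := Nat.cast_nonneg x
    rw [← two_mul, pow_succ, ← mul_div_assoc, div_le_div_iff₀ (by positivity) (by positivity)]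
    have h7 : 0 ≤ (x : ℝ) * Real.log x ^ A := by positivity
    nlinarith

theorem hms {σ : Type} (r A : ℕ) : ∃ K' B A0 : ℕ, ∀ A' : ℕ, A0 ≤ A' → ∀ᶠ x : ℕ in atTop,
    ∀ (P : Finset σ) (a : σ → Fin r → ℕ), HMS A' K' B x P a → ∀ c : ℕ, c ≤ x →
    ∃ E ⊆ P, (E.card : ℝ) ≤ P.card / Real.log x ^ A ∧
      ∀ t ∈ P, t ∉ E → Function.Injective (Fin.cons c (a t) : Fin (r + 1) → ℕ) →
        ∀ y : ℕ, y ≤ x →
        |(((Icc 1 y).filter
            (fun n : ℕ => ∀ i, (n + (Fin.cons c (a t) : Fin (r + 1) → ℕ) i).Prime)).card : ℝ) -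
          SI (Fin.cons c (a t) : Fin (r + 1) → ℕ) *
            ∑ n ∈ Icc 2 y, hl univ (Fin.cons c (a t) : Fin (r + 1) → ℕ) n| ≤ x / Real.log x ^ A := by
  classical
  obtain ⟨K', B, hf⟩ := fms (σ := σ) r (A + 2)
  refine ⟨K', B, (A + 2) + (r + 1) + 6, fun A' hA' => ?_⟩
  filter_upwards [hf A', eventually_ge_atTop 1, model_y (r + 1) A' (A + 2) hA', sing_upper (r + 1),
    ev_pow (r + 2) (A + 2), ev_log (2 ^ (r + 5))] with x h1 hx1 h2 h3 h4 hL
  intro P a hP c hc
  have hL2 : 2 ≤ Real.log x := by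
    refine le_trans ?_ hL
    calc (2 : ℝ) = 2 ^ 1 := by norm_num
      _ ≤ 2 ^ (r + 5) := pow_le_pow_right₀ (by norm_num) (by omega)
  have hL0 : 0 < Real.log x := by linarith
  have hx0 : (0 : ℝ) ≤ x := Nat.cast_nonneg x
  obtain ⟨E, hE, hEc, hE'⟩ := h1 P a hP c hc
  refine ⟨E, hE, hEc.trans ?_, ?_⟩
  · refine div_le_div_of_nonneg_left (Nat.cast_nonneg _)
      (by positivity) (pow_le_pow_right₀ (by linarith) (by omega))
  · intro t ht htE hinj y hy
    set b : Fin (r + 1) → ℕ := Fin.cons c (a t) with hb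
    have hbx : ∀ i, b i ≤ 2 * x := by
      intro i
      refine Fin.cases ?_ ?_ i
      · rw [hb, Fin.cons_zero]
        omega
      · intro j
        have h7 := hP.1 t ht j
        rw [hb, Fin.cons_succ]
        omega
    have b1 := h3 (Fin (r + 1)) b (Fintype.card_fin _) hinj hbx
    have b2 : ∀ y : ℕ, y ≤ x → |∑ n ∈ Icc 1 y, pl univ b n - y * SI b| ≤
        2 * (x / Real.log x ^ (A + 2)) := by
      intro y hy
      have c1 := hE' t ht htE y hy
      have c2 := h2 (Fin (r + 1)) b (Fintype.card_fin _) hinj hbx y hy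
      rw [Finset.sum_sub_distrib] at c1
      calc |∑ n ∈ Icc 1 y, pl univ b n - y * SI b|
          = |(∑ n ∈ Icc 1 y, pl univ b n - ∑ n ∈ Icc 1 y, pn (zA A' x) univ b n) +
              (∑ n ∈ Icc 1 y, pn (zA A' x) univ b n - y * SI b)| := by ring_nf
        _ ≤ _ := abs_add_le _ _
        _ ≤ _ := by linarith
    have b3 := abel_log_real univ b (pl univ b) (SI b) (2 * (x / Real.log x ^ (A + 2))) x b2 y hy
    rw [count_eq, Finset.card_univ, Fintype.card_fin, abs_of_nonneg (SI_nonneg b hinj)] at b3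
    have b4 : 2 * (x / Real.log x ^ (A + 2)) + SI b ≤ 4 * (x / Real.log x ^ (A + 2)) := by
      have : SI b ≤ x / Real.log x ^ (A + 2) := b1.trans h4
      have h0 : 0 ≤ x / Real.log x ^ (A + 2) := by positivity
      linarith
    have key : 2 ^ (r + 1 + 2) * (2 * (x / Real.log x ^ (A + 2)) + SI b) ≤ x / Real.log x ^ A := by
     calc 2 ^ (r + 1 + 2) * (2 * (x / Real.log x ^ (A + 2)) + SI b)
        ≤ 2 ^ (r + 1 + 2) * (4 * (x / Real.log x ^ (A + 2))) := by gcongr
      _ = 2 ^ (r + 5) * (x / Real.log x ^ (A + 2)) := by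
          rw [show r + 5 = (r + 1 + 2) + 2 by ring, pow_add _ (r + 1 + 2) 2]
          ring
      _ ≤ Real.log x * (x / Real.log x ^ (A + 2)) := by gcongr
      _ = x / Real.log x ^ (A + 1) := by
          rw [show A + 2 = (A + 1) + 1 by ring, pow_succ _ (A + 1)]
          field_simp
      _ ≤ x / Real.log x ^ A := by
          refine div_le_div_of_nonneg_left hx0 (by positivity)
            (pow_le_pow_right₀ (by linarith) (by omega))
    refine le_trans (le_of_eq ?_) (b3.trans key)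
    congr!

end FromMsAux

open FromMsAux

theorem ub_of_hms {σ : Type} (r K A : ℕ) : ∃ K' B A0 : ℕ, ∀ A' : ℕ, A0 ≤ A' → ∀ᶠ x : ℕ in atTop,
    ∀ (P : Finset σ) (a : σ → Fin r → ℕ), HMS A' K' B x P a →
    ∀ w : ℕ → ℂ, (∀ n ∈ Icc 1 x, ‖w n‖ ≤ Real.log x ^ K) → ∀ c : ℕ, c ≤ x →
    ∃ E ⊆ P, (E.card : ℝ) ≤ P.card / Real.log x ^ A ∧
      ∀ t ∈ P, t ∉ E →
        (∀ y : ℕ, y ≤ x →
          ‖∑ n ∈ Icc 1 y, w n * ((∏ i, G0 (n + a t i) - ∏ i, G1 (zA A' x) (n + a t i) : ℝ) : ℂ)‖ ≤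
            x / Real.log x ^ A) ∧
        (Function.Injective (Fin.cons c (a t) : Fin (r + 1) → ℕ) → ∀ y : ℕ, y ≤ x →
          |(((Icc 1 y).filter
              (fun n : ℕ => ∀ i, (n + (Fin.cons c (a t) : Fin (r + 1) → ℕ) i).Prime)).card : ℝ) -
            SI (Fin.cons c (a t) : Fin (r + 1) → ℕ) *
              ∑ n ∈ Icc 2 y, hl univ (Fin.cons c (a t) : Fin (r + 1) → ℕ) n| ≤ x / Real.log x ^ A) := by
  classical
  obtain ⟨K1, B1, h1⟩ := wpms (σ := σ) r K (A + 1)
  obtain ⟨K2, B2, A0, h2⟩ := hms (σ := σ) r (A + 1)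
  refine ⟨max K1 K2, max B1 B2, A0, fun A' hA' => ?_⟩
  filter_upwards [h1 A', h2 A' hA', ev_log 2] with x h1 h2 hL P a hP w hw c hc
  have hL1 : 1 ≤ Real.log x := by linarith
  have hL0 : 0 < Real.log x := by linarith
  obtain ⟨E1, a1, a2, a3⟩ := h1 P a (hms_mono hP (le_max_left _ _) (le_max_left _ _) hL1) w hw
  obtain ⟨E2, b1, b2, b3⟩ := h2 P a (hms_mono hP (le_max_right _ _) (le_max_right _ _) hL1) c hc
  have hx0 : (0 : ℝ) ≤ x := Nat.cast_nonneg x
  have hle : ∀ M : ℝ, 0 ≤ M → M / Real.log x ^ (A + 1) ≤ M / Real.log x ^ A := fun M hM =>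
    div_le_div_of_nonneg_left hM (by positivity) (pow_le_pow_right₀ hL1 (by omega))
  refine ⟨E1 ∪ E2, Finset.union_subset a1 b1, ?_, fun t ht htE => ?_⟩
  · have h3 : ((E1 ∪ E2).card : ℝ) ≤ E1.card + E2.card := by exact_mod_cast Finset.card_union_le _ _
    refine h3.trans ((add_le_add a2 b2).trans ?_)
    rw [← two_mul, pow_succ, ← mul_div_assoc, div_le_div_iff₀ (by positivity) (by positivity)]
    have h7 : 0 ≤ (P.card : ℝ) * Real.log x ^ A := by positivity
    nlinarith only [h7, hL]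
  · rw [Finset.mem_union, not_or] at htE
    exact ⟨fun y hy => (a3 t ht htE.1 y hy).trans (hle _ hx0),
      fun hinj y hy => (b3 t ht htE.2 hinj y hy).trans (hle _ hx0)⟩

end Pool.Agent.BLF
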