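import Pool.Agent.Lib.BLF.Shift
import Pool.Agent.Lib.BLF.DivSum
import Pool.Agent.Lib.BLF.Pars

/-!
# Module Star: the box sum and the exponential sums of first derivatives on windows

PROOF. `shift` gives `QQ² ≤ 2 X H₁ H₂² R`; `div_sum` with `f h h' = ‖Ph g h h'‖`, `K = X` (`norm_Ph_le`) bounds `R`. Let `N = H₁ H₂ ≤ W`. For `h, h'` (any integers)
`Ph g h h' = (1/W) ∑_x ∑_{k < W} Dl h' (Dl h g) (x + k)` (`sum_shift`), so `‖Ph g h h'‖² ≤ (X / W²) ∑_x ‖∑_{k < W} Dl h' (Dl h g) (x + k)‖²` (Cauchy-Schwarz in `x`).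
For fixed `x, h` with `G k = Dl h g (x + k)` (`k : ℤ`, cast to `ZMod X`), `Dl h' (Dl h g) (x + k) = G (k + h') conj (G k)`, and `pars W _ G G` gives `ξ x h` with
`∑_{|h'| ≤ W} ‖∑_{k < W} G (k + h') conj (G k)‖² ≤ 3 W ‖∑_{k < W} G k ex (k ξ x h)‖²`. Choose `ξ` by `choose`. So
`∑_{|h| ≤ N} ∑_{|h'| ≤ N} ‖Ph g h h'‖² ≤ (X / W²) 3 W ∑_x ∑_{|h| ≤ W} ‖∑_{k < W} Dl h g (x + k) ex (k ξ x h)‖²` (extend the nonnegative sums from `N` to `W`), which is the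
expression under the root (`Real.sqrt_le_sqrt`). The imports `shift`, `div_sum`, `pars` are black boxes.
-/

set_option autoImplicit false

open Finset

namespace Pool.Agent.BLF

open Pool.Agent.HLT

namespace StarAux

lemma avg {X : ℕ} [NeZero X] (W : ℕ) (g : ZMod X → ℂ) (h h' : ℤ) :
    (W : ℂ) * Ph g h h' = ∑ x : ZMod X, ∑ k ∈ range W, Dl (h' : ZMod X) (Dl (h : ZMod X) g) (x + (k : ZMod X)) := by
  rw [Finset.sum_comm]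
  have h1 : ∀ k ∈ range W, ∑ x : ZMod X, Dl (h' : ZMod X) (Dl (h : ZMod X) g) (x + (k : ZMod X)) = Ph g h h' := by
    intro k _
    exact sum_shift (fun x => Dl (h' : ZMod X) (Dl (h : ZMod X) g) x) (k : ZMod X)
  rw [Finset.sum_congr rfl h1, Finset.sum_const, card_range, nsmul_eq_mul]

lemma sq {X : ℕ} [NeZero X] (W : ℕ) (g : ZMod X → ℂ) (h h' : ℤ) :
    (W : ℝ) ^ 2 * ‖Ph g h h'‖ ^ 2 ≤
      X * ∑ x : ZMod X, ‖∑ k ∈ range W, Dl (h' : ZMod X) (Dl (h : ZMod X) g) (x + (k : ZMod X))‖ ^ 2 := by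
  have h1 : (W : ℝ) ^ 2 * ‖Ph g h h'‖ ^ 2 = ‖(W : ℂ) * Ph g h h'‖ ^ 2 := by
    rw [norm_mul, Complex.norm_natCast, mul_pow]
  rw [h1, avg]
  have h2 : ‖∑ x : ZMod X, ∑ k ∈ range W, Dl (h' : ZMod X) (Dl (h : ZMod X) g) (x + (k : ZMod X))‖ ≤
      ∑ x : ZMod X, ‖∑ k ∈ range W, Dl (h' : ZMod X) (Dl (h : ZMod X) g) (x + (k : ZMod X))‖ := norm_sum_le _ _
  refine (pow_le_pow_left₀ (norm_nonneg _) h2 2).trans ?_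
  have h3 := sq_sum_le_card_mul_sum_sq (s := (univ : Finset (ZMod X)))
    (f := fun x => ‖∑ k ∈ range W, Dl (h' : ZMod X) (Dl (h : ZMod X) g) (x + (k : ZMod X))‖)
  rw [Finset.card_univ, ZMod.card] at h3
  exact h3

lemma fix {X : ℕ} [NeZero X] (W : ℕ) (hW : 1 ≤ W) (g : ZMod X → ℂ) (hg : ∀ x, ‖g x‖ ≤ 1) (x : ZMod X) (h : ℤ) :
    ∃ ξ : ℝ, ∑ h' ∈ Icc (-(W : ℤ)) W, ‖∑ k ∈ range W, Dl (h' : ZMod X) (Dl (h : ZMod X) g) (x + (k : ZMod X))‖ ^ 2 ≤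
      3 * W * ‖∑ k ∈ range W, Dl (h : ZMod X) g (x + (k : ZMod X)) * ex (k * ξ)‖ ^ 2 := by
  obtain ⟨ξ, hξ⟩ := pars W hW (fun k : ℤ => Dl (h : ZMod X) g (x + (k : ZMod X)))
    (fun k : ℤ => Dl (h : ZMod X) g (x + (k : ZMod X))) (fun k => norm_Dl_le _ g hg _)
  refine ⟨ξ, ?_⟩
  refine le_trans (le_of_eq ?_) (hξ.trans (le_of_eq ?_))
  · refine Finset.sum_congr rfl fun h' _ => ?_
    congr 2
    refine Finset.sum_congr rfl fun k _ => ?_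
    show Dl (h : ZMod X) g (x + (k : ZMod X) + (h' : ZMod X)) * (starRingEnd ℂ) (Dl (h : ZMod X) g (x + (k : ZMod X))) = _
    push_cast
    rw [add_assoc]
  · congr 3
    refine Finset.sum_congr rfl fun k _ => ?_
    push_cast
    rfl

lemma total {X : ℕ} [NeZero X] (N W : ℕ) (hW : 1 ≤ W) (hN : N ≤ W) (g : ZMod X → ℂ) (ξ : ZMod X → ℤ → ℝ)
    (hξ : ∀ (x : ZMod X) (h : ℤ), ∑ h' ∈ Icc (-(W : ℤ)) W, ‖∑ k ∈ range W, Dl (h' : ZMod X) (Dl (h : ZMod X) g) (x + (k : ZMod X))‖ ^ 2 ≤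
      3 * W * ‖∑ k ∈ range W, Dl (h : ZMod X) g (x + (k : ZMod X)) * ex (k * ξ x h)‖ ^ 2) :
    ∑ h ∈ Icc (-(N : ℤ)) (N : ℤ), ∑ h' ∈ Icc (-(N : ℤ)) (N : ℤ), ‖Ph g h h'‖ ^ 2 ≤
      3 * X / W * ∑ x : ZMod X, ∑ h ∈ Icc (-(W : ℤ)) W,
        ‖∑ k ∈ range W, Dl (h : ZMod X) g (x + (k : ZMod X)) * ex (k * ξ x h)‖ ^ 2 := by
  have hW0 : (0 : ℝ) < W := by exact_mod_cast hW
  have hNW : (N : ℤ) ≤ W := by exact_mod_cast hN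
  have hsub : Icc (-(N : ℤ)) (N : ℤ) ⊆ Icc (-(W : ℤ)) (W : ℤ) := Finset.Icc_subset_Icc (by linarith) hNW
  have h1 : ∑ h ∈ Icc (-(N : ℤ)) (N : ℤ), ∑ h' ∈ Icc (-(N : ℤ)) (N : ℤ), ‖Ph g h h'‖ ^ 2 ≤
      ∑ h ∈ Icc (-(W : ℤ)) (W : ℤ), ∑ h' ∈ Icc (-(W : ℤ)) (W : ℤ), ‖Ph g h h'‖ ^ 2 := by
    refine (Finset.sum_le_sum fun h _ => Finset.sum_le_sum_of_subset_of_nonneg hsub
      (fun _ _ _ => by positivity)).trans ?_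
    exact Finset.sum_le_sum_of_subset_of_nonneg hsub (fun _ _ _ => Finset.sum_nonneg fun _ _ => by positivity)
  refine h1.trans ?_
  have h2 : (W : ℝ) ^ 2 * ∑ h ∈ Icc (-(W : ℤ)) (W : ℤ), ∑ h' ∈ Icc (-(W : ℤ)) (W : ℤ), ‖Ph g h h'‖ ^ 2 ≤
      X * ∑ x : ZMod X, ∑ h ∈ Icc (-(W : ℤ)) W,
        3 * W * ‖∑ k ∈ range W, Dl (h : ZMod X) g (x + (k : ZMod X)) * ex (k * ξ x h)‖ ^ 2 := by
    rw [Finset.mul_sum]
    have h3 : ∀ h ∈ Icc (-(W : ℤ)) (W : ℤ), (W : ℝ) ^ 2 * ∑ h' ∈ Icc (-(W : ℤ)) (W : ℤ), ‖Ph g h h'‖ ^ 2 ≤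
        ∑ h' ∈ Icc (-(W : ℤ)) (W : ℤ),
          X * ∑ x : ZMod X, ‖∑ k ∈ range W, Dl (h' : ZMod X) (Dl (h : ZMod X) g) (x + (k : ZMod X))‖ ^ 2 := by
      intro h _
      rw [Finset.mul_sum]
      exact Finset.sum_le_sum fun h' _ => sq W g h h'
    refine (Finset.sum_le_sum h3).trans ?_
    have h4 : ∀ h ∈ Icc (-(W : ℤ)) (W : ℤ), ∑ h' ∈ Icc (-(W : ℤ)) (W : ℤ),
          X * ∑ x : ZMod X, ‖∑ k ∈ range W, Dl (h' : ZMod X) (Dl (h : ZMod X) g) (x + (k : ZMod X))‖ ^ 2 =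
        X * ∑ x : ZMod X, ∑ h' ∈ Icc (-(W : ℤ)) (W : ℤ),
          ‖∑ k ∈ range W, Dl (h' : ZMod X) (Dl (h : ZMod X) g) (x + (k : ZMod X))‖ ^ 2 := by
      intro h _
      rw [← Finset.mul_sum, Finset.sum_comm]
    rw [Finset.sum_congr rfl h4, ← Finset.mul_sum, Finset.sum_comm]
    refine mul_le_mul_of_nonneg_left ?_ (Nat.cast_nonneg _)
    exact Finset.sum_le_sum fun x _ => Finset.sum_le_sum fun h _ => hξ x h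
  have h5 : X * ∑ x : ZMod X, ∑ h ∈ Icc (-(W : ℤ)) W,
        3 * W * ‖∑ k ∈ range W, Dl (h : ZMod X) g (x + (k : ZMod X)) * ex (k * ξ x h)‖ ^ 2 =
      (W : ℝ) ^ 2 * (3 * X / W * ∑ x : ZMod X, ∑ h ∈ Icc (-(W : ℤ)) W,
        ‖∑ k ∈ range W, Dl (h : ZMod X) g (x + (k : ZMod X)) * ex (k * ξ x h)‖ ^ 2) := by
    simp only [← Finset.mul_sum]
    field_simp
  rw [h5] at h2
  exact le_of_mul_le_mul_left h2 (by positivity)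

end StarAux

theorem star {X : ℕ} [NeZero X] (H₁ H₂ W : ℕ) (hH₁ : 1 ≤ H₁) (hH₂ : 1 ≤ H₂) (hW : H₁ * H₂ ≤ W) (g : ZMod X → ℂ)
    (hg : ∀ x, ‖g x‖ ≤ 1) :
    ∃ ξ : ZMod X → ℤ → ℝ, QQ H₁ H₂ g ^ 2 ≤ 2 * X * H₁ * (H₂ : ℝ) ^ 2 *
      (5 * X * (H₁ : ℝ) ^ 2 * H₂ * (H₁ + H₂) +
        4 * H₁ * (H₁ * H₂) * (1 + Real.log ((H₁ * H₂ : ℕ) : ℝ)) ^ 4 *
          Real.sqrt (3 * X / W * ∑ x : ZMod X, ∑ h ∈ Icc (-(W : ℤ)) W,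
            ‖∑ k ∈ range W, Dl (h : ZMod X) g (x + (k : ZMod X)) * ex (k * ξ x h)‖ ^ 2)) := by
  have hW1 : 1 ≤ W := le_trans (Nat.mul_le_mul hH₁ hH₂) hW
  choose ξ hξ using fun (x : ZMod X) (h : ℤ) => StarAux.fix W hW1 g hg x h
  refine ⟨ξ, (shift H₁ H₂ g hg).trans ?_⟩
  refine mul_le_mul_of_nonneg_left ?_ (by positivity)
  refine (div_sum H₁ H₂ hH₁ hH₂ X (fun h h' => ‖Ph g h h'‖) (fun _ _ => norm_nonneg _)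
    (fun h h' => norm_Ph_le g hg h h')).trans ?_
  have hlog : 0 ≤ Real.log ((H₁ * H₂ : ℕ) : ℝ) := Real.log_natCast_nonneg _
  have h1 := StarAux.total (H₁ * H₂) W hW1 hW g ξ hξ
  have h2 := Real.sqrt_le_sqrt h1
  have h3 : (0 : ℝ) ≤ 4 * H₁ * (H₁ * H₂) * (1 + Real.log ((H₁ * H₂ : ℕ) : ℝ)) ^ 4 := by positivity
  exact add_le_add (le_refl _) (mul_le_mul_of_nonneg_left h2 h3)

end Pool.Agent.BLF
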