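import Pool.Agent.Lib.BLF.Box
import Pool.Agent.Lib.BLF.Star

/-!
# Module GStar: correlation with a dual function, global part

Write `D = DX H₁ H₂ S a b`, `‖D‖ ≤ 1` (`norm_DX_le`). PROOF. By Cauchy-Schwarz `(δ X)² ≤ X ∑ ‖D y‖²`, so `∑_y conj (D y) * D y = ∑ ‖D y‖² ≥ δ² X`. `box_DX` with `g = conj D`:
`(δ² X)^4 H₁² H₂² ≤ X³ QQ (conj D)`, so `QQ (conj D) ≥ δ^8 X H₁² H₂²`. `star` with `g = conj D`: `ξ` with `QQ² ≤ 10 X² H₁³ H₂³ (H₁ + H₂) + 8 X H₁³ H₂³ (1 + log (H₁ H₂))^4 √(3 X / W * Σ)`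
(`H₁³ H₂² (H₁ H₂) ...`: expand). As `H₁, H₂ ≥ δ^(-C)` the first term is at most `δ^16 X² H₁⁴ H₂⁴ / 2`, so with `1 + log (H₁ H₂) ≤ 1 + log W ≤ δ⁻¹`
`√(3 X Σ / W) ≥ δ^20 X H₁ H₂ / 16`, hence `Σ ≥ δ^40 X W (H₁ H₂)² / 768 ≥ δ^40 X W³ / 3072 ≥ δ^52 X W³` (`W ≤ 2 H₁ H₂`, `δ ≤ 1/2`). Finally `Dl h (conj D) (x + k) = conj (D (x+k+h)) * D (x+k)`, so the
norm of `∑_k Dl h (conj D) (x + k) ex (k ξ)` is the norm of `∑_k D (x+k+h) conj (D (x+k)) ex (k (-ξ))` (conjugate, `ex_neg`); take `-ξ` for `ξ`. `C = 52`.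
-/

set_option autoImplicit false

open Finset

namespace Pool.Agent.BLF

open Pool.Agent.HLT

private lemma gstar_num (δ X p q W L S Q : ℝ) (hδ : 0 < δ) (hδ2 : δ ≤ 1 / 2) (hX : 0 < X)
    (hp : (δ⁻¹) ^ 52 ≤ p) (hq : (δ⁻¹) ^ 52 ≤ q) (hW : 0 < W) (hW2 : W ≤ 2 * (p * q)) (hL0 : 0 ≤ L)
    (hL : L ≤ δ⁻¹) (hS : 0 ≤ S) (hQ1 : δ ^ 8 * X * (p ^ 2 * q ^ 2) ≤ Q)
    (hQ2 : Q ^ 2 ≤ 2 * X * p * q ^ 2 *
      (5 * X * p ^ 2 * q * (p + q) + 4 * p * (p * q) * L ^ 4 * Real.sqrt (3 * X / W * S))) :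
    δ ^ 52 * (X * W ^ 3) ≤ S := by
  have hi : 0 < δ⁻¹ := inv_pos.mpr hδ
  have hp0 : 0 < p := lt_of_lt_of_le (pow_pos hi _) hp
  have hq0 : 0 < q := lt_of_lt_of_le (pow_pos hi _) hq
  set r : ℝ := Real.sqrt (3 * X / W * S) with hr
  have hr0 : 0 ≤ r := Real.sqrt_nonneg _
  have hr2 : r ^ 2 = 3 * X / W * S := Real.sq_sqrt (by positivity)
  -- sizes
  have hbig : (40 : ℝ) ≤ δ ^ 16 * (δ⁻¹) ^ 52 := by
    have h1 : δ ^ 16 * (δ⁻¹) ^ 52 = (δ⁻¹) ^ 36 := by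
      have h2 : δ * δ⁻¹ = 1 := mul_inv_cancel₀ hδ.ne'
      calc δ ^ 16 * (δ⁻¹) ^ 52 = (δ * δ⁻¹) ^ 16 * (δ⁻¹) ^ 36 := by ring
        _ = (δ⁻¹) ^ 36 := by rw [h2]; ring
    rw [h1]
    have h3 : (2 : ℝ) ≤ δ⁻¹ := by
      rw [le_inv_comm₀ (by norm_num) hδ]
      linarith
    calc (40 : ℝ) ≤ 2 ^ 36 := by norm_num
      _ ≤ (δ⁻¹) ^ 36 := pow_le_pow_left₀ (by norm_num) h3 36
  have hδ16 : 0 < δ ^ 16 := pow_pos hδ _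
  have hq40 : (40 : ℝ) ≤ δ ^ 16 * q := hbig.trans (mul_le_mul_of_nonneg_left hq hδ16.le)
  have hp40 : (40 : ℝ) ≤ δ ^ 16 * p := hbig.trans (mul_le_mul_of_nonneg_left hp hδ16.le)
  have hC : 20 * (p + q) ≤ δ ^ 16 * (p * q) := by
    have h1 : 40 * p ≤ (δ ^ 16 * q) * p := mul_le_mul_of_nonneg_right hq40 hp0.le
    have h2 : 40 * q ≤ (δ ^ 16 * p) * q := mul_le_mul_of_nonneg_right hp40 hq0.le
    nlinarith
  have hA : δ ^ 16 * X ^ 2 * p ^ 4 * q ^ 4 ≤ Q ^ 2 := by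
    have h1 : (δ ^ 8 * X * (p ^ 2 * q ^ 2)) ^ 2 ≤ Q ^ 2 := pow_le_pow_left₀ (by positivity) hQ1 2
    calc δ ^ 16 * X ^ 2 * p ^ 4 * q ^ 4 = (δ ^ 8 * X * (p ^ 2 * q ^ 2)) ^ 2 := by ring
      _ ≤ Q ^ 2 := h1
  have hE : δ ^ 16 * (X * (p * q)) ≤ 16 * L ^ 4 * r := by
    have h1 : δ ^ 16 * X ^ 2 * p ^ 4 * q ^ 4 ≤
        10 * X ^ 2 * p ^ 3 * q ^ 3 * (p + q) + 8 * X * p ^ 3 * q ^ 3 * L ^ 4 * r := by
      calc δ ^ 16 * X ^ 2 * p ^ 4 * q ^ 4 ≤ Q ^ 2 := hA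
        _ ≤ _ := hQ2
        _ = _ := by ring
    have h2 : 10 * X ^ 2 * p ^ 3 * q ^ 3 * (p + q) ≤ δ ^ 16 * X ^ 2 * p ^ 4 * q ^ 4 / 2 := by
      have h3 : (X ^ 2 * p ^ 3 * q ^ 3 / 2) * (20 * (p + q)) ≤ (X ^ 2 * p ^ 3 * q ^ 3 / 2) * (δ ^ 16 * (p * q)) :=
        mul_le_mul_of_nonneg_left hC (by positivity)
      calc 10 * X ^ 2 * p ^ 3 * q ^ 3 * (p + q) = (X ^ 2 * p ^ 3 * q ^ 3 / 2) * (20 * (p + q)) := by ring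
        _ ≤ (X ^ 2 * p ^ 3 * q ^ 3 / 2) * (δ ^ 16 * (p * q)) := h3
        _ = δ ^ 16 * X ^ 2 * p ^ 4 * q ^ 4 / 2 := by ring
    have h4 : (X * p ^ 3 * q ^ 3 / 2) * (δ ^ 16 * (X * (p * q))) ≤ (X * p ^ 3 * q ^ 3 / 2) * (16 * L ^ 4 * r) := by
      calc (X * p ^ 3 * q ^ 3 / 2) * (δ ^ 16 * (X * (p * q))) = δ ^ 16 * X ^ 2 * p ^ 4 * q ^ 4 / 2 := by ring
        _ ≤ 8 * X * p ^ 3 * q ^ 3 * L ^ 4 * r := by linarith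
        _ = (X * p ^ 3 * q ^ 3 / 2) * (16 * L ^ 4 * r) := by ring
    exact le_of_mul_le_mul_left h4 (by positivity)
  have hF : δ ^ 20 * (X * (p * q)) ≤ 16 * r := by
    have h1 : L ^ 4 ≤ (δ⁻¹) ^ 4 := pow_le_pow_left₀ hL0 hL 4
    have h2 : δ ^ 4 * L ^ 4 ≤ 1 := by
      calc δ ^ 4 * L ^ 4 ≤ δ ^ 4 * (δ⁻¹) ^ 4 := mul_le_mul_of_nonneg_left h1 (by positivity)
        _ = (δ * δ⁻¹) ^ 4 := by ring
        _ = 1 := by rw [mul_inv_cancel₀ hδ.ne', one_pow]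
    calc δ ^ 20 * (X * (p * q)) = δ ^ 4 * (δ ^ 16 * (X * (p * q))) := by ring
      _ ≤ δ ^ 4 * (16 * L ^ 4 * r) := mul_le_mul_of_nonneg_left hE (by positivity)
      _ = (δ ^ 4 * L ^ 4) * (16 * r) := by ring
      _ ≤ 1 * (16 * r) := mul_le_mul_of_nonneg_right h2 (by positivity)
      _ = 16 * r := one_mul _
  have hG : δ ^ 40 * (X * (p * q) ^ 2 * W) ≤ 768 * S := by
    have h1 : (δ ^ 20 * (X * (p * q))) ^ 2 ≤ (16 * r) ^ 2 := pow_le_pow_left₀ (by positivity) hF 2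
    have h2 : (16 * r) ^ 2 = 768 * X / W * S := by
      rw [mul_pow, hr2]
      ring
    rw [h2] at h1
    have h3 : (X / W) * (δ ^ 40 * (X * (p * q) ^ 2 * W)) ≤ (X / W) * (768 * S) := by
      calc (X / W) * (δ ^ 40 * (X * (p * q) ^ 2 * W)) = (δ ^ 20 * (X * (p * q))) ^ 2 := by
            field_simp
        _ ≤ 768 * X / W * S := h1
        _ = (X / W) * (768 * S) := by ring
    exact le_of_mul_le_mul_left h3 (by positivity)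
  have hH : δ ^ 40 * (X * W ^ 3) ≤ 3072 * S := by
    have h1 : W ^ 2 ≤ 4 * (p * q) ^ 2 := by
      calc W ^ 2 ≤ (2 * (p * q)) ^ 2 := pow_le_pow_left₀ hW.le hW2 2
        _ = 4 * (p * q) ^ 2 := by ring
    calc δ ^ 40 * (X * W ^ 3) = (δ ^ 40 * X * W) * W ^ 2 := by ring
      _ ≤ (δ ^ 40 * X * W) * (4 * (p * q) ^ 2) := mul_le_mul_of_nonneg_left h1 (by positivity)
      _ = 4 * (δ ^ 40 * (X * (p * q) ^ 2 * W)) := by ring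
      _ ≤ 4 * (768 * S) := by linarith
      _ = 3072 * S := by ring
  have hI : δ ^ 12 ≤ 1 / 4096 := by
    calc δ ^ 12 ≤ (1 / 2) ^ 12 := pow_le_pow_left₀ hδ.le hδ2 12
      _ = 1 / 4096 := by norm_num
  calc δ ^ 52 * (X * W ^ 3) = δ ^ 12 * (δ ^ 40 * (X * W ^ 3)) := by ring
    _ ≤ δ ^ 12 * (3072 * S) := mul_le_mul_of_nonneg_left hH (by positivity)
    _ ≤ (1 / 4096) * (3072 * S) := mul_le_mul_of_nonneg_right hI (by positivity)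
    _ ≤ S := by linarith

theorem gstar : ∃ C : ℕ, ∀ (δ : ℝ) (X H₁ H₂ W : ℕ) [NeZero X], Adm δ C X H₁ H₂ W → ∀ {Ω : Type} (S : Finset Ω),
    S.Nonempty → ∀ (a b : Ω → ZMod X → ℕ → ℂ), (∀ ω x s, ‖a ω x s‖ ≤ 1) → (∀ ω x t, ‖b ω x t‖ ≤ 1) →
    ∀ g : ZMod X → ℂ, (∀ x, ‖g x‖ ≤ 1) → δ * X ≤ ‖∑ y : ZMod X, g y * DX H₁ H₂ S a b y‖ →
    ∃ ξ : ZMod X → ℤ → ℝ, δ ^ C * (X * (W : ℝ) ^ 3) ≤ ∑ x : ZMod X, ∑ h ∈ Icc (-(W : ℤ)) W,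
      ‖∑ k ∈ range W, DX H₁ H₂ S a b (x + (k : ZMod X) + (h : ZMod X)) *
        (starRingEnd ℂ) (DX H₁ H₂ S a b (x + (k : ZMod X))) * ex (k * ξ x h)‖ ^ 2 := by
  refine ⟨52, ?_⟩
  intro δ X H₁ H₂ W _ hAdm Ω S _ a b ha hb g hg hcor
  set D : ZMod X → ℂ := DX H₁ H₂ S a b with hDdef
  have hD : ∀ y, ‖D y‖ ≤ 1 := fun y => norm_DX_le H₁ H₂ S a b ha hb y
  have hX0 : (0 : ℝ) < (X : ℝ) := by
    have := NeZero.pos X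
    exact_mod_cast this
  have hloc := hAdm.loc
  have hH1 := hloc.pos1
  have hH2 := hloc.pos2
  have hWp := hloc.posW
  have hW0 : (0 : ℝ) < (W : ℝ) := by exact_mod_cast hWp
  have hδ := hAdm.pos
  -- the sum of the squares
  set E : ℝ := ∑ y : ZMod X, ‖D y‖ ^ 2 with hE
  have h3 : δ ^ 2 * X ≤ E := by
    have h1 : δ * X ≤ ∑ y : ZMod X, ‖D y‖ := by
      refine hcor.trans (norm_sum_le_of_le _ fun y _ => ?_)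
      rw [norm_mul]
      calc ‖g y‖ * ‖D y‖ ≤ 1 * ‖D y‖ := mul_le_mul_of_nonneg_right (hg y) (norm_nonneg _)
        _ = ‖D y‖ := one_mul _
    have h2 := sq_sum_le_card_mul_sum_sq (s := (univ : Finset (ZMod X))) (f := fun y => ‖D y‖)
    rw [Finset.card_univ, ZMod.card] at h2
    have h4 : (δ * X) ^ 2 ≤ (∑ y : ZMod X, ‖D y‖) ^ 2 := pow_le_pow_left₀ (by positivity) h1 2
    have h5 : (X : ℝ) * (δ ^ 2 * X) ≤ X * E := by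
      calc (X : ℝ) * (δ ^ 2 * X) = (δ * X) ^ 2 := by ring
        _ ≤ (∑ y : ZMod X, ‖D y‖) ^ 2 := h4
        _ ≤ X * E := h2
    exact le_of_mul_le_mul_left h5 hX0
  set G : ZMod X → ℂ := fun y => (starRingEnd ℂ) (D y) with hG
  have hG1 : ∀ y, ‖G y‖ ≤ 1 := fun y => by
    simp only [hG]
    rw [Complex.norm_conj]
    exact hD y
  have hsum : ∑ y : ZMod X, G y * DX H₁ H₂ S a b y = (E : ℂ) := by
    rw [hE]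
    push_cast
    refine Finset.sum_congr rfl fun y _ => ?_
    exact Complex.conj_mul' (D y)
  have hbox := box_DX H₁ H₂ S a b ha hb G
  have hE0 : 0 ≤ E := Finset.sum_nonneg fun y _ => by positivity
  rw [hsum, Complex.norm_real, Real.norm_of_nonneg hE0] at hbox
  have hQ1 : δ ^ 8 * X * ((H₁ : ℝ) ^ 2 * (H₂ : ℝ) ^ 2) ≤ QQ H₁ H₂ G := by
    have h4 : (δ ^ 2 * X) ^ 4 ≤ E ^ 4 := pow_le_pow_left₀ (by positivity) h3 4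
    have h5 : (X : ℝ) ^ 3 * (δ ^ 8 * X * ((H₁ : ℝ) ^ 2 * (H₂ : ℝ) ^ 2)) ≤ (X : ℝ) ^ 3 * QQ H₁ H₂ G := by
      calc (X : ℝ) ^ 3 * (δ ^ 8 * X * ((H₁ : ℝ) ^ 2 * (H₂ : ℝ) ^ 2))
          = (δ ^ 2 * X) ^ 4 * ((H₁ : ℝ) ^ 2 * (H₂ : ℝ) ^ 2) := by ring
        _ ≤ E ^ 4 * ((H₁ : ℝ) ^ 2 * (H₂ : ℝ) ^ 2) := mul_le_mul_of_nonneg_right h4 (by positivity)
        _ ≤ (X : ℝ) ^ 3 * QQ H₁ H₂ G := hbox
    exact le_of_mul_le_mul_left h5 (by positivity)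
  obtain ⟨ξ, hξ⟩ := star H₁ H₂ W hH1 hH2 hAdm.le G hG1
  set Sg : ℝ := ∑ x : ZMod X, ∑ h ∈ Icc (-(W : ℤ)) W,
    ‖∑ k ∈ range W, Dl (h : ZMod X) G (x + (k : ZMod X)) * ex (k * ξ x h)‖ ^ 2 with hSg
  have hSg0 : 0 ≤ Sg := Finset.sum_nonneg fun x _ => Finset.sum_nonneg fun h _ => by positivity
  refine ⟨fun x h => -ξ x h, ?_⟩
  have hN1 : 1 ≤ H₁ * H₂ := Nat.mul_le_mul hH1 hH2
  have hN0 : (1 : ℝ) ≤ ((H₁ * H₂ : ℕ) : ℝ) := by exact_mod_cast hN1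
  have hNW : ((H₁ * H₂ : ℕ) : ℝ) ≤ (W : ℝ) := by exact_mod_cast hAdm.le
  have hlog0 : 0 ≤ Real.log ((H₁ * H₂ : ℕ) : ℝ) := Real.log_nonneg hN0
  have hlogW : Real.log ((H₁ * H₂ : ℕ) : ℝ) ≤ Real.log W := Real.log_le_log (by linarith) hNW
  have hW2 : (W : ℝ) ≤ 2 * ((H₁ : ℝ) * (H₂ : ℝ)) := by exact_mod_cast hAdm.le2
  have hmain := gstar_num δ X H₁ H₂ W (1 + Real.log ((H₁ * H₂ : ℕ) : ℝ)) Sg (QQ H₁ H₂ G) hδ hAdm.half hX0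
    hAdm.one hAdm.two hW0 hW2 (by linarith) (by linarith [hAdm.log]) hSg0 hQ1 hξ
  refine hmain.trans (le_of_eq ?_)
  rw [hSg]
  refine Finset.sum_congr rfl fun x _ => Finset.sum_congr rfl fun h _ => ?_
  congr 1
  rw [← Complex.norm_conj, map_sum]
  congr 1
  refine Finset.sum_congr rfl fun k _ => ?_
  have hex : ex ((k : ℝ) * -ξ x h) = (starRingEnd ℂ) (ex ((k : ℝ) * ξ x h)) := by
    rw [mul_neg, ex_neg]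
  simp only [hG, Dl]
  rw [hex, map_mul, map_mul, Complex.conj_conj, Complex.conj_conj]

end Pool.Agent.BLF
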