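import Pool.Agent.Lib.BLF.GStar
import Pool.Agent.Lib.BLF.EOne

/-!
# Module GSup: the dual function correlates with a linear phase on many windows

PROOF. `C₁` from `gstar`, `C₂` from `eone`. `gstar` gives `ξ`, with `S_x = ∑_h ‖...‖² ≤ (2 W + 1) W² ≤ 3 W³` and `∑_x S_x ≥ δ^C₁ X W³`. The `x` with `S_x ≥ η W³`, `η = δ^(C₁ + 1)`: the others contribute at most
`δ^(C₁+1) X W³ ≤ δ^C₁ X W³ / 2`, so there are at least `δ^C₁ X / 6` such `x`. For each of them `eone` (with `η`, `Loc.pow`), applied to the functions `fun ω z s => a ω (x + (z : ZMod X)) s`, `b` likewise, and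
`DX_add` (write `x + k + h = x + ((k + h : ℤ) : ZMod X)`, `x + k = x + ((k : ℤ) : ZMod X)`), gives `β x` with `‖∑_k DX (x + k) ex (k β x)‖ ≥ η^C₂ W`. For the other `x` take `β x = 0`. So the sum is at least
`(δ^C₁ X / 6) η^C₂ W`.
-/

set_option autoImplicit false

open Finset

namespace Pool.Agent.BLF

open Pool.Agent.HLT

namespace GSupAux

lemma norm_ex (t : ℝ) : ‖ex t‖ = 1 := by
  unfold ex
  rw [Complex.norm_exp]
  simp

/-- Upper bound of one correlation sum. -/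
lemma one_le {X : ℕ} (D : ZMod X → ℂ) (hD : ∀ y, ‖D y‖ ≤ 1) (W : ℕ) (x : ZMod X) (h : ℤ) (ξ : ℝ) :
    ‖∑ k ∈ range W, D (x + (k : ZMod X) + (h : ZMod X)) * (starRingEnd ℂ) (D (x + (k : ZMod X))) *
      ex (k * ξ)‖ ^ 2 ≤ (W : ℝ) ^ 2 := by
  refine pow_le_pow_left₀ (norm_nonneg _) ?_ 2
  refine (norm_sum_le _ _).trans ?_
  calc ∑ k ∈ range W, ‖D (x + (k : ZMod X) + (h : ZMod X)) * (starRingEnd ℂ) (D (x + (k : ZMod X))) *
      ex (k * ξ)‖ ≤ ∑ _k ∈ range W, (1 : ℝ) := by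
        refine Finset.sum_le_sum fun k _ => ?_
        rw [norm_mul, norm_mul, Complex.norm_conj, norm_ex, mul_one]
        exact mul_le_one₀ (hD _) (norm_nonneg _) (hD _)
    _ = W := by simp

lemma sum_le {X : ℕ} (D : ZMod X → ℂ) (hD : ∀ y, ‖D y‖ ≤ 1) (W : ℕ) (hW : 1 ≤ W) (x : ZMod X) (ξ : ℤ → ℝ) :
    ∑ h ∈ Icc (-(W : ℤ)) W, ‖∑ k ∈ range W, D (x + (k : ZMod X) + (h : ZMod X)) *
      (starRingEnd ℂ) (D (x + (k : ZMod X))) * ex (k * ξ h)‖ ^ 2 ≤ 3 * (W : ℝ) ^ 3 := by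
  have hW' : (1 : ℝ) ≤ W := by exact_mod_cast hW
  calc _ ≤ ∑ _h ∈ Icc (-(W : ℤ)) W, (W : ℝ) ^ 2 := Finset.sum_le_sum fun h _ => one_le D hD W x h (ξ h)
    _ = (2 * W + 1) * (W : ℝ) ^ 2 := by
        rw [Finset.sum_const, Int.card_Icc, nsmul_eq_mul]
        have : ((W : ℤ) + 1 - -(W : ℤ)).toNat = 2 * W + 1 := by omega
        rw [this]
        push_cast
        ring
    _ ≤ 3 * (W : ℝ) ^ 3 := by
        have : (0 : ℝ) ≤ (W : ℝ) ^ 2 := by positivity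
        nlinarith

/-- The elements with a large value. -/
lemma count {X : ℕ} [NeZero X] (F : ZMod X → ℝ) (δ V : ℝ) (c : ℕ) (hδ : 0 < δ) (hδ2 : δ ≤ 1 / 2) (hV : 0 < V)
    (hF : ∀ x, F x ≤ 3 * V) (hS : δ ^ c * (X * V) ≤ ∑ x : ZMod X, F x) :
    δ ^ c * X / 6 ≤ ((univ.filter (fun x : ZMod X => δ ^ (c + 1) * V ≤ F x)).card : ℝ) := by
  classical
  have h1 : ∑ x : ZMod X, F x ≤ ∑ x : ZMod X, ((if δ ^ (c + 1) * V ≤ F x then 3 * V else 0) + δ ^ (c + 1) * V) := by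
    refine Finset.sum_le_sum fun x _ => ?_
    have h0 : 0 ≤ δ ^ (c + 1) * V := by positivity
    split_ifs with h
    · linarith [hF x]
    · linarith
  rw [Finset.sum_add_distrib, ← Finset.sum_filter, Finset.sum_const, Finset.sum_const, Finset.card_univ, ZMod.card,
    nsmul_eq_mul, nsmul_eq_mul] at h1
  have h2 : δ ^ (c + 1) ≤ δ ^ c / 2 := by
    rw [pow_succ]
    have : 0 < δ ^ c := by positivity
    nlinarith
  have h3 : (X : ℝ) * (δ ^ (c + 1) * V) ≤ (X : ℝ) * (δ ^ c / 2 * V) := by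
    have : (0 : ℝ) ≤ X := by positivity
    gcongr
  have h4 : δ ^ c * (X * V) / 2 ≤
      ((univ.filter (fun x : ZMod X => δ ^ (c + 1) * V ≤ F x)).card : ℝ) * (3 * V) := by
    linarith
  have h5 : (δ ^ c * X / 6) * (3 * V) ≤
      ((univ.filter (fun x : ZMod X => δ ^ (c + 1) * V ≤ F x)).card : ℝ) * (3 * V) := by
    refine le_trans (le_of_eq ?_) h4
    ring
  exact le_of_mul_le_mul_right h5 (by positivity)

end GSupAux

theorem gsup : ∃ C : ℕ, ∀ (δ : ℝ) (X H₁ H₂ W : ℕ) [NeZero X], Adm δ C X H₁ H₂ W → ∀ {Ω : Type} (S : Finset Ω),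
    S.Nonempty → ∀ (a b : Ω → ZMod X → ℕ → ℂ), (∀ ω x s, ‖a ω x s‖ ≤ 1) → (∀ ω x t, ‖b ω x t‖ ≤ 1) →
    ∀ g : ZMod X → ℂ, (∀ x, ‖g x‖ ≤ 1) → δ * X ≤ ‖∑ y : ZMod X, g y * DX H₁ H₂ S a b y‖ →
    ∃ β : ZMod X → ℝ, δ ^ C * (X * W) ≤ ∑ x : ZMod X,
      ‖∑ k ∈ range W, DX H₁ H₂ S a b (x + (k : ZMod X)) * ex (k * β x)‖ := by
  classical
  obtain ⟨C₁, h₁⟩ := gstar
  obtain ⟨C₂, h₂⟩ := eone
  refine ⟨C₁ + (C₁ + 1) * C₂ + 3, ?_⟩
  intro δ X H₁ H₂ W _ hA Ω S hS a b ha hb g hg hc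
  have hL : Loc (δ ^ (C₁ + 1)) C₂ H₁ H₂ W :=
    Loc.pow (C₁ + 1) (by omega) ((hA.mono (C' := (C₁ + 1) * C₂) (by omega)).loc)
  have hW : 1 ≤ W := hL.posW
  obtain ⟨ξ, hξ⟩ := h₁ δ X H₁ H₂ W (hA.mono (by omega)) S hS a b ha hb g hg hc
  have hD : ∀ y, ‖DX H₁ H₂ S a b y‖ ≤ 1 := norm_DX_le H₁ H₂ S a b ha hb
  have hδ := hA.pos
  have hδ2 := hA.half
  have hW0 : (0 : ℝ) < W := by exact_mod_cast hW
  have hcnt := GSupAux.count _ δ ((W : ℝ) ^ 3) C₁ hδ hδ2 (by positivity)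
    (fun x => GSupAux.sum_le (DX H₁ H₂ S a b) hD W hW x (ξ x)) hξ
  have key : ∀ x : ZMod X, ∃ β : ℝ, δ ^ (C₁ + 1) * (W : ℝ) ^ 3 ≤ ∑ h ∈ Icc (-(W : ℤ)) W,
      ‖∑ k ∈ range W, DX H₁ H₂ S a b (x + (k : ZMod X) + (h : ZMod X)) *
        (starRingEnd ℂ) (DX H₁ H₂ S a b (x + (k : ZMod X))) * ex (k * ξ x h)‖ ^ 2 →
      (δ ^ (C₁ + 1)) ^ C₂ * W ≤ ‖∑ k ∈ range W, DX H₁ H₂ S a b (x + (k : ZMod X)) * ex (k * β)‖ := by
    intro x
    by_cases hx : δ ^ (C₁ + 1) * (W : ℝ) ^ 3 ≤ ∑ h ∈ Icc (-(W : ℤ)) W,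
      ‖∑ k ∈ range W, DX H₁ H₂ S a b (x + (k : ZMod X) + (h : ZMod X)) *
        (starRingEnd ℂ) (DX H₁ H₂ S a b (x + (k : ZMod X))) * ex (k * ξ x h)‖ ^ 2
    · have e1 : ∀ k : ℕ, DX H₁ H₂ S a b (x + (k : ZMod X)) =
          Dz H₁ H₂ S (fun ω z s => a ω (x + (z : ZMod X)) s) (fun ω z t => b ω (x + (z : ZMod X)) t) (k : ℤ) := by
        intro k
        have := DX_add H₁ H₂ S a b x (k : ℤ)
        rw [Int.cast_natCast] at this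
        exact this
      have e2 : ∀ (k : ℕ) (h : ℤ), DX H₁ H₂ S a b (x + (k : ZMod X) + (h : ZMod X)) =
          Dz H₁ H₂ S (fun ω z s => a ω (x + (z : ZMod X)) s) (fun ω z t => b ω (x + (z : ZMod X)) t)
            ((k : ℤ) + h) := by
        intro k h
        have := DX_add H₁ H₂ S a b x ((k : ℤ) + h)
        rw [Int.cast_add, Int.cast_natCast, ← add_assoc] at this
        exact this
      obtain ⟨β, hβ⟩ := h₂ (δ ^ (C₁ + 1)) H₁ H₂ W hL S hS (fun ω z s => a ω (x + (z : ZMod X)) s)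
        (fun ω z t => b ω (x + (z : ZMod X)) t) (fun ω z s => ha _ _ _) (fun ω z t => hb _ _ _) (ξ x) (by
          simp only [e1, e2] at hx
          exact hx)
      refine ⟨β, fun _ => ?_⟩
      simp only [e1]
      exact hβ
    · exact ⟨0, fun h => absurd h hx⟩
  choose β hβ using key
  refine ⟨β, ?_⟩
  have hX0 : (0 : ℝ) ≤ X := by positivity
  have hlow : ((univ.filter (fun x : ZMod X => δ ^ (C₁ + 1) * (W : ℝ) ^ 3 ≤ ∑ h ∈ Icc (-(W : ℤ)) W,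
      ‖∑ k ∈ range W, DX H₁ H₂ S a b (x + (k : ZMod X) + (h : ZMod X)) *
        (starRingEnd ℂ) (DX H₁ H₂ S a b (x + (k : ZMod X))) * ex (k * ξ x h)‖ ^ 2)).card : ℝ) *
        ((δ ^ (C₁ + 1)) ^ C₂ * W) ≤ ∑ x : ZMod X,
      ‖∑ k ∈ range W, DX H₁ H₂ S a b (x + (k : ZMod X)) * ex (k * β x)‖ := by
    rw [← nsmul_eq_mul, ← Finset.sum_const]
    refine le_trans (Finset.sum_le_sum fun x hx => hβ x (Finset.mem_filter.1 hx).2) ?_
    exact Finset.sum_le_sum_of_subset_of_nonneg (Finset.filter_subset _ _) (fun _ _ _ => norm_nonneg _)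
  refine le_trans ?_ hlow
  have h3 : δ ^ 3 ≤ 1 / 6 := by
    have : δ ^ 3 ≤ (1 / 2) ^ 3 := pow_le_pow_left₀ hδ.le hδ2 3
    linarith
  have hp : (0 : ℝ) < (δ ^ (C₁ + 1)) ^ C₂ * W := by positivity
  calc δ ^ (C₁ + (C₁ + 1) * C₂ + 3) * (X * W) = δ ^ C₁ * X * δ ^ 3 * ((δ ^ (C₁ + 1)) ^ C₂ * W) := by
        rw [pow_add, pow_add, ← pow_mul]
        ring
    _ ≤ δ ^ C₁ * X * (1 / 6) * ((δ ^ (C₁ + 1)) ^ C₂ * W) := by gcongr
    _ = δ ^ C₁ * X / 6 * ((δ ^ (C₁ + 1)) ^ C₂ * W) := by ring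
    _ ≤ _ := mul_le_mul_of_nonneg_right hcnt hp.le

end Pool.Agent.BLF
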