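import Pool.Agent.Lib.BLF.SingleMs
import Pool.Agent.Lib.BLF.Avg

/-!
# Module TermS: one term of the telescoping sum, single slot

PROOF. `K₁ = K (r + 1)`, `K', B', C` from `single_ms m K₁ B`. Let `p = i e₀ = j e₀`, `f t = ‖∑_n w n ∏_e G e (n + sh t e)‖²`. By `sum_update` (module `Avg`), `H_p ∑_u f u = ∑_u ∑_{s ∈ Icc 1 H_p} f (update u p s)`. Let `J` be the set of the `k ≠ p` such
that `(i e, j e) = (p, k)` or `(k, p)` for some `e`; this `e = e_k` is unique (`ord`, `inj`), and different `k` have different `e_k`. In `single_ms`: `H0 = H_p`, `v k = v (e_k)`, `G k = G (e_k)`, `τ = τ e₀`, `γ n u = w n ∏_{e ≠ e₀, p ∉ {i e, j e}} G e (n + sh u e)`. For `e = e_k`: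
`sh (update u p s) e = v e + s u_k` (or `v e + u_k s`, `Nat.mul_comm`); for `e = e₀`: `τ e₀ s`; for the other `e` (`p ∉ {i e, j e}`): `sh (update u p s) e = sh u e`. A slot `e ≠ e₀` with `i e = j e = p` does not exist by `inj`. So
`w n ∏_e G e (n + sh (update u p s) e) = ff (n + τ e₀ s) * ∏_{k ∈ J} G_k (n + (v k + s u_k)) * γ n u` (split `univ` into `{e₀}`, the image of `J` under `k ↦ e_k`, and the rest). The bounds: `SlotsOK.sh_le`. For `k ∈ J`: `v k + H_p H_k ≤ x` is `SlotsOK.edge`
(`Nat.mul_comm` if `(i e, j e) = (k, p)`). Divide by `H_p > 0`.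
-/

set_option autoImplicit false

open Finset Filter

namespace Pool.Agent.BLF

open Pool.Agent.HLB Pool.Agent.HL Pool.Agent.HLT Pool.Agent.HLU Pool.Agent.VN

theorem term_single (m r K B : ℕ) : ∃ K' B' C : ℕ, ∀ A : ℕ, ∀ᶠ x : ℕ in atTop, ∀ (i j : Fin r → Fin m)
    (H : Fin m → ℕ) (v : Fin r → ℕ) (τ : Fin r → ℕ → ℕ), SlotsOK A K' B' C x i j H v τ → ∀ e₀ : Fin r, i e₀ = j e₀ →
    ∀ (w : ℕ → ℂ) (G : Fin r → ℕ → ℝ), (∀ n ∈ Icc 1 x, ‖w n‖ ≤ Real.log x ^ K) →
    (∀ e, ∀ n ∈ Icc 1 (2 * x), |G e n| ≤ Real.log x ^ K) → G e₀ = ff (zA A x) →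
    ∑ t ∈ Fintype.piFinset (fun k => Icc 1 (H k)),
        ‖∑ n ∈ Icc 1 x, w n * ∏ e, (G e (n + sh i j v τ t e) : ℂ)‖ ^ 2 ≤
      (∏ k, (H k : ℝ)) * ((x : ℝ) ^ 2 / Real.log x ^ B) := by
  classical
  obtain ⟨K', B', C, h⟩ := single_ms m (K * (r + 1)) B
  refine ⟨K', B', C, fun A => ?_⟩
  have hlog : ∀ᶠ x : ℕ in atTop, (1 : ℝ) ≤ Real.log x :=
    (Real.tendsto_log_atTop.comp tendsto_natCast_atTop_atTop).eventually_ge_atTop 1
  filter_upwards [h A, hlog] with x hx hL i j H v τ hS e₀ heq w G hw hG hG0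
  set p := i e₀ with hp
  obtain ⟨hτinj, hmsp⟩ := hS.single e₀ heq
  rw [← hp] at hτinj hmsp
  have hHp : (1 : ℝ) ≤ H p := (one_le_pow₀ hL).trans (hS.big p)
  have hH1 : ∀ k, 1 ≤ H k := by
    intro k
    have h1 : (1 : ℝ) ≤ H k := (one_le_pow₀ hL).trans (hS.big k)
    exact_mod_cast h1
  set P := Fintype.piFinset (fun k => Icc 1 (H k)) with hP
  set f : (Fin m → ℕ) → ℝ := fun t =>
    ‖∑ n ∈ Icc 1 x, w n * ∏ e, (G e (n + sh i j v τ t e) : ℂ)‖ ^ 2 with hf
  have hd := sum_update (fun k => Icc 1 (H k)) p f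
  simp only [Nat.card_Icc, Nat.add_sub_cancel, nsmul_eq_mul] at hd
  -- the slots
  set E1 := (univ.erase e₀).filter (fun e => i e = p ∨ j e = p) with hE1
  set E2 := (univ.erase e₀).filter (fun e => ¬ (i e = p ∨ j e = p)) with hE2
  set kk : Fin r → Fin m := fun e => if i e = p then j e else i e with hkk
  have hnotp : ∀ e ∈ E1, ¬ (i e = p ∧ j e = p) := by
    intro e he hij
    have he1 : e ≠ e₀ := ne_of_mem_erase (mem_filter.1 he).1
    apply he1
    apply hS.inj
    simp only
    rw [hij.1, hij.2, ← heq]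
  have hne : ∀ e ∈ E1, i e ≠ j e := by
    intro e he hij
    rcases (mem_filter.1 he).2 with h1 | h1
    · exact hnotp e he ⟨h1, hij ▸ h1⟩
    · exact hnotp e he ⟨hij.trans h1, h1⟩
  have hkinj : Set.InjOn kk (E1 : Finset (Fin r)) := by
    intro e he e' he' hk
    have he := mem_coe.1 he
    have he' := mem_coe.1 he'
    have n1 := hnotp e he
    have n2 := hnotp e' he'
    have o1 := hS.ord e
    have o2 := hS.ord e'
    rw [hkk] at hk
    simp only at hk
    apply hS.inj
    simp only
    by_cases h1 : i e = p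
    · rw [if_pos h1] at hk
      by_cases h2 : i e' = p
      · rw [if_pos h2] at hk
        rw [h1, h2, hk]
      · rw [if_neg h2] at hk
        have h3 : j e' = p := ((mem_filter.1 he').2).resolve_left h2
        rw [h1, hk] at o1
        rw [h3] at o2
        exact absurd (le_antisymm o2 o1) h2
    · rw [if_neg h1] at hk
      have h3 : j e = p := ((mem_filter.1 he).2).resolve_left h1
      by_cases h2 : i e' = p
      · rw [if_pos h2] at hk
        rw [h3] at o1
        rw [h2, ← hk] at o2
        exact absurd (le_antisymm o1 o2) h1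
      · rw [if_neg h2] at hk
        have h4 : j e' = p := ((mem_filter.1 he').2).resolve_left h2
        rw [h3, h4, hk]
  set ek : Fin m → Fin r := fun k => if h : ∃ e, e ∈ E1 ∧ kk e = k then h.choose else e₀ with hek
  have hekk : ∀ e ∈ E1, ek (kk e) = e := by
    intro e he
    have hex : ∃ e', e' ∈ E1 ∧ kk e' = kk e := ⟨e, he, rfl⟩
    have h1 : ek (kk e) = hex.choose := by
      rw [hek]
      simp only
      rw [dif_pos hex]
    rw [h1]
    exact hkinj (mem_coe.2 hex.choose_spec.1) (mem_coe.2 he) hex.choose_spec.2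
  have hLK : Real.log x ^ K ≤ Real.log x ^ (K * (r + 1)) := by
    apply pow_le_pow_right₀ hL
    exact Nat.le_mul_of_pos_right K (Nat.succ_pos r)
  have hkey := hx (E1.image kk) (H p) H (fun k => v (ek k)) (τ e₀) (hS.big p)
    (by
      intro k hk
      obtain ⟨e, he, rfl⟩ := mem_image.1 hk
      refine ⟨hS.big _, ?_⟩
      rw [hekk e he]
      have h1 := (hS.edge e (hne e he)).1
      rw [hkk]
      simp only
      by_cases h2 : i e = p
      · rw [if_pos h2]
        rw [h2] at h1
        exact h1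
      · rw [if_neg h2]
        have h3 : j e = p := ((mem_filter.1 he).2).resolve_left h2
        rw [h3] at h1
        rw [Nat.mul_comm (H p)]
        exact h1)
    hH1 hτinj hmsp (fun k => G (ek k))
    (fun n u => w n * ∏ e ∈ E2, (G e (n + sh i j v τ u e) : ℂ))
    (fun k n hn => (hG _ n hn).trans hLK)
    (by
      intro n hn u hu
      rw [norm_mul, show K * (r + 1) = K + K * r by ring, pow_add]
      refine mul_le_mul (hw n hn) ?_ (norm_nonneg _) (by positivity)
      rw [norm_prod]
      have h1 : ∀ e ∈ E2, ‖(G e (n + sh i j v τ u e) : ℂ)‖ ≤ Real.log x ^ K := by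
        intro e _
        rw [Complex.norm_real, Real.norm_eq_abs]
        apply hG
        have h2 := hS.sh_le u hu e
        rw [mem_Icc] at hn ⊢
        omega
      have h2 : (∏ e ∈ E2, ‖(G e (n + sh i j v τ u e) : ℂ)‖) ≤
          ∏ _e ∈ E2, Real.log x ^ K := prod_le_prod (fun _ _ => norm_nonneg _) h1
      refine h2.trans ?_
      rw [prod_const, ← pow_mul]
      apply pow_le_pow_right₀ hL
      apply Nat.mul_le_mul_left
      exact (card_le_univ E2).trans (by simp))
  rw [sum_comm] at hkey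
  have hterm : ∀ u ∈ P, ∀ s ∈ Icc 1 (H p), f (Function.update u p s) =
      ‖∑ n ∈ Icc 1 x, (ff (zA A x) (n + τ e₀ s) : ℂ) *
        (∏ k ∈ E1.image kk, (G (ek k) (n + (v (ek k) + s * u k)) : ℂ)) *
          (w n * ∏ e ∈ E2, (G e (n + sh i j v τ u e) : ℂ))‖ ^ 2 := by
    intro u hu s hs
    rw [hf]
    simp only
    congr 2
    refine sum_congr rfl fun n _ => ?_
    have hsplit : ∏ e, (G e (n + sh i j v τ (Function.update u p s) e) : ℂ)
        = (ff (zA A x) (n + τ e₀ s) : ℂ) *
          ((∏ k ∈ E1.image kk, (G (ek k) (n + (v (ek k) + s * u k)) : ℂ)) *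
            ∏ e ∈ E2, (G e (n + sh i j v τ u e) : ℂ)) := by
      rw [← mul_prod_erase univ _ (mem_univ e₀), ← prod_filter_mul_prod_filter_not (univ.erase e₀)
        (fun e => i e = p ∨ j e = p)]
      congr 1
      · rw [hG0]
        congr 3
        unfold sh
        rw [if_pos heq, ← hp, Function.update_self]
      · congr 1
        · rw [prod_image hkinj]
          refine prod_congr rfl fun e he => ?_
          rw [hekk e he]
          congr 3
          unfold sh
          rw [if_neg (hne e he), hkk]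
          simp only
          by_cases h2 : i e = p
          · have h3 : j e ≠ p := fun h => hnotp e he ⟨h2, h⟩
            rw [if_pos h2, h2, Function.update_self, Function.update_of_ne h3]
          · have h3 : j e = p := ((mem_filter.1 he).2).resolve_left h2
            rw [if_neg h2, h3, Function.update_self, Function.update_of_ne h2, Nat.mul_comm]
        · refine prod_congr rfl fun e he => ?_
          have he' := (mem_filter.1 he).2
          rw [not_or] at he'
          congr 3
          unfold sh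
          rw [Function.update_of_ne he'.1, Function.update_of_ne he'.2]
    rw [hsplit]
    ring
  have hfin : (H p : ℝ) * ∑ t ∈ P, f t ≤
      (H p : ℝ) * ((∏ k, (H k : ℝ)) * ((x : ℝ) ^ 2 / Real.log x ^ B)) := by
    rw [← hd]
    rw [sum_congr rfl fun u hu => sum_congr rfl fun s hs => hterm u hu s hs]
    refine hkey.trans (le_of_eq ?_)
    ring
  exact le_of_mul_le_mul_left hfin (by positivity)

end Pool.Agent.BLF
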