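import Pool.Agent.Lib.BLF.TermE
import Pool.Agent.Lib.BLF.TermS
import Pool.Agent.Lib.VN.WeightsMs

/-!
# Module GenMs: the mean square property of a system of shifts

PROOF. Adapt the proof of `gen_ms` in `VN/WeightsMs` (with `J = univ`; copy the private lemmas `GJ`, `prod_GJ`, `telescopeJ`; there the shifts are `t i`, here `a e = sh i j v τ t e`): `pl univ a n - pn z univ a n = ∑_{e₀} ∏_e GJ z univ e₀ e (n + a e)`, Cauchy-Schwarz over the
`r` values of `e₀`, and `term_edge` or `term_single` with `K₁ = K + 2`, `B₁ = B + 1` for each `e₀` (take the maxima of the two triples `K', B', C`: `SlotsOK` is monotone: `MSP.mono` and `Real.log x ^ C ≤ Real.log x ^ C'`; prove this first). `P.card = ∏ H k`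
(`Fintype.card_piFinset`, `Nat.card_Icc`). The first part of `HMS` is `SlotsOK.sh_le`.
-/

set_option autoImplicit false

open Finset Filter

namespace Pool.Agent.BLF

open Pool.Agent.HLB Pool.Agent.HL Pool.Agent.HLT Pool.Agent.HLU Pool.Agent.VN

/-- The factors before `j` are `nuz z`, the factor `j` is `ff z` and the others are `lp`. -/
private noncomputable def GJ {m : ℕ} (z : ℕ) (j i : Fin m) : ℕ → ℝ :=
  if i < j then nuz z else if i = j then ff z else lp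

private lemma prod_GJ {m : ℕ} (z : ℕ) (j : Fin m) (a : Fin m → ℕ) :
    ∏ i, GJ z j i (a i) =
      ff z (a j) * (∏ i ∈ univ with i < j, nuz z (a i)) * ∏ i ∈ univ with j < i, lp (a i) := by
  have h : ∀ i ∈ (univ : Finset (Fin m)), GJ z j i (a i) = (if i = j then ff z (a i) else 1) *
      (if i < j then nuz z (a i) else 1) * (if j < i then lp (a i) else 1) := by
    intro i _
    unfold GJ
    rcases lt_trichotomy i j with h | h | h
    · have h1 : ¬ i = j := h.ne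
      have h2 : ¬ j < i := h.asymm
      simp [h, h1, h2]
    · subst h
      simp
    · have h1 : ¬ i = j := h.ne'
      have h2 : ¬ i < j := h.asymm
      simp [h, h1, h2]
  rw [Finset.prod_congr rfl h, Finset.prod_mul_distrib, Finset.prod_mul_distrib,
    Finset.prod_ite_eq' univ j, Finset.prod_filter, Finset.prod_filter]
  simp

private lemma telescopeJ {m : ℕ} (z : ℕ) (t : Fin m → ℕ) (n : ℕ) :
    pl univ t n - pn z univ t n = ∑ j, ∏ i, GJ z j i (n + t i) := by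
  have h := Finset.prod_sub_ordered (univ : Finset (Fin m)) (fun i => lp (n + t i)) (fun i => ff z (n + t i))
  have h1 : ∀ i : Fin m, lp (n + t i) - ff z (n + t i) = nuz z (n + t i) := by
    intro i
    unfold ff
    ring
  simp only [h1] at h
  unfold pl pn
  rw [Finset.sum_congr rfl (fun j _ => prod_GJ z j (fun i => n + t i)), h]
  ring

private lemma slots_mono {A K K' B B' C C' x : ℕ} {m r : ℕ} {i j : Fin r → Fin m} {H : Fin m → ℕ}
    {v : Fin r → ℕ} {τ : Fin r → ℕ → ℕ} (h : SlotsOK A K' B' C' x i j H v τ) (hK : K ≤ K') (hB : B ≤ B')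
    (hC : C ≤ C') (hL : 1 ≤ Real.log x) : SlotsOK A K B C x i j H v τ where
  ord := h.ord
  inj := h.inj
  big := fun k => (pow_le_pow_right₀ hL hC).trans (h.big k)
  edge := fun e he => ⟨(h.edge e he).1, (h.edge e he).2.mono hK hB hL⟩
  single := fun e he => ⟨(h.single e he).1, (h.single e he).2.mono hK hB hL⟩

theorem hms_of_slots (m r K B : ℕ) : ∃ K' B' C : ℕ, ∀ A : ℕ, ∀ᶠ x : ℕ in atTop, ∀ (i j : Fin r → Fin m)
    (H : Fin m → ℕ) (v : Fin r → ℕ) (τ : Fin r → ℕ → ℕ), SlotsOK A K' B' C x i j H v τ →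
    HMS A K B x (Fintype.piFinset (fun k => Icc 1 (H k))) (fun t => sh i j v τ t) := by
  obtain ⟨K₁, B₁, C₁, h₁⟩ := term_edge m r (K + 2) (B + 1)
  obtain ⟨K₂, B₂, C₂, h₂⟩ := term_single m r (K + 2) (B + 1)
  refine ⟨max K₁ K₂, max B₁ B₂, max C₁ C₂, fun A => ?_⟩
  filter_upwards [h₁ A, h₂ A, DZ_inv_le A, ev_log ((r:ℝ) ^ 2 + 2), eventually_ge_atTop 1] with
    x hE hS h4 h5 hx1 i j H v τ hOK
  refine ⟨fun t ht e => hOK.sh_le t ht e, fun w hw => ?_⟩
  set L : ℝ := Real.log x with hL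
  set z : ℕ := zA A x with hz
  have hx0 : (0:ℝ) < x := by exact_mod_cast hx1
  have hL2 : (2:ℝ) ≤ L := by
    have : (0:ℝ) ≤ (r:ℝ) ^ 2 := by positivity
    linarith
  have hL0 : (0:ℝ) < L := by linarith
  have hL1 : (1:ℝ) ≤ L := by linarith
  have hLL : L ≤ L ^ 2 := by nlinarith
  have hK2 : L ^ 2 ≤ L ^ (K + 2) := pow_le_pow_right₀ hL1 (by omega)
  -- pointwise bounds
  have hlp : ∀ n : ℕ, n ≤ 2 * x → |lp n| ≤ L ^ 2 := by
    intro n hn
    rw [abs_of_nonneg (lp_nonneg n)]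
    exact lp_le_sq hL2 hn
  have hnu : ∀ n : ℕ, |nuz z n| ≤ L ^ 2 := by
    intro n
    rw [abs_of_nonneg (nuz_nonneg z n)]
    exact (nuz_le z n).trans (h4.trans hLL)
  have hff : ∀ n : ℕ, n ≤ 2 * x → |ff z n| ≤ L ^ 2 := by
    intro n hn
    unfold ff
    have e1 := hlp n hn
    have e2 := hnu n
    rw [abs_of_nonneg (lp_nonneg n)] at e1
    rw [abs_of_nonneg (nuz_nonneg z n)] at e2
    have e3 := lp_nonneg n
    have e4 := nuz_nonneg z n
    rw [abs_le]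
    constructor <;> linarith
  have hGJ : ∀ j i : Fin r, ∀ n : ℕ, n ≤ 2 * x → |GJ z j i n| ≤ L ^ (K + 2) := by
    intro j i n hn
    unfold GJ
    split_ifs
    · exact (hnu n).trans hK2
    · exact (hff n hn).trans hK2
    · exact (hlp n hn).trans hK2
  have hP0 : 0 ≤ ∏ k, (H k : ℝ) := Finset.prod_nonneg fun i _ => Nat.cast_nonneg _
  set P : Finset (Fin m → ℕ) := Fintype.piFinset (fun k => Icc 1 (H k)) with hP
  have hPc : (P.card : ℝ) = ∏ k, (H k : ℝ) := by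
    rw [hP, Fintype.card_piFinset]
    push_cast
    refine Finset.prod_congr rfl fun k _ => ?_
    rw [Nat.card_Icc, Nat.add_sub_cancel]
  have hOK₁ : SlotsOK A K₁ B₁ C₁ x i j H v τ :=
    slots_mono hOK (le_max_left _ _) (le_max_left _ _) (le_max_left _ _) hL1
  have hOK₂ : SlotsOK A K₂ B₂ C₂ x i j H v τ :=
    slots_mono hOK (le_max_right _ _) (le_max_right _ _) (le_max_right _ _) hL1
  have hw' : ∀ n ∈ Icc 1 x, ‖w n‖ ≤ L ^ (K + 2) := fun n hn =>
    (hw n hn).trans (pow_le_pow_right₀ hL1 (by omega))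
  have keyj : ∀ e₀ : Fin r, ∑ t ∈ P,
      ‖∑ n ∈ Icc 1 x, w n * ∏ e, (GJ z e₀ e (n + sh i j v τ t e) : ℂ)‖ ^ 2 ≤
      (∏ k, (H k : ℝ)) * (x ^ 2 / L ^ (B + 1)) := by
    intro e₀
    have hG : ∀ e, ∀ n ∈ Icc 1 (2 * x), |GJ z e₀ e n| ≤ L ^ (K + 2) := fun e n hn =>
      hGJ e₀ e n (mem_Icc.mp hn).2
    have hG0 : GJ z e₀ e₀ = ff (zA A x) := by
      unfold GJ
      simp [hz]
    by_cases he : i e₀ = j e₀
    · exact hS i j H v τ hOK₂ e₀ he w (GJ z e₀) hw' hG hG0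
    · exact hE i j H v τ hOK₁ e₀ he w (GJ z e₀) hw' hG hG0
  have hpt : ∀ t : Fin m → ℕ,
      ‖∑ n ∈ Icc 1 x, w n * ((pl univ (sh i j v τ t) n - pn z univ (sh i j v τ t) n : ℝ) : ℂ)‖ ^ 2 ≤
      r * ∑ e₀, ‖∑ n ∈ Icc 1 x, w n * ∏ e, (GJ z e₀ e (n + sh i j v τ t e) : ℂ)‖ ^ 2 := by
    intro t
    have e1 : ∑ n ∈ Icc 1 x, w n * ((pl univ (sh i j v τ t) n - pn z univ (sh i j v τ t) n : ℝ) : ℂ) =
        ∑ e₀, ∑ n ∈ Icc 1 x, w n * ∏ e, (GJ z e₀ e (n + sh i j v τ t e) : ℂ) := by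
      rw [Finset.sum_comm]
      refine Finset.sum_congr rfl fun n _ => ?_
      rw [telescopeJ]
      push_cast
      rw [Finset.mul_sum]
    rw [e1]
    have e2 : ‖∑ e₀, ∑ n ∈ Icc 1 x, w n * ∏ e, (GJ z e₀ e (n + sh i j v τ t e) : ℂ)‖ ^ 2 ≤
        (∑ e₀, ‖∑ n ∈ Icc 1 x, w n * ∏ e, (GJ z e₀ e (n + sh i j v τ t e) : ℂ)‖) ^ 2 :=
      pow_le_pow_left₀ (norm_nonneg _) (norm_sum_le _ _) 2
    refine e2.trans ?_
    have e3 := sq_sum_le_card_mul_sum_sq (s := (univ : Finset (Fin r)))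
      (f := fun e₀ => ‖∑ n ∈ Icc 1 x, w n * ∏ e, (GJ z e₀ e (n + sh i j v τ t e) : ℂ)‖)
    rw [Finset.card_univ, Fintype.card_fin] at e3
    exact e3
  have hmJ : (r:ℝ) * r ≤ L := by nlinarith
  have hX0 : 0 ≤ (x:ℝ) ^ 2 / L ^ (B + 1) := by positivity
  have hLX : L * ((x:ℝ) ^ 2 / L ^ (B + 1)) = x ^ 2 / L ^ B := by
    rw [← mul_div_assoc, div_eq_div_iff (by positivity) (by positivity), pow_succ]
    ring
  rw [hPc]
  calc ∑ t ∈ P, ‖∑ n ∈ Icc 1 x, w n * ((pl univ (sh i j v τ t) n - pn z univ (sh i j v τ t) n : ℝ) : ℂ)‖ ^ 2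
      ≤ ∑ t ∈ P,
          r * ∑ e₀, ‖∑ n ∈ Icc 1 x, w n * ∏ e, (GJ z e₀ e (n + sh i j v τ t e) : ℂ)‖ ^ 2 :=
        Finset.sum_le_sum fun t _ => hpt t
    _ = r * ∑ e₀, ∑ t ∈ P,
          ‖∑ n ∈ Icc 1 x, w n * ∏ e, (GJ z e₀ e (n + sh i j v τ t e) : ℂ)‖ ^ 2 := by
        rw [← Finset.mul_sum, Finset.sum_comm]
    _ ≤ r * ∑ _e₀ : Fin r, ((∏ k, (H k : ℝ)) * (x ^ 2 / L ^ (B + 1))) :=
        mul_le_mul_of_nonneg_left (Finset.sum_le_sum fun e₀ _ => keyj e₀) (Nat.cast_nonneg _)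
    _ = (r * r) * ((∏ k, (H k : ℝ)) * (x ^ 2 / L ^ (B + 1))) := by
        rw [Finset.sum_const, nsmul_eq_mul, mul_assoc, Finset.card_univ, Fintype.card_fin]
    _ ≤ L * ((∏ k, (H k : ℝ)) * (x ^ 2 / L ^ (B + 1))) :=
        mul_le_mul_of_nonneg_right hmJ (mul_nonneg hP0 hX0)
    _ = (∏ k, (H k : ℝ)) * (x ^ 2 / L ^ B) := by
        rw [← hLX]
        ring

end Pool.Agent.BLF
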