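import Pool.Agent.Lib.BLF.Defs

/-!
# Module Inter: the interchange of the differenced variable and the dual functions

PROOF. Let `n = |S'| ≥ 1` and let `L` be the sum on the left (inside the square). Expanding the squares,
`L = ∑_h ∑_{k,k' < W} D (k+h) conj (D k) conj (D (k'+h)) D k' ex ((k - k') ξ_h)`; insert `D (k + h) = (1/n) ∑_ω G ω (k + h)`:
`L = (1/n) ∑_{k,k',ω} c_{k,k'} Z_{k,k',ω}`, `c = conj (D k) D k'`, `‖c‖ ≤ 1` (`‖D‖ ≤ 1` follows from `hD`, `hG`), `Z_{k,k',ω} = ∑_h G ω (k+h) conj (D (k'+h)) ex ((k - k') ξ_h)`.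
Cauchy-Schwarz: `L² ≤ (W²/n) ∑_{k,k',ω} ‖Z_{k,k',ω}‖²`. Expanding again and summing over `k, ω` first,
`∑_{k,k',ω} ‖Z‖² = ∑_{h,h'} ∑_{k'} conj (D (k'+h)) D (k'+h') ex (- k' (ξ_h - ξ_h')) * ∑_{k,ω} G ω (k+h) conj (G ω (k+h')) ex (k (ξ_h - ξ_h'))`, and the sum over `k'` of the first factor
is at most `W` in norm. (`L` is a nonnegative real number; work with `(L : ℂ)`, `Complex.mul_conj`, `RCLike.mul_conj`, or with `‖z‖² = re (z conj z)`.)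
-/

set_option autoImplicit false

open Finset

namespace Pool.Agent.BLF

open Pool.Agent.HLT

namespace InterAux

lemma conj_ex (a : ℝ) : (starRingEnd ℂ) (ex a) = ex (-a) := (ex_neg a).symm

lemma norm_sq_cast (z : ℂ) : ((‖z‖ ^ 2 : ℝ) : ℂ) = z * (starRingEnd ℂ) z := by
  rw [Complex.mul_conj, Complex.normSq_eq_norm_sq]

/-- the term of the first expansion -/
noncomputable def tz {Ω' : Type} (G : Ω' → ℤ → ℂ) (D : ℤ → ℂ) (ξ : ℤ → ℝ) (p : (ℕ × ℕ) × Ω')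
    (h : ℤ) : ℂ :=
  G p.2 ((p.1.1 : ℤ) + h) * (starRingEnd ℂ) (D ((p.1.2 : ℤ) + h)) *
    ex (((p.1.1 : ℝ) - (p.1.2 : ℝ)) * ξ h)

lemma key1 {Ω' : Type} (S' : Finset Ω') (G : Ω' → ℤ → ℂ) (D : ℤ → ℂ)
    (hD : ∀ k, D k = (∑ ω ∈ S', G ω k) / (S'.card : ℂ)) (W : ℕ) (A : Finset ℤ) (ξ : ℤ → ℝ) :
    ((∑ h ∈ A, ‖∑ k ∈ range W, D ((k : ℤ) + h) * (starRingEnd ℂ) (D k) * ex (k * ξ h)‖ ^ 2 : ℝ) : ℂ)
      = (∑ p ∈ (range W ×ˢ range W) ×ˢ S', (starRingEnd ℂ) (D (p.1.1 : ℤ)) * D (p.1.2 : ℤ) *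
        ∑ h ∈ A, tz G D ξ p h) / (S'.card : ℂ) := by
  have e1 : (∑ p ∈ (range W ×ˢ range W) ×ˢ S', (starRingEnd ℂ) (D (p.1.1 : ℤ)) * D (p.1.2 : ℤ) *
        ∑ h ∈ A, tz G D ξ p h) / (S'.card : ℂ) =
      ∑ h ∈ A, (∑ p ∈ (range W ×ˢ range W) ×ˢ S',
        (starRingEnd ℂ) (D (p.1.1 : ℤ)) * D (p.1.2 : ℤ) * tz G D ξ p h) / (S'.card : ℂ) := by
    rw [← Finset.sum_div]
    congr 1
    simp_rw [Finset.mul_sum]
    rw [Finset.sum_comm]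
  rw [e1, Complex.ofReal_sum]
  refine Finset.sum_congr rfl fun h _ => ?_
  rw [norm_sq_cast, map_sum, Finset.sum_mul_sum, Finset.sum_product, Finset.sum_product,
    Finset.sum_div]
  refine Finset.sum_congr rfl fun k _ => ?_
  rw [Finset.sum_div]
  refine Finset.sum_congr rfl fun k' _ => ?_
  have e2 : ex (((k : ℝ) - (k' : ℝ)) * ξ h) = ex (k * ξ h) * ex (-(k' * ξ h)) := by
    rw [← ex_add]
    congr 1
    ring
  have e3 : ∑ ω ∈ S', (starRingEnd ℂ) (D (k : ℤ)) * D (k' : ℤ) * tz G D ξ ((k, k'), ω) h =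
      (starRingEnd ℂ) (D (k : ℤ)) * D (k' : ℤ) * ((∑ ω ∈ S', G ω ((k : ℤ) + h)) *
        (starRingEnd ℂ) (D ((k' : ℤ) + h)) * (ex (k * ξ h) * ex (-(k' * ξ h)))) := by
    rw [← Finset.mul_sum]
    congr 1
    unfold tz
    simp only
    rw [e2, Finset.sum_mul, Finset.sum_mul]
  change _ = (∑ ω ∈ S', (starRingEnd ℂ) (D (k : ℤ)) * D (k' : ℤ) * tz G D ξ ((k, k'), ω) h) / _
  rw [e3, hD ((k : ℤ) + h)]
  simp only [map_mul, Complex.conj_conj, conj_ex]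
  ring

lemma key2 {Ω' : Type} (S' : Finset Ω') (G : Ω' → ℤ → ℂ) (D : ℤ → ℂ) (W : ℕ) (A : Finset ℤ)
    (ξ : ℤ → ℝ) :
    ((∑ p ∈ (range W ×ˢ range W) ×ˢ S', ‖∑ h ∈ A, tz G D ξ p h‖ ^ 2 : ℝ) : ℂ)
      = ∑ h ∈ A, ∑ h' ∈ A, (∑ k' ∈ range W, (starRingEnd ℂ) (D ((k' : ℤ) + h)) *
          D ((k' : ℤ) + h') * ex (-(k' * (ξ h - ξ h')))) *
        ∑ k ∈ range W, ∑ ω ∈ S', G ω ((k : ℤ) + h) * (starRingEnd ℂ) (G ω ((k : ℤ) + h')) *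
          ex (k * (ξ h - ξ h')) := by
  have e1 : ((∑ p ∈ (range W ×ˢ range W) ×ˢ S', ‖∑ h ∈ A, tz G D ξ p h‖ ^ 2 : ℝ) : ℂ) =
      ∑ h ∈ A, ∑ h' ∈ A, ∑ p ∈ (range W ×ˢ range W) ×ˢ S',
        tz G D ξ p h * (starRingEnd ℂ) (tz G D ξ p h') := by
    rw [Complex.ofReal_sum]
    have e2 : ∀ p ∈ (range W ×ˢ range W) ×ˢ S', ((‖∑ h ∈ A, tz G D ξ p h‖ ^ 2 : ℝ) : ℂ) =
        ∑ h ∈ A, ∑ h' ∈ A, tz G D ξ p h * (starRingEnd ℂ) (tz G D ξ p h') := by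
      intro p _
      rw [norm_sq_cast, map_sum, Finset.sum_mul_sum]
    rw [Finset.sum_congr rfl e2, Finset.sum_comm]
    refine Finset.sum_congr rfl fun h _ => ?_
    rw [Finset.sum_comm]
  rw [e1]
  refine Finset.sum_congr rfl fun h _ => Finset.sum_congr rfl fun h' _ => ?_
  rw [Finset.sum_product, Finset.sum_product, Finset.mul_sum]
  refine Finset.sum_congr rfl fun k _ => ?_
  rw [Finset.sum_mul]
  refine Finset.sum_congr rfl fun k' _ => ?_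
  rw [Finset.mul_sum]
  refine Finset.sum_congr rfl fun ω _ => ?_
  unfold tz
  simp only [map_mul, Complex.conj_conj, conj_ex]
  have e3 : ex (((k : ℝ) - (k' : ℝ)) * ξ h) * ex (-(((k : ℝ) - (k' : ℝ)) * ξ h')) =
      ex (-(k' * (ξ h - ξ h'))) * ex (k * (ξ h - ξ h')) := by
    rw [← ex_add, ← ex_add]
    congr 1
    ring
  linear_combination (G ω ((k : ℤ) + h) * (starRingEnd ℂ) (D ((k' : ℤ) + h)) *
    (starRingEnd ℂ) (G ω ((k : ℤ) + h')) * D ((k' : ℤ) + h')) * e3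

end InterAux

open InterAux in
theorem inter {Ω' : Type} (S' : Finset Ω') (hS' : S'.Nonempty) (G : Ω' → ℤ → ℂ) (hG : ∀ ω k, ‖G ω k‖ ≤ 1)
    (D : ℤ → ℂ) (hD : ∀ k, D k = (∑ ω ∈ S', G ω k) / (S'.card : ℂ)) (W : ℕ) (A : Finset ℤ) (ξ : ℤ → ℝ) :
    (∑ h ∈ A, ‖∑ k ∈ range W, D ((k : ℤ) + h) * (starRingEnd ℂ) (D k) * ex (k * ξ h)‖ ^ 2) ^ 2 ≤
      (W : ℝ) ^ 3 / S'.card * ∑ h ∈ A, ∑ h' ∈ A,
        ‖∑ k ∈ range W, ∑ ω ∈ S', G ω ((k : ℤ) + h) * (starRingEnd ℂ) (G ω ((k : ℤ) + h')) *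
          ex (k * (ξ h - ξ h'))‖ := by
  have hn : (0 : ℝ) < S'.card := by exact_mod_cast hS'.card_pos
  have hD1 : ∀ k, ‖D k‖ ≤ 1 := by
    intro k
    rw [hD, norm_div, Complex.norm_natCast, div_le_one hn]
    refine (norm_sum_le _ _).trans ?_
    calc ∑ ω ∈ S', ‖G ω k‖ ≤ ∑ _ω ∈ S', (1 : ℝ) := Finset.sum_le_sum fun ω _ => hG ω k
      _ = S'.card := by simp
  set L : ℝ := ∑ h ∈ A, ‖∑ k ∈ range W, D ((k : ℤ) + h) * (starRingEnd ℂ) (D k) * ex (k * ξ h)‖ ^ 2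
    with hL
  have hL0 : 0 ≤ L := Finset.sum_nonneg fun _ _ => by positivity
  have h1 := key1 S' G D hD W A ξ
  rw [← hL] at h1
  set P := (range W ×ˢ range W) ×ˢ S' with hP
  have h2 : L ≤ (∑ p ∈ P, ‖∑ h ∈ A, tz G D ξ p h‖) / S'.card := by
    have h3 : L = ‖(L : ℂ)‖ := by
      rw [Complex.norm_real, Real.norm_of_nonneg hL0]
    rw [h3, h1, norm_div, Complex.norm_natCast]
    apply div_le_div_of_nonneg_right _ hn.le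
    refine (norm_sum_le _ _).trans (Finset.sum_le_sum fun p _ => ?_)
    rw [norm_mul, norm_mul, Complex.norm_conj]
    have h4 : ‖D (p.1.1 : ℤ)‖ * ‖D (p.1.2 : ℤ)‖ ≤ 1 :=
      mul_le_one₀ (hD1 _) (norm_nonneg _) (hD1 _)
    calc ‖D (p.1.1 : ℤ)‖ * ‖D (p.1.2 : ℤ)‖ * ‖∑ h ∈ A, tz G D ξ p h‖
        ≤ 1 * ‖∑ h ∈ A, tz G D ξ p h‖ := mul_le_mul_of_nonneg_right h4 (norm_nonneg _)
      _ = _ := one_mul _
  have h5 : (∑ p ∈ P, ‖∑ h ∈ A, tz G D ξ p h‖) ^ 2 ≤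
      (W : ℝ) ^ 2 * S'.card * ∑ p ∈ P, ‖∑ h ∈ A, tz G D ξ p h‖ ^ 2 := by
    have h6 := sq_sum_le_card_mul_sum_sq (s := P) (f := fun p => ‖∑ h ∈ A, tz G D ξ p h‖)
    have h7 : (P.card : ℝ) = (W : ℝ) ^ 2 * S'.card := by
      rw [hP, Finset.card_product, Finset.card_product, Finset.card_range]
      push_cast
      ring
    rw [← h7]
    exact h6
  have h8 : ∑ p ∈ P, ‖∑ h ∈ A, tz G D ξ p h‖ ^ 2 ≤ (W : ℝ) * ∑ h ∈ A, ∑ h' ∈ A,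
        ‖∑ k ∈ range W, ∑ ω ∈ S', G ω ((k : ℤ) + h) * (starRingEnd ℂ) (G ω ((k : ℤ) + h')) *
          ex (k * (ξ h - ξ h'))‖ := by
    have h9 : ∑ p ∈ P, ‖∑ h ∈ A, tz G D ξ p h‖ ^ 2 =
        ‖((∑ p ∈ P, ‖∑ h ∈ A, tz G D ξ p h‖ ^ 2 : ℝ) : ℂ)‖ := by
      rw [Complex.norm_real, Real.norm_of_nonneg (Finset.sum_nonneg fun _ _ => by positivity)]
    rw [h9, hP, key2, Finset.mul_sum]
    refine (norm_sum_le _ _).trans (Finset.sum_le_sum fun h _ => ?_)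
    rw [Finset.mul_sum]
    refine (norm_sum_le _ _).trans (Finset.sum_le_sum fun h' _ => ?_)
    rw [norm_mul]
    apply mul_le_mul_of_nonneg_right _ (norm_nonneg _)
    refine (norm_sum_le _ _).trans ?_
    calc ∑ k' ∈ range W, ‖(starRingEnd ℂ) (D ((k' : ℤ) + h)) *
          D ((k' : ℤ) + h') * ex (-(k' * (ξ h - ξ h')))‖ ≤ ∑ _k' ∈ range W, (1 : ℝ) := by
          refine Finset.sum_le_sum fun k' _ => ?_
          rw [norm_mul, norm_mul, norm_ex, mul_one, Complex.norm_conj]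
          exact mul_le_one₀ (hD1 _) (norm_nonneg _) (hD1 _)
      _ = W := by simp
  have hX0 : 0 ≤ ∑ p ∈ P, ‖∑ h ∈ A, tz G D ξ p h‖ := Finset.sum_nonneg fun _ _ => norm_nonneg _
  calc L ^ 2 ≤ ((∑ p ∈ P, ‖∑ h ∈ A, tz G D ξ p h‖) / S'.card) ^ 2 := pow_le_pow_left₀ hL0 h2 2
    _ = (∑ p ∈ P, ‖∑ h ∈ A, tz G D ξ p h‖) ^ 2 / (S'.card : ℝ) ^ 2 := by rw [div_pow]
    _ ≤ ((W : ℝ) ^ 2 * S'.card * ∑ p ∈ P, ‖∑ h ∈ A, tz G D ξ p h‖ ^ 2) / (S'.card : ℝ) ^ 2 :=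
        div_le_div_of_nonneg_right h5 (by positivity)
    _ ≤ ((W : ℝ) ^ 2 * S'.card * ((W : ℝ) * ∑ h ∈ A, ∑ h' ∈ A,
        ‖∑ k ∈ range W, ∑ ω ∈ S', G ω ((k : ℤ) + h) * (starRingEnd ℂ) (G ω ((k : ℤ) + h')) *
          ex (k * (ξ h - ξ h'))‖)) / (S'.card : ℝ) ^ 2 := by
        apply div_le_div_of_nonneg_right _ (by positivity)
        exact mul_le_mul_of_nonneg_left h8 (by positivity)
    _ = _ := by
        field_simp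

end Pool.Agent.BLF
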