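import Pool.Agent.Lib.BLF.Defs
import Pool.Agent.Lib.HLT.Geom

/-!
# Module Kap: exponential sums against dual functions

PROOF. Group the terms by `z = k - s t ∈ [-H₁ H₂, W)`: the sum is `∑_z ex (z ψ) ∑_{s,t : 0 ≤ z + s t < W} a z s * b z t * ex (s t ψ)`; there are at most `W + H₁ H₂ ≤ 2 W` values of `z`.
For fixed `z`, Cauchy-Schwarz in `s`: `‖∑_{s,t}‖² ≤ H₁ ∑_s ‖∑_{t : 0 ≤ z + s t < W} b z t ex (s t ψ)‖² ≤ H₁ ∑_{t,t'} ‖∑_{s} ex (s ψ (t - t'))‖`, where `s` runs over the `s ∈ Icc 1 H₁` with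
`0 ≤ z + s t < W` and `0 ≤ z + s t' < W`; these `s` form an interval (`t, t' ≥ 1`: the conditions are `s ≥ ...`, `s ≤ ...`). The inner sum is at most `H₁`, and if
`‖ψ (t - t')‖ ≥ 1 / (lam H₁)` it is at most `1 / (2 ‖ψ (t - t')‖) ≤ lam H₁` (`geom` of `HLT/Geom` after a shift of the interval; `mn X α` is at most `1 / (2 nrm α)` if `nrm α > 0`).
So `‖∑_{s,t}‖² ≤ H₁ (H₁ BadN + lam H₁ H₂²)`, and the whole sum is at most `2 W` times the maximum over `z`.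
(To show that a finite set of naturals closed under betweenness is an interval: it is empty or `Icc m M` with its min and max; or write the conditions directly as
`s ∈ Icc lo hi` for suitable `lo`, `hi` with integer division.)
-/

set_option autoImplicit false

open Finset

namespace Pool.Agent.BLF

open Pool.Agent.HLT

/-- A finite set of naturals closed under betweenness is an interval. -/
lemma exists_Ioc_of_between (H : ℕ) (F : Finset ℕ) (hF : F ⊆ Icc 1 H)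
    (hb : ∀ x ∈ F, ∀ y ∈ F, ∀ w, x ≤ w → w ≤ y → w ∈ F) :
    ∃ M N : ℕ, M ≤ N ∧ N ≤ H ∧ F = Ioc M N := by
  rcases F.eq_empty_or_nonempty with h | h
  · exact ⟨0, 0, le_rfl, Nat.zero_le _, by rw [h]; simp⟩
  · have h1 := F.min'_mem h
    have h2 := F.max'_mem h
    have h3 := mem_Icc.1 (hF h1)
    have h4 := mem_Icc.1 (hF h2)
    have h5 : F.min' h ≤ F.max' h := F.min'_le _ h2
    refine ⟨F.min' h - 1, F.max' h, by omega, h4.2, ?_⟩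
    ext x
    rw [mem_Ioc]
    constructor
    · intro hx
      have h6 := F.min'_le x hx
      have h7 := F.le_max' x hx
      omega
    · rintro ⟨h6, h7⟩
      exact hb _ h1 _ h2 x (by omega) h7

/-- The geometric sum over a subset closed under betweenness. -/
lemma norm_sum_ex_between (H : ℕ) (F : Finset ℕ) (hF : F ⊆ Icc 1 H)
    (hb : ∀ x ∈ F, ∀ y ∈ F, ∀ w, x ≤ w → w ≤ y → w ∈ F) (α : ℝ) :
    ‖∑ s ∈ F, ex (s * α)‖ ≤ mn H α := by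
  obtain ⟨M, N, h1, h2, h3⟩ := exists_Ioc_of_between H F hF hb
  rw [h3]
  refine (geom_Ioc M N h1 α).trans (mn_mono ?_ ?_ α)
  · rw [sub_nonneg]
    exact_mod_cast h1
  · have : (N : ℝ) ≤ H := by exact_mod_cast h2
    have h4 : (0 : ℝ) ≤ M := Nat.cast_nonneg M
    linarith

/-- The condition of the inner sum. -/
def inW (W : ℕ) (z : ℤ) (s t : ℕ) : Prop := 0 ≤ z + ((s * t : ℕ) : ℤ) ∧ z + ((s * t : ℕ) : ℤ) < W

instance (W : ℕ) (z : ℤ) (s t : ℕ) : Decidable (inW W z s t) := by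
  unfold inW
  infer_instance

lemma inW_between (W : ℕ) (z : ℤ) (t x y w : ℕ) (hx : inW W z x t) (hy : inW W z y t) (h1 : x ≤ w) (h2 : w ≤ y) :
    inW W z w t := by
  unfold inW at *
  have h3 : x * t ≤ w * t := Nat.mul_le_mul_right t h1
  have h4 : w * t ≤ y * t := Nat.mul_le_mul_right t h2
  have h5 : ((x * t : ℕ) : ℤ) ≤ ((w * t : ℕ) : ℤ) := by exact_mod_cast h3
  have h6 : ((w * t : ℕ) : ℤ) ≤ ((y * t : ℕ) : ℤ) := by exact_mod_cast h4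
  constructor
  · linarith [hx.1]
  · linarith [hy.2]

/-- Regrouping. -/
lemma regroup (W A : ℕ) (m : ℕ) (hm : m ≤ A) (G : ℤ → ℤ → ℂ) :
    ∑ k ∈ range W, G ((k : ℤ) - (m : ℤ)) (k : ℤ) =
      ∑ z ∈ Ico (-(A : ℤ)) W, if 0 ≤ z + (m : ℤ) ∧ z + (m : ℤ) < W then G z (z + m) else 0 := by
  rw [← sum_filter]
  refine Finset.sum_nbij' (fun k : ℕ => (k : ℤ) - (m : ℤ)) (fun z : ℤ => (z + (m : ℤ)).toNat) ?_ ?_ ?_ ?_ ?_
  · intro k hk
    rw [mem_range] at hk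
    rw [mem_filter, mem_Ico]
    omega
  · intro z hz
    rw [mem_filter, mem_Ico] at hz
    rw [mem_range]
    omega
  · intro k hk
    omega
  · intro z hz
    rw [mem_filter, mem_Ico] at hz
    omega
  · intro k hk
    rw [sub_add_cancel]

/-- The bound for one `z`. -/
lemma one_z (H₁ H₂ W : ℕ) (z : ℤ) (a b : ℕ → ℂ) (ha : ∀ s, ‖a s‖ ≤ 1) (hb : ∀ t, ‖b t‖ ≤ 1)
    (ψ lam : ℝ) (hlam : 0 < lam) :
    ‖∑ s ∈ Icc 1 H₁, ∑ t ∈ Icc 1 H₂, (if inW W z s t then a s * b t * ex ((z + ((s * t : ℕ) : ℤ) : ℤ) * ψ) else 0)‖ ^ 2 ≤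
      (H₁ : ℝ) ^ 2 * (BadN H₂ ψ (1 / (lam * H₁)) + lam * (H₂ : ℝ) ^ 2) := by
  classical
  set J : ℕ → ℂ := fun s => ∑ t ∈ Icc 1 H₂, (if inW W z s t then b t * ex ((s * (t * ψ) : ℝ)) else 0) with hJ
  have e1 : ∀ s ∈ Icc 1 H₁, ∑ t ∈ Icc 1 H₂, (if inW W z s t then a s * b t * ex ((z + ((s * t : ℕ) : ℤ) : ℤ) * ψ) else 0) =
      a s * ex (z * ψ) * J s := by
    intro s _
    rw [hJ]
    dsimp only
    rw [mul_sum]
    refine sum_congr rfl fun t _ => ?_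
    split_ifs with h
    · have h1 : (((z + ((s * t : ℕ) : ℤ) : ℤ) : ℝ) * ψ) = z * ψ + s * (t * ψ) := by
        push_cast
        ring
      rw [h1, ex_add]
      ring
    · rw [mul_zero]
  rw [sum_congr rfl e1]
  have e2 : ‖∑ s ∈ Icc 1 H₁, a s * ex (z * ψ) * J s‖ ≤ ∑ s ∈ Icc 1 H₁, ‖J s‖ := by
    refine norm_sum_le_of_le _ fun s _ => ?_
    rw [norm_mul, norm_mul, norm_ex, mul_one]
    exact mul_le_of_le_one_left (norm_nonneg _) (ha s)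
  have e3 : (∑ s ∈ Icc 1 H₁, ‖J s‖) ^ 2 ≤ H₁ * ∑ s ∈ Icc 1 H₁, ‖J s‖ ^ 2 := by
    have := sq_sum_le_card_mul_sum_sq (s := Icc 1 H₁) (f := fun s => ‖J s‖)
    rwa [Nat.card_Icc, Nat.add_sub_cancel] at this
  -- the sum of squares
  have e4 : (((∑ s ∈ Icc 1 H₁, ‖J s‖ ^ 2 : ℝ)) : ℂ) = ∑ t ∈ Icc 1 H₂, ∑ t' ∈ Icc 1 H₂,
      b t * (starRingEnd ℂ) (b t') *
        ∑ s ∈ (Icc 1 H₁).filter (fun s => inW W z s t ∧ inW W z s t'), ex (s * (ψ * ((t : ℝ) - t'))) := by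
    have h1 : ∀ s ∈ Icc 1 H₁, ((‖J s‖ ^ 2 : ℝ) : ℂ) = ∑ t ∈ Icc 1 H₂, ∑ t' ∈ Icc 1 H₂,
        (if inW W z s t ∧ inW W z s t' then b t * (starRingEnd ℂ) (b t') * ex (s * (ψ * ((t : ℝ) - t'))) else 0) := by
      intro s _
      rw [Complex.ofReal_pow, ← Complex.mul_conj', hJ]
      dsimp only
      rw [map_sum, sum_mul_sum]
      refine sum_congr rfl fun t _ => sum_congr rfl fun t' _ => ?_
      by_cases h2 : inW W z s t
      · by_cases h3 : inW W z s t'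
        · rw [if_pos h2, if_pos h3, if_pos ⟨h2, h3⟩, map_mul, ← ex_neg]
          have h4 : (s : ℝ) * (ψ * ((t : ℝ) - t')) = s * (t * ψ) + -(s * (t' * ψ)) := by ring
          rw [h4, ex_add]
          ring
        · rw [if_neg h3, map_zero, mul_zero, if_neg (fun h => h3 h.2)]
      · rw [if_neg h2, zero_mul, if_neg (fun h => h2 h.1)]
    rw [Complex.ofReal_sum, sum_congr rfl h1, sum_comm]
    refine sum_congr rfl fun t _ => ?_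
    rw [sum_comm]
    refine sum_congr rfl fun t' _ => ?_
    rw [mul_sum, sum_filter]
  have hgood : ∀ t ∈ Icc 1 H₂, ∀ t' ∈ Icc 1 H₂,
      ‖b t * (starRingEnd ℂ) (b t') *
        ∑ s ∈ (Icc 1 H₁).filter (fun s => inW W z s t ∧ inW W z s t'), ex (s * (ψ * ((t : ℝ) - t')))‖ ≤
      (if nrm (ψ * ((t : ℝ) - t')) < 1 / (lam * H₁) then (H₁ : ℝ) else 0) + lam * H₁ := by
    intro t _ t' _
    have h1 : ‖∑ s ∈ (Icc 1 H₁).filter (fun s => inW W z s t ∧ inW W z s t'), ex (s * (ψ * ((t : ℝ) - t')))‖ ≤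
        mn H₁ (ψ * ((t : ℝ) - t')) := by
      refine norm_sum_ex_between H₁ _ (filter_subset _ _) ?_ _
      intro x hx y hy w hxw hwy
      rw [mem_filter, mem_Icc] at hx hy ⊢
      exact ⟨⟨by omega, by omega⟩, inW_between W z t x y w hx.2.1 hy.2.1 hxw hwy,
        inW_between W z t' x y w hx.2.2 hy.2.2 hxw hwy⟩
    have h2 : ‖b t * (starRingEnd ℂ) (b t')‖ ≤ 1 := by
      rw [norm_mul, Complex.norm_conj]
      exact mul_le_one₀ (hb _) (norm_nonneg _) (hb _)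
    have hH : (0 : ℝ) ≤ H₁ := Nat.cast_nonneg _
    have h3 : ‖b t * (starRingEnd ℂ) (b t') *
        ∑ s ∈ (Icc 1 H₁).filter (fun s => inW W z s t ∧ inW W z s t'), ex (s * (ψ * ((t : ℝ) - t')))‖ ≤
        mn H₁ (ψ * ((t : ℝ) - t')) := by
      rw [norm_mul]
      exact (mul_le_of_le_one_left (norm_nonneg _) h2).trans h1
    refine h3.trans ?_
    split_ifs with h4
    · have h5 := mn_le_left hH (ψ * ((t : ℝ) - t'))
      have h6 : 0 ≤ lam * H₁ := by positivity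
      linarith
    · push Not at h4
      rw [zero_add]
      rcases hH.eq_or_lt with h5 | h5
      · have h6 := mn_le_left hH (ψ * ((t : ℝ) - t'))
        rw [← h5] at h6 ⊢
        linarith
      · have h6 : 0 < 1 / (lam * H₁) := by positivity
        have h7 : 0 < nrm (ψ * ((t : ℝ) - t')) := h6.trans_le h4
        refine (mn_le_right hH h7).trans ?_
        rw [div_le_iff₀ (by linarith)]
        have h8 : 1 ≤ nrm (ψ * ((t : ℝ) - t')) * (lam * H₁) := by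
          rw [div_le_iff₀ (by positivity)] at h4
          exact h4
        nlinarith
  have e5 : ∑ s ∈ Icc 1 H₁, ‖J s‖ ^ 2 ≤ H₁ * BadN H₂ ψ (1 / (lam * H₁)) + lam * H₁ * (H₂ : ℝ) ^ 2 := by
    have h0 : (0 : ℝ) ≤ ∑ s ∈ Icc 1 H₁, ‖J s‖ ^ 2 := sum_nonneg fun _ _ => sq_nonneg _
    have h1 : ∑ s ∈ Icc 1 H₁, ‖J s‖ ^ 2 = ‖(((∑ s ∈ Icc 1 H₁, ‖J s‖ ^ 2 : ℝ)) : ℂ)‖ := by
      rw [Complex.norm_real, Real.norm_eq_abs, abs_of_nonneg h0]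
    rw [h1, e4]
    have h2 : ‖∑ t ∈ Icc 1 H₂, ∑ t' ∈ Icc 1 H₂,
      b t * (starRingEnd ℂ) (b t') *
        ∑ s ∈ (Icc 1 H₁).filter (fun s => inW W z s t ∧ inW W z s t'), ex (s * (ψ * ((t : ℝ) - t')))‖ ≤
        ∑ t ∈ Icc 1 H₂, ∑ t' ∈ Icc 1 H₂,
          ((if nrm (ψ * ((t : ℝ) - t')) < 1 / (lam * H₁) then (H₁ : ℝ) else 0) + lam * H₁) :=
      norm_sum_le_of_le _ fun t ht => norm_sum_le_of_le _ fun t' ht' => hgood t ht t' ht'
    refine h2.trans (le_of_eq ?_)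
    simp only [sum_add_distrib]
    congr 1
    · unfold BadN
      rw [← sum_product' (Icc 1 H₂) (Icc 1 H₂)
        (fun t t' => if nrm (ψ * ((t : ℝ) - t')) < 1 / (lam * H₁) then (H₁ : ℝ) else 0), ← sum_filter, sum_const, nsmul_eq_mul,
        mul_comm]
    · simp only [sum_const, Nat.card_Icc, Nat.add_sub_cancel, nsmul_eq_mul]
      ring
  have hH : (0 : ℝ) ≤ H₁ := Nat.cast_nonneg _
  calc ‖∑ s ∈ Icc 1 H₁, a s * ex (z * ψ) * J s‖ ^ 2 ≤ (∑ s ∈ Icc 1 H₁, ‖J s‖) ^ 2 :=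
        pow_le_pow_left₀ (norm_nonneg _) e2 2
    _ ≤ H₁ * ∑ s ∈ Icc 1 H₁, ‖J s‖ ^ 2 := e3
    _ ≤ H₁ * (H₁ * BadN H₂ ψ (1 / (lam * H₁)) + lam * H₁ * (H₂ : ℝ) ^ 2) := mul_le_mul_of_nonneg_left e5 hH
    _ = (H₁ : ℝ) ^ 2 * (BadN H₂ ψ (1 / (lam * H₁)) + lam * (H₂ : ℝ) ^ 2) := by ring

theorem kap (H₁ H₂ W : ℕ) (hW : H₁ * H₂ ≤ W) (a b : ℤ → ℕ → ℂ) (ha : ∀ z s, ‖a z s‖ ≤ 1) (hb : ∀ z t, ‖b z t‖ ≤ 1)
    (ψ lam : ℝ) (hlam : 0 < lam) :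
    ‖∑ k ∈ range W, ∑ s ∈ Icc 1 H₁, ∑ t ∈ Icc 1 H₂,
        a ((k : ℤ) - ((s * t : ℕ) : ℤ)) s * b ((k : ℤ) - ((s * t : ℕ) : ℤ)) t * ex (k * ψ)‖ ^ 2 ≤
      4 * (W : ℝ) ^ 2 * (H₁ : ℝ) ^ 2 * (BadN H₂ ψ (1 / (lam * H₁)) + lam * (H₂ : ℝ) ^ 2) := by
  set Q : ℝ := (H₁ : ℝ) ^ 2 * (BadN H₂ ψ (1 / (lam * H₁)) + lam * (H₂ : ℝ) ^ 2) with hQ
  have hQ0 : 0 ≤ Q := by positivity
  have e1 : ∑ k ∈ range W, ∑ s ∈ Icc 1 H₁, ∑ t ∈ Icc 1 H₂,
        a ((k : ℤ) - ((s * t : ℕ) : ℤ)) s * b ((k : ℤ) - ((s * t : ℕ) : ℤ)) t * ex (k * ψ) =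
      ∑ z ∈ Ico (-((H₁ * H₂ : ℕ) : ℤ)) W, ∑ s ∈ Icc 1 H₁, ∑ t ∈ Icc 1 H₂,
        (if inW W z s t then a z s * b z t * ex ((z + ((s * t : ℕ) : ℤ) : ℤ) * ψ) else 0) := by
    rw [sum_comm, sum_comm (s := Ico (-((H₁ * H₂ : ℕ) : ℤ)) W)]
    refine sum_congr rfl fun s hs => ?_
    rw [sum_comm, sum_comm (s := Ico (-((H₁ * H₂ : ℕ) : ℤ)) W)]
    refine sum_congr rfl fun t ht => ?_
    rw [mem_Icc] at hs ht
    have h := regroup W (H₁ * H₂) (s * t) (Nat.mul_le_mul hs.2 ht.2) (fun z k => a z s * b z t * ex (k * ψ))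
    simp only [Int.cast_natCast] at h
    rw [h]
    rfl
  rw [e1]
  have e2 : ∀ z ∈ Ico (-((H₁ * H₂ : ℕ) : ℤ)) (W : ℤ), ‖∑ s ∈ Icc 1 H₁, ∑ t ∈ Icc 1 H₂,
        (if inW W z s t then a z s * b z t * ex ((z + ((s * t : ℕ) : ℤ) : ℤ) * ψ) else 0)‖ ≤ Real.sqrt Q := by
    intro z _
    exact Real.le_sqrt_of_sq_le (one_z H₁ H₂ W z (a z) (b z) (ha z) (hb z) ψ lam hlam)
  have e3 : ‖∑ z ∈ Ico (-((H₁ * H₂ : ℕ) : ℤ)) W, ∑ s ∈ Icc 1 H₁, ∑ t ∈ Icc 1 H₂,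
        (if inW W z s t then a z s * b z t * ex ((z + ((s * t : ℕ) : ℤ) : ℤ) * ψ) else 0)‖ ≤ 2 * W * Real.sqrt Q := by
    refine (norm_sum_le_of_le _ e2).trans ?_
    rw [sum_const, Int.card_Ico, nsmul_eq_mul]
    refine mul_le_mul_of_nonneg_right ?_ (Real.sqrt_nonneg _)
    have h1 : ((W : ℤ) - -((H₁ * H₂ : ℕ) : ℤ)).toNat = W + H₁ * H₂ := by
      have h2 : (W : ℤ) - -((H₁ * H₂ : ℕ) : ℤ) = ((W + H₁ * H₂ : ℕ) : ℤ) := by
        push_cast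
        ring
      rw [h2, Int.toNat_natCast]
    rw [h1]
    have h3 : ((H₁ * H₂ : ℕ) : ℝ) ≤ W := by exact_mod_cast hW
    rw [Nat.cast_add]
    linarith
  calc _ ≤ (2 * W * Real.sqrt Q) ^ 2 := pow_le_pow_left₀ (norm_nonneg _) e3 2
    _ = 4 * (W : ℝ) ^ 2 * (H₁ : ℝ) ^ 2 * (BadN H₂ ψ (1 / (lam * H₁)) + lam * (H₂ : ℝ) ^ 2) := by
      rw [mul_pow, mul_pow, Real.sq_sqrt hQ0, hQ]
      ring

end Pool.Agent.BLF
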