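import Pool.Agent.Lib.BLF.Inter
import Pool.Agent.Lib.BLF.Freq

/-!
# Module NicePairs: many differences of frequencies are nice

PROOF. `C₁` from `nice_sum`. `Dz` is the average of `G (ω, s, t) k = a ω (k - s t) s * b ω (k - s t) t` over `S' = S ×ˢ Icc 1 H₁ ×ˢ Icc 1 H₂`, `|S'| = |S| H₁ H₂`. `inter` gives
`(η W³)² ≤ (W³ / |S'|) ∑_{h,h' ∈ A} E h h'`, `E h h' = ‖∑_k ∑_{S'} G (k + h) conj (G (k + h')) ex (k (ξ_h - ξ_h'))‖ ≤ W |S'|`. Now `G ω' (k+h) conj (G ω' (k+h')) = a' ω (k - s t) s * b' ω (k - s t) t`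
with `a' ω z s = a ω (z + h) s * conj (a ω (z + h') s)`, same for `b'`; so by `nice_sum` with `η' = η^6` (say) every pair with `E h h' ≥ η' W |S'|` has `Nice (η'^(-C₁)) W (ξ_h - ξ_h')`.
The other pairs contribute at most `(2 W + 1)² η' W |S'| ≤ 9 W² η' W |S'| ≤ (η² / 2) W³ |S'|` (`η ≤ 1/2`, `9 η^6 ≤ η²/2` as `18 η^4 ≤ 18/16`... take `η' = η^7`), so the number of the nice pairs is at least
`η² W² / 2`, and some `h' ∈ A` has at least `η² W² / (2 (2 W + 1)) ≥ η² W / 6 ≥ η^5 W` nice `h`. `C = 7 C₁ + 7`.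
-/

set_option autoImplicit false

open Finset

namespace Pool.Agent.BLF

open Pool.Agent.HLT

namespace NicePairsAux

lemma nice_mono {M M' : ℝ} {W : ℕ} {ψ : ℝ} (h : Nice M W ψ) (hM : M ≤ M') : Nice M' W ψ := by
  obtain ⟨q, h1, h2, h3⟩ := h
  exact ⟨q, h1, h2.trans hM, h3.trans (div_le_div_of_nonneg_right hM (Nat.cast_nonneg W))⟩

/-- The counting step. -/
lemma count (η : ℝ) (hη : 0 < η) (hη2 : η ≤ 1 / 2) (W C : ℕ) (hW : 1 ≤ W) (hC : 7 ≤ C) (n : ℝ) (hn : 0 < n)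
    (A : Finset ℤ) (hA : A ⊆ Icc (-(W : ℤ)) W) (E : ℤ → ℤ → ℝ) (hE : ∀ h h', E h h' ≤ W * n) (L : ℝ)
    (hL : η * (W : ℝ) ^ 3 ≤ L) (hL2 : L ^ 2 ≤ (W : ℝ) ^ 3 / n * ∑ h ∈ A, ∑ h' ∈ A, E h h') :
    ∃ h' ∈ A, η ^ C * W ≤ ((A.filter (fun h => η ^ 7 * (W * n) ≤ E h h')).card : ℝ) := by
  classical
  have hw : (1 : ℝ) ≤ W := by exact_mod_cast hW
  have hw0 : (0 : ℝ) < W := by linarith
  by_contra hcon
  push Not at hcon
  have hcard : (A.card : ℝ) ≤ 3 * W := by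
    have h1 : A.card ≤ (Icc (-(W : ℤ)) W).card := Finset.card_le_card hA
    rw [Int.card_Icc] at h1
    have h2 : ((W : ℤ) + 1 - -(W : ℤ)).toNat = 2 * W + 1 := by omega
    rw [h2] at h1
    have h3 : (A.card : ℝ) ≤ 2 * W + 1 := by exact_mod_cast h1
    linarith
  have hη7 : 0 < η ^ 7 := pow_pos hη 7
  have hsum : ∑ h ∈ A, ∑ h' ∈ A, E h h' ≤
      ∑ h ∈ A, ∑ h' ∈ A, ((if η ^ 7 * (W * n) ≤ E h h' then (W : ℝ) * n else 0) + η ^ 7 * (W * n)) := by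
    refine Finset.sum_le_sum fun h _ => Finset.sum_le_sum fun h' _ => ?_
    have hpos : 0 ≤ η ^ 7 * (W * n) := by positivity
    split_ifs with hc
    · linarith [hE h h']
    · push Not at hc
      linarith
  have hsum2 : ∑ h ∈ A, ∑ h' ∈ A, ((if η ^ 7 * (W * n) ≤ E h h' then (W : ℝ) * n else 0) + η ^ 7 * (W * n)) =
      (∑ h' ∈ A, ((A.filter (fun h => η ^ 7 * (W * n) ≤ E h h')).card : ℝ)) * (W * n) +
        (A.card : ℝ) * ((A.card : ℝ) * (η ^ 7 * (W * n))) := by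
    simp only [Finset.sum_add_distrib, Finset.sum_const, nsmul_eq_mul]
    congr 1
    rw [Finset.sum_comm, Finset.sum_mul]
    refine Finset.sum_congr rfl fun h' _ => ?_
    rw [← Finset.sum_filter, Finset.sum_const, nsmul_eq_mul]
  have hcnt : ∑ h' ∈ A, ((A.filter (fun h => η ^ 7 * (W * n) ≤ E h h')).card : ℝ) ≤
      (A.card : ℝ) * (η ^ C * W) := by
    have h1 : (A.card : ℝ) * (η ^ C * W) = ∑ _h' ∈ A, η ^ C * W := by
      rw [Finset.sum_const, nsmul_eq_mul]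
    rw [h1]
    exact Finset.sum_le_sum fun h' hh' => (hcon h' hh').le
  have hηC : η ^ C ≤ η ^ 7 := pow_le_pow_of_le_one hη.le (by linarith) hC
  have hcnt2 : ∑ h' ∈ A, ((A.filter (fun h => η ^ 7 * (W * n) ≤ E h h')).card : ℝ) ≤ 3 * W * (η ^ 7 * W) := by
    refine hcnt.trans ?_
    have h1 : η ^ C * W ≤ η ^ 7 * W := mul_le_mul_of_nonneg_right hηC hw0.le
    have h2 : 0 ≤ η ^ 7 * (W : ℝ) := by positivity
    calc (A.card : ℝ) * (η ^ C * W) ≤ (A.card : ℝ) * (η ^ 7 * W) :=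
          mul_le_mul_of_nonneg_left h1 (Nat.cast_nonneg _)
      _ ≤ 3 * W * (η ^ 7 * W) := mul_le_mul_of_nonneg_right hcard h2
  have hA2 : (A.card : ℝ) * (A.card : ℝ) ≤ 3 * W * (3 * W) :=
    mul_le_mul hcard hcard (Nat.cast_nonneg _) (by positivity)
  have htot : ∑ h ∈ A, ∑ h' ∈ A, E h h' ≤ 12 * η ^ 7 * W ^ 3 * n := by
    refine hsum.trans ?_
    rw [hsum2]
    have h1 : (∑ h' ∈ A, ((A.filter (fun h => η ^ 7 * (W * n) ≤ E h h')).card : ℝ)) * (W * n) ≤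
        3 * W * (η ^ 7 * W) * (W * n) := mul_le_mul_of_nonneg_right hcnt2 (by positivity)
    have h2 : (A.card : ℝ) * ((A.card : ℝ) * (η ^ 7 * (W * n))) ≤ 3 * W * (3 * W) * (η ^ 7 * (W * n)) := by
      rw [← mul_assoc]
      exact mul_le_mul_of_nonneg_right hA2 (by positivity)
    calc _ ≤ 3 * W * (η ^ 7 * W) * (W * n) + 3 * W * (3 * W) * (η ^ 7 * (W * n)) := add_le_add h1 h2
      _ = 12 * η ^ 7 * W ^ 3 * n := by ring
  have hfin : L ^ 2 ≤ 12 * η ^ 7 * (W : ℝ) ^ 6 := by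
    refine hL2.trans ?_
    calc (W : ℝ) ^ 3 / n * ∑ h ∈ A, ∑ h' ∈ A, E h h' ≤ (W : ℝ) ^ 3 / n * (12 * η ^ 7 * W ^ 3 * n) :=
          mul_le_mul_of_nonneg_left htot (by positivity)
      _ = 12 * η ^ 7 * (W : ℝ) ^ 6 := by field_simp
  have hlow : (η * (W : ℝ) ^ 3) ^ 2 ≤ L ^ 2 := pow_le_pow_left₀ (by positivity) hL 2
  have h3 : η ^ 2 * (W : ℝ) ^ 6 ≤ 12 * η ^ 7 * (W : ℝ) ^ 6 := by
    calc η ^ 2 * (W : ℝ) ^ 6 = (η * (W : ℝ) ^ 3) ^ 2 := by ring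
      _ ≤ _ := hlow.trans hfin
  have h4 : η ^ 2 ≤ 12 * η ^ 7 := le_of_mul_le_mul_right h3 (by positivity)
  have h5 : η ^ 5 ≤ (1 / 2) ^ 5 := pow_le_pow_left₀ hη.le hη2 5
  have h6 : 12 * η ^ 7 = η ^ 2 * (12 * η ^ 5) := by ring
  rw [h6] at h4
  have h7 : η ^ 2 * (12 * η ^ 5) < η ^ 2 * 1 := by
    refine mul_lt_mul_of_pos_left ?_ (by positivity)
    linarith
  linarith

end NicePairsAux

open NicePairsAux

theorem nice_pairs : ∃ C : ℕ, ∀ (η : ℝ) (H₁ H₂ W : ℕ), Loc η C H₁ H₂ W → ∀ {Ω : Type} (S : Finset Ω), S.Nonempty →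
    ∀ (a b : Ω → ℤ → ℕ → ℂ), (∀ ω z s, ‖a ω z s‖ ≤ 1) → (∀ ω z t, ‖b ω z t‖ ≤ 1) →
    ∀ (A : Finset ℤ) (ξ : ℤ → ℝ), A ⊆ Icc (-(W : ℤ)) W →
    η * (W : ℝ) ^ 3 ≤ ∑ h ∈ A, ‖∑ k ∈ range W, Dz H₁ H₂ S a b ((k : ℤ) + h) *
        (starRingEnd ℂ) (Dz H₁ H₂ S a b k) * ex (k * ξ h)‖ ^ 2 →
    ∃ h' ∈ A, ∃ A' ⊆ A, η ^ C * W ≤ A'.card ∧ ∀ h ∈ A', Nice ((η⁻¹) ^ C) W (ξ h - ξ h') := by
  classical
  obtain ⟨C₁, hC₁⟩ := nice_sum
  refine ⟨7 * C₁ + 7, ?_⟩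
  intro η H₁ H₂ W hLoc Ω S hS a b ha hb A ξ hA hsum
  have hη : 0 < η := hLoc.pos
  have hη2 : η ≤ 1 / 2 := hLoc.half
  have hW : 1 ≤ W := hLoc.posW
  have hH₁ : 1 ≤ H₁ := hLoc.pos1
  have hH₂ : 1 ≤ H₂ := hLoc.pos2
  have hLoc' : Loc (η ^ 7) C₁ H₁ H₂ W := Loc.pow 7 (by norm_num) (hLoc.mono (by omega))
  set S' : Finset (Ω × (ℕ × ℕ)) := S ×ˢ (Icc 1 H₁ ×ˢ Icc 1 H₂) with hS'def
  have hcard : (S'.card : ℝ) = S.card * H₁ * H₂ := by
    rw [hS'def, Finset.card_product, Finset.card_product, Nat.card_Icc, Nat.card_Icc,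
      Nat.add_sub_cancel, Nat.add_sub_cancel]
    push_cast
    ring
  have hcardC : (S'.card : ℂ) = (S.card : ℂ) * H₁ * H₂ := by
    have := congrArg (fun r : ℝ => (r : ℂ)) hcard
    push_cast at this
    exact this
  have hS' : S'.Nonempty := by
    obtain ⟨ω, hω⟩ := hS
    exact ⟨(ω, (1, 1)), by simp [hS'def, hω, hH₁, hH₂]⟩
  have hn : (0 : ℝ) < S'.card := by exact_mod_cast hS'.card_pos
  set G : Ω × (ℕ × ℕ) → ℤ → ℂ := fun p k =>
    a p.1 (k - ((p.2.1 * p.2.2 : ℕ) : ℤ)) p.2.1 * b p.1 (k - ((p.2.1 * p.2.2 : ℕ) : ℤ)) p.2.2 with hGdef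
  have hG : ∀ p k, ‖G p k‖ ≤ 1 := by
    intro p k
    rw [hGdef]
    simp only [norm_mul]
    exact mul_le_one₀ (ha _ _ _) (norm_nonneg _) (hb _ _ _)
  have hD : ∀ k, Dz H₁ H₂ S a b k = (∑ p ∈ S', G p k) / (S'.card : ℂ) := by
    intro k
    unfold Dz
    rw [hcardC, hS'def, Finset.sum_product]
    congr 1
    refine Finset.sum_congr rfl fun ω _ => ?_
    rw [Finset.sum_product]
  have hint := inter S' hS' G hG (Dz H₁ H₂ S a b) hD W A ξ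
  set E : ℤ → ℤ → ℝ := fun h h' => ‖∑ k ∈ range W, ∑ ω ∈ S', G ω ((k : ℤ) + h) *
    (starRingEnd ℂ) (G ω ((k : ℤ) + h')) * ex (k * (ξ h - ξ h'))‖ with hEdef
  have hexn : ∀ θ : ℝ, ‖ex θ‖ = 1 := by
    intro θ
    unfold ex
    rw [Complex.norm_exp]
    simp
  have hE : ∀ h h', E h h' ≤ W * S'.card := by
    intro h h'
    rw [hEdef]
    simp only
    refine (norm_sum_le _ _).trans ?_
    have h1 : ∀ k ∈ range W, ‖∑ ω ∈ S', G ω ((k : ℤ) + h) *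
        (starRingEnd ℂ) (G ω ((k : ℤ) + h')) * ex (k * (ξ h - ξ h'))‖ ≤ (S'.card : ℝ) := by
      intro k _
      refine (norm_sum_le _ _).trans ?_
      have h2 : ∀ ω ∈ S', ‖G ω ((k : ℤ) + h) *
          (starRingEnd ℂ) (G ω ((k : ℤ) + h')) * ex (k * (ξ h - ξ h'))‖ ≤ 1 := by
        intro ω _
        rw [norm_mul, norm_mul, Complex.norm_conj, hexn, mul_one]
        exact mul_le_one₀ (hG _ _) (norm_nonneg _) (hG _ _)
      refine (Finset.sum_le_sum h2).trans ?_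
      rw [Finset.sum_const, nsmul_eq_mul, mul_one]
    refine (Finset.sum_le_sum h1).trans ?_
    rw [Finset.sum_const, nsmul_eq_mul, Finset.card_range]
  have hgood : ∀ h h', η ^ 7 * (W * S'.card) ≤ E h h' →
      Nice ((η⁻¹) ^ (7 * C₁ + 7)) W (ξ h - ξ h') := by
    intro h h' hh
    have key := hC₁ (η ^ 7) H₁ H₂ W hLoc' S hS
      (fun ω z s => a ω (z + h) s * (starRingEnd ℂ) (a ω (z + h') s))
      (fun ω z t => b ω (z + h) t * (starRingEnd ℂ) (b ω (z + h') t))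
      (fun ω z s => by
        rw [norm_mul, Complex.norm_conj]
        exact mul_le_one₀ (ha _ _ _) (norm_nonneg _) (ha _ _ _))
      (fun ω z t => by
        rw [norm_mul, Complex.norm_conj]
        exact mul_le_one₀ (hb _ _ _) (norm_nonneg _) (hb _ _ _))
      (ξ h - ξ h') (by
        refine le_trans (le_of_eq ?_) (hh.trans (le_of_eq ?_))
        · rw [hcard]; ring
        · rw [hEdef]
          simp only
          congr 1
          refine Finset.sum_congr rfl fun k _ => ?_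
          rw [hS'def, Finset.sum_product]
          refine Finset.sum_congr rfl fun ω _ => ?_
          rw [Finset.sum_product]
          refine Finset.sum_congr rfl fun s _ => Finset.sum_congr rfl fun t _ => ?_
          rw [hGdef]
          simp only [map_mul]
          have e1 : (k : ℤ) + h - ((s * t : ℕ) : ℤ) = (k : ℤ) - ((s * t : ℕ) : ℤ) + h := by ring
          have e2 : (k : ℤ) + h' - ((s * t : ℕ) : ℤ) = (k : ℤ) - ((s * t : ℕ) : ℤ) + h' := by ring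
          rw [e1, e2]
          ring)
    refine nice_mono key ?_
    rw [← inv_pow, ← pow_mul]
    exact pow_le_pow_right₀ hLoc.one_le_inv (by omega)
  obtain ⟨h', hh', hc⟩ := count η hη hη2 W (7 * C₁ + 7) hW (by omega) (S'.card : ℝ) hn A hA E hE _ hsum hint
  refine ⟨h', hh', A.filter (fun h => η ^ 7 * (W * S'.card) ≤ E h h'), Finset.filter_subset _ _, hc, ?_⟩
  intro h hh
  exact hgood h h' (Finset.mem_filter.1 hh).2

end Pool.Agent.BLF
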