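import Pool.Agent.Lib.BLF.Struct
import Pool.Agent.Lib.BLF.Avg

/-!
# Module SSlot: structured functions in the slots `x + t u_j`, one step

PROOF. Apply `struct` with `H₁ = H0`, `H₂ = H j₀`, `Ω = Fin m → ℕ`, `S = piFinset (Icc 1 (H j))` (all coordinates, the coordinate `j₀` of `ω` is a dummy), `a ω x t = f x t * ∏_{j ∈ J, j ≠ j₀} g j (x + t ω_j)`,
`b ω x s = γ x (update ω j₀ s)`. By `sum_mul_DX` and `sum_update` (module `Avg`): for every `G`, `∑_y G y DX y = TS (update g j₀ G) / (H0 ∏ H j)` [`|S| H0 H_{j₀}` times the left side is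
`∑_x ∑_ω ∑_t ∑_{s ∈ Icc 1 H_{j₀}} G (x + t s) a ω x t γ x (update ω j₀ s)`, and with `u = update ω j₀ s` the summand is the summand of `TS` at `u` (for `j ≠ j₀`, `u_j = ω_j`); by `sum_update` it is `H_{j₀}` times
the sum over `u`; `|S| = ∏ H j`]. `∏_{j ∈ J} g j (x + t u_j) = G (x + t u_{j₀}) ∏_{j ∈ J.erase j₀}` (`Finset.mul_prod_erase`, `Function.update_self`, `Function.update_of_ne`).
-/

set_option autoImplicit false

open Finset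

namespace Pool.Agent.BLF

open Pool.Agent.HLT

/-- The form with the slots `x + t u_j`, `j ∈ J`. -/
noncomputable def TS {X m : ℕ} [NeZero X] (J : Finset (Fin m)) (H0 : ℕ) (H : Fin m → ℕ) (f : ZMod X → ℕ → ℂ)
    (g : Fin m → ZMod X → ℂ) (γ : ZMod X → (Fin m → ℕ) → ℂ) : ℂ :=
  ∑ x : ZMod X, ∑ t ∈ Icc 1 H0, ∑ u ∈ Fintype.piFinset (fun j => Icc 1 (H j)),
    f x t * (∏ j ∈ J, g j (x + ((t * u j : ℕ) : ZMod X))) * γ x u

private noncomputable def aa {X m : ℕ} (J : Finset (Fin m)) (j₀ : Fin m) (f : ZMod X → ℕ → ℂ)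
    (g : Fin m → ZMod X → ℂ) (ω : Fin m → ℕ) (x : ZMod X) (t : ℕ) : ℂ :=
  f x t * ∏ j ∈ J.erase j₀, g j (x + ((t * ω j : ℕ) : ZMod X))

private noncomputable def bbb {X m : ℕ} (j₀ : Fin m) (γ : ZMod X → (Fin m → ℕ) → ℂ) (ω : Fin m → ℕ)
    (x : ZMod X) (s : ℕ) : ℂ := γ x (Function.update ω j₀ s)

private theorem summand {X m : ℕ} (J : Finset (Fin m)) (j₀ : Fin m) (hj : j₀ ∈ J) (f : ZMod X → ℕ → ℂ)
    (g : Fin m → ZMod X → ℂ) (γ : ZMod X → (Fin m → ℕ) → ℂ) (G : ZMod X → ℂ) (x : ZMod X) (ω : Fin m → ℕ) (s t : ℕ) :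
    G (x + ((s * t : ℕ) : ZMod X)) * aa J j₀ f g ω x s * bbb j₀ γ ω x t =
      f x s * (∏ j ∈ J, (Function.update g j₀ G) j
        (x + ((s * (Function.update ω j₀ t) j : ℕ) : ZMod X))) * γ x (Function.update ω j₀ t) := by
  rw [← Finset.mul_prod_erase J _ hj]
  have h1 : ∏ j ∈ J.erase j₀, (Function.update g j₀ G) j
      (x + ((s * (Function.update ω j₀ t) j : ℕ) : ZMod X)) =
      ∏ j ∈ J.erase j₀, g j (x + ((s * ω j : ℕ) : ZMod X)) := by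
    refine Finset.prod_congr rfl fun j hj' => ?_
    have hne : j ≠ j₀ := Finset.ne_of_mem_erase hj'
    rw [Function.update_of_ne hne, Function.update_of_ne hne]
  rw [h1, Function.update_self, Function.update_self]
  unfold aa bbb
  ring

private theorem main_id {X m : ℕ} [NeZero X] (J : Finset (Fin m)) (H0 : ℕ) (H : Fin m → ℕ) (j₀ : Fin m)
    (hj : j₀ ∈ J) (f : ZMod X → ℕ → ℂ) (g : Fin m → ZMod X → ℂ) (γ : ZMod X → (Fin m → ℕ) → ℂ)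
    (G : ZMod X → ℂ) :
    (∑ x : ZMod X, ∑ ω ∈ Fintype.piFinset (fun j => Icc 1 (H j)), ∑ s ∈ Icc 1 H0, ∑ t ∈ Icc 1 (H j₀),
      G (x + ((s * t : ℕ) : ZMod X)) * aa J j₀ f g ω x s * bbb j₀ γ ω x t) =
      (H j₀ : ℂ) * TS J H0 H f (Function.update g j₀ G) γ := by
  unfold TS
  rw [Finset.mul_sum]
  refine Finset.sum_congr rfl fun x _ => ?_
  rw [Finset.sum_comm, Finset.mul_sum]
  refine Finset.sum_congr rfl fun s _ => ?_
  have h := sum_update (fun j => Icc 1 (H j)) j₀ (fun u : Fin m → ℕ =>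
    f x s * (∏ j ∈ J, (Function.update g j₀ G) j (x + ((s * u j : ℕ) : ZMod X))) * γ x u)
  rw [Nat.card_Icc, Nat.add_sub_cancel, nsmul_eq_mul] at h
  rw [← h]
  refine Finset.sum_congr rfl fun ω _ => Finset.sum_congr rfl fun t _ => ?_
  exact summand J j₀ hj f g γ G x ω s t

private theorem card_S {m : ℕ} (H : Fin m → ℕ) :
    (((Fintype.piFinset (fun j => Icc 1 (H j))).card : ℕ) : ℂ) = ((∏ j, (H j : ℝ) : ℝ) : ℂ) := by
  rw [Fintype.card_piFinset]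
  push_cast
  refine Finset.prod_congr rfl fun j _ => ?_
  rw [Nat.card_Icc, Nat.add_sub_cancel]

private theorem norm_id {X m : ℕ} [NeZero X] (J : Finset (Fin m)) (H0 : ℕ) (H : Fin m → ℕ) (j₀ : Fin m)
    (hj : j₀ ∈ J) (h0 : 1 ≤ H0) (hH : ∀ j, 1 ≤ H j) (f : ZMod X → ℕ → ℂ) (g : Fin m → ZMod X → ℂ)
    (γ : ZMod X → (Fin m → ℕ) → ℂ) (G : ZMod X → ℂ) :
    ‖TS J H0 H f (Function.update g j₀ G) γ‖ = ((H0 : ℝ) * ∏ j, (H j : ℝ)) *
      ‖∑ y : ZMod X, G y * DX H0 (H j₀) (Fintype.piFinset (fun j => Icc 1 (H j))) (aa J j₀ f g) (bbb j₀ γ) y‖ := by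
  rw [sum_mul_DX, main_id J H0 H j₀ hj f g γ G, card_S]
  have hP : (0 : ℝ) < ∏ j, (H j : ℝ) := Finset.prod_pos fun j _ => by exact_mod_cast hH j
  have hj0 : (0 : ℝ) < (H j₀ : ℝ) := by exact_mod_cast hH j₀
  have h00 : (0 : ℝ) < (H0 : ℝ) := by exact_mod_cast h0
  rw [norm_div, norm_mul, norm_mul, norm_mul, Complex.norm_natCast, Complex.norm_natCast, Complex.norm_real,
    Real.norm_of_nonneg hP.le]
  field_simp

theorem sslot : ∃ C : ℕ, ∀ (δ : ℝ) (X m : ℕ) [NeZero X] (J : Finset (Fin m)) (H0 W : ℕ) (H : Fin m → ℕ) (j₀ : Fin m),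
    j₀ ∈ J → Adm δ C X H0 (H j₀) W → (∀ j, 1 ≤ H j) →
    ∀ (f : ZMod X → ℕ → ℂ) (g : Fin m → ZMod X → ℂ) (γ : ZMod X → (Fin m → ℕ) → ℂ), (∀ x t, ‖f x t‖ ≤ 1) →
    (∀ j x, ‖g j x‖ ≤ 1) → (∀ x u, ‖γ x u‖ ≤ 1) →
    δ * (X * H0 * ∏ j, (H j : ℝ)) ≤ ‖TS J H0 H f g γ‖ →
    ∃ (q : ℕ) (φ : ZMod X → ℂ), 1 ≤ q ∧ (q : ℝ) ≤ (δ⁻¹) ^ C ∧ (∀ x, ‖φ x‖ ≤ 1) ∧ AInv φ q (δ ^ C * W) ∧
      δ ^ C * (X * H0 * ∏ j, (H j : ℝ)) ≤ ‖TS J H0 H f (Function.update g j₀ φ) γ‖ := by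
  obtain ⟨C, hC⟩ := struct
  refine ⟨C, ?_⟩
  intro δ X m _ J H0 W H j₀ hj hA hH f g γ hf hg hγ hT
  have h1 : 1 ≤ H0 := hA.loc.pos1
  have hP : (0 : ℝ) < ∏ j, (H j : ℝ) := Finset.prod_pos fun j _ => by exact_mod_cast hH j
  have h00 : (0 : ℝ) < (H0 : ℝ) := by exact_mod_cast h1
  have hK : (0 : ℝ) < (H0 : ℝ) * ∏ j, (H j : ℝ) := mul_pos h00 hP
  have hS : (Fintype.piFinset (fun j => Icc 1 (H j))).Nonempty := by
    refine Fintype.piFinset_nonempty.mpr fun j => ?_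
    exact Finset.nonempty_Icc.mpr (hH j)
  have ha : ∀ ω x s, ‖aa J j₀ f g ω x s‖ ≤ 1 := by
    intro ω x s
    unfold aa
    rw [norm_mul]
    refine mul_le_one₀ (hf _ _) (norm_nonneg _) ?_
    rw [norm_prod]
    exact Finset.prod_le_one (fun j _ => norm_nonneg _) (fun j _ => hg _ _)
  have hb : ∀ ω x t, ‖bbb j₀ γ ω x t‖ ≤ 1 := fun ω x t => hγ _ _
  have hid := norm_id J H0 H j₀ hj h1 hH f g γ
  have hup : Function.update g j₀ (g j₀) = g := Function.update_eq_self j₀ g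
  have hT2 : δ * X ≤ ‖∑ y : ZMod X, g j₀ y *
      DX H0 (H j₀) (Fintype.piFinset (fun j => Icc 1 (H j))) (aa J j₀ f g) (bbb j₀ γ) y‖ := by
    have h2 := hid (g j₀)
    rw [hup] at h2
    rw [h2] at hT
    have h3 : ((H0 : ℝ) * ∏ j, (H j : ℝ)) * (δ * X) ≤ ((H0 : ℝ) * ∏ j, (H j : ℝ)) *
      ‖∑ y : ZMod X, g j₀ y *
      DX H0 (H j₀) (Fintype.piFinset (fun j => Icc 1 (H j))) (aa J j₀ f g) (bbb j₀ γ) y‖ := by
      refine le_trans (le_of_eq ?_) hT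
      ring
    exact le_of_mul_le_mul_left h3 hK
  obtain ⟨q, φ, hq1, hq2, hφ, hinv, hlow⟩ := hC δ X H0 (H j₀) W hA _ hS _ _ ha hb (g j₀) (hg j₀) hT2
  refine ⟨q, φ, hq1, hq2, hφ, hinv, ?_⟩
  rw [hid φ]
  have h4 := mul_le_mul_of_nonneg_left hlow hK.le
  refine le_trans (le_of_eq ?_) h4
  ring

end Pool.Agent.BLF
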