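import Pool.Agent.Lib.BLF.Defs

/-!
# Module Shift: from the box sum to second derivatives

PROOF. Expand `QQ = ∑_{t,t'} ∑_{s,s'} ∑_x g(x+st) conj g(x+st') conj g(x+s't) g(x+s't')`. Put `s' = s + r`, `r ∈ Ioo (-H₁) H₁`, `s ∈ I_r = {s ∈ Icc 1 H₁ : s + r ∈ Icc 1 H₁}`.
The summand is `conj (Dl (r t) g (x + s t)) * Dl (r t') g (x + s t')` (`Dl h g y = g (y + h) conj (g y)`). Shift `x` by `- s t'` (`sum_shift`):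
`QQ = ∑_{t,t',r} ∑_x Dl (r t') g x * ∑_{s ∈ I_r} conj (Dl (r t) g (x + s (t - t')))`.
Cauchy-Schwarz over `(t, t', r, x)`, at most `H₂² (2 H₁) X` of them, `‖Dl (r t') g x‖ ≤ 1`:
`QQ² ≤ 2 X H₁ H₂² ∑_{t,t',r} ∑_x ‖∑_{s ∈ I_r} Dl (r t) g (x + s (t - t'))‖²`, and
`∑_x ‖∑_{s ∈ I_r} ...‖² = ∑_{s, s'' ∈ I_r} ∑_x Dl (r t) g (x + s d) conj (Dl (r t) g (x + s'' d))` (`d = t - t'`), where the inner sum is, after the shift of `x` by `- s'' d`,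
`∑_x Dl ((s - s'') d) (Dl (r t) g) x = Ph g (r t) ((s - s'') (t - t'))`. Take norms, and extend `I_r` to `Icc 1 H₁`.
-/

set_option autoImplicit false

open Finset

namespace Pool.Agent.BLF

open Pool.Agent.HLT

namespace ShiftAux

/-- the admissible `s` for the difference `r` -/
def Ir (H : ℕ) (r : ℤ) : Finset ℕ :=
  (Icc 1 H).filter (fun s : ℕ => 1 ≤ (s : ℤ) + r ∧ (s : ℤ) + r ≤ H)

theorem reindex (H : ℕ) (Φ : ℕ → ℤ → ℂ) :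
    ∑ s ∈ Icc 1 H, ∑ s' ∈ Icc 1 H, Φ s ((s' : ℤ) - s) =
      ∑ r ∈ Ioo (-(H : ℤ)) H, ∑ s ∈ Ir H r, Φ s r := by
  have h1 : ∀ r ∈ Ioo (-(H : ℤ)) H, ∑ s ∈ Ir H r, Φ s r =
      ∑ s ∈ Icc 1 H, if 1 ≤ (s : ℤ) + r ∧ (s : ℤ) + r ≤ H then Φ s r else 0 := by
    intro r _
    unfold Ir
    rw [sum_filter]
  rw [sum_congr rfl h1]
  conv_rhs => rw [sum_comm]
  refine sum_congr rfl fun s hs => ?_
  rw [← sum_filter]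
  have hs' := mem_Icc.1 hs
  refine sum_nbij' (fun s' : ℕ => (s' : ℤ) - s) (fun r : ℤ => ((s : ℤ) + r).toNat) ?_ ?_ ?_ ?_ ?_
  · intro s' h
    have := mem_Icc.1 h
    simp only [mem_filter, mem_Ioo]
    omega
  · intro r h
    simp only [mem_filter, mem_Ioo] at h
    simp only [mem_Icc]
    omega
  · intro s' h
    omega
  · intro r h
    simp only [mem_filter, mem_Ioo] at h
    omega
  · intro s' _
    rfl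

variable {X : ℕ} [NeZero X]

/-- the inner sum -/
noncomputable def Sr (H₁ : ℕ) (g : ZMod X → ℂ) (t t' : ℕ) (r : ℤ) (x : ZMod X) : ℂ :=
  ∑ s ∈ Ir H₁ r, Dl ((r * t : ℤ) : ZMod X) g (x + (((s : ℤ) * ((t : ℤ) - t') : ℤ) : ZMod X))

theorem expand (H₁ : ℕ) (g : ZMod X → ℂ) (t t' : ℕ) :
    ((∑ x : ZMod X, ‖∑ s ∈ Icc 1 H₁, g (x + ((s * t : ℕ) : ZMod X)) *
      (starRingEnd ℂ) (g (x + ((s * t' : ℕ) : ZMod X)))‖ ^ 2 : ℝ) : ℂ) =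
    ∑ r ∈ Ioo (-(H₁ : ℤ)) H₁, ∑ x : ZMod X,
      Dl ((r * t' : ℤ) : ZMod X) g x * (starRingEnd ℂ) (Sr H₁ g t t' r x) := by
  have h1 : ∀ x : ZMod X, ((‖∑ s ∈ Icc 1 H₁, g (x + ((s * t : ℕ) : ZMod X)) *
      (starRingEnd ℂ) (g (x + ((s * t' : ℕ) : ZMod X)))‖ ^ 2 : ℝ) : ℂ) =
      ∑ s ∈ Icc 1 H₁, ∑ s' ∈ Icc 1 H₁,
        (fun (s : ℕ) (r : ℤ) => (starRingEnd ℂ) (Dl ((r * t : ℤ) : ZMod X) g
          (x + ((s * t : ℕ) : ZMod X))) *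
          Dl ((r * t' : ℤ) : ZMod X) g (x + ((s * t' : ℕ) : ZMod X))) s ((s' : ℤ) - s) := by
    intro x
    have e := Complex.mul_conj' (∑ s ∈ Icc 1 H₁, g (x + ((s * t : ℕ) : ZMod X)) *
      (starRingEnd ℂ) (g (x + ((s * t' : ℕ) : ZMod X))))
    rw [Complex.ofReal_pow, ← e, map_sum, sum_mul_sum]
    refine sum_congr rfl fun s _ => sum_congr rfl fun s' _ => ?_
    unfold Dl
    simp only [map_mul, Complex.conj_conj]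
    have e1 : x + ((s * t : ℕ) : ZMod X) + ((((s' : ℤ) - s) * t : ℤ) : ZMod X) =
        x + ((s' * t : ℕ) : ZMod X) := by
      push_cast
      ring
    have e2 : x + ((s * t' : ℕ) : ZMod X) + ((((s' : ℤ) - s) * t' : ℤ) : ZMod X) =
        x + ((s' * t' : ℕ) : ZMod X) := by
      push_cast
      ring
    rw [e1, e2]
    ring
  have h1' : ∀ x : ZMod X, ((‖∑ s ∈ Icc 1 H₁, g (x + ((s * t : ℕ) : ZMod X)) *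
      (starRingEnd ℂ) (g (x + ((s * t' : ℕ) : ZMod X)))‖ ^ 2 : ℝ) : ℂ) =
      ∑ r ∈ Ioo (-(H₁ : ℤ)) H₁, ∑ s ∈ Ir H₁ r, (starRingEnd ℂ) (Dl ((r * t : ℤ) : ZMod X) g
          (x + ((s * t : ℕ) : ZMod X))) *
          Dl ((r * t' : ℤ) : ZMod X) g (x + ((s * t' : ℕ) : ZMod X)) := by
    intro x
    rw [h1 x]
    exact reindex H₁ (fun (s : ℕ) (r : ℤ) => (starRingEnd ℂ) (Dl ((r * t : ℤ) : ZMod X) g
          (x + ((s * t : ℕ) : ZMod X))) *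
          Dl ((r * t' : ℤ) : ZMod X) g (x + ((s * t' : ℕ) : ZMod X)))
  rw [Complex.ofReal_sum, sum_congr rfl fun x _ => h1' x, sum_comm]
  refine sum_congr rfl fun r _ => ?_
  rw [sum_comm]
  have h2 : ∀ s ∈ Ir H₁ r, ∑ x : ZMod X, (starRingEnd ℂ) (Dl ((r * t : ℤ) : ZMod X) g
      (x + ((s * t : ℕ) : ZMod X))) * Dl ((r * t' : ℤ) : ZMod X) g (x + ((s * t' : ℕ) : ZMod X)) =
      ∑ x : ZMod X, Dl ((r * t' : ℤ) : ZMod X) g x * (starRingEnd ℂ)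
        (Dl ((r * t : ℤ) : ZMod X) g (x + (((s : ℤ) * ((t : ℤ) - t') : ℤ) : ZMod X))) := by
    intro s _
    rw [← sum_shift (fun x : ZMod X => Dl ((r * t' : ℤ) : ZMod X) g x * (starRingEnd ℂ)
        (Dl ((r * t : ℤ) : ZMod X) g (x + (((s : ℤ) * ((t : ℤ) - t') : ℤ) : ZMod X))))
        ((s * t' : ℕ) : ZMod X)]
    refine sum_congr rfl fun x _ => ?_
    have e1 : x + ((s * t' : ℕ) : ZMod X) + (((s : ℤ) * ((t : ℤ) - t') : ℤ) : ZMod X) =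
        x + ((s * t : ℕ) : ZMod X) := by
      push_cast
      ring
    rw [e1]
    ring
  rw [sum_congr rfl h2, sum_comm]
  refine sum_congr rfl fun x _ => ?_
  unfold Sr
  rw [map_sum, mul_sum]

theorem sum_Sr_sq (H₁ : ℕ) (g : ZMod X → ℂ) (t t' : ℕ) (r : ℤ) :
    ∑ x : ZMod X, ‖Sr H₁ g t t' r x‖ ^ 2 ≤ ∑ s ∈ Icc 1 H₁, ∑ s' ∈ Icc 1 H₁,
      ‖Ph g (r * t) (((s : ℤ) - s') * ((t : ℤ) - t'))‖ := by
  have h1 : ((∑ x : ZMod X, ‖Sr H₁ g t t' r x‖ ^ 2 : ℝ) : ℂ) = ∑ s ∈ Ir H₁ r, ∑ s' ∈ Ir H₁ r,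
      Ph g (r * t) (((s : ℤ) - s') * ((t : ℤ) - t')) := by
    rw [Complex.ofReal_sum]
    have h2 : ∀ x : ZMod X, ((‖Sr H₁ g t t' r x‖ ^ 2 : ℝ) : ℂ) =
        ∑ s ∈ Ir H₁ r, ∑ s' ∈ Ir H₁ r, Dl ((r * t : ℤ) : ZMod X) g
          (x + (((s : ℤ) * ((t : ℤ) - t') : ℤ) : ZMod X)) * (starRingEnd ℂ)
          (Dl ((r * t : ℤ) : ZMod X) g (x + (((s' : ℤ) * ((t : ℤ) - t') : ℤ) : ZMod X))) := by
      intro x
      rw [Complex.ofReal_pow, ← Complex.mul_conj']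
      unfold Sr
      rw [map_sum, sum_mul_sum]
    rw [sum_congr rfl fun x _ => h2 x, sum_comm]
    refine sum_congr rfl fun s _ => ?_
    rw [sum_comm]
    refine sum_congr rfl fun s' _ => ?_
    unfold Ph
    rw [← sum_shift (fun x : ZMod X => Dl ((((s : ℤ) - s') * ((t : ℤ) - t') : ℤ) : ZMod X)
      (Dl ((r * t : ℤ) : ZMod X) g) x) (((s' : ℤ) * ((t : ℤ) - t') : ℤ) : ZMod X)]
    refine sum_congr rfl fun x _ => ?_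
    have e1 : x + (((s' : ℤ) * ((t : ℤ) - t') : ℤ) : ZMod X) +
        ((((s : ℤ) - s') * ((t : ℤ) - t') : ℤ) : ZMod X) =
        x + (((s : ℤ) * ((t : ℤ) - t') : ℤ) : ZMod X) := by
      push_cast
      ring
    conv_rhs => rw [Dl]
    rw [e1]
  have h3 : ∑ x : ZMod X, ‖Sr H₁ g t t' r x‖ ^ 2 =
      ‖((∑ x : ZMod X, ‖Sr H₁ g t t' r x‖ ^ 2 : ℝ) : ℂ)‖ := by
    rw [Complex.norm_real, Real.norm_of_nonneg (sum_nonneg fun x _ => by positivity)]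
  rw [h3, h1]
  have hsub : Ir H₁ r ⊆ Icc 1 H₁ := filter_subset _ _
  refine (norm_sum_le _ _).trans ?_
  refine (sum_le_sum fun s _ => norm_sum_le _ _).trans ?_
  refine (sum_le_sum fun s _ => sum_le_sum_of_subset_of_nonneg hsub
    fun _ _ _ => norm_nonneg _).trans ?_
  exact sum_le_sum_of_subset_of_nonneg hsub fun _ _ _ => sum_nonneg fun _ _ => norm_nonneg _

theorem QQ_le (H₁ H₂ : ℕ) (g : ZMod X → ℂ) (hg : ∀ x, ‖g x‖ ≤ 1) :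
    QQ H₁ H₂ g ≤ ∑ t ∈ Icc 1 H₂, ∑ t' ∈ Icc 1 H₂, ∑ r ∈ Ioo (-(H₁ : ℤ)) H₁, ∑ x : ZMod X,
      ‖Sr H₁ g t t' r x‖ := by
  have h1 : QQ H₁ H₂ g = ∑ t ∈ Icc 1 H₂, ∑ t' ∈ Icc 1 H₂, ∑ x : ZMod X,
      ‖∑ s ∈ Icc 1 H₁, g (x + ((s * t : ℕ) : ZMod X)) *
      (starRingEnd ℂ) (g (x + ((s * t' : ℕ) : ZMod X)))‖ ^ 2 := by
    unfold QQ
    rw [sum_comm]
    refine sum_congr rfl fun t _ => ?_
    rw [sum_comm]
  rw [h1]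
  refine sum_le_sum fun t _ => sum_le_sum fun t' _ => ?_
  have h2 : ∑ x : ZMod X, ‖∑ s ∈ Icc 1 H₁, g (x + ((s * t : ℕ) : ZMod X)) *
      (starRingEnd ℂ) (g (x + ((s * t' : ℕ) : ZMod X)))‖ ^ 2 =
      ‖((∑ x : ZMod X, ‖∑ s ∈ Icc 1 H₁, g (x + ((s * t : ℕ) : ZMod X)) *
      (starRingEnd ℂ) (g (x + ((s * t' : ℕ) : ZMod X)))‖ ^ 2 : ℝ) : ℂ)‖ := by
    rw [Complex.norm_real, Real.norm_of_nonneg (sum_nonneg fun x _ => by positivity)]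
  rw [h2, expand]
  refine (norm_sum_le _ _).trans (sum_le_sum fun r _ => ?_)
  refine (norm_sum_le _ _).trans (sum_le_sum fun x _ => ?_)
  rw [norm_mul, Complex.norm_conj]
  have h3 := norm_Dl_le ((r * t' : ℤ) : ZMod X) g hg x
  have h4 := norm_nonneg (Sr H₁ g t t' r x)
  nlinarith

end ShiftAux

open ShiftAux

theorem shift {X : ℕ} [NeZero X] (H₁ H₂ : ℕ) (g : ZMod X → ℂ) (hg : ∀ x, ‖g x‖ ≤ 1) :
    QQ H₁ H₂ g ^ 2 ≤ 2 * X * H₁ * (H₂ : ℝ) ^ 2 *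
      ∑ t ∈ Icc 1 H₂, ∑ t' ∈ Icc 1 H₂, ∑ r ∈ Ioo (-(H₁ : ℤ)) H₁, ∑ s ∈ Icc 1 H₁, ∑ s' ∈ Icc 1 H₁,
        ‖Ph g (r * t) (((s : ℤ) - s') * ((t : ℤ) - t'))‖ := by
  have hQ0 : 0 ≤ QQ H₁ H₂ g := by
    unfold QQ
    exact sum_nonneg fun _ _ => sum_nonneg fun _ _ => sum_nonneg fun _ _ => by positivity
  obtain ⟨T, hT⟩ : ∃ T : Finset (ℕ × ℕ × ℤ × ZMod X),
    T = Icc 1 H₂ ×ˢ Icc 1 H₂ ×ˢ Ioo (-(H₁ : ℤ)) H₁ ×ˢ univ := ⟨_, rfl⟩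
  have hsum : ∀ f : ℕ → ℕ → ℤ → ZMod X → ℝ, ∑ t ∈ Icc 1 H₂, ∑ t' ∈ Icc 1 H₂,
      ∑ r ∈ Ioo (-(H₁ : ℤ)) H₁, ∑ x : ZMod X, f t t' r x =
      ∑ p ∈ T, f p.1 p.2.1 p.2.2.1 p.2.2.2 := by
    intro f
    rw [hT, sum_product]
    refine sum_congr rfl fun t _ => ?_
    rw [sum_product]
    refine sum_congr rfl fun t' _ => ?_
    rw [sum_product]
  have hcard : (T.card : ℝ) ≤ 2 * X * H₁ * (H₂ : ℝ) ^ 2 := by
    rw [hT, card_product, card_product, card_product, Nat.card_Icc, Int.card_Ioo, card_univ,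
      ZMod.card]
    have h1 : ((H₁ : ℤ) - -(H₁ : ℤ) - 1).toNat ≤ 2 * H₁ := by omega
    have h2 : (H₂ + 1 - 1) * ((H₂ + 1 - 1) * (((H₁ : ℤ) - -(H₁ : ℤ) - 1).toNat * X)) ≤
        H₂ * (H₂ * (2 * H₁ * X)) := by
      rw [Nat.add_sub_cancel]
      gcongr
    calc (((H₂ + 1 - 1) * ((H₂ + 1 - 1) * (((H₁ : ℤ) - -(H₁ : ℤ) - 1).toNat * X)) : ℕ) : ℝ)
        ≤ ((H₂ * (H₂ * (2 * H₁ * X)) : ℕ) : ℝ) := by exact_mod_cast h2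
      _ = 2 * X * H₁ * (H₂ : ℝ) ^ 2 := by push_cast; ring
  have h1 := QQ_le H₁ H₂ g hg
  rw [hsum] at h1
  have h2 : QQ H₁ H₂ g ^ 2 ≤ (∑ p ∈ T, ‖Sr H₁ g p.1 p.2.1 p.2.2.1 p.2.2.2‖) ^ 2 :=
    pow_le_pow_left₀ hQ0 h1 2
  refine h2.trans (sq_sum_le_card_mul_sum_sq.trans ?_)
  rw [← hsum (fun t t' r x => ‖Sr H₁ g t t' r x‖ ^ 2)]
  have h3 : ∑ t ∈ Icc 1 H₂, ∑ t' ∈ Icc 1 H₂, ∑ r ∈ Ioo (-(H₁ : ℤ)) H₁, ∑ x : ZMod X,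
      ‖Sr H₁ g t t' r x‖ ^ 2 ≤ ∑ t ∈ Icc 1 H₂, ∑ t' ∈ Icc 1 H₂, ∑ r ∈ Ioo (-(H₁ : ℤ)) H₁,
      ∑ s ∈ Icc 1 H₁, ∑ s' ∈ Icc 1 H₁,
        ‖Ph g (r * t) (((s : ℤ) - s') * ((t : ℤ) - t'))‖ :=
    sum_le_sum fun t _ => sum_le_sum fun t' _ => sum_le_sum fun r _ => sum_Sr_sq H₁ g t t' r
  have h4 : (0 : ℝ) ≤ ∑ t ∈ Icc 1 H₂, ∑ t' ∈ Icc 1 H₂, ∑ r ∈ Ioo (-(H₁ : ℤ)) H₁, ∑ x : ZMod X,
      ‖Sr H₁ g t t' r x‖ ^ 2 :=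
    sum_nonneg fun _ _ => sum_nonneg fun _ _ => sum_nonneg fun _ _ => sum_nonneg fun _ _ => by
      positivity
  exact mul_le_mul hcard h3 h4 (by positivity)

end Pool.Agent.BLF
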