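import Pool.Agent.Lib.BLF.ClaimS

/-!
# Module ThmS: the mean square theorem for a single slot

PROOF. As in `ThmB`. For each `(t, u)`, `‖∑_x Z x‖² = ∑_h ∑_x Z (x+h) conj (Z x)`, `Z x = e x t * ∏_{j ∈ J} g j (x + t u_j) * γ x u`, so `∑_h TS J H0 H f_h g_h γ_h ≥ δ X² H0 ∏ H` with `f_h x t = e (x+h) t * conj (e x t)`,
`g_h j = Dl h (g j)`, `γ_h x u = γ (x+h) u * conj (γ x u)`. `G` = the `h` with `‖TS_h‖ ≥ (δ/2) X H0 ∏ H`, `|G| ≥ (δ/2) X`; `claimS` with `δ' = δ²`, `ℓ = ⌊δ'^C₁ H0⌋`: for `h ∈ G` a `q ≤ Q = ⌊δ'^(-C₁)⌋` with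
`Y_{h,q} = ∑_{x, t ≤ H0 - qℓ} ‖∑_{i<ℓ} f_h x (t + q i)‖ ≥ δ'^C₁ X H0 ℓ`. Some `q` has `∑_h Y_{h,q} ≥ η X² H0 ℓ`. Cauchy-Schwarz: `(∑_h Y_{h,q})² ≤ X² H0 ∑_t ∑_{h,x} ‖∑_i e (x+h) (t+qi) conj (e x (t+qi))‖² =
X² H0 ∑_t ∑_{i,i'} ‖∑_x e x (t+qi) conj (e x (t+qi'))‖²` and `fiber_count` (module `Avg`): `≤ X² H0 ℓ ∑_{t,t' ≤ H0} ‖∑_x e x t conj (e x t')‖²`. So the right side is at least `η² X² H0 ℓ ≥ δ^C X² H0²`.
-/

set_option autoImplicit false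

open Finset

namespace Pool.Agent.BLF

open Pool.Agent.HLT

namespace ThmSAux

variable {X : ℕ} [NeZero X]

/-- The square of a sum in terms of differences. -/
lemma sq_sum (Z : ZMod X → ℂ) : ((‖∑ x, Z x‖ ^ 2 : ℝ) : ℂ) =
    ∑ h : ZMod X, ∑ x : ZMod X, Z (x + h) * (starRingEnd ℂ) (Z x) := by
  rw [Finset.sum_comm]
  have h1 : ∀ x : ZMod X, ∑ h : ZMod X, Z (x + h) * (starRingEnd ℂ) (Z x) =
      (∑ y, Z y) * (starRingEnd ℂ) (Z x) := by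
    intro x
    rw [← Finset.sum_mul]
    congr 1
    exact Equiv.sum_comp (Equiv.addLeft x) Z
  simp_rw [h1]
  rw [← Finset.mul_sum, ← map_sum, Complex.mul_conj, Complex.normSq_eq_norm_sq]

lemma sum_TS {m : ℕ} (J : Finset (Fin m)) (H0 : ℕ) (H : Fin m → ℕ) (e : ZMod X → ℕ → ℂ)
    (g : Fin m → ZMod X → ℂ) (γ : ZMod X → (Fin m → ℕ) → ℂ) :
    ((∑ t ∈ Icc 1 H0, ∑ u ∈ Fintype.piFinset (fun j => Icc 1 (H j)),
      ‖∑ x : ZMod X, e x t * (∏ j ∈ J, g j (x + ((t * u j : ℕ) : ZMod X))) * γ x u‖ ^ 2 : ℝ) : ℂ) =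
    ∑ h : ZMod X, TS J H0 H (fun x t => e (x + h) t * (starRingEnd ℂ) (e x t)) (fun j => Dl h (g j))
      (fun x u => γ (x + h) u * (starRingEnd ℂ) (γ x u)) := by
  rw [Complex.ofReal_sum]
  simp_rw [Complex.ofReal_sum, sq_sum]
  unfold TS
  have h2 : ∀ h : ZMod X, ∑ x : ZMod X, ∑ t ∈ Icc 1 H0, ∑ u ∈ Fintype.piFinset (fun j => Icc 1 (H j)),
      e (x + h) t * (starRingEnd ℂ) (e x t) * (∏ j ∈ J, Dl h (g j) (x + ((t * u j : ℕ) : ZMod X))) *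
        (γ (x + h) u * (starRingEnd ℂ) (γ x u)) =
      ∑ t ∈ Icc 1 H0, ∑ u ∈ Fintype.piFinset (fun j => Icc 1 (H j)), ∑ x : ZMod X,
      e (x + h) t * (starRingEnd ℂ) (e x t) * (∏ j ∈ J, Dl h (g j) (x + ((t * u j : ℕ) : ZMod X))) *
        (γ (x + h) u * (starRingEnd ℂ) (γ x u)) := by
    intro h
    rw [Finset.sum_comm]
    refine Finset.sum_congr rfl fun t _ => ?_
    rw [Finset.sum_comm]
  rw [Finset.sum_congr rfl fun h _ => h2 h]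
  rw [Finset.sum_comm (s := univ) (t := Icc 1 H0)]
  refine Finset.sum_congr rfl fun t _ => ?_
  rw [Finset.sum_comm (s := univ) (t := Fintype.piFinset (fun j => Icc 1 (H j)))]
  refine Finset.sum_congr rfl fun u _ => Finset.sum_congr rfl fun h _ => Finset.sum_congr rfl fun x _ => ?_
  rw [map_mul, map_mul, map_prod]
  have h3 : ∏ j ∈ J, Dl h (g j) (x + ((t * u j : ℕ) : ZMod X)) =
      (∏ j ∈ J, g j (x + h + ((t * u j : ℕ) : ZMod X))) *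
        ∏ j ∈ J, (starRingEnd ℂ) (g j (x + ((t * u j : ℕ) : ZMod X))) := by
    rw [← Finset.prod_mul_distrib]
    refine Finset.prod_congr rfl fun j _ => ?_
    unfold Dl
    rw [add_right_comm]
  rw [h3]
  ring

lemma norm_TS_le {m : ℕ} (J : Finset (Fin m)) (H0 : ℕ) (H : Fin m → ℕ) (f : ZMod X → ℕ → ℂ)
    (g : Fin m → ZMod X → ℂ) (γ : ZMod X → (Fin m → ℕ) → ℂ) (hf : ∀ x t, ‖f x t‖ ≤ 1)
    (hg : ∀ j x, ‖g j x‖ ≤ 1) (hγ : ∀ x u, ‖γ x u‖ ≤ 1) :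
    ‖TS J H0 H f g γ‖ ≤ X * H0 * ∏ j, (H j : ℝ) := by
  unfold TS
  have h1 : (X * H0 * ∏ j, (H j : ℝ)) = ∑ _x : ZMod X, ∑ _t ∈ Icc 1 H0,
      ∑ _u ∈ Fintype.piFinset (fun j => Icc 1 (H j)), (1 : ℝ) := by
    simp only [Finset.sum_const, nsmul_eq_mul, mul_one, Fintype.card_piFinset, Nat.card_Icc,
      Nat.add_sub_cancel, Finset.card_univ, ZMod.card]
    push_cast
    ring
  rw [h1]
  refine norm_sum_le_of_le _ fun x _ => norm_sum_le_of_le _ fun t _ => norm_sum_le_of_le _ fun u _ => ?_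
  rw [norm_mul, norm_mul, norm_prod]
  have h2 : ∏ j ∈ J, ‖g j (x + ((t * u j : ℕ) : ZMod X))‖ ≤ 1 :=
    Finset.prod_le_one (fun j _ => norm_nonneg _) (fun j _ => hg j _)
  have h3 : 0 ≤ ∏ j ∈ J, ‖g j (x + ((t * u j : ℕ) : ZMod X))‖ :=
    Finset.prod_nonneg (fun j _ => norm_nonneg _)
  exact mul_le_one₀ (mul_le_one₀ (hf _ _) h3 h2) (norm_nonneg _) (hγ _ _)

/-- The square after expansion. -/
lemma sq_expand (ℓ : ℕ) (a : ℕ → ZMod X → ℂ) :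
    ∑ h : ZMod X, ∑ x : ZMod X, ‖∑ i ∈ range ℓ, a i (x + h) * (starRingEnd ℂ) (a i x)‖ ^ 2 =
      ∑ i ∈ range ℓ, ∑ i' ∈ range ℓ, ‖∑ x : ZMod X, a i x * (starRingEnd ℂ) (a i' x)‖ ^ 2 := by
  have h1 : ∑ h : ZMod X, ∑ x : ZMod X, ‖∑ i ∈ range ℓ, a i (x + h) * (starRingEnd ℂ) (a i x)‖ ^ 2 =
      ∑ x : ZMod X, ∑ y : ZMod X, ‖∑ i ∈ range ℓ, a i y * (starRingEnd ℂ) (a i x)‖ ^ 2 := by
    rw [Finset.sum_comm]
    refine Finset.sum_congr rfl fun x _ => ?_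
    exact Equiv.sum_comp (Equiv.addLeft x)
      (fun y => ‖∑ i ∈ range ℓ, a i y * (starRingEnd ℂ) (a i x)‖ ^ 2)
  rw [h1]
  have h2 : ∀ z : ℂ, ((‖z‖ ^ 2 : ℝ) : ℂ) = z * (starRingEnd ℂ) z := by
    intro z
    rw [Complex.mul_conj, Complex.normSq_eq_norm_sq]
  have h3 : ((∑ x : ZMod X, ∑ y : ZMod X, ‖∑ i ∈ range ℓ, a i y * (starRingEnd ℂ) (a i x)‖ ^ 2 : ℝ) : ℂ) =
      ((∑ i ∈ range ℓ, ∑ i' ∈ range ℓ, ‖∑ x : ZMod X, a i x * (starRingEnd ℂ) (a i' x)‖ ^ 2 : ℝ) : ℂ) := by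
    simp only [Complex.ofReal_sum, h2, map_sum, map_mul, Complex.conj_conj, Finset.sum_mul_sum]
    -- left: ∑ x ∑ y ∑ i ∑ i', right: ∑ i ∑ i' ∑ y ∑ x
    have h4 : ∀ x : ZMod X, ∑ y : ZMod X, ∑ i ∈ range ℓ, ∑ i' ∈ range ℓ,
        a i y * (starRingEnd ℂ) (a i x) * ((starRingEnd ℂ) (a i' y) * a i' x) =
        ∑ i ∈ range ℓ, ∑ i' ∈ range ℓ, ∑ y : ZMod X,
        a i y * (starRingEnd ℂ) (a i x) * ((starRingEnd ℂ) (a i' y) * a i' x) := by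
      intro x
      rw [Finset.sum_comm]
      exact Finset.sum_congr rfl fun i _ => Finset.sum_comm
    simp_rw [h4]
    rw [Finset.sum_comm]
    refine Finset.sum_congr rfl fun i _ => ?_
    rw [Finset.sum_comm]
    refine Finset.sum_congr rfl fun i' _ => ?_
    rw [Finset.sum_comm]
    refine Finset.sum_congr rfl fun y _ => Finset.sum_congr rfl fun x _ => ?_
    ring
  exact_mod_cast h3

end ThmSAux

open ThmSAux in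
theorem thmS (m : ℕ) : ∃ C : ℕ, ∀ (δ : ℝ) (X : ℕ) [NeZero X] (J : Finset (Fin m)) (H0 : ℕ) (H W : Fin m → ℕ),
    0 < δ → δ ≤ 1 / 2 → (∀ j ∈ J, Adm δ C X H0 (H j) (W j)) → (δ⁻¹) ^ C ≤ H0 → (∀ j, 1 ≤ H j) →
    ∀ (e : ZMod X → ℕ → ℂ) (g : Fin m → ZMod X → ℂ) (γ : ZMod X → (Fin m → ℕ) → ℂ), (∀ x t, ‖e x t‖ ≤ 1) →
    (∀ j x, ‖g j x‖ ≤ 1) → (∀ x u, ‖γ x u‖ ≤ 1) →
    δ * ((X : ℝ) ^ 2 * H0 * ∏ j, (H j : ℝ)) ≤ ∑ t ∈ Icc 1 H0, ∑ u ∈ Fintype.piFinset (fun j => Icc 1 (H j)),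
      ‖∑ x : ZMod X, e x t * (∏ j ∈ J, g j (x + ((t * u j : ℕ) : ZMod X))) * γ x u‖ ^ 2 →
    δ ^ C * ((X : ℝ) ^ 2 * (H0 : ℝ) ^ 2) ≤
      ∑ t ∈ Icc 1 H0, ∑ t' ∈ Icc 1 H0, ‖∑ x : ZMod X, e x t * (starRingEnd ℂ) (e x t')‖ ^ 2 := by
  obtain ⟨c, hc⟩ := claimS m
  refine ⟨10 * c + 5, ?_⟩
  intro δ X hX J H0 H W hδ hδ2 hAdm hH0 hH e g γ he hg hγ hmain
  have hδi : 1 ≤ δ⁻¹ := by
    rw [one_le_inv₀ hδ]
    linarith
  have hXpos : (0 : ℝ) < X := by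
    have : X ≠ 0 := NeZero.ne X
    exact_mod_cast Nat.pos_of_ne_zero this
  have hH0pos : (0 : ℝ) < H0 := lt_of_lt_of_le (by positivity) ((one_le_pow₀ hδi).trans hH0)
  have hPpos : (0 : ℝ) < ∏ j, (H j : ℝ) := Finset.prod_pos fun j _ => by
    have := hH j
    exact_mod_cast this
  set P : ℝ := ∏ j, (H j : ℝ) with hP
  set B : ℝ := X * H0 * P with hB
  have hBpos : 0 < B := by positivity
  set f : ZMod X → ZMod X → ℕ → ℂ := fun h x t => e (x + h) t * (starRingEnd ℂ) (e x t) with hf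
  set T : ZMod X → ℂ := fun h => TS J H0 H (f h) (fun j => Dl h (g j))
      (fun x u => γ (x + h) u * (starRingEnd ℂ) (γ x u)) with hT
  have hfn : ∀ h x t, ‖f h x t‖ ≤ 1 := by
    intro h x t
    simp only [hf]
    rw [norm_mul, Complex.norm_conj]
    exact mul_le_one₀ (he _ _) (norm_nonneg _) (he _ _)
  have hgn : ∀ h j x, ‖Dl h (g j) x‖ ≤ 1 := fun h j x => norm_Dl_le h (g j) (hg j) x
  have hγn : ∀ (h x : ZMod X) u, ‖γ (x + h) u * (starRingEnd ℂ) (γ x u)‖ ≤ 1 := by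
    intro h x u
    rw [norm_mul, Complex.norm_conj]
    exact mul_le_one₀ (hγ _ _) (norm_nonneg _) (hγ _ _)
  have hTn : ∀ h, ‖T h‖ ≤ B := fun h => norm_TS_le J H0 H _ _ _ (hfn h) (hgn h) (hγn h)
  have hsumT : δ * (X * B) ≤ ∑ h, ‖T h‖ := by
    have h1 := sum_TS J H0 H e g γ
    have h2 : δ * ((X : ℝ) ^ 2 * H0 * P) ≤ ‖∑ h, T h‖ := by
      rw [hT]
      rw [← h1, Complex.norm_real]
      exact hmain.trans (le_abs_self _)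
    have h3 : δ * (X * B) = δ * ((X : ℝ) ^ 2 * H0 * P) := by rw [hB]; ring
    rw [h3]
    exact h2.trans (norm_sum_le _ _)
  -- the good h
  classical
  set G : Finset (ZMod X) := univ.filter (fun h => δ / 2 * B ≤ ‖T h‖) with hG
  have hGcard : δ / 2 * X ≤ G.card := by
    have h1 : ∑ h, ‖T h‖ ≤ G.card * B + X * (δ / 2 * B) := by
      rw [← Finset.sum_filter_add_sum_filter_not univ (fun h => δ / 2 * B ≤ ‖T h‖)]
      refine add_le_add ?_ ?_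
      · rw [← nsmul_eq_mul]
        exact Finset.sum_le_card_nsmul _ _ _ fun h _ => hTn h
      · refine (Finset.sum_le_card_nsmul _ _ (δ / 2 * B) fun h hh => ?_).trans ?_
        · rw [Finset.mem_filter, not_le] at hh
          exact hh.2.le
        · rw [nsmul_eq_mul]
          refine mul_le_mul_of_nonneg_right ?_ (by positivity)
          have : ((univ : Finset (ZMod X)).filter (fun h => ¬ δ / 2 * B ≤ ‖T h‖)).card ≤ X := by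
            refine (Finset.card_filter_le _ _).trans ?_
            rw [Finset.card_univ, ZMod.card]
          exact_mod_cast this
    have h2 : δ / 2 * X * B ≤ G.card * B := by nlinarith
    exact le_of_mul_le_mul_right h2 hBpos
  -- claimS
  have hδ' : (0 : ℝ) < δ ^ 2 := by positivity
  have hδ'2 : δ ^ 2 ≤ δ / 2 := by nlinarith
  have hδ'h : δ ^ 2 ≤ 1 / 2 := by linarith
  have hAdm' : ∀ j ∈ J, Adm (δ ^ 2) c X H0 (H j) (W j) := fun j hj =>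
    Adm.pow 2 (by norm_num) ((hAdm j hj).mono (by omega))
  have hH0' : ((δ ^ 2)⁻¹) ^ c ≤ H0 := by
    rw [← inv_pow, ← pow_mul]
    exact (pow_le_pow_right₀ hδi (by omega)).trans hH0
  set ℓ : ℕ := ⌊(δ ^ 2) ^ c * H0⌋₊ with hℓ
  have hℓle : (ℓ : ℝ) ≤ (δ ^ 2) ^ c * H0 := Nat.floor_le (by positivity)
  have hone : 1 ≤ (δ ^ 2) ^ c * (H0 : ℝ) := by
    have h1 : ((δ ^ 2)⁻¹) ^ c * (δ ^ 2) ^ c = 1 := by
      rw [← mul_pow, inv_mul_cancel₀ hδ'.ne', one_pow]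
    have h2 : (0 : ℝ) < (δ ^ 2) ^ c := by positivity
    nlinarith
  have hℓge : (δ ^ 2) ^ c * H0 / 2 ≤ ℓ := by
    have h1 : (δ ^ 2) ^ c * H0 < ℓ + 1 := Nat.lt_floor_add_one _
    have h2 : (1 : ℝ) ≤ ℓ := by
      have : 1 ≤ ℓ := Nat.le_floor (by exact_mod_cast hone)
      exact_mod_cast this
    linarith
  have hℓpos : (0 : ℝ) < ℓ := lt_of_lt_of_le (by positivity) hℓge
  set Y : ZMod X → ℕ → ℝ := fun h q => ∑ x : ZMod X, ∑ t ∈ Icc 1 (H0 - q * ℓ), ‖∑ i ∈ range ℓ, f h x (t + q * i)‖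
    with hY
  have hYnn : ∀ h q, 0 ≤ Y h q := fun h q => Finset.sum_nonneg fun x _ => Finset.sum_nonneg fun t _ => norm_nonneg _
  set S : Finset ℕ := (Icc 1 ⌊((δ ^ 2)⁻¹) ^ c⌋₊).filter (fun q => q * ℓ ≤ H0) with hS
  have hex : ∀ h ∈ G, ∃ q ∈ S, (δ ^ 2) ^ c * (X * H0 * ℓ) ≤ Y h q := by
    intro h hh
    rw [hG, Finset.mem_filter] at hh
    obtain ⟨q, hq1, hq2, hq3⟩ := hc (δ ^ 2) X J H0 H W hδ' hδ'h hAdm' hH0' hH (f h) (fun j => Dl h (g j))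
      (fun x u => γ (x + h) u * (starRingEnd ℂ) (γ x u)) (hfn h) (hgn h) (hγn h)
      (le_trans (mul_le_mul_of_nonneg_right hδ'2 hBpos.le) hh.2)
    obtain ⟨hq4, hq5⟩ := hq3 ℓ hℓle
    refine ⟨q, ?_, hq5⟩
    rw [hS, Finset.mem_filter, Finset.mem_Icc]
    exact ⟨⟨hq1, Nat.le_floor hq2⟩, hq4⟩
  -- one q for many h
  have hsumY : (δ ^ 2) ^ c * (X * H0 * ℓ) * (δ / 2 * X) ≤ ∑ q ∈ S, ∑ h, Y h q := by
    rw [Finset.sum_comm]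
    calc (δ ^ 2) ^ c * (X * H0 * ℓ) * (δ / 2 * X) ≤ (δ ^ 2) ^ c * (X * H0 * ℓ) * G.card :=
          mul_le_mul_of_nonneg_left hGcard (by positivity)
      _ = G.card • ((δ ^ 2) ^ c * (X * H0 * ℓ)) := by rw [nsmul_eq_mul]; ring
      _ ≤ ∑ h ∈ G, ∑ q ∈ S, Y h q := by
          refine Finset.card_nsmul_le_sum _ _ _ fun h hh => ?_
          obtain ⟨q, hq, hq'⟩ := hex h hh
          exact hq'.trans (Finset.single_le_sum (f := fun q => Y h q) (fun q _ => hYnn h q) hq)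
      _ ≤ ∑ h, ∑ q ∈ S, Y h q :=
          Finset.sum_le_sum_of_subset_of_nonneg (Finset.subset_univ _)
            fun h _ _ => Finset.sum_nonneg fun q _ => hYnn h q
  have hScard : (S.card : ℝ) ≤ ((δ ^ 2)⁻¹) ^ c := by
    have h1 : S.card ≤ ⌊((δ ^ 2)⁻¹) ^ c⌋₊ := by
      refine (Finset.card_filter_le _ _).trans ?_
      rw [Nat.card_Icc, Nat.add_sub_cancel]
    exact (by exact_mod_cast h1 : (S.card : ℝ) ≤ (⌊((δ ^ 2)⁻¹) ^ c⌋₊ : ℝ)).trans (Nat.floor_le (by positivity))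
  set η : ℝ := (δ ^ 2) ^ c * ((δ ^ 2) ^ c * (δ / 2)) with hη
  have hηpos : 0 < η := by positivity
  obtain ⟨q, hqS, hqY⟩ : ∃ q ∈ S, η * ((X : ℝ) ^ 2 * H0 * ℓ) ≤ ∑ h, Y h q := by
    by_contra hcon
    push Not at hcon
    have hne : S.Nonempty := by
      rw [Finset.nonempty_iff_ne_empty]
      intro h0
      rw [h0, Finset.sum_empty] at hsumY
      have : 0 < (δ ^ 2) ^ c * (X * H0 * ℓ) * (δ / 2 * X) := by positivity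
      linarith
    have h1 : ∑ q ∈ S, ∑ h, Y h q < S.card * (η * ((X : ℝ) ^ 2 * H0 * ℓ)) := by
      have h0 := Finset.sum_lt_sum_of_nonempty hne hcon
      rwa [Finset.sum_const, nsmul_eq_mul] at h0
    have h2 : (S.card : ℝ) * (η * ((X : ℝ) ^ 2 * H0 * ℓ)) ≤
        ((δ ^ 2)⁻¹) ^ c * (η * ((X : ℝ) ^ 2 * H0 * ℓ)) :=
      mul_le_mul_of_nonneg_right hScard (by positivity)
    have h3 : ((δ ^ 2)⁻¹) ^ c * (η * ((X : ℝ) ^ 2 * H0 * ℓ)) =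
        (δ ^ 2) ^ c * (X * H0 * ℓ) * (δ / 2 * X) := by
      have h4 : ((δ ^ 2)⁻¹) ^ c * (δ ^ 2) ^ c = 1 := by
        rw [← mul_pow, inv_mul_cancel₀ hδ'.ne', one_pow]
      rw [hη]
      calc ((δ ^ 2)⁻¹) ^ c * ((δ ^ 2) ^ c * ((δ ^ 2) ^ c * (δ / 2)) * ((X : ℝ) ^ 2 * H0 * ℓ)) =
          (((δ ^ 2)⁻¹) ^ c * (δ ^ 2) ^ c) * ((δ ^ 2) ^ c * (δ / 2) * ((X : ℝ) ^ 2 * H0 * ℓ)) := by ring
        _ = _ := by rw [h4]; ring
    linarith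
  rw [hS, Finset.mem_filter, Finset.mem_Icc] at hqS
  obtain ⟨⟨hq1, -⟩, hqℓ⟩ := hqS
  -- Cauchy-Schwarz
  have hCS : (∑ h, Y h q) ^ 2 ≤ (X : ℝ) ^ 2 * H0 * ∑ t ∈ Icc 1 (H0 - q * ℓ), ∑ h : ZMod X, ∑ x : ZMod X,
      ‖∑ i ∈ range ℓ, f h x (t + q * i)‖ ^ 2 := by
    have h1 : ∑ h, Y h q = ∑ p ∈ (univ : Finset (ZMod X)) ×ˢ ((univ : Finset (ZMod X)) ×ˢ Icc 1 (H0 - q * ℓ)),
        ‖∑ i ∈ range ℓ, f p.1 p.2.1 (p.2.2 + q * i)‖ := by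
      rw [Finset.sum_product]
      refine Finset.sum_congr rfl fun h _ => ?_
      rw [Finset.sum_product]
    have h2 : ∑ t ∈ Icc 1 (H0 - q * ℓ), ∑ h : ZMod X, ∑ x : ZMod X,
        ‖∑ i ∈ range ℓ, f h x (t + q * i)‖ ^ 2 =
        ∑ p ∈ (univ : Finset (ZMod X)) ×ˢ ((univ : Finset (ZMod X)) ×ˢ Icc 1 (H0 - q * ℓ)),
        ‖∑ i ∈ range ℓ, f p.1 p.2.1 (p.2.2 + q * i)‖ ^ 2 := by
      rw [Finset.sum_product, Finset.sum_comm]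
      refine Finset.sum_congr rfl fun h _ => ?_
      rw [Finset.sum_product, Finset.sum_comm]
    rw [h1, h2]
    refine (sq_sum_le_card_mul_sum_sq).trans ?_
    refine mul_le_mul_of_nonneg_right ?_ (Finset.sum_nonneg fun p _ => by positivity)
    rw [Finset.card_product, Finset.card_product, Finset.card_univ, ZMod.card, Nat.card_Icc, Nat.add_sub_cancel]
    have h3 : ((H0 - q * ℓ : ℕ) : ℝ) ≤ H0 := by exact_mod_cast Nat.sub_le _ _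
    push_cast
    have h4 : (X : ℝ) * (X * ((H0 - q * ℓ : ℕ) : ℝ)) ≤ X * (X * H0) := by gcongr
    calc (X : ℝ) * (X * ((H0 - q * ℓ : ℕ) : ℝ)) ≤ X * (X * H0) := h4
      _ = (X : ℝ) ^ 2 * H0 := by ring
  set R : ℝ := ∑ t ∈ Icc 1 H0, ∑ t' ∈ Icc 1 H0, ‖∑ x : ZMod X, e x t * (starRingEnd ℂ) (e x t')‖ ^ 2 with hR
  have hfib : ∑ t ∈ Icc 1 (H0 - q * ℓ), ∑ h : ZMod X, ∑ x : ZMod X,
      ‖∑ i ∈ range ℓ, f h x (t + q * i)‖ ^ 2 ≤ ℓ * R := by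
    have h1 : ∀ t, ∑ h : ZMod X, ∑ x : ZMod X, ‖∑ i ∈ range ℓ, f h x (t + q * i)‖ ^ 2 =
        ∑ i ∈ range ℓ, ∑ i' ∈ range ℓ,
          ‖∑ x : ZMod X, e x (t + q * i) * (starRingEnd ℂ) (e x (t + q * i'))‖ ^ 2 :=
      fun t => sq_expand ℓ (fun i x => e x (t + q * i))
    simp_rw [h1]
    exact fiber_count H0 q ℓ hq1 hqℓ (fun a b => ‖∑ x : ZMod X, e x a * (starRingEnd ℂ) (e x b)‖ ^ 2)
      (fun a b => by positivity)
  -- conclusion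
  have hfin : η ^ 2 * ((X : ℝ) ^ 2 * H0 * ℓ) ≤ R := by
    have h1 : (η * ((X : ℝ) ^ 2 * H0 * ℓ)) ^ 2 ≤ (X : ℝ) ^ 2 * H0 * (ℓ * R) :=
      (pow_le_pow_left₀ (by positivity) hqY 2).trans
        (hCS.trans (mul_le_mul_of_nonneg_left hfib (by positivity)))
    have h2 : (η ^ 2 * ((X : ℝ) ^ 2 * H0 * ℓ)) * ((X : ℝ) ^ 2 * H0 * ℓ) ≤ R * ((X : ℝ) ^ 2 * H0 * ℓ) := by
      calc (η ^ 2 * ((X : ℝ) ^ 2 * H0 * ℓ)) * ((X : ℝ) ^ 2 * H0 * ℓ) = (η * ((X : ℝ) ^ 2 * H0 * ℓ)) ^ 2 := by ring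
        _ ≤ (X : ℝ) ^ 2 * H0 * (ℓ * R) := h1
        _ = R * ((X : ℝ) ^ 2 * H0 * ℓ) := by ring
    exact le_of_mul_le_mul_right h2 (by positivity)
  refine le_trans ?_ hfin
  have hd1 : δ ^ (10 * c + 5) * ((X : ℝ) ^ 2 * (H0 : ℝ) ^ 2) ≤
      η ^ 2 * ((X : ℝ) ^ 2 * H0 * ((δ ^ 2) ^ c * H0 / 2)) := by
    have e1 : η ^ 2 * ((X : ℝ) ^ 2 * H0 * ((δ ^ 2) ^ c * H0 / 2)) =
        (δ ^ (10 * c + 2) / 8) * ((X : ℝ) ^ 2 * (H0 : ℝ) ^ 2) := by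
      rw [hη]
      ring
    rw [e1]
    refine mul_le_mul_of_nonneg_right ?_ (by positivity)
    have e2 : δ ^ (10 * c + 5) = δ ^ (10 * c + 2) * δ ^ 3 := by rw [← pow_add]
    rw [e2]
    have h3 : δ ^ 3 ≤ 1 / 8 := by
      calc δ ^ 3 ≤ (1 / 2) ^ 3 := pow_le_pow_left₀ hδ.le hδ2 3
        _ = 1 / 8 := by norm_num
    have h4 : (0 : ℝ) < δ ^ (10 * c + 2) := by positivity
    nlinarith
  refine hd1.trans ?_
  refine mul_le_mul_of_nonneg_left ?_ (by positivity)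
  exact mul_le_mul_of_nonneg_left hℓge (by positivity)

end Pool.Agent.BLF
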