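import Pool.Agent.Lib.BLF.Lift
import Pool.Agent.Lib.BLF.ThmS
import Pool.Agent.Lib.VN.WeightsMs

/-!
# Module SingleMs: mean square over a single slot

PROOF. `C₁` from `thmS m`, `L = log x`, `k₀ = K (m + 1) + 2`, `δ = L^(-(B + 2 k₀ + 2))` (adjust). Suppose the left side is larger than `H0 ∏ H x² / L^B`. `X` from `pow_two`, `W j ∣ X` for `N = H0 H j`, `j ∈ J` (`H0 H j ≤ x`). On `ZMod X`:
`e z t = ff (zA A x) (z.val + τ t) / L²` if `1 ≤ z.val ≤ x` and `t ∈ Icc 1 H0`, else `0` (`τ t ≤ x` as `MSP` contains `T ⊆ range (x + 1)`; `|ff n| ≤ L²` for `n ≤ 2 x`, see the proof of `gen_ms` in `VN/WeightsMs`);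
`g j z = G j (z.val + v j) / L^K` if `1 ≤ z.val + v j ≤ 2 x`, else `0`; `γ' z u = γ z.val u / L^K` if `1 ≤ z.val ≤ x` and `u ∈ piFinset`, else `0`. Then for `t ≤ H0`, `u ∈ piFinset` the sum over `z` of `e z t ∏_{j ∈ J} g j (z + t u_j) γ' z u` is `L^(-(2 + K |J| + K))`
times the sum over `n` in the claim (`sum_lift`, `val_lift`, `n + t u_j + v j ≤ 2 x < X`), so the hypothesis of `thmS` holds. Its conclusion: `δ^C₁ X² H0² ≤ ∑_{t,t'} ‖∑_z e z t conj (e z t')‖² = L^(-8) ∑_{t,t'} (∑_{n ≤ x} ff (n + τ t) ff (n + τ t'))²`,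
but for fixed `t'` the mean square property of the image (`K' = 2`, weight `h n = ff (n + τ t')`, `τ` injective, the image has `H0` elements) bounds the sum over `t` by `H0 x² / L^B'`: a contradiction if `B' = C₁ (B + 2 k₀ + 2) + 1`. `C = C₁ (B + 2 k₀ + 2)`.
The imports are black boxes.
-/

set_option autoImplicit false

open Finset Filter

namespace Pool.Agent.BLF

open Pool.Agent.HLB Pool.Agent.HL Pool.Agent.HLT Pool.Agent.HLU Pool.Agent.VN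

namespace SingleMsAux

/-- the bound for `ff` -/
theorem ff_bd (A : ℕ) : ∀ᶠ x : ℕ in atTop, ∀ n ≤ 2 * x, |ff (zA A x) n| ≤ Real.log x ^ 2 := by
  filter_upwards [DZ_inv_le A, ev_log 2, eventually_ge_atTop 1] with x h4 hL2 hx1 n hn
  have hL1 : 1 ≤ Real.log x := by linarith
  have hLL : Real.log x ≤ Real.log x ^ 2 := by nlinarith
  have e1 : |lp n| ≤ Real.log x ^ 2 := by
    rw [abs_of_nonneg (lp_nonneg n)]
    exact lp_le_sq hL2 hn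
  have e2 : |nuz (zA A x) n| ≤ Real.log x ^ 2 := by
    rw [abs_of_nonneg (nuz_nonneg _ n)]
    exact (nuz_le _ n).trans (h4.trans hLL)
  unfold ff
  rw [abs_of_nonneg (lp_nonneg n)] at e1
  rw [abs_of_nonneg (nuz_nonneg _ n)] at e2
  have e3 := lp_nonneg n
  have e4 := nuz_nonneg (zA A x) n
  rw [abs_le]
  constructor <;> linarith

/-- the lift of the prime weight -/
noncomputable def eF {X : ℕ} (x H0 : ℕ) (τ : ℕ → ℕ) (F : ℕ → ℝ) (a : ℝ) (z : ZMod X) (t : ℕ) : ℂ :=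
  if (1 ≤ z.val ∧ z.val ≤ x) ∧ t ∈ Icc 1 H0 then ((F (z.val + τ t) / a : ℝ) : ℂ) else 0

/-- the lift of the other weights -/
noncomputable def gF {X : ℕ} (x v : ℕ) (G : ℕ → ℝ) (b : ℝ) (z : ZMod X) : ℂ :=
  if 1 ≤ z.val + v ∧ z.val + v ≤ 2 * x then ((G (z.val + v) / b : ℝ) : ℂ) else 0

/-- the lift of the coefficients -/
noncomputable def cF {X : ℕ} {σ : Type} [DecidableEq σ] (x : ℕ) (P : Finset σ) (γ : ℕ → σ → ℂ)
    (b : ℝ) (z : ZMod X) (u : σ) : ℂ :=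
  if (1 ≤ z.val ∧ z.val ≤ x) ∧ u ∈ P then γ z.val u / (b : ℂ) else 0

theorem norm_eF {X : ℕ} {x H0 : ℕ} {τ : ℕ → ℕ} {F : ℕ → ℝ} {a : ℝ} (ha : 0 < a)
    (hτ : ∀ t ∈ Icc 1 H0, τ t ≤ x) (hF : ∀ n ≤ 2 * x, |F n| ≤ a) (z : ZMod X) (t : ℕ) :
    ‖eF x H0 τ F a z t‖ ≤ 1 := by
  unfold eF
  split_ifs with h
  · rw [Complex.norm_real, Real.norm_eq_abs, abs_div, abs_of_pos ha, div_le_one ha]
    have := hτ t h.2
    exact hF _ (by omega)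
  · rw [norm_zero]
    exact zero_le_one

theorem norm_gF {X : ℕ} {x v : ℕ} {G : ℕ → ℝ} {b : ℝ} (hb : 0 < b)
    (hG : ∀ n ∈ Icc 1 (2 * x), |G n| ≤ b) (z : ZMod X) : ‖gF x v G b z‖ ≤ 1 := by
  unfold gF
  split_ifs with h
  · rw [Complex.norm_real, Real.norm_eq_abs, abs_div, abs_of_pos hb, div_le_one hb]
    exact hG _ (Finset.mem_Icc.2 h)
  · rw [norm_zero]
    exact zero_le_one

theorem norm_cF {X : ℕ} {σ : Type} [DecidableEq σ] {x : ℕ} {P : Finset σ} {γ : ℕ → σ → ℂ}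
    {b : ℝ} (hb : 0 < b) (hγ : ∀ n ∈ Icc 1 x, ∀ u ∈ P, ‖γ n u‖ ≤ b) (z : ZMod X) (u : σ) :
    ‖cF x P γ b z u‖ ≤ 1 := by
  unfold cF
  split_ifs with h
  · rw [norm_div, Complex.norm_real, Real.norm_eq_abs, abs_of_pos hb, div_le_one hb]
    exact hγ _ (Finset.mem_Icc.2 h.1) u h.2
  · rw [norm_zero]
    exact zero_le_one

theorem val_nat {X : ℕ} [NeZero X] {n : ℕ} (h : n < X) : ((n : ℕ) : ZMod X).val = n :=
  ZMod.val_cast_of_lt h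

theorem sum_one {X : ℕ} [NeZero X] {m x : ℕ} (hX : 4 * x ≤ X) (hx : 1 ≤ x) (J : Finset (Fin m))
    (H0 : ℕ) (H v : Fin m → ℕ) (τ : ℕ → ℕ) (hJ : ∀ j ∈ J, v j + H0 * H j ≤ x) (F : ℕ → ℝ)
    (G : Fin m → ℕ → ℝ) (γ : ℕ → (Fin m → ℕ) → ℂ) (a b : ℝ) {t : ℕ} (ht : t ∈ Icc 1 H0)
    {u : Fin m → ℕ} (hu : u ∈ Fintype.piFinset (fun j => Icc 1 (H j))) :
    ∑ z : ZMod X, eF x H0 τ F a z t *
        (∏ j ∈ J, gF x (v j) (G j) b (z + ((t * u j : ℕ) : ZMod X))) *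
        cF x (Fintype.piFinset (fun j => Icc 1 (H j))) γ b z u =
      (∑ n ∈ Icc 1 x, (F (n + τ t) : ℂ) * (∏ j ∈ J, (G j (n + (v j + t * u j)) : ℂ)) * γ n u) /
        ((a : ℂ) * (b : ℂ) ^ J.card * b) := by
  have h1 : ∀ z : ZMod X, eF x H0 τ F a z t *
        (∏ j ∈ J, gF x (v j) (G j) b (z + ((t * u j : ℕ) : ZMod X))) *
        cF x (Fintype.piFinset (fun j => Icc 1 (H j))) γ b z u =
      if 1 ≤ z.val ∧ z.val ≤ x then ((F (z.val + τ t) / a : ℝ) : ℂ) *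
        (∏ j ∈ J, gF x (v j) (G j) b (z + ((t * u j : ℕ) : ZMod X))) *
        (γ z.val u / (b : ℂ)) else 0 := by
    intro z
    unfold eF cF
    by_cases hz : 1 ≤ z.val ∧ z.val ≤ x
    · rw [if_pos ⟨hz, ht⟩, if_pos ⟨hz, hu⟩, if_pos hz]
    · rw [if_neg hz, if_neg (fun h => hz h.1), zero_mul, zero_mul]
  rw [Finset.sum_congr rfl fun z _ => h1 z,
    sum_lift x (by omega) (fun z : ZMod X => ((F (z.val + τ t) / a : ℝ) : ℂ) *
        (∏ j ∈ J, gF x (v j) (G j) b (z + ((t * u j : ℕ) : ZMod X))) *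
        (γ z.val u / (b : ℂ))), Finset.sum_div]
  refine Finset.sum_congr rfl fun n hn => ?_
  rw [Finset.mem_Icc] at hn
  have h2 : ∀ j ∈ J, gF x (v j) (G j) b ((n : ZMod X) + ((t * u j : ℕ) : ZMod X)) =
      (G j (n + (v j + t * u j)) : ℂ) / (b : ℂ) := by
    intro j hj
    have h3 : t * u j ≤ H0 * H j := by
      have h4 := Finset.mem_Icc.1 (Fintype.mem_piFinset.1 hu j)
      exact Nat.mul_le_mul (Finset.mem_Icc.1 ht).2 h4.2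
    have h5 := hJ j hj
    have h6 : n + t * u j + v j = n + (v j + t * u j) := by ring
    unfold gF
    rw [val_lift n (t * u j) (by omega), if_pos (by omega), h6]
    push_cast
    rfl
  rw [val_nat (by omega : n < X), Finset.prod_congr rfl h2, Finset.prod_div_distrib,
    Finset.prod_const]
  push_cast
  rw [div_mul_div_comm, div_mul_div_comm]

theorem sum_two {X : ℕ} [NeZero X] {x : ℕ} (hX : 4 * x ≤ X) (hx : 1 ≤ x) (H0 : ℕ) (τ : ℕ → ℕ)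
    (F : ℕ → ℝ) (a : ℝ) {t t' : ℕ} (ht : t ∈ Icc 1 H0) (ht' : t' ∈ Icc 1 H0) :
    ∑ z : ZMod X, eF x H0 τ F a z t * (starRingEnd ℂ) (eF x H0 τ F a z t') =
      (∑ n ∈ Icc 1 x, (F (n + τ t') : ℂ) * (F (n + τ t) : ℂ)) / (a ^ 2 : ℂ) := by
  have h1 : ∀ z : ZMod X, eF x H0 τ F a z t * (starRingEnd ℂ) (eF x H0 τ F a z t') =
      if 1 ≤ z.val ∧ z.val ≤ x then ((F (z.val + τ t) / a : ℝ) : ℂ) *
        ((F (z.val + τ t') / a : ℝ) : ℂ) else 0 := by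
    intro z
    unfold eF
    by_cases hz : 1 ≤ z.val ∧ z.val ≤ x
    · rw [if_pos ⟨hz, ht⟩, if_pos ⟨hz, ht'⟩, if_pos hz, Complex.conj_ofReal]
    · rw [if_neg hz, if_neg (fun h => hz h.1), zero_mul]
  rw [Finset.sum_congr rfl fun z _ => h1 z,
    sum_lift x (by omega) (fun z : ZMod X => ((F (z.val + τ t) / a : ℝ) : ℂ) *
        ((F (z.val + τ t') / a : ℝ) : ℂ)), Finset.sum_div]
  refine Finset.sum_congr rfl fun n hn => ?_
  rw [Finset.mem_Icc] at hn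
  rw [val_nat (by omega : n < X)]
  push_cast
  rw [div_mul_div_comm]
  ring

end SingleMsAux

open SingleMsAux

theorem single_ms (m K B : ℕ) : ∃ K' B' C : ℕ, ∀ A : ℕ, ∀ᶠ x : ℕ in atTop, ∀ (J : Finset (Fin m)) (H0 : ℕ)
    (H v : Fin m → ℕ) (τ : ℕ → ℕ), Real.log x ^ C ≤ H0 → (∀ j ∈ J, Real.log x ^ C ≤ H j ∧ v j + H0 * H j ≤ x) →
    (∀ j, 1 ≤ H j) → Set.InjOn τ (Icc 1 H0 : Finset ℕ) → MSP A K' B' x ((Icc 1 H0).image τ) →
    ∀ (G : Fin m → ℕ → ℝ) (γ : ℕ → (Fin m → ℕ) → ℂ), (∀ j, ∀ n ∈ Icc 1 (2 * x), |G j n| ≤ Real.log x ^ K) →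
    (∀ n ∈ Icc 1 x, ∀ u ∈ Fintype.piFinset (fun j => Icc 1 (H j)), ‖γ n u‖ ≤ Real.log x ^ K) →
    ∑ t ∈ Icc 1 H0, ∑ u ∈ Fintype.piFinset (fun j => Icc 1 (H j)),
      ‖∑ n ∈ Icc 1 x, (ff (zA A x) (n + τ t) : ℂ) * (∏ j ∈ J, (G j (n + (v j + t * u j)) : ℂ)) * γ n u‖ ^ 2 ≤
    (H0 : ℝ) * (∏ j, (H j : ℝ)) * ((x : ℝ) ^ 2 / Real.log x ^ B) := by
  obtain ⟨c, hc⟩ := thmS m
  obtain ⟨D, hD⟩ : ∃ D : ℕ, D = B + 2 * (2 + K * m + K) + 1 := ⟨_, rfl⟩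
  refine ⟨2, D * c + 1, D * c, fun A => ?_⟩
  filter_upwards [ff_bd A, ev_log 64, eventually_ge_atTop 1] with x hff hL64 hx1 J H0 H v τ hH0
    hJ hH1 hτ hM G γ hG hγ
  by_contra hcon
  rw [not_le] at hcon
  obtain ⟨L, hL⟩ : ∃ L : ℝ, L = Real.log x := ⟨_, rfl⟩
  rw [← hL] at hL64 hH0 hff hG hγ hcon hJ
  have hL0 : 0 < L := by linarith
  have hL1 : 1 ≤ L := by linarith
  have hx0 : (0 : ℝ) < x := by exact_mod_cast hx1
  obtain ⟨X, hX0, hX4, hX8, hW⟩ := pow_two x hx1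
  haveI : NeZero X := ⟨hX0⟩
  have hH0pos : 1 ≤ H0 := by
    have h1 : (1 : ℝ) ≤ H0 := (one_le_pow₀ hL1).trans hH0
    exact_mod_cast h1
  have hWex : ∀ j, ∃ W : ℕ, j ∈ J → W ∣ X ∧ H0 * H j ≤ W ∧ W ≤ 2 * (H0 * H j) := by
    intro j
    by_cases hj : j ∈ J
    · obtain ⟨W, hW1⟩ := hW (H0 * H j) (Nat.mul_pos hH0pos (hH1 j)) (by
        have := (hJ j hj).2
        omega)
      exact ⟨W, fun _ => hW1⟩
    · exact ⟨1, fun h => absurd h hj⟩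
  choose W hW using hWex
  have hLD : 0 < L ^ D := pow_pos hL0 D
  have hD5 : 5 ≤ D := by omega
  have hL2D : L ^ 2 ≤ L ^ D := pow_le_pow_right₀ hL1 (by omega)
  have hLLD : L ≤ L ^ D := by
    calc L = L ^ 1 := (pow_one L).symm
      _ ≤ L ^ D := pow_le_pow_right₀ hL1 (by omega)
  have hδ0 : 0 < (L ^ D)⁻¹ := inv_pos.2 hLD
  have hδ2 : (L ^ D)⁻¹ ≤ 1 / 2 := by
    rw [one_div]
    exact inv_anti₀ two_pos (by linarith)
  have hδc : ((L ^ D)⁻¹)⁻¹ ^ c = L ^ (D * c) := by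
    rw [inv_inv, ← pow_mul]
  have hadm : ∀ j ∈ J, Adm (L ^ D)⁻¹ c X H0 (H j) (W j) := by
    intro j hj
    obtain ⟨w1, w2, w3⟩ := hW j hj
    obtain ⟨j1, j2⟩ := hJ j hj
    have hWpos : 0 < W j := Nat.lt_of_lt_of_le (Nat.mul_pos hH0pos (hH1 j)) w2
    refine ⟨hδ0, hδ2, w1, w2, w3, ?_, ?_, ?_⟩
    · rw [inv_inv]
      have h1 : W j ≤ 2 * x := by
        have : H0 * H j ≤ x := by omega
        omega
      have h2 : Real.log (W j) ≤ Real.log (2 * x) :=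
        Real.log_le_log (by exact_mod_cast hWpos) (by exact_mod_cast h1)
      rw [Real.log_mul two_ne_zero hx0.ne', ← hL] at h2
      have h3 := Real.log_two_lt_d9
      nlinarith
    · rw [hδc]
      exact hH0
    · rw [hδc]
      exact j1
  have hτx : ∀ t ∈ Icc 1 H0, τ t ≤ x := by
    intro t ht
    have h1 := Finset.mem_range.1 (hM.1 (Finset.mem_image_of_mem τ ht))
    omega
  have hL2 : 0 < L ^ 2 := pow_pos hL0 2
  have hLK : 0 < L ^ K := pow_pos hL0 K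
  have hmain := hc (L ^ D)⁻¹ X J H0 H W hδ0 hδ2 hadm (by rw [hδc]; exact hH0) hH1
    (eF x H0 τ (ff (zA A x)) (L ^ 2)) (fun j => gF x (v j) (G j) (L ^ K))
    (cF x (Fintype.piFinset (fun j => Icc 1 (H j))) γ (L ^ K))
    (norm_eF hL2 hτx hff) (fun j z => norm_gF hLK (hG j) z) (norm_cF hLK hγ)
  have hP0 : 0 ≤ ∏ j, (H j : ℝ) := Finset.prod_nonneg fun _ _ => Nat.cast_nonneg _
  have hx2 : 0 < (x : ℝ) ^ 2 := pow_pos hx0 2
  have hXx : (X : ℝ) ^ 2 ≤ 64 * (x : ℝ) ^ 2 := by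
    have h1 : (X : ℝ) ≤ 8 * x := by exact_mod_cast hX8
    have h2 : (0 : ℝ) ≤ X := Nat.cast_nonneg X
    nlinarith
  -- the hypothesis of `thmS`
  obtain ⟨q, hq⟩ : ∃ q : ℝ, q = L ^ 2 * (L ^ K) ^ J.card * L ^ K := ⟨_, rfl⟩
  have hq0 : 0 < q := by
    rw [hq]
    positivity
  have hqle : q ^ 2 * L ^ B * 64 ≤ L ^ D := by
    have hJm : J.card ≤ m := by
      have := Finset.card_le_univ J
      rwa [Fintype.card_fin] at this
    have h1 : q ≤ L ^ (2 + K * m + K) := by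
      rw [hq, ← pow_mul, ← pow_add, ← pow_add]
      refine pow_le_pow_right₀ hL1 ?_
      have := Nat.mul_le_mul_left K hJm
      omega
    have h2 : q ^ 2 ≤ L ^ (2 * (2 + K * m + K)) := by
      rw [mul_comm 2, pow_mul]
      exact pow_le_pow_left₀ hq0.le h1 2
    calc q ^ 2 * L ^ B * 64 ≤ L ^ (2 * (2 + K * m + K)) * L ^ B * L := by
          gcongr
      _ = L ^ D := by
          rw [hD, ← pow_add, ← pow_succ]
          congr 1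
          ring
  have hhyp : (L ^ D)⁻¹ * ((X : ℝ) ^ 2 * H0 * ∏ j, (H j : ℝ)) ≤ ∑ t ∈ Icc 1 H0,
      ∑ u ∈ Fintype.piFinset (fun j => Icc 1 (H j)),
      ‖∑ z : ZMod X, eF x H0 τ (ff (zA A x)) (L ^ 2) z t *
        (∏ j ∈ J, gF x (v j) (G j) (L ^ K) (z + ((t * u j : ℕ) : ZMod X))) *
        cF x (Fintype.piFinset (fun j => Icc 1 (H j))) γ (L ^ K) z u‖ ^ 2 := by
    have h1 : ∑ t ∈ Icc 1 H0, ∑ u ∈ Fintype.piFinset (fun j => Icc 1 (H j)),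
      ‖∑ z : ZMod X, eF x H0 τ (ff (zA A x)) (L ^ 2) z t *
        (∏ j ∈ J, gF x (v j) (G j) (L ^ K) (z + ((t * u j : ℕ) : ZMod X))) *
        cF x (Fintype.piFinset (fun j => Icc 1 (H j))) γ (L ^ K) z u‖ ^ 2 =
      (∑ t ∈ Icc 1 H0, ∑ u ∈ Fintype.piFinset (fun j => Icc 1 (H j)),
      ‖∑ n ∈ Icc 1 x, (ff (zA A x) (n + τ t) : ℂ) *
        (∏ j ∈ J, (G j (n + (v j + t * u j)) : ℂ)) * γ n u‖ ^ 2) / q ^ 2 := by
      rw [Finset.sum_div]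
      refine Finset.sum_congr rfl fun t ht => ?_
      rw [Finset.sum_div]
      refine Finset.sum_congr rfl fun u hu => ?_
      rw [sum_one hX4 hx1 J H0 H v τ (fun j hj => (hJ j hj).2) (ff (zA A x)) G γ (L ^ 2) (L ^ K)
        ht hu, norm_div, div_pow]
      congr 2
      have h2 : (((L ^ 2 : ℝ) : ℂ) * ((L ^ K : ℝ) : ℂ) ^ J.card * ((L ^ K : ℝ) : ℂ)) =
          ((q : ℝ) : ℂ) := by
        rw [hq]
        push_cast
        ring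
      rw [h2, Complex.norm_real, Real.norm_eq_abs, abs_of_pos hq0]
    rw [h1, le_div_iff₀ (pow_pos hq0 2)]
    refine le_trans ?_ hcon.le
    have h3 : (L ^ D)⁻¹ * q ^ 2 * 64 ≤ (L ^ B)⁻¹ := by
      rw [← one_div (L ^ B), le_div_iff₀ (pow_pos hL0 B), inv_mul_eq_div, div_mul_eq_mul_div,
        div_mul_eq_mul_div, div_le_one hLD]
      linarith
    have h4 : 0 ≤ (H0 : ℝ) * ∏ j, (H j : ℝ) := mul_nonneg (Nat.cast_nonneg _) hP0
    calc (L ^ D)⁻¹ * ((X : ℝ) ^ 2 * H0 * ∏ j, (H j : ℝ)) * q ^ 2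
        = ((L ^ D)⁻¹ * q ^ 2) * ((H0 : ℝ) * ∏ j, (H j : ℝ)) * (X : ℝ) ^ 2 := by ring
      _ ≤ ((L ^ D)⁻¹ * q ^ 2) * ((H0 : ℝ) * ∏ j, (H j : ℝ)) * (64 * (x : ℝ) ^ 2) := by
          refine mul_le_mul_of_nonneg_left hXx ?_
          positivity
      _ = ((L ^ D)⁻¹ * q ^ 2 * 64) * (((H0 : ℝ) * ∏ j, (H j : ℝ)) * (x : ℝ) ^ 2) := by ring
      _ ≤ (L ^ B)⁻¹ * (((H0 : ℝ) * ∏ j, (H j : ℝ)) * (x : ℝ) ^ 2) :=
          mul_le_mul_of_nonneg_right h3 (mul_nonneg h4 hx2.le)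
      _ = (H0 : ℝ) * (∏ j, (H j : ℝ)) * ((x : ℝ) ^ 2 / L ^ B) := by
          rw [div_eq_mul_inv]
          ring
  have hfin := hmain hhyp
  -- the mean square property
  have hms : ∀ t' ∈ Icc 1 H0, ∑ t ∈ Icc 1 H0,
      ‖∑ n ∈ Icc 1 x, (ff (zA A x) (n + τ t') : ℂ) * (ff (zA A x) (n + τ t) : ℂ)‖ ^ 2 ≤
      (H0 : ℝ) * ((x : ℝ) ^ 2 / L ^ (D * c + 1)) := by
    intro t' ht'
    have h1 := hM.2 (fun n => (ff (zA A x) (n + τ t') : ℂ)) (fun n hn => by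
      rw [Complex.norm_real, Real.norm_eq_abs, ← hL]
      have h2 := hτx t' ht'
      have h3 := Finset.mem_Icc.1 hn
      exact hff _ (by omega))
    rw [Finset.sum_image hτ, Finset.card_image_of_injOn hτ, Nat.card_Icc, Nat.add_sub_cancel,
      ← hL] at h1
    exact h1
  have hup : ∑ t ∈ Icc 1 H0, ∑ t' ∈ Icc 1 H0,
      ‖∑ z : ZMod X, eF x H0 τ (ff (zA A x)) (L ^ 2) z t *
        (starRingEnd ℂ) (eF x H0 τ (ff (zA A x)) (L ^ 2) z t')‖ ^ 2 ≤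
      (H0 : ℝ) * ((H0 : ℝ) * ((x : ℝ) ^ 2 / L ^ (D * c + 1))) := by
    rw [Finset.sum_comm]
    have h1 : ∀ t' ∈ Icc 1 H0, ∑ t ∈ Icc 1 H0,
      ‖∑ z : ZMod X, eF x H0 τ (ff (zA A x)) (L ^ 2) z t *
        (starRingEnd ℂ) (eF x H0 τ (ff (zA A x)) (L ^ 2) z t')‖ ^ 2 ≤
        (H0 : ℝ) * ((x : ℝ) ^ 2 / L ^ (D * c + 1)) := by
      intro t' ht'
      refine le_trans (Finset.sum_le_sum fun t ht => ?_) (hms t' ht')
      rw [sum_two hX4 hx1 H0 τ (ff (zA A x)) (L ^ 2) ht ht', norm_div]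
      refine pow_le_pow_left₀ (by positivity) ?_ 2
      refine div_le_self (norm_nonneg _) ?_
      rw [← Complex.ofReal_pow, Complex.norm_real, Real.norm_eq_abs, abs_of_pos (by positivity)]
      exact one_le_pow₀ (one_le_pow₀ hL1)
    refine (Finset.sum_le_sum h1).trans ?_
    rw [Finset.sum_const, Nat.card_Icc, Nat.add_sub_cancel, nsmul_eq_mul]
  have h5 := hfin.trans hup
  have h6 : ((L ^ D)⁻¹) ^ c = (L ^ (D * c))⁻¹ := by
    rw [inv_pow, ← pow_mul]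
  rw [h6] at h5
  have hH0r : (0 : ℝ) < H0 := by exact_mod_cast hH0pos
  have hLc : 0 < L ^ (D * c) := pow_pos hL0 _
  have h7 : (x : ℝ) ^ 2 ≤ (X : ℝ) ^ 2 := by
    have h8 : (x : ℝ) ≤ X := by exact_mod_cast (by omega : x ≤ X)
    exact pow_le_pow_left₀ hx0.le h8 2
  have h8 : (L ^ (D * c))⁻¹ * ((x : ℝ) ^ 2 * (H0 : ℝ) ^ 2) ≤
      (H0 : ℝ) * ((H0 : ℝ) * ((x : ℝ) ^ 2 / L ^ (D * c + 1))) := by
    refine le_trans ?_ h5
    gcongr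
  have h9 : (H0 : ℝ) * ((H0 : ℝ) * ((x : ℝ) ^ 2 / L ^ (D * c + 1))) =
      (L ^ (D * c))⁻¹ * ((x : ℝ) ^ 2 * (H0 : ℝ) ^ 2) * L⁻¹ := by
    rw [pow_succ L (D * c), div_eq_mul_inv, mul_inv]
    ring
  rw [h9] at h8
  have h10 : 0 < (L ^ (D * c))⁻¹ * ((x : ℝ) ^ 2 * (H0 : ℝ) ^ 2) := by positivity
  have h11 : L⁻¹ < 1 := inv_lt_one_of_one_lt₀ (by linarith)
  have h12 := mul_lt_mul_of_pos_left h11 h10
  rw [mul_one] at h12
  linarith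

end Pool.Agent.BLF
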