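import Pool.Agent.Lib.BLF.Defs

/-!
# Module Window: partition of `ZMod X` into windows of length `W ∣ X`

PROOF (`window_sum`). The map `(j, k) ↦ r + j W + k` from `range (X/W) × range W` to `ZMod X` is bijective: `n = j W + k` is a bijection to `range X` (`Nat.divMod`, `j = n / W`, `k = n % W`), `range X → ZMod X` (cast) is
a bijection (`ZMod.natCast_zmod_val`, `ZMod.val_lt`), and adding `r` is a bijection (`sum_shift`). (`window_avg`) `∑_x f x = ∑_{r < W} ∑_{j < X/W} f (r + j W)` (the same bijection with `r = 0`), so some `r < W` has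
`∑_j f (r + j W) ≥ (1/W) ∑_x f x`. (`win_index`) for a function `F : ℕ → ℕ → ℂ` the function `φ z = F ((z - r).val / W) ((z - r).val % W)` has `φ (r + j W + k) = F j k` for `j < X / W`, `k < W`.
-/

set_option autoImplicit false

open Finset

namespace Pool.Agent.BLF

open Pool.Agent.HLT

namespace WindowAux

lemma sum_blocks {M : Type} [AddCommMonoid M] (W : ℕ) (G : ℕ → M) (N : ℕ) :
    ∑ n ∈ range (N * W), G n = ∑ j ∈ range N, ∑ k ∈ range W, G (j * W + k) := by
  induction N with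
  | zero => simp
  | succ N ih =>
    rw [add_mul, one_mul, Finset.sum_range_add, ih, Finset.sum_range_succ]

lemma sum_zmod {X : ℕ} [NeZero X] {M : Type} [AddCommMonoid M] (F : ZMod X → M) :
    ∑ y : ZMod X, F y = ∑ n ∈ range X, F (n : ZMod X) := by
  symm
  refine Finset.sum_nbij' (fun n : ℕ => (n : ZMod X)) (fun y => y.val) ?_ ?_ ?_ ?_ ?_
  · intro n _
    exact mem_univ _
  · intro y _
    exact mem_range.mpr (ZMod.val_lt y)
  · intro n hn
    exact ZMod.val_cast_of_lt (mem_range.mp hn)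
  · intro y _
    exact ZMod.natCast_zmod_val y
  · intro n _
    rfl

end WindowAux

open WindowAux

theorem window_sum {X : ℕ} [NeZero X] {M : Type} [AddCommMonoid M] (W : ℕ) (hW : 1 ≤ W) (hWX : W ∣ X) (r : ℕ)
    (F : ZMod X → M) :
    ∑ y : ZMod X, F y = ∑ j ∈ range (X / W), ∑ k ∈ range W, F ((r + j * W + k : ℕ) : ZMod X) := by
  rw [← sum_shift F (r : ZMod X), sum_zmod]
  have h1 : range X = range (X / W * W) := by
    rw [Nat.div_mul_cancel hWX]
  rw [h1, sum_blocks W (fun n => F ((n : ZMod X) + (r : ZMod X)))]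
  refine Finset.sum_congr rfl fun j _ => Finset.sum_congr rfl fun k _ => ?_
  congr 1
  push_cast
  ring

theorem window_avg {X : ℕ} [NeZero X] (W : ℕ) (hW : 1 ≤ W) (hWX : W ∣ X) (f : ZMod X → ℝ) :
    ∃ r : ℕ, r < W ∧ ∑ x : ZMod X, f x ≤ W * ∑ j ∈ range (X / W), f ((r + j * W : ℕ) : ZMod X) := by
  by_contra hcon
  push Not at hcon
  have h1 : ∑ r ∈ range W, (W : ℝ) * ∑ j ∈ range (X / W), f ((r + j * W : ℕ) : ZMod X) <
      ∑ _r ∈ range W, ∑ x : ZMod X, f x := by
    refine Finset.sum_lt_sum_of_nonempty ⟨0, mem_range.mpr hW⟩ ?_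
    intro r hr
    exact hcon r (mem_range.mp hr)
  rw [← Finset.mul_sum, Finset.sum_const, card_range, nsmul_eq_mul] at h1
  have h2 : ∑ r ∈ range W, ∑ j ∈ range (X / W), f ((r + j * W : ℕ) : ZMod X) = ∑ x : ZMod X, f x := by
    rw [window_sum W hW hWX 0 f, Finset.sum_comm]
    refine Finset.sum_congr rfl fun j _ => Finset.sum_congr rfl fun k _ => ?_
    congr 2
    ring
  rw [h2] at h1
  exact lt_irrefl _ h1

theorem win_index {X : ℕ} [NeZero X] (W : ℕ) (hW : 1 ≤ W) (hWX : W ∣ X) (r : ℕ) (F : ℕ → ℕ → ℂ) :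
    ∃ φ : ZMod X → ℂ, ∀ j < X / W, ∀ k < W, φ ((r + j * W + k : ℕ) : ZMod X) = F j k := by
  refine ⟨fun z => F ((z - (r : ZMod X)).val / W) ((z - (r : ZMod X)).val % W), ?_⟩
  intro j hj k hk
  have h1 : ((r + j * W + k : ℕ) : ZMod X) - (r : ZMod X) = ((j * W + k : ℕ) : ZMod X) := by
    push_cast
    ring
  have h2 : j * W + k < X := by
    calc j * W + k < j * W + W := by omega
      _ = (j + 1) * W := by ring
      _ ≤ X / W * W := Nat.mul_le_mul_right W hj
      _ = X := Nat.div_mul_cancel hWX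
  simp only [h1, ZMod.val_cast_of_lt h2]
  have h3 : (j * W + k) / W = j := by
    rw [mul_comm, Nat.mul_add_div hW, Nat.div_eq_of_lt hk, add_zero]
  have h4 : (j * W + k) % W = k := by
    rw [mul_comm, Nat.mul_add_mod, Nat.mod_eq_of_lt hk]
  rw [h3, h4]

end Pool.Agent.BLF
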