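import Pool.Agent.Lib.BLF.GSup
import Pool.Agent.Lib.BLF.Window

/-!
# Module Struct: an arbitrary function can be replaced by an almost invariant one (MAIN LEMMA)

Write `D = DX H₁ H₂ S a b`. PROOF. `C₁` from `gsup`, `C₂` from `nice_sum` (module `Freq`). Let `β` be as in `gsup`, `v x = ‖∑_{k<W} D (x+k) ex (k β x)‖ ≤ W`, `η = δ^C₁`: `∑_x v x ≥ η X W`. `window_avg`: `r` with
`∑_{j < X/W} v_j ≥ η X`, `v_j = v (r + j W)`. Let `J` be the set of the `j` with `v_j ≥ (η/2) W`; `∑_{j ∈ J} v_j ≥ (η/2) X`. For `j ∈ J`: `∑_{k<W} D (r + j W + k) ex (k β_j)` times `|S| H₁ H₂` is the sum in `nice_sum`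
(`DX_add`), so `β_j` is nice with `M = (η/2)^(-C₂) ≤ δ^(-(C₁+1) C₂)`: there is `q_j ≤ M` with `nrm (q_j β_j) ≤ M / W`. Pigeonhole over the at most `M` values of `q_j`: for some `q ≤ M` the set `J_q` has
`∑_{j ∈ J_q} v_j ≥ (η/(2 M)) X`. Let `ε_j` be the number of norm 1 with `ε_j ∑_k D (r+jW+k) ex (k β_j) = v_j`, and `φ (r + j W + k) = ε_j ex (k β_j)` for `j ∈ J_q`, `0` for the other `j` (`win_index`).
Then `‖φ‖ ≤ 1` and `∑_y φ y D y = ∑_{j ∈ J_q} v_j` (`window_sum`). AINV with `R = δ^C W`: let `ρ ≤ 1`, `q k ≤ ρ R`. For `x = r + j W + l`: if `l + q k < W` then `φ (x + q k) - φ x` is `0` or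
`ε_j ex (l β_j) (ex (q k β_j) - 1)`, of norm `≤ 2 π nrm (k q β_j) ≤ 2 π k M / W ≤ 7 M ρ R / W`; the number of the `l < W` with `l + q k ≥ W` is at most `q k ≤ ρ R`, and there the difference is at most `2`. So the average
over `x` is at most `7 M ρ R / W + 2 ρ R / W ≤ ρ` if `R ≤ W / (9 M)`.
(If `X / W` is such that... note `X / W * W = X`. All sums over `x` by `window_sum` with this `r`.)
-/

set_option autoImplicit false

open Finset

namespace Pool.Agent.BLF

open Pool.Agent.HLT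

namespace StructAux

theorem norm_ex_sub_one_le (α : ℝ) : ‖ex α - 1‖ ≤ 7 * nrm α := by
  rw [ex_sub_round, norm_ex_sub_one]
  have h1 := Real.abs_sin_le_abs (x := Real.pi * (α - round α))
  rw [abs_mul, abs_of_pos Real.pi_pos] at h1
  have h2 := Real.pi_lt_d2
  have h3 := nrm_nonneg α
  unfold nrm at *
  nlinarith

theorem pow_sub_one (z : ℂ) (hz : ‖z‖ ≤ 1) (k : ℕ) : ‖z ^ k - 1‖ ≤ k * ‖z - 1‖ := by
  induction k with
  | zero => simp
  | succ k ih =>
    have e : z ^ (k + 1) - 1 = z ^ k * (z - 1) + (z ^ k - 1) := by ring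
    rw [e]
    refine (norm_add_le _ _).trans ?_
    rw [norm_mul, norm_pow]
    have h1 : ‖z‖ ^ k ≤ 1 := pow_le_one₀ (norm_nonneg _) hz
    have h2 : ‖z‖ ^ k * ‖z - 1‖ ≤ 1 * ‖z - 1‖ := mul_le_mul_of_nonneg_right h1 (norm_nonneg _)
    push_cast
    linarith

theorem norm_ex_mul_sub_one_le (k : ℕ) (α : ℝ) : ‖ex (k * α) - 1‖ ≤ k * (7 * nrm α) := by
  rw [ex_nat_mul]
  refine (pow_sub_one _ (norm_ex _).le k).trans ?_
  exact mul_le_mul_of_nonneg_left (norm_ex_sub_one_le α) (Nat.cast_nonneg k)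

/-- Every element lies in a window. -/
theorem surj {X : ℕ} [NeZero X] (W : ℕ) (hW : 1 ≤ W) (hWX : W ∣ X) (r : ℕ) (x : ZMod X) :
    ∃ j < X / W, ∃ k < W, x = ((r + j * W + k : ℕ) : ZMod X) := by
  classical
  by_contra hc
  push Not at hc
  have h := window_sum (X := X) W hW hWX r (fun y => if x = y then (1 : ℕ) else 0)
  rw [Finset.sum_ite_eq] at h
  simp only [mem_univ, if_true] at h
  rw [Finset.sum_eq_zero] at h
  · exact one_ne_zero h
  · intro j hj
    refine Finset.sum_eq_zero fun k hk => ?_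
    rw [if_neg (hc j (mem_range.1 hj) k (mem_range.1 hk))]

/-- The window sum of `DX` in terms of the sum in `nice_sum`. -/
theorem dx_window {X : ℕ} [NeZero X] {Ω : Type} (H₁ H₂ W : ℕ) (S : Finset Ω)
    (a b : Ω → ZMod X → ℕ → ℂ) (x : ZMod X) (β : ℝ) :
    ∑ k ∈ range W, DX H₁ H₂ S a b (x + (k : ZMod X)) * ex (k * β) =
      (∑ k ∈ range W, ∑ ω ∈ S, ∑ s ∈ Icc 1 H₁, ∑ t ∈ Icc 1 H₂,
        a ω (x + (((k : ℤ) - ((s * t : ℕ) : ℤ) : ℤ) : ZMod X)) s *
          b ω (x + (((k : ℤ) - ((s * t : ℕ) : ℤ) : ℤ) : ZMod X)) t * ex (k * β)) /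
        ((S.card : ℂ) * H₁ * H₂) := by
  rw [Finset.sum_div]
  refine Finset.sum_congr rfl fun k _ => ?_
  have h := DX_add H₁ H₂ S a b x (k : ℤ)
  rw [Int.cast_natCast] at h
  rw [h]
  unfold Dz
  rw [div_mul_eq_mul_div]
  congr 1
  simp only [Finset.sum_mul]

end StructAux

open StructAux

theorem struct : ∃ C : ℕ, ∀ (δ : ℝ) (X H₁ H₂ W : ℕ) [NeZero X], Adm δ C X H₁ H₂ W → ∀ {Ω : Type} (S : Finset Ω),
    S.Nonempty → ∀ (a b : Ω → ZMod X → ℕ → ℂ), (∀ ω x s, ‖a ω x s‖ ≤ 1) → (∀ ω x t, ‖b ω x t‖ ≤ 1) →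
    ∀ g : ZMod X → ℂ, (∀ x, ‖g x‖ ≤ 1) → δ * X ≤ ‖∑ y : ZMod X, g y * DX H₁ H₂ S a b y‖ →
    ∃ (q : ℕ) (φ : ZMod X → ℂ), 1 ≤ q ∧ (q : ℝ) ≤ (δ⁻¹) ^ C ∧ (∀ x, ‖φ x‖ ≤ 1) ∧ AInv φ q (δ ^ C * W) ∧
      δ ^ C * X ≤ ‖∑ y : ZMod X, φ y * DX H₁ H₂ S a b y‖ := by
  classical
  obtain ⟨C₁, hC₁⟩ := gsup
  obtain ⟨C₂, hC₂⟩ := nice_sum
  refine ⟨(C₁ + 1) * (C₂ + 1) + 4, ?_⟩
  intro δ X H₁ H₂ W _ hAdm Ω S hS a b ha hb g hg hlow
  set C : ℕ := (C₁ + 1) * (C₂ + 1) + 4 with hCdef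
  have hδ0 : 0 < δ := hAdm.pos
  have hδh : δ ≤ 1 / 2 := hAdm.half
  have hδ1 : δ ≤ 1 := by linarith
  have hinv : 1 ≤ δ⁻¹ := hAdm.loc.one_le_inv
  have hW1 : 1 ≤ W := hAdm.loc.posW
  have hH1 : 1 ≤ H₁ := hAdm.loc.pos1
  have hH2 : 1 ≤ H₂ := hAdm.loc.pos2
  have hWX : W ∣ X := hAdm.dvd
  have hX0 : 0 < X := Nat.pos_of_ne_zero (NeZero.ne X)
  have hXr : (0 : ℝ) < X := by exact_mod_cast hX0
  have hWr : (0 : ℝ) < W := by exact_mod_cast hW1
  obtain ⟨β, hβ⟩ := hC₁ δ X H₁ H₂ W (hAdm.mono (by rw [hCdef]; nlinarith)) S hS a b ha hb g hg hlow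
  -- the window
  set D : ZMod X → ℂ := DX H₁ H₂ S a b with hD
  set v : ZMod X → ℝ := fun x => ‖∑ k ∈ range W, D (x + (k : ZMod X)) * ex (k * β x)‖ with hv
  have hv0 : ∀ x, 0 ≤ v x := fun x => norm_nonneg _
  obtain ⟨r, hr, hravg⟩ := window_avg (X := X) W hW1 hWX v
  set p : ℕ → ZMod X := fun j => ((r + j * W : ℕ) : ZMod X) with hp
  have hsum : δ ^ C₁ * X ≤ ∑ j ∈ range (X / W), v (p j) := by
    have h1 : δ ^ C₁ * (X * W) ≤ W * ∑ j ∈ range (X / W), v (p j) := hβ.trans hravg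
    have h2 : W * (δ ^ C₁ * X) ≤ W * ∑ j ∈ range (X / W), v (p j) := by
      calc (W : ℝ) * (δ ^ C₁ * X) = δ ^ C₁ * (X * W) := by ring
        _ ≤ _ := h1
    exact le_of_mul_le_mul_left h2 hWr
  have hXW : ((X / W : ℕ) : ℝ) * W = X := by
    exact_mod_cast Nat.div_mul_cancel hWX
  set η : ℝ := δ ^ (C₁ + 1) with hη
  have hη0 : 0 < η := pow_pos hδ0 _
  have hη2 : 2 * η ≤ δ ^ C₁ := by
    rw [hη, pow_succ]
    have : 0 < δ ^ C₁ := pow_pos hδ0 _
    nlinarith
  set M : ℝ := (η⁻¹) ^ C₂ with hM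
  have hηinv : 1 ≤ η⁻¹ := by
    rw [one_le_inv₀ hη0]
    exact pow_le_one₀ hδ0.le hδ1
  have hM1 : 1 ≤ M := one_le_pow₀ hηinv
  have hM0 : 0 < M := by linarith
  have hMC : M = (δ⁻¹) ^ ((C₁ + 1) * C₂) := by
    rw [hM, hη, ← inv_pow, ← pow_mul]
  -- the good windows
  set J : Finset ℕ := (range (X / W)).filter (fun j => η * W ≤ v (p j)) with hJ
  have hJsum : η * X ≤ ∑ j ∈ J, v (p j) := by
    have h1 := Finset.sum_filter_add_sum_filter_not (range (X / W)) (fun j => η * W ≤ v (p j))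
      (fun j => v (p j))
    have h2 : ∑ j ∈ (range (X / W)).filter (fun j => ¬ η * W ≤ v (p j)), v (p j) ≤ η * X := by
      calc ∑ j ∈ (range (X / W)).filter (fun j => ¬ η * W ≤ v (p j)), v (p j)
          ≤ ∑ j ∈ (range (X / W)).filter (fun j => ¬ η * W ≤ v (p j)), η * W := by
            refine Finset.sum_le_sum fun j hj => ?_
            rw [mem_filter, not_le] at hj
            exact hj.2.le
        _ ≤ ∑ j ∈ range (X / W), η * W :=
            Finset.sum_le_sum_of_subset_of_nonneg (filter_subset _ _) fun _ _ _ => by positivity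
        _ = η * X := by
            rw [Finset.sum_const, card_range, nsmul_eq_mul]
            calc ((X / W : ℕ) : ℝ) * (η * W) = η * (((X / W : ℕ) : ℝ) * W) := by ring
              _ = _ := by rw [hXW]
    have h3 : 2 * η * X ≤ δ ^ C₁ * X := mul_le_mul_of_nonneg_right hη2 hXr.le
    rw [hJ]
    linarith
  -- nice frequencies
  have hnice : ∀ j ∈ J, Nice M W (β (p j)) := by
    intro j hj
    rw [hJ, mem_filter] at hj
    have hLoc : Loc η C₂ H₁ H₂ W := by
      rw [hη]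
      exact (hAdm.loc.mono (C' := (C₁ + 1) * C₂) (by rw [hCdef]; nlinarith)).pow (C₁ + 1) (by omega)
    have h1 := hC₂ η H₁ H₂ W hLoc S hS
      (fun ω z s => a ω (p j + (z : ZMod X)) s) (fun ω z t => b ω (p j + (z : ZMod X)) t)
      (fun ω z s => ha _ _ _) (fun ω z t => hb _ _ _) (β (p j))
    refine h1 ?_
    have h2 := hj.2
    rw [hv] at h2
    simp only at h2
    rw [hD, dx_window, norm_div] at h2
    have h3 : ‖((S.card : ℂ) * H₁ * H₂)‖ = (S.card : ℝ) * H₁ * H₂ := by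
      simp only [norm_mul, Complex.norm_natCast]
    rw [h3] at h2
    have hSc : (0 : ℝ) < S.card := by exact_mod_cast hS.card_pos
    have h4 : (0 : ℝ) < (S.card : ℝ) * H₁ * H₂ := by
      have : (0 : ℝ) < H₁ := by exact_mod_cast hH1
      have : (0 : ℝ) < H₂ := by exact_mod_cast hH2
      positivity
    rw [le_div_iff₀ h4] at h2
    calc η * (S.card * W * H₁ * H₂) = η * W * ((S.card : ℝ) * H₁ * H₂) := by ring
      _ ≤ _ := h2
  -- choice of the denominators
  have hqex : ∀ j, ∃ q : ℕ, j ∈ J → (1 ≤ q ∧ (q : ℝ) ≤ M ∧ nrm (q * β (p j)) ≤ M / W) := by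
    intro j
    by_cases hj : j ∈ J
    · obtain ⟨q, hq⟩ := hnice j hj
      exact ⟨q, fun _ => hq⟩
    · exact ⟨0, fun h => absurd h hj⟩
  choose qq hqq using hqex
  obtain ⟨q, hq1, hqM, hqsum⟩ : ∃ q : ℕ, 1 ≤ q ∧ (q : ℝ) ≤ M ∧
      η * X / M ≤ ∑ j ∈ J.filter (fun j => qq j = q), v (p j) := by
    by_contra hc
    push Not at hc
    have hfl : 1 ≤ ⌊M⌋₊ := Nat.le_floor (by simpa using hM1)
    have h1 : ∑ j ∈ J, v (p j) = ∑ q ∈ Icc 1 ⌊M⌋₊, ∑ j ∈ J.filter (fun j => qq j = q), v (p j) := by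
      rw [Finset.sum_fiberwise_of_maps_to]
      intro j hj
      obtain ⟨h2, h3, _⟩ := hqq j hj
      exact mem_Icc.2 ⟨h2, Nat.le_floor h3⟩
    have h2 : ∑ q ∈ Icc 1 ⌊M⌋₊, ∑ j ∈ J.filter (fun j => qq j = q), v (p j) <
        ∑ q ∈ Icc 1 ⌊M⌋₊, η * X / M := by
      refine Finset.sum_lt_sum_of_nonempty ⟨1, mem_Icc.2 ⟨le_rfl, hfl⟩⟩ fun q hq => ?_
      rw [mem_Icc] at hq
      exact hc q hq.1 ((Nat.le_floor_iff hM0.le).1 hq.2)
    rw [Finset.sum_const, Nat.card_Icc, Nat.add_sub_cancel, nsmul_eq_mul] at h2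
    have h3 : (⌊M⌋₊ : ℝ) * (η * X / M) ≤ M * (η * X / M) :=
      mul_le_mul_of_nonneg_right (Nat.floor_le hM0.le) (by positivity)
    have h4 : M * (η * X / M) = η * X := by field_simp
    linarith
  -- the phases
  have hεex : ∀ j : ℕ, ∃ c : ℂ, ‖c‖ = 1 ∧
      ((v (p j) : ℝ) : ℂ) = c * ∑ k ∈ range W, D (p j + (k : ZMod X)) * ex (k * β (p j)) := fun j =>
    RCLike.exists_norm_eq_mul_self _
  choose ε hε1 hε2 using hεex
  obtain ⟨φ, hφ⟩ := win_index (X := X) W hW1 hWX r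
    (fun j k => if j ∈ J.filter (fun j => qq j = q) then ε j * ex (k * β (p j)) else 0)
  have hF1 : ∀ j k : ℕ, ‖(if j ∈ J.filter (fun j => qq j = q) then ε j * ex (k * β (p j)) else 0 : ℂ)‖ ≤ 1 := by
    intro j k
    split_ifs
    · rw [norm_mul, hε1, norm_ex, mul_one]
    · simp
  have hφ1 : ∀ x, ‖φ x‖ ≤ 1 := by
    intro x
    obtain ⟨j, hj, k, hk, rfl⟩ := surj W hW1 hWX r x
    rw [hφ j hj k hk]
    exact hF1 j k
  have hinvC : M ≤ (δ⁻¹) ^ C := by
    rw [hMC]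
    exact pow_le_pow_right₀ hinv (by rw [hCdef]; nlinarith)
  refine ⟨q, φ, hq1, hqM.trans hinvC, hφ1, ?_, ?_⟩
  · -- almost invariance
    intro ρ hρ0 hρ1 k hk
    set m : ℕ := q * k with hm
    have hδC : δ ^ C * (9 * M) ≤ 1 := by
      have h1 : δ ^ C = δ ^ ((C₁ + 1) * C₂) * (δ ^ (C₁ + 1) * δ ^ 4) := by
        rw [← pow_add, ← pow_add, hCdef]
        congr 1
      have h2 : δ ^ ((C₁ + 1) * C₂) * M = 1 := by
        rw [hMC, ← mul_pow, mul_inv_cancel₀ hδ0.ne', one_pow]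
      have h3 : δ ^ (C₁ + 1) ≤ 1 := pow_le_one₀ hδ0.le hδ1
      have h4 : δ ^ 4 ≤ (1 / 2) ^ 4 := pow_le_pow_left₀ hδ0.le hδh 4
      have h5 : 0 < δ ^ 4 := pow_pos hδ0 4
      have h6 : 0 < δ ^ (C₁ + 1) := pow_pos hδ0 _
      calc δ ^ C * (9 * M) = 9 * (δ ^ ((C₁ + 1) * C₂) * M) * (δ ^ (C₁ + 1) * δ ^ 4) := by rw [h1]; ring
        _ = 9 * (δ ^ (C₁ + 1) * δ ^ 4) := by rw [h2]; ring
        _ ≤ 9 * (1 * (1 / 2) ^ 4) := by gcongr
        _ ≤ 1 := by norm_num
    have hm' : (m : ℝ) ≤ ρ * (δ ^ C * W) := hk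
    have hδC0 : 0 < δ ^ C := pow_pos hδ0 _
    have hkm : (k : ℝ) ≤ m := by
      have : k ≤ q * k := Nat.le_mul_of_pos_left k hq1
      exact_mod_cast this
    have hwin : ∀ j ∈ range (X / W), ∑ l ∈ range W, ‖φ (((r + j * W + l : ℕ) : ZMod X) + ((q * k : ℕ) : ZMod X)) -
        φ ((r + j * W + l : ℕ) : ZMod X)‖ ≤ ρ * W := by
      intro j hj
      rw [mem_range] at hj
      have h1 : ∀ l ∈ range W, ‖φ (((r + j * W + l : ℕ) : ZMod X) + ((q * k : ℕ) : ZMod X)) -
          φ ((r + j * W + l : ℕ) : ZMod X)‖ ≤ k * (7 * (M / W)) + (if W ≤ l + m then 2 else 0) := by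
        intro l hl
        rw [mem_range] at hl
        by_cases hlm : W ≤ l + m
        · rw [if_pos hlm]
          have h2 : ‖φ (((r + j * W + l : ℕ) : ZMod X) + ((q * k : ℕ) : ZMod X)) -
              φ ((r + j * W + l : ℕ) : ZMod X)‖ ≤ 2 := by
            refine (norm_sub_le _ _).trans ?_
            have := hφ1 (((r + j * W + l : ℕ) : ZMod X) + ((q * k : ℕ) : ZMod X))
            have := hφ1 ((r + j * W + l : ℕ) : ZMod X)
            linarith
          have h3 : (0 : ℝ) ≤ k * (7 * (M / W)) := by positivity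
          linarith
        · rw [if_neg hlm, add_zero]
          push Not at hlm
          have e1 : ((r + j * W + l : ℕ) : ZMod X) + ((q * k : ℕ) : ZMod X) =
              ((r + j * W + (l + m) : ℕ) : ZMod X) := by
            rw [hm]
            push_cast
            ring
          rw [e1, hφ j hj (l + m) hlm, hφ j hj l hl]
          by_cases hjJ : j ∈ J.filter (fun j => qq j = q)
          · rw [if_pos hjJ, if_pos hjJ]
            have hjJ' := mem_filter.1 hjJ
            obtain ⟨_, _, hn⟩ := hqq j hjJ'.1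
            rw [hjJ'.2] at hn
            have e2 : ε j * ex (((l + m : ℕ) : ℝ) * β (p j)) - ε j * ex ((l : ℝ) * β (p j)) =
                ε j * ex ((l : ℝ) * β (p j)) * (ex (k * (q * β (p j))) - 1) := by
              have e3 : ((l + m : ℕ) : ℝ) * β (p j) = (l : ℝ) * β (p j) + k * (q * β (p j)) := by
                rw [hm]
                push_cast
                ring
              rw [e3, ex_add]
              ring
            rw [e2, norm_mul, norm_mul, hε1, norm_ex, one_mul, one_mul]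
            refine (norm_ex_mul_sub_one_le k _).trans ?_
            gcongr
          · rw [if_neg hjJ, if_neg hjJ, sub_zero, norm_zero]
            positivity
      refine (Finset.sum_le_sum h1).trans ?_
      rw [Finset.sum_add_distrib, Finset.sum_const, card_range, nsmul_eq_mul]
      have h2 : ∑ l ∈ range W, (if W ≤ l + m then (2 : ℝ) else 0) ≤ 2 * m := by
        rw [← Finset.sum_filter, Finset.sum_const, nsmul_eq_mul]
        have h3 : ((range W).filter (fun l => W ≤ l + m)).card ≤ m := by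
          have h4 : (range W).filter (fun l => W ≤ l + m) ⊆ Ico (W - m) W := by
            intro l hl
            rw [mem_filter, mem_range] at hl
            rw [mem_Ico]
            omega
          have h5 := Finset.card_le_card h4
          rw [Nat.card_Ico] at h5
          omega
        have h4 : (((range W).filter (fun l => W ≤ l + m)).card : ℝ) ≤ m := by exact_mod_cast h3
        linarith
      have h3 : (W : ℝ) * (k * (7 * (M / W))) = 7 * M * k := by
        field_simp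
      rw [h3]
      have h4 : 7 * M * (k : ℝ) ≤ 7 * M * m := by gcongr
      have h5 : (2 : ℝ) * m ≤ 2 * M * m := by
        have : (0 : ℝ) ≤ m := Nat.cast_nonneg m
        nlinarith
      have h6 : 9 * M * (m : ℝ) ≤ 9 * M * (ρ * (δ ^ C * W)) := by gcongr
      have h7 : 9 * M * (ρ * (δ ^ C * W)) = (δ ^ C * (9 * M)) * (ρ * W) := by ring
      have h8 : (δ ^ C * (9 * M)) * (ρ * W) ≤ 1 * (ρ * W) := mul_le_mul_of_nonneg_right hδC (by positivity)
      linarith
    rw [window_sum W hW1 hWX r]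
    refine (Finset.sum_le_sum hwin).trans ?_
    rw [Finset.sum_const, card_range, nsmul_eq_mul]
    have : ((X / W : ℕ) : ℝ) * (ρ * W) = ρ * X := by
      calc ((X / W : ℕ) : ℝ) * (ρ * W) = ρ * (((X / W : ℕ) : ℝ) * W) := by ring
        _ = _ := by rw [hXW]
    exact this.le
  · -- correlation
    have h1 : ∑ y : ZMod X, φ y * D y = ((∑ j ∈ J.filter (fun j => qq j = q), v (p j) : ℝ) : ℂ) := by
      rw [window_sum W hW1 hWX r]
      have h2 : ∀ j ∈ range (X / W), ∑ k ∈ range W, φ ((r + j * W + k : ℕ) : ZMod X) *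
          D ((r + j * W + k : ℕ) : ZMod X) =
          if j ∈ J.filter (fun j => qq j = q) then ((v (p j) : ℝ) : ℂ) else 0 := by
        intro j hj
        rw [mem_range] at hj
        have h3 : ∀ k ∈ range W, φ ((r + j * W + k : ℕ) : ZMod X) * D ((r + j * W + k : ℕ) : ZMod X) =
            (if j ∈ J.filter (fun j => qq j = q) then ε j * (D (p j + (k : ZMod X)) * ex (k * β (p j)))
              else 0) := by
          intro k hk
          rw [hφ j hj k (mem_range.1 hk)]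
          have e1 : ((r + j * W + k : ℕ) : ZMod X) = p j + (k : ZMod X) := by
            rw [hp]
            push_cast
            ring
          rw [e1]
          split_ifs
          · ring
          · ring
        rw [Finset.sum_congr rfl h3]
        split_ifs
        · rw [← Finset.mul_sum, ← hε2]
        · simp
      rw [Finset.sum_congr rfl h2, ← Finset.sum_filter]
      push_cast
      refine Finset.sum_congr ?_ fun _ _ => rfl
      ext j
      simp only [hJ, mem_filter]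
      tauto
    rw [h1, Complex.norm_real, Real.norm_of_nonneg (Finset.sum_nonneg fun j _ => hv0 _)]
    refine le_trans ?_ hqsum
    have h2 : η * X / M = η * (δ ^ ((C₁ + 1) * C₂)) * X := by
      rw [hMC, inv_pow, div_inv_eq_mul]
      ring
    rw [h2]
    have h3 : δ ^ C ≤ η * δ ^ ((C₁ + 1) * C₂) := by
      rw [hη, ← pow_add]
      exact pow_le_pow_of_le_one hδ0.le hδ1 (by rw [hCdef]; nlinarith)
    exact mul_le_mul_of_nonneg_right h3 hXr.le

end Pool.Agent.BLF
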