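import Pool.Agent.Lib.BLF.EdgeMs
import Pool.Agent.Lib.BLF.Avg

/-!
# Module TermE: one term of the telescoping sum, product slot
-/

set_option autoImplicit false

open Finset Filter

namespace Pool.Agent.BLF

open Pool.Agent.HLB Pool.Agent.HL Pool.Agent.HLT Pool.Agent.HLU Pool.Agent.VN

theorem term_edge (m r K B : ℕ) : ∃ K' B' C : ℕ, ∀ A : ℕ, ∀ᶠ x : ℕ in atTop, ∀ (i j : Fin r → Fin m) (H : Fin m → ℕ)
    (v : Fin r → ℕ) (τ : Fin r → ℕ → ℕ), SlotsOK A K' B' C x i j H v τ → ∀ e₀ : Fin r, i e₀ ≠ j e₀ →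
    ∀ (w : ℕ → ℂ) (G : Fin r → ℕ → ℝ), (∀ n ∈ Icc 1 x, ‖w n‖ ≤ Real.log x ^ K) →
    (∀ e, ∀ n ∈ Icc 1 (2 * x), |G e n| ≤ Real.log x ^ K) → G e₀ = ff (zA A x) →
    ∑ t ∈ Fintype.piFinset (fun k => Icc 1 (H k)),
        ‖∑ n ∈ Icc 1 x, w n * ∏ e, (G e (n + sh i j v τ t e) : ℂ)‖ ^ 2 ≤
      (∏ k, (H k : ℝ)) * ((x : ℝ) ^ 2 / Real.log x ^ B) := by
  obtain ⟨K', B', C, h⟩ := edge_ms (K * (r + 1)) B
  refine ⟨K', B', C, fun A => ?_⟩
  have hlog : ∀ᶠ x : ℕ in atTop, (1 : ℝ) ≤ Real.log x :=
    (Real.tendsto_log_atTop.comp tendsto_natCast_atTop_atTop).eventually_ge_atTop 1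
  filter_upwards [h A, hlog] with x hx hL i j H v τ hS e₀ hne w G hw hG hG0
  set p := i e₀ with hp
  set q := j e₀ with hq
  obtain ⟨hle, hmsp⟩ := hS.edge e₀ hne
  rw [← hp, ← hq] at hle hmsp
  have hHp : (1 : ℝ) ≤ H p := (one_le_pow₀ hL).trans (hS.big p)
  have hHq : (1 : ℝ) ≤ H q := (one_le_pow₀ hL).trans (hS.big q)
  set P := Fintype.piFinset (fun k => Icc 1 (H k)) with hP
  set f : (Fin m → ℕ) → ℝ := fun t =>
    ‖∑ n ∈ Icc 1 x, w n * ∏ e, (G e (n + sh i j v τ t e) : ℂ)‖ ^ 2 with hf
  -- dummy variables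
  have hd1 := sum_update (fun k => Icc 1 (H k)) q f
  have hd2 := sum_update (fun k => Icc 1 (H k)) p
    (fun t => ∑ s' ∈ Icc 1 (H q), f (Function.update t q s'))
  rw [hd1] at hd2
  simp only [Nat.card_Icc, Nat.add_sub_cancel, nsmul_eq_mul] at hd2
  -- the bound for each `u`
  have hu : ∀ u ∈ P, ∑ s ∈ Icc 1 (H p), ∑ s' ∈ Icc 1 (H q),
      f (Function.update (Function.update u p s) q s') ≤
      (H p : ℝ) * H q * ((x : ℝ) ^ 2 / Real.log x ^ B) := by
    intro u huP
    set S1 := (univ.erase e₀).filter (fun e => i e ≠ q ∧ j e ≠ q) with hS1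
    set S2 := (univ.erase e₀).filter (fun e => ¬ (i e ≠ q ∧ j e ≠ q)) with hS2
    have hmem : ∀ k : Fin m, ∀ s ∈ Icc 1 (H k), Function.update u k s ∈ P := by
      intro k s hs
      rw [hP, Fintype.mem_piFinset]
      intro l
      by_cases hl : l = k
      · subst hl
        rw [Function.update_self]
        exact hs
      · rw [Function.update_of_ne hl]
        exact Fintype.mem_piFinset.mp huP l
    have hprod : ∀ (S : Finset (Fin r)) (k : Fin m), ∀ s ∈ Icc 1 (H k), ∀ n ∈ Icc 1 x,
        ‖∏ e ∈ S, (G e (n + sh i j v τ (Function.update u k s) e) : ℂ)‖ ≤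
          Real.log x ^ (K * r) := by
      intro S k s hs n hn
      rw [norm_prod]
      have h1 : ∀ e ∈ S, ‖(G e (n + sh i j v τ (Function.update u k s) e) : ℂ)‖ ≤
          Real.log x ^ K := by
        intro e _
        rw [Complex.norm_real, Real.norm_eq_abs]
        apply hG
        have h2 := hS.sh_le _ (hmem k s hs) e
        rw [mem_Icc] at hn ⊢
        omega
      have h2 : (∏ e ∈ S, ‖(G e (n + sh i j v τ (Function.update u k s) e) : ℂ)‖) ≤
          ∏ _e ∈ S, Real.log x ^ K := prod_le_prod (fun _ _ => norm_nonneg _) h1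
      refine h2.trans ?_
      rw [prod_const, ← pow_mul]
      apply pow_le_pow_right₀ hL
      apply Nat.mul_le_mul_left
      exact (card_le_univ S).trans (by simp)
    have hkey := hx (H p) (H q) (v e₀) (hS.big p) (hS.big q) hle hmsp
      (fun n s => w n * ∏ e ∈ S1, (G e (n + sh i j v τ (Function.update u p s) e) : ℂ))
      (fun n s' => ∏ e ∈ S2, (G e (n + sh i j v τ (Function.update u q s') e) : ℂ))
      (by
        intro n hn s hs
        rw [norm_mul, show K * (r + 1) = K + K * r by ring, pow_add]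
        exact mul_le_mul (hw n hn) (hprod S1 p s hs n hn) (norm_nonneg _) (by positivity))
      (by
        intro n hn s hs
        refine (hprod S2 q s hs n hn).trans (pow_le_pow_right₀ hL ?_)
        exact Nat.mul_le_mul_left K (Nat.le_succ r))
    refine le_trans (le_of_eq ?_) hkey
    refine sum_congr rfl fun s hs => sum_congr rfl fun s' hs' => ?_
    rw [hf]
    simp only
    congr 2
    refine sum_congr rfl fun n _ => ?_
    have hpq : p ≠ q := hne
    have hsplit : ∏ e, (G e (n + sh i j v τ (Function.update (Function.update u p s) q s') e) : ℂ)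
        = (ff (zA A x) (n + (v e₀ + s * s')) : ℂ) *
          ((∏ e ∈ S1, (G e (n + sh i j v τ (Function.update u p s) e) : ℂ)) *
            ∏ e ∈ S2, (G e (n + sh i j v τ (Function.update u q s') e) : ℂ)) := by
      rw [← mul_prod_erase univ _ (mem_univ e₀), ← prod_filter_mul_prod_filter_not (univ.erase e₀)
        (fun e => i e ≠ q ∧ j e ≠ q)]
      congr 1
      · rw [hG0]
        congr 3
        unfold sh
        rw [if_neg hne, ← hp, ← hq, Function.update_of_ne hpq, Function.update_self,
          Function.update_self]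
      · congr 1
        · refine prod_congr rfl fun e he => ?_
          have he' := (mem_filter.1 he).2
          congr 3
          unfold sh
          rw [Function.update_of_ne he'.1, Function.update_of_ne he'.2]
        · refine prod_congr rfl fun e he => ?_
          have he' := (mem_filter.1 he).2
          have hee : e ≠ e₀ := ne_of_mem_erase (mem_filter.1 he).1
          have hij : i e ≠ p ∧ j e ≠ p := by
            have ho := hS.ord e
            have ho0 := hS.ord e₀
            rw [← hp, ← hq] at ho0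
            have hinj : ¬ (i e = p ∧ j e = q) := by
              rintro ⟨h1, h2⟩
              exact hee (hS.inj (by simp only [h1, h2]; rw [← hp, ← hq]))
            have hlt : p < q := lt_of_le_of_ne ho0 hpq
            by_cases hiq : i e = q
            · refine ⟨fun h1 => hpq (h1.symm.trans hiq), fun h1 => ?_⟩
              rw [hiq, h1] at ho
              exact absurd (lt_of_lt_of_le hlt ho) (lt_irrefl _)
            · have hjq : j e = q := by
                by_contra h1
                exact he' ⟨hiq, h1⟩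
              exact ⟨fun h1 => hinj ⟨h1, hjq⟩, fun h1 => hpq (h1.symm.trans hjq)⟩
          rw [Function.update_comm hpq]
          congr 3
          unfold sh
          rw [Function.update_of_ne hij.1, Function.update_of_ne hij.2]
    rw [hsplit]
    ring
  have hsum := sum_le_sum hu
  rw [sum_const, nsmul_eq_mul] at hsum
  have hcard : (P.card : ℝ) = ∏ k, (H k : ℝ) := by
    rw [hP, Fintype.card_piFinset]
    push_cast
    refine prod_congr rfl fun k _ => ?_
    rw [Nat.card_Icc, Nat.add_sub_cancel]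
  rw [hcard] at hsum
  have hfin : (H p : ℝ) * H q * ∑ t ∈ P, f t ≤
      (H p : ℝ) * H q * ((∏ k, (H k : ℝ)) * ((x : ℝ) ^ 2 / Real.log x ^ B)) := by
    calc (H p : ℝ) * H q * ∑ t ∈ P, f t = (H p : ℝ) * ((H q : ℝ) * ∑ t ∈ P, f t) := by ring
      _ = ∑ u ∈ P, ∑ s ∈ Icc 1 (H p), ∑ s' ∈ Icc 1 (H q),
            f (Function.update (Function.update u p s) q s') := hd2.symm
      _ ≤ _ := hsum
      _ = _ := by ring
  exact le_of_mul_le_mul_left hfin (by positivity)

end Pool.Agent.BLF
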